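import Mathlib

/-!
Extension of a rational positive semidefinite matrix by one row, with prescribed entries on a
subset.
-/

namespace Pool.Agent.Lib.MP_13b08e_lc.RC

open Finset

/-- The quadratic form of a real matrix is nonnegative. -/
def QF {n : ℕ} (Y : Fin n → Fin n → ℝ) : Prop := ∀ w : Fin n → ℝ, 0 ≤ ∑ i, ∑ j, w i * w j * Y i j

/-- Linear algebra over `ℚ`: solvability from the nonnegativity of the bordered form. -/
theorem exists_solution_fin {n : ℕ} (Y : Fin n → Fin n → ℚ)
    (C : Finset (Fin n)) (b : Fin n → ℚ) (δ : ℚ)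
    (H : ∀ (t : ℚ) (w : Fin n → ℚ), (∀ i, i ∉ C → w i = 0) →
      0 ≤ t ^ 2 * δ + 2 * t * ∑ i, w i * b i + ∑ i, ∑ j, w i * w j * Y i j) :
    ∃ z : Fin n → ℚ, (∀ i, i ∉ C → z i = 0) ∧ ∀ i ∈ C, ∑ j, Y i j * z j = b i := by
  classical
  let M : (Fin n → ℚ) →ₗ[ℚ] (Fin n → ℚ) :=
    { toFun := fun z i => if i ∈ C then ∑ j, Y i j * (if j ∈ C then z j else 0) else 0
      map_add' := by
        intro x y
        ext i
        by_cases hi : i ∈ C
        · simp only [hi, if_true, Pi.add_apply, ← Finset.sum_add_distrib]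
          refine Finset.sum_congr rfl fun j _ => ?_
          by_cases hj : j ∈ C <;> simp [hj, mul_add]
        · simp [hi]
      map_smul' := by
        intro c x
        ext i
        by_cases hi : i ∈ C
        · simp only [hi, if_true, Pi.smul_apply, smul_eq_mul, RingHom.id_apply, Finset.mul_sum]
          refine Finset.sum_congr rfl fun j _ => ?_
          by_cases hj : j ∈ C
          · simp [hj]; ring
          · simp [hj]
        · simp [hi] }
  let b' : Fin n → ℚ := fun i => if i ∈ C then b i else 0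
  by_cases hb : b' ∈ LinearMap.range M
  · obtain ⟨z, hz⟩ := hb
    refine ⟨fun j => if j ∈ C then z j else 0, fun i hi => by simp [hi], fun i hi => ?_⟩
    have := congrFun hz i
    simp only [M, b', LinearMap.coe_mk, AddHom.coe_mk, hi, if_true] at this
    exact this
  · exfalso
    obtain ⟨f, hf, hf'⟩ := Submodule.exists_dual_map_eq_bot_of_notMem hb inferInstance
    let c : Fin n → ℚ := fun i => if i ∈ C then f (Pi.single i 1) else 0
    have hfc : ∀ v : Fin n → ℚ, (∀ i, i ∉ C → v i = 0) → f v = ∑ i, c i * v i := by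
      intro v hv
      have h1 : v = ∑ i, v i • (Pi.single i (1 : ℚ) : Fin n → ℚ) := by
        ext j
        simp [Finset.sum_apply, Pi.single_apply]
      conv_lhs => rw [h1]
      rw [map_sum]
      refine Finset.sum_congr rfl fun i _ => ?_
      rw [map_smul, smul_eq_mul]
      by_cases hi : i ∈ C
      · simp only [c, hi, if_true]
        ring
      · rw [hv i hi]
        ring
    have hMz : ∀ z, f (M z) = 0 := by
      intro z
      have : f (M z) ∈ (LinearMap.range M).map f := ⟨M z, ⟨z, rfl⟩, rfl⟩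
      rw [hf'] at this
      exact (Submodule.mem_bot ℚ).1 this
    have hc0 : ∀ i, i ∉ C → c i = 0 := fun i hi => by simp [c, hi]
    have hquad : ∑ i, ∑ j, c i * c j * Y i j = 0 := by
      have h2 := hMz c
      rw [hfc (M c) (fun i hi => by simp [M, hi])] at h2
      rw [← h2]
      refine Finset.sum_congr rfl fun i _ => ?_
      by_cases hi : i ∈ C
      · simp only [M, LinearMap.coe_mk, AddHom.coe_mk, hi, if_true, Finset.mul_sum]
        refine Finset.sum_congr rfl fun j _ => ?_
        by_cases hj : j ∈ C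
        · simp only [hj, if_true]; ring
        · simp [hj, hc0 j hj]
      · simp [hc0 i hi]
    have hcb : ∑ i, c i * b i ≠ 0 := by
      have h3 := hfc b' (fun i hi => by simp [b', hi])
      have h4 : ∑ i, c i * b' i = ∑ i, c i * b i := by
        refine Finset.sum_congr rfl fun i _ => ?_
        by_cases hi : i ∈ C
        · simp [b', hi]
        · simp [hc0 i hi]
      rw [← h4, ← h3]
      exact hf
    -- choose `t = 1`, `w = s c`
    have h5 : ∀ s : ℚ, 0 ≤ δ + 2 * s * ∑ i, c i * b i := by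
      intro s
      have h6 := H 1 (fun i => s * c i) (fun i hi => by simp [hc0 i hi])
      have h7 : ∑ i, ∑ j, s * c i * (s * c j) * Y i j = 0 := by
        have : ∀ i, ∑ j, s * c i * (s * c j) * Y i j = s ^ 2 * ∑ j, c i * c j * Y i j := by
          intro i
          rw [Finset.mul_sum]
          exact Finset.sum_congr rfl fun j _ => by ring
        rw [Finset.sum_congr rfl fun i _ => this i, ← Finset.mul_sum, hquad, mul_zero]
      have h8 : ∑ i, s * c i * b i = s * ∑ i, c i * b i := by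
        rw [Finset.mul_sum]
        exact Finset.sum_congr rfl fun i _ => by ring
      rw [h7, h8] at h6
      linarith
    have h9 := h5 (-(δ + 1) / (2 * ∑ i, c i * b i))
    have h10 : 2 * (-(δ + 1) / (2 * ∑ i, c i * b i)) * ∑ i, c i * b i = -(δ + 1) := by
      field_simp
    rw [h10] at h9
    linarith

/-- Extension by one row. -/
theorem extend {n : ℕ} (Y : Fin n → Fin n → ℚ) (hs : ∀ i j, Y i j = Y j i)
    (hY : QF fun i j => (Y i j : ℝ)) (C : Finset (Fin n)) (b : Fin n → ℚ) (δ : ℚ)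
    (H : ∀ (t : ℚ) (w : Fin n → ℚ), (∀ i, i ∉ C → w i = 0) →
      0 ≤ t ^ 2 * δ + 2 * t * ∑ i, w i * b i + ∑ i, ∑ j, w i * w j * Y i j) :
    ∃ Z : Fin (n + 1) → Fin (n + 1) → ℚ, (∀ i j, Z i j = Z j i) ∧ Z 0 0 = δ ∧
      (∀ i j : Fin n, Z i.succ j.succ = Y i j) ∧ (∀ i ∈ C, Z 0 i.succ = b i) ∧
      QF fun i j => (Z i j : ℝ) := by
  classical
  obtain ⟨z, hz0, hz⟩ := exists_solution_fin Y C b δ H
  let r : Fin n → ℚ := fun i => ∑ j, Y i j * z j
  have hzb : ∑ i, z i * b i = ∑ i, z i * r i := by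
    refine Finset.sum_congr rfl fun i _ => ?_
    by_cases hi : i ∈ C
    · rw [← hz i hi]
    · rw [hz0 i hi]; ring
  have hzr : ∑ i, ∑ j, z i * z j * Y i j = ∑ i, z i * r i := by
    refine Finset.sum_congr rfl fun i _ => ?_
    simp only [r, Finset.mul_sum]
    exact Finset.sum_congr rfl fun j _ => by ring
  have hδ : ∑ i, z i * r i ≤ δ := by
    have h1 := H 1 (fun i => - z i) (fun i hi => by simp [hz0 i hi])
    have h2 : ∑ i, - z i * b i = - ∑ i, z i * r i := by
      rw [← hzb, ← Finset.sum_neg_distrib]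
      exact Finset.sum_congr rfl fun i _ => by ring
    have h3 : ∑ i, ∑ j, - z i * - z j * Y i j = ∑ i, z i * r i := by
      rw [← hzr]
      exact Finset.sum_congr rfl fun i _ => Finset.sum_congr rfl fun j _ => by ring
    rw [h2, h3] at h1
    linarith
  let Z : Fin (n + 1) → Fin (n + 1) → ℚ := fun i j =>
    Fin.cases (Fin.cases δ (fun j => r j) j) (fun i => Fin.cases (r i) (fun j => Y i j) j) i
  have hZ00 : Z 0 0 = δ := rfl
  have hZ0s : ∀ j : Fin n, Z 0 j.succ = r j := fun j => rfl
  have hZs0 : ∀ j : Fin n, Z j.succ 0 = r j := fun j => rfl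
  have hZss : ∀ i j : Fin n, Z i.succ j.succ = Y i j := fun i j => rfl
  refine ⟨Z, ?_, hZ00, hZss, fun i hi => by rw [hZ0s]; exact hz i hi, ?_⟩
  · intro i j
    refine Fin.cases ?_ (fun i => ?_) i <;> refine Fin.cases ?_ (fun j => ?_) j
    · rfl
    · rw [hZ0s, hZs0]
    · rw [hZ0s, hZs0]
    · rw [hZss, hZss, hs]
  · intro w
    simp only [Fin.sum_univ_succ, hZ00, hZ0s, hZs0, hZss]
    let t := w 0
    let v : Fin n → ℝ := fun i => w i.succ
    have h4 := hY (fun i => v i + t * z i)
    have h5 : ∑ i, ∑ j, (v i + t * z i) * (v j + t * z j) * (Y i j : ℝ)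
        = ∑ i, ∑ j, v i * v j * (Y i j : ℝ) + 2 * t * ∑ i, v i * (r i : ℝ)
          + t ^ 2 * ∑ i, (z i : ℝ) * (r i : ℝ) := by
      have h6 : ∀ i, (r i : ℝ) = ∑ j, (Y i j : ℝ) * (z j : ℝ) := by
        intro i
        simp only [r]
        push_cast
        rfl
      have h7 : ∑ i, ∑ j, v i * (z j : ℝ) * (Y i j : ℝ) = ∑ i, v i * (r i : ℝ) := by
        refine Finset.sum_congr rfl fun i _ => ?_
        rw [h6, Finset.mul_sum]
        exact Finset.sum_congr rfl fun j _ => by ring
      have h8 : ∑ i, ∑ j, (z i : ℝ) * v j * (Y i j : ℝ) = ∑ i, v i * (r i : ℝ) := by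
        rw [Finset.sum_comm, ← h7]
        refine Finset.sum_congr rfl fun i _ => Finset.sum_congr rfl fun j _ => ?_
        rw [hs j i]
        ring
      have h9 : ∑ i, ∑ j, (z i : ℝ) * (z j : ℝ) * (Y i j : ℝ) = ∑ i, (z i : ℝ) * (r i : ℝ) := by
        refine Finset.sum_congr rfl fun i _ => ?_
        rw [h6, Finset.mul_sum]
        exact Finset.sum_congr rfl fun j _ => by ring
      have h10 : ∀ i j, (v i + t * z i) * (v j + t * z j) * (Y i j : ℝ)
          = v i * v j * (Y i j : ℝ) + t * (v i * (z j : ℝ) * (Y i j : ℝ))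
            + t * ((z i : ℝ) * v j * (Y i j : ℝ)) + t ^ 2 * ((z i : ℝ) * (z j : ℝ) * (Y i j : ℝ)) :=
        fun i j => by ring
      simp only [h10, Finset.sum_add_distrib, ← Finset.mul_sum]
      rw [h7, h8, h9]
      ring
    rw [h5] at h4
    have h11 : (∑ i, (z i : ℝ) * (r i : ℝ)) ≤ (δ : ℝ) := by
      exact_mod_cast hδ
    have h12 : ∑ i, w 0 * w (Fin.succ i) * (r i : ℝ) = t * ∑ i, v i * (r i : ℝ) := by
      rw [Finset.mul_sum]
      exact Finset.sum_congr rfl fun i _ => by simp only [t, v]; ring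
    have h13 : ∑ x : Fin n, (w (Fin.succ x) * w 0 * (r x : ℝ)
        + ∑ j : Fin n, w (Fin.succ x) * w (Fin.succ j) * (Y x j : ℝ))
        = t * ∑ i, v i * (r i : ℝ) + ∑ i, ∑ j, v i * v j * (Y i j : ℝ) := by
      rw [Finset.sum_add_distrib, Finset.mul_sum]
      congr 1
      exact Finset.sum_congr rfl fun i _ => by simp only [t, v]; ring
    rw [h12, h13]
    have h14 : 0 ≤ t ^ 2 * ((δ : ℝ) - ∑ i, (z i : ℝ) * (r i : ℝ)) :=
      mul_nonneg (sq_nonneg _) (sub_nonneg.2 h11)
    have h15 : w 0 * w 0 * (δ : ℝ) = t ^ 2 * δ := by simp only [t]; ring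
    rw [h15]
    linarith

end Pool.Agent.Lib.MP_13b08e_lc.RC
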