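import Pool.Agent.Lib.MP_13b08e_lc.RC.Props

/-!
Every graph on at most five vertices is tame, by a table.
-/

namespace Pool.Agent.Lib.MP_13b08e_lc.RC.Five

/-- The numbers of the pairs. -/
def tab : List (List ℕ) :=
  [[10, 0, 1, 2, 3], [0, 10, 4, 5, 6], [1, 4, 10, 7, 8], [2, 5, 7, 10, 9], [3, 6, 8, 9, 10]]

def nu (i j : ℕ) : ℕ := (tab.getD i []).getD j 10

/-- Adjacency. -/
def ad (g i j : ℕ) : Bool := g.testBit (nu i j)

def od (o v : ℕ) : ℕ := o / 5 ^ v % 5

def fives : List ℕ := [0, 1, 2, 3, 4]

def chk (g h o : ℕ) : Bool :=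
  (fives.all fun i => fives.all fun j => !(ad g i j) || ad h i j) &&
  (fives.all fun i => fives.all fun j => (i == j) || !(od o i == od o j)) &&
  (fives.all fun v => fives.all fun a => !(ad h v a) || !(Nat.blt (od o v) (od o a)) ||
    fives.all fun b => !(ad h v b) || !(Nat.blt (od o v) (od o b)) || (a == b) || ad h a b) &&
  (fives.all fun a => fives.all fun b => !(ad h a b) || ad g a b ||
    fives.all fun c => !(ad h a c) || !(ad h b c) ||
      fives.all fun e => !(ad h a e) || !(ad h b e) || !(ad h c e) || (ad g a c && ad g c e))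

/-- For every graph `g` a supergraph and an ordering. -/
def table : List (ℕ × ℕ) :=
   [(0, 2930), (1, 2930), (2, 2930), (3, 2926), (4, 2930), (5, 2926), (6, 2886), (7, 2902), (8,
    2930), (9, 2926), (10, 2886), (11, 2902), (12, 2586), (13, 2702), (14, 2642), (15, 2778),
    (16, 2930), (17, 2930), (18, 2930), (19, 2930), (20, 2930), (21, 2586), (22, 2586), (23,
    2586), (24, 2930), (25, 586), (26, 586), (27, 586), (28, 2586), (29, 742), (30, 742), (31,
    742), (32, 2930), (33, 2930), (34, 2930), (35, 2886), (36, 2930), (37, 2930), (38, 2886),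
    (39, 2886), (40, 2930), (41, 586), (42, 2886), (43, 1142), (44, 586), (45, 586), (46, 1142),
    (47, 1142), (48, 2910), (49, 2910), (50, 2910), (51, 2910), (52, 2910), (53, 2910), (55,
    2886), (55, 2886), (56, 2910), (57, 566), (58, 566), (59, 566), (60, 566), (61, 566), (63,
    1142), (63, 1142), (64, 2930), (65, 2930), (66, 2930), (67, 2886), (68, 2930), (69, 2586),
    (70, 2886), (71, 2642), (72, 2930), (73, 2930), (74, 2886), (75, 2886), (76, 2586), (77,
    2586), (78, 2642), (79, 2642), (80, 2910), (81, 2910), (82, 2910), (83, 2910), (84, 2910),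
    (85, 2566), (86, 2566), (87, 2566), (88, 2910), (89, 2910), (91, 2886), (91, 2886), (92,
    2566), (93, 2566), (95, 2642), (95, 2642), (96, 2710), (97, 2710), (98, 2710), (99, 2766),
    (100, 2710), (101, 2710), (102, 2766), (103, 2766), (104, 2710), (105, 2710), (106, 2766),
    (107, 2766), (109, 2586), (109, 2586), (111, 2642), (111, 2642), (112, 2790), (113, 2790),
    (114, 2790), (115, 2790), (116, 2790), (117, 2790), (119, 2766), (119, 2766), (120, 2790),
    (121, 2790), (123, 2766), (123, 2766), (125, 2566), (125, 2566), (127, 2642), (127, 2642),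
    (128, 2930), (129, 2930), (130, 2930), (131, 2926), (132, 2930), (133, 2926), (134, 2930),
    (135, 2926), (136, 2930), (137, 2926), (138, 586), (139, 1202), (140, 586), (141, 1202),
    (142, 586), (143, 1202), (144, 2930), (145, 2930), (146, 2930), (147, 2930), (148, 2930),
    (151, 2926), (150, 2930), (151, 2926), (152, 2930), (153, 586), (154, 586), (155, 586),
    (156, 586), (159, 1202), (158, 586), (159, 1202), (160, 2930), (161, 2930), (162, 2930),
    (167, 2926), (164, 2930), (165, 2930), (166, 2930), (167, 2926), (168, 2930), (169, 586),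
    (170, 586), (175, 1202), (172, 586), (173, 586), (174, 586), (175, 1202), (176, 2930), (177,
    2930), (178, 2930), (179, 2930), (180, 2930), (181, 2930), (182, 2930), (183, 2930), (184,
    2930), (185, 586), (186, 586), (187, 586), (188, 586), (189, 586), (190, 586), (191, 586),
    (192, 2930), (193, 2930), (194, 2930), (195, 582), (196, 2930), (197, 582), (198, 2930),
    (199, 582), (200, 2930), (201, 2930), (202, 1202), (203, 1202), (204, 1202), (205, 1202),
    (206, 1202), (207, 1202), (208, 1210), (209, 1210), (210, 1210), (211, 1210), (212, 1210),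
    (215, 2566), (214, 1210), (215, 2566), (216, 1210), (217, 1210), (219, 586), (219, 586),
    (223, 582), (223, 582), (223, 582), (223, 582), (224, 1210), (225, 1210), (226, 1210), (231,
    2766), (228, 1210), (229, 1210), (230, 1210), (231, 2766), (232, 1210), (233, 1210), (239,
    582), (239, 582), (237, 586), (237, 586), (239, 582), (239, 582), (240, 1210), (241, 1210),
    (242, 1210), (243, 1210), (244, 1210), (245, 1210), (246, 1210), (247, 1210), (248, 1210),
    (249, 1210), (251, 586), (251, 586), (253, 586), (253, 586), (255, 586), (255, 586), (256,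
    2930), (257, 2930), (258, 2930), (259, 2926), (260, 2930), (261, 2926), (262, 2586), (263,
    2702), (264, 2930), (265, 2926), (266, 2930), (267, 2926), (268, 2586), (269, 2702), (270,
    2586), (271, 2702), (272, 2930), (273, 2930), (274, 2930), (275, 2930), (276, 2930), (277,
    2586), (278, 2586), (279, 2586), (280, 2930), (283, 2926), (282, 2930), (283, 2926), (284,
    2586), (287, 2702), (286, 2586), (287, 2702), (288, 2930), (289, 2930), (290, 2930), (291,
    2582), (292, 2930), (293, 2930), (294, 2702), (295, 2702), (296, 2930), (297, 2582), (298,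
    2930), (299, 2582), (300, 2702), (301, 2702), (302, 2702), (303, 2702), (304, 2710), (305,
    2710), (306, 2710), (307, 2710), (308, 2710), (309, 2710), (311, 2586), (311, 2586), (312,
    2710), (315, 566), (314, 2710), (315, 566), (319, 2582), (319, 2582), (319, 2582), (319,
    2582), (320, 2930), (321, 2930), (322, 2930), (331, 2926), (324, 2930), (325, 2586), (326,
    2586), (335, 2702), (328, 2930), (329, 2930), (330, 2930), (331, 2926), (332, 2586), (333,
    2586), (334, 2586), (335, 2702), (336, 2930), (337, 2930), (338, 2930), (339, 2930), (340,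
    2930), (341, 2586), (342, 2586), (343, 2586), (344, 2930), (345, 2930), (346, 2930), (347,
    2930), (348, 2586), (349, 2586), (350, 2586), (351, 2586), (352, 2710), (353, 2710), (354,
    2710), (363, 2766), (356, 2710), (357, 2710), (367, 2582), (367, 2582), (360, 2710), (361,
    2710), (362, 2710), (363, 2766), (365, 2586), (365, 2586), (367, 2582), (367, 2582), (368,
    2710), (369, 2710), (370, 2710), (371, 2710), (372, 2710), (373, 2710), (375, 2586), (375,
    2586), (376, 2710), (377, 2710), (378, 2710), (379, 2710), (381, 2586), (381, 2586), (383,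
    2586), (383, 2586), (384, 2830), (385, 2830), (386, 2830), (387, 2826), (388, 2830), (389,
    2826), (390, 2830), (391, 2826), (392, 2830), (393, 2826), (394, 2830), (395, 2826), (398,
    2586), (399, 2702), (398, 2586), (399, 2702), (400, 2830), (401, 2830), (402, 2830), (403,
    2830), (404, 2830), (407, 2826), (406, 2830), (407, 2826), (408, 2830), (411, 2826), (410,
    2830), (411, 2826), (414, 2586), (415, 2702), (414, 2586), (415, 2702), (416, 2830), (417,
    2830), (418, 2830), (423, 2826), (420, 2830), (421, 2830), (422, 2830), (423, 2826), (424,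
    2830), (431, 2702), (426, 2830), (431, 2702), (430, 586), (431, 2702), (430, 586), (431,
    2702), (432, 2830), (433, 2830), (434, 2830), (435, 2830), (436, 2830), (437, 2830), (438,
    2830), (439, 2830), (440, 2830), (443, 586), (442, 2830), (443, 586), (446, 586), (447,
    586), (446, 586), (447, 586), (448, 2830), (449, 2830), (450, 2830), (459, 2826), (452,
    2830), (463, 2702), (454, 2830), (463, 2702), (456, 2830), (457, 2830), (458, 2830), (459,
    2826), (462, 2586), (463, 2702), (462, 2586), (463, 2702), (464, 2830), (465, 2830), (466,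
    2830), (467, 2830), (468, 2830), (471, 2586), (470, 2830), (471, 2586), (472, 2830), (473,
    2830), (474, 2830), (475, 2830), (478, 2586), (479, 2586), (478, 2586), (479, 2586), (496,
    2710), (497, 2710), (498, 2710), (499, 2710), (500, 2710), (501, 2710), (502, 2710), (503,
    2710), (504, 2710), (505, 2710), (506, 2710), (507, 2710), (1004, 2930), (1005, 2930),
    (1006, 2930), (511, 2586), (496, 2710), (497, 2710), (498, 2710), (499, 2710), (500, 2710),
    (501, 2710), (502, 2710), (503, 2710), (504, 2710), (505, 2710), (506, 2710), (507, 2710),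
    (1020, 2930), (511, 2586), (511, 2586), (511, 2586), (512, 2930), (513, 2930), (514, 2930),
    (515, 2926), (516, 2930), (517, 2926), (518, 2886), (519, 2902), (520, 2930), (521, 2926),
    (522, 2886), (523, 2902), (524, 2930), (525, 2926), (526, 2886), (527, 2902), (528, 2930),
    (529, 2930), (530, 2930), (531, 2930), (532, 2930), (533, 2882), (534, 2902), (535, 2902),
    (536, 2930), (537, 2882), (538, 2902), (539, 2902), (540, 2930), (541, 2882), (542, 2902),
    (543, 2902), (544, 2930), (545, 2930), (546, 2930), (547, 2886), (548, 2930), (549, 2930),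
    (550, 2886), (551, 2886), (552, 2930), (557, 2926), (554, 2886), (559, 2902), (556, 2930),
    (557, 2926), (558, 2886), (559, 2902), (560, 2910), (561, 2910), (562, 2910), (563, 2910),
    (564, 2910), (565, 2910), (567, 2886), (567, 2886), (568, 2910), (573, 566), (575, 2882),
    (575, 2882), (572, 2910), (573, 566), (575, 2882), (575, 2882), (576, 2930), (577, 2930),
    (578, 2930), (579, 2886), (580, 2930), (589, 2926), (582, 2886), (591, 2902), (584, 2930),
    (585, 2930), (586, 2886), (587, 2886), (588, 2930), (589, 2926), (590, 2886), (591, 2902),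
    (592, 2910), (593, 2910), (594, 2910), (595, 2910), (596, 2910), (605, 2566), (607, 2882),
    (607, 2882), (600, 2910), (601, 2910), (603, 2886), (603, 2886), (604, 2910), (605, 2566),
    (607, 2882), (607, 2882), (608, 2930), (609, 2930), (610, 2930), (611, 2886), (612, 2930),
    (613, 2930), (614, 2886), (615, 2886), (616, 2930), (617, 2930), (618, 2886), (619, 2886),
    (620, 2930), (621, 2930), (622, 2886), (623, 2886), (624, 2910), (625, 2910), (626, 2910),
    (627, 2910), (628, 2910), (629, 2910), (631, 2886), (631, 2886), (632, 2910), (633, 2910),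
    (635, 2886), (635, 2886), (636, 2910), (637, 2910), (639, 2886), (639, 2886), (640, 2930),
    (641, 2930), (642, 2930), (643, 2926), (644, 2930), (645, 2926), (646, 2930), (647, 2926),
    (648, 2930), (649, 2926), (654, 2886), (655, 2902), (652, 2930), (653, 2926), (654, 2886),
    (655, 2902), (656, 2930), (657, 2930), (658, 2930), (659, 2930), (660, 2930), (663, 2926),
    (662, 2930), (663, 2926), (664, 2930), (671, 2902), (670, 586), (671, 2902), (668, 2930),
    (671, 2902), (670, 586), (671, 2902), (672, 2930), (673, 2930), (674, 2930), (679, 2926),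
    (676, 2930), (677, 2930), (678, 2930), (679, 2926), (680, 2930), (685, 2926), (686, 2886),
    (687, 2902), (684, 2930), (685, 2926), (686, 2886), (687, 2902), (688, 2930), (689, 2930),
    (690, 2930), (691, 2930), (692, 2930), (693, 2930), (694, 2930), (695, 2930), (696, 2930),
    (701, 586), (702, 586), (703, 586), (700, 2930), (701, 586), (702, 586), (703, 586), (704,
    2930), (705, 2930), (706, 2930), (719, 2902), (708, 2930), (717, 2926), (710, 2930), (719,
    2902), (712, 2930), (713, 2930), (718, 2886), (719, 2902), (716, 2930), (717, 2926), (718,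
    2886), (719, 2902), (752, 2910), (753, 2910), (754, 2910), (755, 2910), (756, 2910), (757,
    2910), (758, 2910), (759, 2910), (760, 2910), (761, 2910), (986, 2930), (987, 2930), (764,
    2910), (765, 2910), (990, 2930), (767, 2886), (736, 2930), (737, 2930), (738, 2930), (743,
    2886), (740, 2930), (741, 2930), (742, 2930), (743, 2886), (744, 2930), (745, 2930), (750,
    2886), (751, 2886), (748, 2930), (749, 2930), (750, 2886), (751, 2886), (752, 2910), (753,
    2910), (754, 2910), (755, 2910), (756, 2910), (757, 2910), (758, 2910), (759, 2910), (760,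
    2910), (761, 2910), (1018, 2930), (767, 2886), (764, 2910), (765, 2910), (767, 2886), (767,
    2886), (768, 2930), (769, 2930), (770, 2930), (771, 2926), (772, 2930), (773, 2926), (782,
    2886), (783, 2902), (776, 2930), (777, 2926), (778, 2930), (779, 2926), (780, 2930), (781,
    2926), (782, 2886), (783, 2902), (784, 2930), (785, 2930), (786, 2930), (787, 2930), (788,
    2930), (799, 2902), (798, 2586), (799, 2902), (792, 2930), (795, 2926), (794, 2930), (795,
    2926), (796, 2930), (799, 2902), (798, 2586), (799, 2902), (800, 2930), (801, 2930), (802,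
    2930), (815, 2902), (804, 2930), (805, 2930), (814, 2886), (815, 2902), (808, 2930), (813,
    2926), (810, 2930), (815, 2902), (812, 2930), (813, 2926), (814, 2886), (815, 2902), (880,
    2910), (881, 2910), (882, 2910), (883, 2910), (884, 2910), (885, 2910), (950, 2930), (951,
    2930), (888, 2910), (889, 2910), (890, 2910), (891, 2910), (892, 2910), (893, 2910), (958,
    2930), (895, 2886), (832, 2930), (833, 2930), (834, 2930), (843, 2926), (836, 2930), (845,
    2926), (846, 2886), (847, 2902), (840, 2930), (841, 2930), (842, 2930), (843, 2926), (844,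
    2930), (845, 2926), (846, 2886), (847, 2902), (848, 2930), (849, 2930), (850, 2930), (851,
    2930), (852, 2930), (861, 2586), (862, 2586), (863, 2586), (856, 2930), (857, 2930), (858,
    2930), (859, 2930), (860, 2930), (861, 2586), (862, 2586), (863, 2586), (864, 2930), (865,
    2930), (866, 2930), (875, 2886), (868, 2930), (869, 2930), (878, 2886), (879, 2886), (872,
    2930), (873, 2930), (874, 2930), (875, 2886), (876, 2930), (877, 2930), (878, 2886), (879,
    2886), (880, 2910), (881, 2910), (882, 2910), (883, 2910), (884, 2910), (885, 2910), (1014,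
    2930), (895, 2886), (888, 2910), (889, 2910), (890, 2910), (891, 2910), (892, 2910), (893,
    2910), (895, 2886), (895, 2886), (896, 2930), (897, 2930), (898, 2930), (899, 2926), (900,
    2930), (901, 2926), (902, 2930), (903, 2926), (904, 2930), (905, 2926), (906, 2930), (907,
    2926), (908, 2930), (909, 2926), (910, 2930), (911, 2926), (912, 2930), (913, 2930), (914,
    2930), (915, 2930), (916, 2930), (919, 2926), (918, 2930), (919, 2926), (920, 2930), (923,
    2926), (922, 2930), (923, 2926), (924, 2930), (927, 2926), (926, 2930), (927, 2926), (928,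
    2930), (929, 2930), (930, 2930), (935, 2926), (932, 2930), (933, 2930), (934, 2930), (935,
    2926), (936, 2930), (941, 2926), (938, 2930), (943, 2926), (940, 2930), (941, 2926), (942,
    2930), (943, 2926), (944, 2930), (945, 2930), (946, 2930), (947, 2930), (948, 2930), (949,
    2930), (950, 2930), (951, 2930), (952, 2930), (1017, 2930), (954, 2930), (959, 2926), (956,
    2930), (959, 2926), (958, 2930), (959, 2926), (960, 2930), (961, 2930), (962, 2930), (971,
    2926), (964, 2930), (973, 2926), (966, 2930), (975, 2926), (968, 2930), (969, 2930), (970,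
    2930), (971, 2926), (972, 2930), (973, 2926), (974, 2930), (975, 2926), (976, 2930), (977,
    2930), (978, 2930), (979, 2930), (980, 2930), (1013, 2930), (982, 2930), (991, 2926), (984,
    2930), (985, 2930), (986, 2930), (987, 2930), (988, 2930), (991, 2926), (990, 2930), (991,
    2926), (992, 2930), (993, 2930), (994, 2930), (1011, 2930), (996, 2930), (997, 2930), (998,
    2930), (1007, 2926), (1000, 2930), (1001, 2930), (1002, 2930), (1007, 2926), (1004, 2930),
    (1005, 2930), (1006, 2930), (1007, 2926), (1008, 2930), (1009, 2930), (1010, 2930), (1011,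
    2930), (1012, 2930), (1013, 2930), (1014, 2930), (1015, 2930), (1016, 2930), (1017, 2930),
    (1018, 2930), (1019, 2930), (1020, 2930), (1021, 2930), (1022, 2930), (1023, 2930)]

theorem table_ok : (((List.range 1024).zip table).all fun t => chk t.1 t.2.1 t.2.2) = true := by
  decide +kernel

theorem table_length : table.length = 1024 := by decide +kernel

theorem exists_chk (g : ℕ) (hg : g < 1024) : ∃ h o, chk g h o = true := by
  have hl : g < ((List.range 1024).zip table).length := by
    rw [List.length_zip, List.length_range, table_length]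
    simpa using hg
  have h1 := List.all_eq_true.1 table_ok _ (List.getElem_mem hl)
  rw [List.getElem_zip] at h1
  simp only [List.getElem_range] at h1
  exact ⟨_, _, h1⟩

/-- The number of a graph. -/
def code (b0 b1 b2 b3 b4 b5 b6 b7 b8 b9 : Bool) : ℕ :=
  b0.toNat + 2 * b1.toNat + 4 * b2.toNat + 8 * b3.toNat + 16 * b4.toNat + 32 * b5.toNat +
    64 * b6.toNat + 128 * b7.toNat + 256 * b8.toNat + 512 * b9.toNat

theorem code_spec : ∀ b0 b1 b2 b3 b4 b5 b6 b7 b8 b9 : Bool,
    code b0 b1 b2 b3 b4 b5 b6 b7 b8 b9 < 1024 ∧
    (code b0 b1 b2 b3 b4 b5 b6 b7 b8 b9).testBit 0 = b0 ∧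
    (code b0 b1 b2 b3 b4 b5 b6 b7 b8 b9).testBit 1 = b1 ∧
    (code b0 b1 b2 b3 b4 b5 b6 b7 b8 b9).testBit 2 = b2 ∧
    (code b0 b1 b2 b3 b4 b5 b6 b7 b8 b9).testBit 3 = b3 ∧
    (code b0 b1 b2 b3 b4 b5 b6 b7 b8 b9).testBit 4 = b4 ∧
    (code b0 b1 b2 b3 b4 b5 b6 b7 b8 b9).testBit 5 = b5 ∧
    (code b0 b1 b2 b3 b4 b5 b6 b7 b8 b9).testBit 6 = b6 ∧
    (code b0 b1 b2 b3 b4 b5 b6 b7 b8 b9).testBit 7 = b7 ∧
    (code b0 b1 b2 b3 b4 b5 b6 b7 b8 b9).testBit 8 = b8 ∧
    (code b0 b1 b2 b3 b4 b5 b6 b7 b8 b9).testBit 9 = b9 ∧
    (code b0 b1 b2 b3 b4 b5 b6 b7 b8 b9).testBit 10 = false := by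
  decide +kernel

theorem exists_code (G : SimpleGraph (Fin 5)) :
    ∃ g, g < 1024 ∧ ∀ i j : Fin 5, (ad g i.val j.val = true ↔ G.Adj i j) := by
  classical
  obtain ⟨h0, h1, h2, h3, h4, h5, h6, h7, h8, h9, h10, h11⟩ := code_spec
    (decide (G.Adj 0 1)) (decide (G.Adj 0 2)) (decide (G.Adj 0 3)) (decide (G.Adj 0 4))
    (decide (G.Adj 1 2)) (decide (G.Adj 1 3)) (decide (G.Adj 1 4)) (decide (G.Adj 2 3))
    (decide (G.Adj 2 4)) (decide (G.Adj 3 4))
  generalize code _ _ _ _ _ _ _ _ _ _ = g at *
  refine ⟨g, h0, ?_⟩
  have key : ∀ (i j : Fin 5) (k : ℕ), nu i.val j.val = k → (g.testBit k = true ↔ G.Adj i j) →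
      (ad g i.val j.val = true ↔ G.Adj i j) := by
    intro i j k hk h
    unfold ad
    rw [hk]
    exact h
  have hd : ∀ i : Fin 5, nu i.val i.val = 10 := by decide
  have hs : ∀ i j : Fin 5, nu i.val j.val = nu j.val i.val := by decide
  have hlt : ∀ i j : Fin 5, i < j → (ad g i.val j.val = true ↔ G.Adj i j) := by
    intro i j hij
    fin_cases i <;> fin_cases j
    all_goals first
      | exact absurd hij (by decide)
      | exact key 0 1 0 rfl (by rw [h1]; simp)
      | exact key 0 2 1 rfl (by rw [h2]; simp)
      | exact key 0 3 2 rfl (by rw [h3]; simp)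
      | exact key 0 4 3 rfl (by rw [h4]; simp)
      | exact key 1 2 4 rfl (by rw [h5]; simp)
      | exact key 1 3 5 rfl (by rw [h6]; simp)
      | exact key 1 4 6 rfl (by rw [h7]; simp)
      | exact key 2 3 7 rfl (by rw [h8]; simp)
      | exact key 2 4 8 rfl (by rw [h9]; simp)
      | exact key 3 4 9 rfl (by rw [h10]; simp)
  intro i j
  rcases lt_trichotomy i j with h | h | h
  · exact hlt i j h
  · subst h
    exact key i i 10 (hd i) (by rw [h11]; simp)
  · have h12 := hlt j i h
    unfold ad at h12 ⊢
    rw [hs i j, h12]
    exact G.adj_comm j i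

theorem mem_fives (i : Fin 5) : i.val ∈ fives := by
  revert i
  decide

theorem fill_five (G : SimpleGraph (Fin 5)) : ∃ (H : SimpleGraph (Fin 5)) (ord : Fin 5 → ℕ),
    G ≤ H ∧ Function.Injective ord ∧
    (∀ v a b, H.Adj v a → H.Adj v b → ord v < ord a → ord v < ord b → a ≠ b → H.Adj a b) ∧
    OneFill G H := by
  obtain ⟨g, hg, hG⟩ := exists_code G
  obtain ⟨h, o, hc⟩ := exists_chk g hg
  unfold chk at hc
  simp only [Bool.and_eq_true, List.all_eq_true, Bool.or_eq_true, Bool.not_eq_true'] at hc
  obtain ⟨⟨⟨c1, c2⟩, c3⟩, c4⟩ := hc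
  have hs : ∀ i j : Fin 5, nu i.val j.val = nu j.val i.val := by decide
  let H : SimpleGraph (Fin 5) :=
    { Adj := fun i j => i ≠ j ∧ ad h i.val j.val = true
      symm := ⟨fun i j hij => ⟨hij.1.symm, by
        have := hij.2
        unfold ad at this ⊢
        rw [hs j i]
        exact this⟩⟩
      loopless := ⟨fun i hi => hi.1 rfl⟩ }
  have hH : ∀ i j : Fin 5, H.Adj i j ↔ i ≠ j ∧ ad h i.val j.val = true := fun i j => Iff.rfl
  refine ⟨H, fun i => od o i.val, ?_, ?_, ?_, ?_⟩
  · intro i j hij
    refine ⟨hij.ne, ?_⟩
    rcases c1 i.val (mem_fives i) j.val (mem_fives j) with h1 | h1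
    · rw [(hG i j).2 hij] at h1
      exact absurd h1 (by simp)
    · exact h1
  · intro i j hij
    rcases c2 i.val (mem_fives i) j.val (mem_fives j) with h1 | h1
    · exact Fin.ext (by simpa using h1)
    · have h2 : od o i.val = od o j.val := hij
      rw [h2] at h1
      simp at h1
  · intro v a b hva hvb h1 h2 hab
    refine ⟨hab, ?_⟩
    have h3 : Nat.blt (od o v.val) (od o a.val) = true := by
      rw [Nat.blt_eq]
      exact h1
    have h4 : Nat.blt (od o v.val) (od o b.val) = true := by
      rw [Nat.blt_eq]
      exact h2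
    rcases c3 v.val (mem_fives v) a.val (mem_fives a) with (h5 | h5) | h5
    · rw [((hH v a).1 hva).2] at h5
      exact absurd h5 (by simp)
    · rw [h3] at h5
      exact absurd h5 (by simp)
    · rcases h5 b.val (mem_fives b) with ((h6 | h6) | h6) | h6
      · rw [((hH v b).1 hvb).2] at h6
        exact absurd h6 (by simp)
      · rw [h4] at h6
        exact absurd h6 (by simp)
      · exact absurd (Fin.ext (by simpa using h6)) hab
      · exact h6
  · intro a b c e hab hac hae hbc hbe hce hn
    rcases c4 a.val (mem_fives a) b.val (mem_fives b) with (h5 | h5) | h5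
    · rw [((hH a b).1 hab).2] at h5
      exact absurd h5 (by simp)
    · exact absurd ((hG a b).1 h5) hn
    · rcases h5 c.val (mem_fives c) with (h6 | h6) | h6
      · rw [((hH a c).1 hac).2] at h6
        exact absurd h6 (by simp)
      · rw [((hH b c).1 hbc).2] at h6
        exact absurd h6 (by simp)
      · rcases h6 e.val (mem_fives e) with ((h7 | h7) | h7) | h7
        · rw [((hH a e).1 hae).2] at h7
          exact absurd h7 (by simp)
        · rw [((hH b e).1 hbe).2] at h7
          exact absurd h7 (by simp)
        · rw [((hH c e).1 hce).2] at h7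
          exact absurd h7 (by simp)
        · exact ⟨(hG a c).1 h7.1, (hG c e).1 h7.2⟩

/-- **Every graph on at most five vertices is tame.** -/
theorem tame_of_card_le_five {V : Type} [Finite V] (G : SimpleGraph V) (hV : Nat.card V ≤ 5) :
    Tame G := by
  classical
  have : Fintype V := Fintype.ofFinite V
  rw [Nat.card_eq_fintype_card] at hV
  obtain ⟨e⟩ : Nonempty (V ↪ Fin 5) :=
    Function.Embedding.nonempty_of_card_le (by rw [Fintype.card_fin]; exact hV)
  obtain ⟨H, ord, h1, h2, h3, h4⟩ := fill_five (G.map e)
  have hadj : ∀ a b, (G.map e).Adj (e a) (e b) ↔ G.Adj a b := fun a b =>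
    SimpleGraph.map_adj_apply
  refine Tame.base G (H.comap e) ?_ ?_ ?_
  · intro a b hab
    exact h1 ((hadj a b).2 hab)
  · refine isChordal_of_order _ (fun v => ord (e v)) (fun a b hab => e.injective (h2 hab)) ?_
    intro v a b hva hvb k1 k2 hab
    exact h3 _ _ _ hva hvb k1 k2 (fun h => hab (e.injective h))
  · intro a b c f hab hac haf hbc hbf hcf hn
    have h5 := h4 (e a) (e b) (e c) (e f) hab hac haf hbc hbf hcf (fun h => hn ((hadj a b).1 h))
    exact ⟨(hadj a c).1 h5.1, (hadj c f).1 h5.2⟩

end Pool.Agent.Lib.MP_13b08e_lc.RC.Five
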