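import Pool.Agent.Lib.MP_13b08e_lc.RC.Defs

/-!
A rational point of the elliptope of the complete bipartite graph `K_{3,3}` (treewidth three) whose
positive semidefinite completions have an irrational entry.
-/

namespace Pool.Agent.Lib.MP_13b08e_lc.RC.K33

open Pool.Agent.Lib.MP_13b08e_lc Matrix

/-- The graph. -/
abbrev G : SimpleGraph (Fin 3 ⊕ Fin 3) := completeBipartiteGraph (Fin 3) (Fin 3)

/-- The rational data. -/
def v : Fin 3 → Fin 3 → ℚ :=
  ![![24 / 25, 0, 16 / 25], ![0, 24 / 25, 16 / 25], ![0, 0, 4 / 5]]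

/-- The rational data as a symmetric matrix; the entries outside the edges are not used. -/
def A : Fin 3 ⊕ Fin 3 → Fin 3 ⊕ Fin 3 → ℚ
  | Sum.inl a, Sum.inr j => v j a
  | Sum.inr j, Sum.inl a => v j a
  | _, _ => 0

lemma A_symm (s t : Fin 3 ⊕ Fin 3) : A s t = A t s := by
  rcases s with a | i <;> rcases t with b | j <;> rfl

/-- The rational point. -/
def x : G.edgeSet → ℚ := fun e => Sym2.lift ⟨fun s t => A s t, A_symm⟩ e.1

lemma x_apply (s t : Fin 3 ⊕ Fin 3) (h : G.Adj s t) : x ⟨s(s, t), h⟩ = A s t := rfl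

/-- Weights of the completion. -/
noncomputable def d : Fin 3 → ℝ := ![1, -2912 / 625 + (656 / 625) * √29, 16 / 25]

/-- Linear forms of the completion. -/
noncomputable def L : Fin 3 → Fin 3 ⊕ Fin 3 → ℝ :=
  ![Sum.elim ![1, 41 / 25 - (8 / 25) * √29, -6 / 25 + (3 / 25) * √29] ![24 / 25, 0, 0],
    Sum.elim ![0, 1, 3 / 25 + (3 / 50) * √29] ![123 / 625 - (27 / 1250) * √29,
      273 / 625 + (123 / 1250) * √29, 0],
    Sum.elim ![0, 0, 1] ![41 / 50 - (9 / 100) * √29, 41 / 50 - (9 / 100) * √29, 5 / 4]]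

/-- The completion. -/
noncomputable def X : Matrix (Fin 3 ⊕ Fin 3) (Fin 3 ⊕ Fin 3) ℝ :=
  Matrix.of fun s t => ∑ k, d k * L k s * L k t

lemma sqrt_lo : (5.38 : ℝ) < √29 := by
  rw [Real.lt_sqrt (by norm_num)]; norm_num

lemma sqrt_hi : √29 < (5.39 : ℝ) := by
  rw [Real.sqrt_lt' (by norm_num)]; norm_num

lemma d_nonneg (k : Fin 3) : 0 ≤ d k := by
  have h := sqrt_lo
  fin_cases k <;> simp [d] <;> linarith

lemma X_symm (s t : Fin 3 ⊕ Fin 3) : X s t = X t s := by
  simp only [X, Matrix.of_apply]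
  exact Finset.sum_congr rfl fun k _ => by ring

lemma X_eq (s t : Fin 3 ⊕ Fin 3) : X s t = d 0 * L 0 s * L 0 t + d 1 * L 1 s * L 1 t +
    d 2 * L 2 s * L 2 t := by
  simp only [X, Matrix.of_apply, Fin.sum_univ_three]

lemma X_diag (s : Fin 3 ⊕ Fin 3) : X s s = 1 := by
  have h2 : √29 ^ 2 = (29 : ℝ) := Real.sq_sqrt (by norm_num)
  have h3 : √29 ^ 3 = (29 : ℝ) * √29 := by rw [pow_succ, h2]
  rw [X_eq]
  rcases s with a | j
  · fin_cases a <;> simp only [d, L] <;> simp <;> (try ring_nf) <;> (try simp only [h2, h3]) <;>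
      (try ring_nf)
  · fin_cases j <;> simp only [d, L] <;> simp <;> (try ring_nf) <;> (try simp only [h2, h3]) <;>
      (try ring_nf)

lemma X_edge (a : Fin 3) (j : Fin 3) : X (Sum.inl a) (Sum.inr j) = (v j a : ℝ) := by
  have h2 : √29 ^ 2 = (29 : ℝ) := Real.sq_sqrt (by norm_num)
  have h3 : √29 ^ 3 = (29 : ℝ) * √29 := by rw [pow_succ, h2]
  rw [X_eq]
  fin_cases a <;> fin_cases j <;> simp only [d, L, v] <;> simp <;> (try ring_nf) <;>
    (try simp only [h2, h3]) <;> (try ring_nf)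

theorem completion : IsCompletion G x X where
  psd := posSemidef_of_sum d L d_nonneg
  diag := X_diag
  edge := fun s t h => by
    rw [x_apply]
    rcases s with a | i <;> rcases t with b | j
    · simp at h
    · exact X_edge a j
    · rw [X_symm]
      exact X_edge b i
    · simp at h

lemma entry_symm {Y : Matrix (Fin 3 ⊕ Fin 3) (Fin 3 ⊕ Fin 3) ℝ} (hY : Y.PosSemidef)
    (s t : Fin 3 ⊕ Fin 3) : Y s t = Y t s := by
  have := hY.isHermitian.apply s t
  simpa using this.symm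

/-- The test vectors. -/
noncomputable def kv (y : Fin 3 → ℝ) (j : Fin 3) : Fin 3 ⊕ Fin 3 → ℝ :=
  Sum.elim y (fun i => if i = j then -1 else 0)

/-- The value of the quadratic form at a test vector. -/
noncomputable def F (p q r : ℝ) (y : Fin 3 → ℝ) (j : Fin 3) : ℝ :=
  y 0 ^ 2 + y 1 ^ 2 + y 2 ^ 2 + 2 * (y 0 * y 1 * p + y 0 * y 2 * q + y 1 * y 2 * r)
    - 2 * (y 0 * v j 0 + y 1 * v j 1 + y 2 * v j 2) + 1

lemma form {Y : Matrix (Fin 3 ⊕ Fin 3) (Fin 3 ⊕ Fin 3) ℝ} (hY : IsCompletion G x Y)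
    (y : Fin 3 → ℝ) (j : Fin 3) :
    star (kv y j) ⬝ᵥ (Y *ᵥ (kv y j)) = F (Y (Sum.inl 0) (Sum.inl 1)) (Y (Sum.inl 0) (Sum.inl 2))
      (Y (Sum.inl 1) (Sum.inl 2)) y j := by
  have he : ∀ a : Fin 3, Y (Sum.inl a) (Sum.inr j) = (v j a : ℝ) := fun a => by
    have := hY.edge (Sum.inl a) (Sum.inr j) (by simp)
    rw [this, x_apply]
    rfl
  have he' : ∀ a : Fin 3, Y (Sum.inr j) (Sum.inl a) = (v j a : ℝ) := fun a => by
    rw [entry_symm hY.psd, he]
  have hs := entry_symm hY.psd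
  have hsum : ∀ g : Fin 3 → ℝ, ∑ i, g i * (if i = j then (-1 : ℝ) else 0) = - g j := by
    intro g
    simp
  have hsum' : ∀ g : Fin 3 → ℝ, ∑ i, (if i = j then (-1 : ℝ) else 0) * g i = - g j := by
    intro g
    simp
  simp only [dotProduct, mulVec, kv, Fintype.sum_sum_type, Sum.elim_inl, Sum.elim_inr,
    Pi.star_apply, star_trivial, hsum, hsum', he, he', hY.diag]
  simp only [Fin.sum_univ_three, F, hY.diag]
  rw [hs (Sum.inl 1) (Sum.inl 0), hs (Sum.inl 2) (Sum.inl 0), hs (Sum.inl 2) (Sum.inl 1)]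
  ring

lemma F_nonneg {Y : Matrix (Fin 3 ⊕ Fin 3) (Fin 3 ⊕ Fin 3) ℝ} (hY : IsCompletion G x Y)
    (y : Fin 3 → ℝ) (j : Fin 3) : 0 ≤ F (Y (Sum.inl 0) (Sum.inl 1)) (Y (Sum.inl 0) (Sum.inl 2))
      (Y (Sum.inl 1) (Sum.inl 2)) y j := by
  rw [← form hY]
  exact hY.psd.dotProduct_mulVec_nonneg _

/-- The coefficient vectors. -/
noncomputable def y1 : Fin 3 → ℝ := ![99 / 200 + (3 / 50) * √29, 51 / 200 - (3 / 50) * √29,
  41 / 50 - (9 / 100) * √29]
noncomputable def y2 : Fin 3 → ℝ := ![51 / 200 - (3 / 50) * √29, 99 / 200 + (3 / 50) * √29,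
  41 / 50 - (9 / 100) * √29]
noncomputable def y3 : Fin 3 → ℝ := ![-3 / 20 - (3 / 40) * √29, -3 / 20 - (3 / 40) * √29, 5 / 4]

lemma dual (p q r : ℝ) : F p q r y1 0 + F p q r y2 1
    + (-34 / 25 + (8 / 25) * √29) * F p q r y3 2 = 0 := by
  have h2 : √29 ^ 2 = (29 : ℝ) := Real.sq_sqrt (by norm_num)
  have h3 : √29 ^ 3 = (29 : ℝ) * √29 := by rw [pow_succ, h2]
  simp only [F, y1, y2, y3, v]
  simp
  ring_nf
  simp only [h2, h3]
  ring_nf

/-- The forced value of the entry at the two first vertices. -/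
theorem forced {Y : Matrix (Fin 3 ⊕ Fin 3) (Fin 3 ⊕ Fin 3) ℝ} (hY : IsCompletion G x Y) :
    Y (Sum.inl 0) (Sum.inl 1) = 41 / 25 - (8 / 25) * √29 := by
  have h2 : √29 ^ 2 = (29 : ℝ) := Real.sq_sqrt (by norm_num)
  have hlo := sqrt_lo
  have hhi := sqrt_hi
  have f1 := F_nonneg hY y1 0
  have f2 := F_nonneg hY y2 1
  have f3 := F_nonneg hY y3 2
  have hd := dual (Y (Sum.inl 0) (Sum.inl 1)) (Y (Sum.inl 0) (Sum.inl 2))
    (Y (Sum.inl 1) (Sum.inl 2))
  have l3 : 0 < -34 / 25 + (8 / 25) * √29 := by linarith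
  have g3 := mul_nonneg l3.le f3
  have e1 : F (Y (Sum.inl 0) (Sum.inl 1)) (Y (Sum.inl 0) (Sum.inl 2))
      (Y (Sum.inl 1) (Sum.inl 2)) y1 0 = 0 := by linarith
  have e3 : F (Y (Sum.inl 0) (Sum.inl 1)) (Y (Sum.inl 0) (Sum.inl 2))
      (Y (Sum.inl 1) (Sum.inl 2)) y3 2 = 0 := by
    have : (-34 / 25 + (8 / 25) * √29) * F (Y (Sum.inl 0) (Sum.inl 1)) (Y (Sum.inl 0) (Sum.inl 2))
      (Y (Sum.inl 1) (Sum.inl 2)) y3 2 = 0 := by linarith
    exact (mul_eq_zero.1 this).resolve_left l3.ne'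
  rw [← form hY] at e1 e3
  have z1 := congrFun ((hY.psd.dotProduct_mulVec_zero_iff _).1 e1) (Sum.inl 0)
  have z3 := congrFun ((hY.psd.dotProduct_mulVec_zero_iff _).1 e3) (Sum.inl 0)
  have he : ∀ (a : Fin 3) (j : Fin 3), Y (Sum.inl a) (Sum.inr j) = (v j a : ℝ) := fun a j => by
    have := hY.edge (Sum.inl a) (Sum.inr j) (by simp)
    rw [this, x_apply]
    rfl
  simp only [dotProduct, mulVec, kv, Fintype.sum_sum_type, Sum.elim_inl, Sum.elim_inr,
    mul_ite, mul_neg, mul_one, mul_zero, Finset.sum_ite_eq', Finset.mem_univ, if_true,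
    Fin.sum_univ_three, he, hY.diag, y1, y3, v, Pi.zero_apply] at z1 z3
  simp at z1 z3
  generalize Y (Sum.inl 0) (Sum.inl 1) = p at z1 z3 ⊢
  generalize Y (Sum.inl 0) (Sum.inl 2) = q at z1 z3
  generalize √29 = w at h2 hlo hhi z1 z3 ⊢
  have h6 : (5 / 4 * (51 / 200 - 3 / 50 * w) + (41 / 50 - 9 / 100 * w) * (3 / 20 + 3 / 40 * w))
      * (p - (41 / 25 - (8 / 25) * w)) = 0 := by
    have z1' : 99 / 200 + 3 / 50 * w + (51 / 200 - 3 / 50 * w) * p + (41 / 50 - 9 / 100 * w) * q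
        - 24 / 25 = 0 := by linarith
    have z3' : -3 / 20 - 3 / 40 * w + (-3 / 20 - 3 / 40 * w) * p + 5 / 4 * q = 0 := by linarith
    have k1 : (5 / 4 * (51 / 200 - 3 / 50 * w) + (41 / 50 - 9 / 100 * w) * (3 / 20 + 3 / 40 * w))
      * (p - (41 / 25 - (8 / 25) * w)) = 5 / 4 * (99 / 200 + 3 / 50 * w
        + (51 / 200 - 3 / 50 * w) * p + (41 / 50 - 9 / 100 * w) * q - 24 / 25)
        - (41 / 50 - 9 / 100 * w) * (-3 / 20 - 3 / 40 * w + (-3 / 20 - 3 / 40 * w) * p
          + 5 / 4 * q) := by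
      have h3 : w ^ 3 = 29 * w := by rw [pow_succ, h2]
      ring_nf
      simp only [h2, h3]
      ring_nf
    rw [k1, z1', z3']
    ring
  have h8 : 0 < 5 / 4 * (51 / 200 - 3 / 50 * w)
      + (41 / 50 - 9 / 100 * w) * (3 / 20 + 3 / 40 * w) := by
    have : 5 / 4 * (51 / 200 - 3 / 50 * w) + (41 / 50 - 9 / 100 * w) * (3 / 20 + 3 / 40 * w)
        = 5 / 4 * (51 / 200 - 3 / 50 * w) + 123 / 1000 + 48 / 1000 * w - 27 / 4000 * w ^ 2 := by
      ring
    rw [this, h2]
    linarith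
  have h7 := (mul_eq_zero.1 h6).resolve_left h8.ne'
  linarith

theorem irrational_entry {Y : Matrix (Fin 3 ⊕ Fin 3) (Fin 3 ⊕ Fin 3) ℝ}
    (hY : IsCompletion G x Y) : Irrational (Y (Sum.inl 0) (Sum.inl 1)) := by
  rw [forced hY]
  have h5 : Irrational (√29) := by
    have := Nat.Prime.irrational_sqrt (show Nat.Prime 29 by norm_num)
    exact_mod_cast this
  rintro ⟨q, hq⟩
  refine h5 ⟨(41 / 25 - q) * (25 / 8), ?_⟩
  push_cast
  linarith

/-- A chordal supergraph without five pairwise adjacent vertices. -/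
def H : SimpleGraph (Fin 3 ⊕ Fin 3) where
  Adj s t := s ≠ t ∧ (s.isLeft ∨ t.isLeft)
  symm := ⟨fun _ _ h => ⟨h.1.symm, h.2.symm⟩⟩
  loopless := ⟨fun _ h => h.1 rfl⟩

lemma G_le : G ≤ H := by
  intro s t h
  rcases s with a | i <;> rcases t with b | j
  · simp at h
  · exact ⟨by simp, Or.inl rfl⟩
  · exact ⟨by simp, Or.inr rfl⟩
  · simp at h

lemma chordal : IsChordal H := by
  refine isChordal_of_order H (fun s => Sum.elim (fun a : Fin 3 => a.val + 4)
    (fun j : Fin 3 => j.val) s) ?_ ?_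
  · intro s t h
    rcases s with a | i <;> rcases t with b | j
    · simp only [Sum.elim_inl] at h
      rw [Fin.ext (show a.val = b.val by omega)]
    · simp only [Sum.elim_inl, Sum.elim_inr] at h
      have := j.isLt
      omega
    · simp only [Sum.elim_inl, Sum.elim_inr] at h
      have := i.isLt
      omega
    · simp only [Sum.elim_inr] at h
      rw [Fin.ext h]
  · intro w s t h1 h2 h3 h4 h5
    refine ⟨h5, ?_⟩
    rcases w with a | i
    · rcases s with b | j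
      · exact Or.inl rfl
      · simp only [Sum.elim_inl, Sum.elim_inr] at h3
        have := j.isLt
        omega
    · rcases h1.2 with h | h
      · simp at h
      · exact Or.inl h

lemma cliqueFree : H.CliqueFree 5 := by
  intro s hs
  have h1 : s ≤ (Finset.univ.map Function.Embedding.inl) ∪
      (s.filter fun t => t.isRight) := by
    intro t ht
    rcases t with a | j
    · exact Finset.mem_union_left _ (by simp)
    · exact Finset.mem_union_right _ (by simp [ht])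
  have h2 : (s.filter fun t => t.isRight).card ≤ 1 := by
    rw [Finset.card_le_one]
    intro t ht u hu
    rw [Finset.mem_filter] at ht hu
    by_contra hne
    have h3 := hs.isClique ht.1 hu.1 hne
    rcases t with a | i
    · simp at ht
    · rcases u with b | j
      · simp at hu
      · rcases h3.2 with h | h <;> simp at h
  have h3 := Finset.card_le_card h1
  have h4 := Finset.card_union_le (Finset.univ.map (Function.Embedding.inl :
    Fin 3 ↪ Fin 3 ⊕ Fin 3)) (s.filter fun t => t.isRight)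
  rw [hs.card_eq] at h3
  simp only [Finset.card_map, Finset.card_univ, Fintype.card_fin] at h4
  omega

end Pool.Agent.Lib.MP_13b08e_lc.RC.K33
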