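import Pool.Agent.Lib.MP_13b08e_lc.RC.Dense
import Pool.Agent.Lib.MP_13b08e_lc.RC.K33
import Pool.Agent.Lib.MP_13b08e_lc.RC.Five

/-!
The class of graphs for which rational completions are shown to exist, and completions with some
unspecified diagonal entries.
-/

namespace Pool.Agent.Lib.MP_13b08e_lc.RC

theorem Tame.ratCompl {V : Type} {G : SimpleGraph V} (h : Tame G) : Finite V → RatCompl G := by
  induction h with
  | base G H h1 h2 h3 =>
    intro _
    exact ratCompl_of_fill G H h1 h2 h3
  | cone G v h1 _ ih =>
    intro _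
    exact ratCompl_cone G v h1 (ih inferInstance)
  | glue G A B h1 h2 h3 _ _ ihA ihB =>
    intro _
    exact ratCompl_glue G A B h1 h2 h3 (ihA inferInstance) (ihB inferInstance)

theorem rationalCompletions_of_ratCompl {V : Type} [Finite V] {G : SimpleGraph V}
    (h : RatCompl G) : RationalCompletions G := by
  classical
  have : Fintype V := Fintype.ofFinite V
  rintro S a ⟨X, hX, hXd, hXe⟩
  have hq : ∀ i : V, ∃ q : ℚ, X i i < q := fun i => exists_rat_gt _
  choose q hq using hq
  have key : ∃ Y : Matrix V V ℚ, Completes G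
      (fun i j => if i = j then (if i ∈ S then a i i else q i) else a i j)
      (Y.map (fun q : ℚ => (q : ℝ))) := by
    refine h _ ⟨Matrix.of (fun i j => X i j + if i = j then
      (if i ∈ S then 0 else (q i : ℝ) - X i i) else 0), ?_, ?_, ?_⟩
    · have hXs : ∀ v w, X v w = X w v := fun v w => by
        have := hX.isHermitian.apply w v
        simpa using this
      refine posSemidef_of_qf _ ?_ ?_
      · intro i j
        simp only [Matrix.of_apply]
        rw [hXs i j]
        by_cases hij : i = j
        · subst hij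
          rfl
        · rw [if_neg hij, if_neg (Ne.symm hij)]
      · intro w
        have h1 := qf_of_psd hX w
        have h2 : ∑ i, ∑ j, w i * w j * (Matrix.of (fun i j => X i j + if i = j then
            (if i ∈ S then 0 else (q i : ℝ) - X i i) else 0) : Matrix V V ℝ) i j
            = ∑ i, ∑ j, w i * w j * X i j
              + ∑ i, w i * w i * (if i ∈ S then 0 else (q i : ℝ) - X i i) := by
          rw [← Finset.sum_add_distrib]
          refine Finset.sum_congr rfl fun i _ => ?_
          simp only [Matrix.of_apply, mul_add, Finset.sum_add_distrib, mul_ite, mul_zero,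
            Finset.sum_ite_eq, Finset.mem_univ, if_true]
        rw [h2]
        refine add_nonneg h1 (Finset.sum_nonneg fun i _ => mul_nonneg (mul_self_nonneg _) ?_)
        split_ifs
        · exact le_refl _
        · linarith [hq i]
    · intro i
      simp only [Matrix.of_apply, if_true]
      by_cases hi : i ∈ S
      · rw [if_pos hi, if_pos hi, hXd i hi, add_zero]
      · rw [if_neg hi, if_neg hi]
        ring
    · intro i j hij
      simp only [Matrix.of_apply]
      rw [if_neg hij.ne, if_neg hij.ne, add_zero, hXe i j hij]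
  obtain ⟨Y, hY⟩ := key
  refine ⟨Y, hY.psd, fun i hi => ?_, fun i j hij => ?_⟩
  · have h1 := hY.diag i
    simp only [if_true, if_pos hi] at h1
    change ((Y i i : ℚ) : ℝ) = _ at h1
    exact_mod_cast h1
  · have h1 := hY.edge i j hij
    rw [if_neg hij.ne] at h1
    change ((Y i j : ℚ) : ℝ) = _ at h1
    exact_mod_cast h1

theorem not_rationalElliptope_K33 :
    ¬ RationalElliptope (completeBipartiteGraph (Fin 3) (Fin 3)) := by
  intro h
  obtain ⟨Y, hY⟩ := h K33.x ⟨K33.X, K33.completion⟩
  exact K33.irrational_entry hY ⟨Y (Sum.inl 0) (Sum.inl 1), rfl⟩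

theorem treewidth_K33 : TreewidthLE (completeBipartiteGraph (Fin 3) (Fin 3)) 3 :=
  ⟨K33.H, K33.G_le, K33.chordal, K33.cliqueFree⟩

theorem TreewidthLE.mono {V : Type} {G : SimpleGraph V} {k m : ℕ} (h : TreewidthLE G k)
    (hkm : k ≤ m) : TreewidthLE G m := by
  obtain ⟨H, h1, h2, h3⟩ := h
  exact ⟨H, h1, h2, h3.mono (by omega)⟩

theorem rationalElliptope_of_ratCompl {V : Type} [Finite V] {G : SimpleGraph V}
    (h : RatCompl G) : RationalElliptope G := fun x hx => elliptope_of_ratCompl G h x hx

theorem ratCompl_of_rationalCompletions {V : Type} {G : SimpleGraph V}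
    (h : RationalCompletions G) : RatCompl G := by
  rintro a ⟨X, hX⟩
  obtain ⟨Y, h1, h2, h3⟩ := h Set.univ a ⟨X, hX.psd, fun i _ => hX.diag i, hX.edge⟩
  refine ⟨Y, h1, fun i => ?_, fun i j hij => ?_⟩
  · change ((Y i i : ℚ) : ℝ) = _
    rw [h2 i (Set.mem_univ _)]
  · change ((Y i j : ℚ) : ℝ) = _
    rw [h3 i j hij]

/-- The threshold. -/
theorem threshold (k : ℕ) :
    ((∀ (V : Type) [Finite V] (G : SimpleGraph V), TreewidthLE G k → RationalCompletions G) ↔
      k ≤ 2) ∧
    ((∀ (V : Type) [Finite V] (G : SimpleGraph V), TreewidthLE G k → RationalElliptope G) ↔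
      k ≤ 2) := by
  refine ⟨⟨fun h => ?_, fun hk V _ G hG => ?_⟩, ⟨fun h => ?_, fun hk V _ G hG => ?_⟩⟩
  · by_contra hk
    exact not_rationalElliptope_K33 (rationalElliptope_of_ratCompl
      (ratCompl_of_rationalCompletions (h _ _ (treewidth_K33.mono (by omega)))))
  · exact rationalCompletions_of_ratCompl (ratCompl_of_treewidth G (hG.mono hk))
  · by_contra hk
    exact not_rationalElliptope_K33 (h _ _ (treewidth_K33.mono (by omega)))
  · exact rationalElliptope_of_ratCompl (ratCompl_of_treewidth G (hG.mono hk))

/-- The threshold in the number of vertices. -/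
theorem threshold_card (k : ℕ) :
    ((∀ (V : Type) [Finite V] (G : SimpleGraph V), Nat.card V ≤ k → RationalCompletions G) ↔
      k ≤ 5) ∧
    ((∀ (V : Type) [Finite V] (G : SimpleGraph V), Nat.card V ≤ k → RationalElliptope G) ↔
      k ≤ 5) := by
  have h33 : Nat.card (Fin 3 ⊕ Fin 3) = 6 := by simp
  refine ⟨⟨fun h => ?_, fun hk V hV G hG => ?_⟩, ⟨fun h => ?_, fun hk V hV G hG => ?_⟩⟩
  · by_contra hk
    exact not_rationalElliptope_K33 (rationalElliptope_of_ratCompl
      (ratCompl_of_rationalCompletions (h _ _ (by rw [h33]; omega))))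
  · exact rationalCompletions_of_ratCompl ((Five.tame_of_card_le_five G (hG.trans hk)).ratCompl hV)
  · by_contra hk
    exact not_rationalElliptope_K33 (h _ _ (by rw [h33]; omega))
  · exact rationalElliptope_of_ratCompl ((Five.tame_of_card_le_five G (hG.trans hk)).ratCompl hV)

end Pool.Agent.Lib.MP_13b08e_lc.RC
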