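import Pool.Agent.Lib.MP_13b08e_lc.RC.Ext

/-!
The rational completion property is preserved by adding a vertex adjacent to all others.

Proof in words.  Let `u` be adjacent to all other vertices.  If `a u u = 0` then the row `u` of the
real completion is zero, so `a u v = 0` for all `v ≠ u`; take a rational completion on the rest and
add a zero row.  If `a u u > 0` put `a' i j = a i j - a u i * a u j / a u u`: the Schur complement
`X i j - a u i * a u j / a u u` is psd and completes `a'`, take a rational completion `Y'` of `a'`
and `Y i j = Y' i j + a u i * a u j / a u u` for `i, j ≠ u`.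
-/

namespace Pool.Agent.Lib.MP_13b08e_lc.RC

open Matrix

/-- The row of a zero diagonal entry of a positive semidefinite matrix vanishes. -/
private theorem row_zero {V : Type} [Fintype V] {X : Matrix V V ℝ} (h : X.PosSemidef) (u : V)
    (hu : X u u = 0) (v : V) : X u v = 0 := by
  classical
  by_contra hne
  have key : ∀ t : ℝ, 0 ≤ X v v + 2 * t * X u v := by
    intro t
    have h1 := quad_nonneg h (fun k => (Pi.single v (1 : ℝ) : V → ℝ) k
      + t * (Pi.single u (1 : ℝ) : V → ℝ) k)
    have h3 : ∀ i j, ((Pi.single v (1 : ℝ) : V → ℝ) i + t * (Pi.single u (1 : ℝ) : V → ℝ) i) *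
        X i j * ((Pi.single v (1 : ℝ) : V → ℝ) j + t * (Pi.single u (1 : ℝ) : V → ℝ) j)
        = (Pi.single v (1 : ℝ) : V → ℝ) i * X i j * (Pi.single v (1 : ℝ) : V → ℝ) j
          + t * ((Pi.single v (1 : ℝ) : V → ℝ) i * X i j * (Pi.single u (1 : ℝ) : V → ℝ) j)
          + t * ((Pi.single u (1 : ℝ) : V → ℝ) i * X i j * (Pi.single v (1 : ℝ) : V → ℝ) j)
          + t ^ 2 * ((Pi.single u (1 : ℝ) : V → ℝ) i * X i j *
            (Pi.single u (1 : ℝ) : V → ℝ) j) := fun i j => by ring
    simp only [h3, Finset.sum_add_distrib, ← Finset.mul_sum] at h1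
    have h4 : ∀ p q : V, ∑ i, ∑ j, (Pi.single p (1 : ℝ) : V → ℝ) i * X i j *
        (Pi.single q (1 : ℝ) : V → ℝ) j = X p q := fun p q => by
      simp [Pi.single_apply]
    rw [h4, h4, h4, h4, hu, psd_symm h v u] at h1
    linarith
  have h5 := key (-(X v v + 1) / (2 * X u v))
  have h6 : X v v + 2 * (-(X v v + 1) / (2 * X u v)) * X u v = -1 := by
    field_simp
    ring
  rw [h6] at h5
  linarith

theorem ratCompl_cone {V : Type} [Finite V] (G : SimpleGraph V) (u : V)
    (hu : ∀ v, v ≠ u → G.Adj u v)
    (h : RatCompl (G.induce {v | v ≠ u})) : RatCompl G := by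
  classical
  have : Fintype V := Fintype.ofFinite V
  rintro a ⟨X, hX⟩
  have hXu : ∀ v, X u v = a u v := by
    intro v
    by_cases hv : v = u
    · rw [hv, hX.diag u]
    · exact hX.edge u v (hu v hv)
  by_cases h0 : a u u = 0
  · -- zero row
    obtain ⟨y, hy, hyd, hye, hy0⟩ := ext_of_ratCompl h hX
    have hau : ∀ v, a u v = 0 := by
      intro v
      have h1 := row_zero hX.psd u (by rw [hXu u, h0]; simp) v
      rw [hXu v] at h1
      exact_mod_cast h1
    have hyu : ∀ v, y u v = 0 := fun v => hy0 u v (by simp)
    have hys := psd_symm_rat hy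
    refine ⟨y, hy, fun i => ?_, fun i j hij => ?_⟩
    · simp only [Matrix.map_apply]
      by_cases hi : i = u
      · rw [hi, hyu u, h0]
      · rw [hyd i hi]
    · simp only [Matrix.map_apply]
      by_cases hi : i = u
      · rw [hi, hyu j, hau j]
      · by_cases hj : j = u
        · have h1 : (a i j : ℝ) = a u i := by
            rw [← hX.edge i j hij, hj, psd_symm hX.psd i u, hXu i]
          rw [h1, hys i j, hj, hyu i, hau i]
        · rw [hye i hi j hj hij]
  · -- Schur complement
    have h0' : (a u u : ℝ) ≠ 0 := by exact_mod_cast h0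
    have hpos : 0 < a u u := by
      have h1 : (0 : ℝ) ≤ a u u := by
        rw [← hX.diag u]
        exact hX.psd.diag_nonneg
      have h2 : 0 ≤ a u u := by exact_mod_cast h1
      exact lt_of_le_of_ne h2 (Ne.symm h0)
    set a' : V → V → ℚ := fun i j => a i j - a u i * a u j / a u u with ha'
    set X' : Matrix V V ℝ := Matrix.of fun i j => X i j - a u i * a u j / a u u with hX'
    have hX'c : Completes G a' X' := by
      refine ⟨?_, fun i => ?_, fun i j hij => ?_⟩
      · have h1 := hX.psd.conjTranspose_mul_mul_same
          (Matrix.of fun (k v : V) => (if k = v then (1 : ℝ) else 0)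
            - (if k = u then (a u v : ℝ) / a u u else 0))
        convert h1 using 1
        ext i j
        have h2 : ∀ (f : V → ℝ) (v : V), ∑ k, ((if k = v then (1 : ℝ) else 0)
            - (if k = u then (a u v : ℝ) / a u u else 0)) * f k
            = f v - a u v / a u u * f u := by
          intro f v
          simp [sub_mul, Finset.sum_sub_distrib]
        have h3 : ∀ (f : V → ℝ) (v : V), ∑ k, f k * ((if k = v then (1 : ℝ) else 0)
            - (if k = u then (a u v : ℝ) / a u u else 0))
            = f v - a u v / a u u * f u := by
          intro f v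
          rw [← h2 f v]
          exact Finset.sum_congr rfl fun k _ => mul_comm _ _
        simp only [hX', Matrix.of_apply, Matrix.mul_apply, Matrix.conjTranspose_apply,
          star_trivial]
        rw [h3 (fun l => ∑ k, ((if k = i then (1 : ℝ) else 0)
            - (if k = u then (a u i : ℝ) / a u u else 0)) * X k l) j]
        simp only [h2]
        rw [psd_symm hX.psd i u, hXu i, hXu j, hXu u]
        field_simp
        ring
      · simp only [hX', ha', Matrix.of_apply, hX.diag i]
        push_cast
        ring
      · simp only [hX', ha', Matrix.of_apply, hX.edge i j hij]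
        push_cast
        ring
    obtain ⟨y, hy, hyd, hye, hy0⟩ := ext_of_ratCompl h hX'c
    have hyu : ∀ v, y u v = 0 := fun v => hy0 u v (by simp)
    have hys := psd_symm_rat hy
    refine ⟨Matrix.of fun i j => y i j + a u i * a u j / a u u, ?_, fun i => ?_,
      fun i j hij => ?_⟩
    · have h1 := Matrix.posSemidef_vecMulVec_self_star (fun i => (a u i : ℝ))
      have h2 : (0 : ℝ) ≤ (a u u : ℝ)⁻¹ := by
        have : (0 : ℝ) < a u u := by exact_mod_cast hpos
        positivity
      have h3 := hy.add (h1.smul h2)
      convert h3 using 1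
      ext i j
      simp only [Matrix.map_apply, Matrix.of_apply, Matrix.add_apply, Matrix.smul_apply,
        Matrix.vecMulVec_apply, smul_eq_mul, star_trivial]
      push_cast
      ring
    · simp only [Matrix.map_apply, Matrix.of_apply]
      by_cases hi : i = u
      · rw [hi, hyu u]
        field_simp
        ring_nf
      · rw [hyd i hi, ha']
        ring_nf
    · simp only [Matrix.map_apply, Matrix.of_apply]
      by_cases hi : i = u
      · rw [hi, hyu j]
        field_simp
        ring_nf
      · by_cases hj : j = u
        · have h1 : (a i j : ℝ) = a u i := by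
            rw [← hX.edge i j hij, hj, psd_symm hX.psd i u, hXu i]
          rw [h1, hys i j, hj, hyu i]
          congr 1
          field_simp
          ring
        · rw [hye i hi j hj hij, ha']
          congr 1
          ring

end Pool.Agent.Lib.MP_13b08e_lc.RC
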