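import Mathlib

/-!
Extremal conjugates.  `AU D U`: the number `√D cos U` is algebraic, all its conjugates are real,
of absolute value at most `√D`, and it is the smallest of them (so `U` is the largest angle).
`AL D L`: the same with `√D cos L` the largest of its conjugates.
-/

namespace Pool.Agent.Lib.MP_13b08e_lc.RC

open Real

noncomputable section

/-- The field of algebraic numbers. -/
abbrev QA := algebraicClosure ℚ ℂ

theorem isAlgClosure_QA : IsAlgClosure ℚ QA := algebraicClosure.isAlgClosure ℚ ℂ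

theorem normal_QA : Normal ℚ QA := @IsAlgClosure.normal ℚ QA _ _ _ isAlgClosure_QA

theorem isGalois_QA : IsGalois ℚ QA := by
  have := normal_QA
  exact ⟨⟩

theorem rational_of_fixed (x : QA) (h : ∀ σ : QA ≃ₐ[ℚ] QA, σ x = x) : ∃ q : ℚ, (x : ℂ) = q := by
  have := isGalois_QA
  have h1 := (InfiniteGalois.mem_bot_iff_fixed (k := ℚ) x).2 h
  obtain ⟨r, hr⟩ := IntermediateField.mem_bot.1 h1
  refine ⟨r, ?_⟩
  rw [← hr]
  rfl

/-- `z` represents the real number `x`. -/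
def Rep (z : QA) (x : ℝ) : Prop := (z : ℂ) = (x : ℂ)

theorem Rep.eq {z w : QA} {x : ℝ} (hz : Rep z x) (hw : Rep w x) : z = w :=
  Subtype.ext (hz.trans hw.symm)

theorem Rep.inj {z : QA} {x y : ℝ} (hz : Rep z x) (hw : Rep z y) : x = y :=
  Complex.ofReal_injective (hz.symm.trans hw)

theorem rep_rat (q : ℚ) : Rep (algebraMap ℚ QA q) (q : ℝ) := by
  change ((algebraMap ℚ QA q : QA) : ℂ) = (((q : ℝ)) : ℂ)
  have : ((algebraMap ℚ QA q : QA) : ℂ) = (q : ℂ) := rfl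
  rw [this]
  push_cast
  rfl

theorem Rep.add {z w : QA} {x y : ℝ} (hz : Rep z x) (hw : Rep w y) : Rep (z + w) (x + y) := by
  unfold Rep at *
  push_cast
  rw [hz, hw]

theorem Rep.sub {z w : QA} {x y : ℝ} (hz : Rep z x) (hw : Rep w y) : Rep (z - w) (x - y) := by
  unfold Rep at *
  push_cast
  rw [hz, hw]

theorem Rep.neg {z : QA} {x : ℝ} (hz : Rep z x) : Rep (-z) (-x) := by
  unfold Rep at *
  push_cast
  rw [hz]

theorem Rep.mul {z w : QA} {x y : ℝ} (hz : Rep z x) (hw : Rep w y) : Rep (z * w) (x * y) := by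
  unfold Rep at *
  push_cast
  rw [hz, hw]

theorem Rep.div {z w : QA} {x y : ℝ} (hz : Rep z x) (hw : Rep w y) : Rep (z / w) (x / y) := by
  unfold Rep at *
  push_cast
  rw [hz, hw]

/-- Square roots of represented numbers are represented. -/
theorem exists_rep_of_sq {z : QA} {x s : ℝ} (hz : Rep z x) (hs : s ^ 2 = x) :
    ∃ w : QA, Rep w s ∧ w ^ 2 = z := by
  have := isAlgClosure_QA
  have : IsAlgClosed QA := IsAlgClosure.isAlgClosed ℚ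
  obtain ⟨w, hw⟩ := IsAlgClosed.exists_pow_nat_eq z two_pos
  have h1 : (w : ℂ) ^ 2 = (s : ℂ) ^ 2 := by
    have h2 : ((w ^ 2 : QA) : ℂ) = (x : ℂ) := by rw [hw]; exact hz
    have h3 : ((w ^ 2 : QA) : ℂ) = (w : ℂ) ^ 2 := rfl
    rw [← h3, h2, ← hs]
    push_cast
    rfl
  rcases sq_eq_sq_iff_eq_or_eq_neg.1 h1 with h | h
  · exact ⟨w, h, hw⟩
  · refine ⟨-w, ?_, by rw [neg_sq, hw]⟩
    unfold Rep
    push_cast
    rw [h, neg_neg]

/-- Conjugates of a square root. -/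
theorem conj_sqrt {w z : QA} (hw : w ^ 2 = z) (σ : QA ≃ₐ[ℚ] QA) {x s : ℝ} (hz : Rep (σ z) x)
    (hs : s ^ 2 = x) : Rep (σ w) s ∨ Rep (σ w) (-s) := by
  have h1 : ((σ w : QA) : ℂ) ^ 2 = (s : ℂ) ^ 2 := by
    have h2 : ((σ w : QA) : ℂ) ^ 2 = ((σ z : QA) : ℂ) := by
      rw [← hw, map_pow]
      rfl
    rw [h2]
    have h3 : ((σ z : QA) : ℂ) = (x : ℂ) := hz
    rw [h3, ← hs]
    push_cast
    rfl
  rcases sq_eq_sq_iff_eq_or_eq_neg.1 h1 with h | h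
  · exact Or.inl h
  · refine Or.inr ?_
    unfold Rep
    rw [h]
    push_cast
    rfl

/-- `√D cos U` is the smallest of its conjugates, all of the form `√D cos φ`. -/
def AU (D : ℚ) (U : ℝ) : Prop :=
  ∃ α : QA, Rep α (√(D : ℝ) * cos U) ∧ ∀ σ : QA ≃ₐ[ℚ] QA, ∃ φ : ℝ, 0 ≤ φ ∧ φ ≤ π ∧
    Rep (σ α) (√(D : ℝ) * cos φ) ∧ φ ≤ U

/-- `√D cos L` is the largest of its conjugates, all of the form `√D cos φ`. -/
def AL (D : ℚ) (L : ℝ) : Prop :=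
  ∃ α : QA, Rep α (√(D : ℝ) * cos L) ∧ ∀ σ : QA ≃ₐ[ℚ] QA, ∃ φ : ℝ, 0 ≤ φ ∧ φ ≤ π ∧
    Rep (σ α) (√(D : ℝ) * cos φ) ∧ L ≤ φ

/-- An angle `φ ∈ [0, π]` with `√D * cos φ` rational. -/
def RatAng (D : ℚ) (φ : ℝ) : Prop :=
  0 ≤ φ ∧ φ ≤ π ∧ ∃ q : ℚ, √(D : ℝ) * cos φ = q

theorem RatAng.au {D : ℚ} {φ : ℝ} (h : RatAng D φ) : AU D φ := by
  obtain ⟨h0, h1, q, hq⟩ := h
  refine ⟨algebraMap ℚ QA q, by rw [hq]; exact rep_rat q, fun σ => ⟨φ, h0, h1, ?_, le_rfl⟩⟩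
  rw [AlgEquiv.commutes, hq]
  exact rep_rat q

theorem RatAng.al {D : ℚ} {φ : ℝ} (h : RatAng D φ) : AL D φ := by
  obtain ⟨h0, h1, q, hq⟩ := h
  refine ⟨algebraMap ℚ QA q, by rw [hq]; exact rep_rat q, fun σ => ⟨φ, h0, h1, ?_, le_rfl⟩⟩
  rw [AlgEquiv.commutes, hq]
  exact rep_rat q

theorem au_min {D : ℚ} {a b : ℝ} (ha : AU D a) (hb : AU D b) : AU D (min a b) := by
  rcases le_total a b with h | h
  · rwa [min_eq_left h]
  · rwa [min_eq_right h]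

theorem al_max {D : ℚ} {a b : ℝ} (ha : AL D a) (hb : AL D b) : AL D (max a b) := by
  rcases le_total a b with h | h
  · rwa [max_eq_right h]
  · rwa [max_eq_left h]

/-- The two-valued case `m ± √ρ`. -/
theorem two_valued {D : ℚ} (hD : 0 < D) (m ρ : ℚ) (hρ : 0 ≤ ρ)
    (h1 : ((m : ℝ) - √(ρ : ℝ)) ^ 2 ≤ D) (h2 : ((m : ℝ) + √(ρ : ℝ)) ^ 2 ≤ D) :
    AU D (arccos (((m : ℝ) - √(ρ : ℝ)) / √(D : ℝ))) ∧
      AL D (arccos (((m : ℝ) + √(ρ : ℝ)) / √(D : ℝ))) := by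
  have hD' : (0 : ℝ) < √(D : ℝ) := Real.sqrt_pos.2 (by exact_mod_cast hD)
  have hs : √(ρ : ℝ) ^ 2 = (ρ : ℝ) := Real.sq_sqrt (by exact_mod_cast hρ)
  have hs0 := Real.sqrt_nonneg (ρ : ℝ)
  have key : ∀ x : ℝ, x ^ 2 ≤ D → √(D : ℝ) * cos (arccos (x / √(D : ℝ))) = x := by
    intro x hx
    have h3 := abs_le.1 (Real.abs_le_sqrt hx)
    rw [cos_arccos]
    · field_simp
    · rw [le_div_iff₀ hD']
      linarith [h3.1]
    · rw [div_le_one hD']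
      exact h3.2
  obtain ⟨ω, hω, hω2⟩ := exists_rep_of_sq (rep_rat ρ) hs
  have hle : ((m : ℝ) - √(ρ : ℝ)) / √(D : ℝ) ≤ ((m : ℝ) + √(ρ : ℝ)) / √(D : ℝ) := by
    gcongr
    linarith
  have hconj : ∀ σ : QA ≃ₐ[ℚ] QA, Rep (σ ω) √(ρ : ℝ) ∨ Rep (σ ω) (-√(ρ : ℝ)) := by
    intro σ
    refine conj_sqrt hω2 σ (x := (ρ : ℝ)) ?_ hs
    rw [AlgEquiv.commutes]
    exact rep_rat ρ
  constructor
  · refine ⟨algebraMap ℚ QA m - ω, ?_, fun σ => ?_⟩
    · rw [key _ h1]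
      exact (rep_rat m).sub hω
    · rw [map_sub, AlgEquiv.commutes]
      rcases hconj σ with h | h
      · refine ⟨_, arccos_nonneg _, arccos_le_pi _, ?_, le_rfl⟩
        rw [key _ h1]
        exact (rep_rat m).sub h
      · refine ⟨arccos (((m : ℝ) + √(ρ : ℝ)) / √(D : ℝ)), arccos_nonneg _, arccos_le_pi _, ?_,
          arccos_le_arccos hle⟩
        rw [key _ h2]
        have := (rep_rat m).sub h
        rwa [sub_neg_eq_add] at this
  · refine ⟨algebraMap ℚ QA m + ω, ?_, fun σ => ?_⟩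
    · rw [key _ h2]
      exact (rep_rat m).add hω
    · rw [map_add, AlgEquiv.commutes]
      rcases hconj σ with h | h
      · refine ⟨_, arccos_nonneg _, arccos_le_pi _, ?_, le_rfl⟩
        rw [key _ h2]
        exact (rep_rat m).add h
      · refine ⟨arccos (((m : ℝ) - √(ρ : ℝ)) / √(D : ℝ)), arccos_nonneg _, arccos_le_pi _, ?_,
          arccos_le_arccos hle⟩
        rw [key _ h1]
        have := (rep_rat m).add h
        rwa [← sub_eq_add_neg] at this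

theorem au_pi {D : ℚ} (hD : 0 < D) : AU D π := by
  have hD' : (0 : ℝ) < √(D : ℝ) := Real.sqrt_pos.2 (by exact_mod_cast hD)
  have hs : √(D : ℝ) ^ 2 = (D : ℝ) := Real.sq_sqrt (by exact_mod_cast hD.le)
  have h := (two_valued hD 0 D hD.le (by simp [hs]) (by simp [hs])).1
  have h1 : (((0 : ℚ) : ℝ) - √(D : ℝ)) / √(D : ℝ) = -1 := by
    rw [Rat.cast_zero, zero_sub, neg_div, div_self hD'.ne']
  rwa [h1, arccos_neg_one] at h

theorem al_zero {D : ℚ} (hD : 0 < D) : AL D 0 := by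
  have hD' : (0 : ℝ) < √(D : ℝ) := Real.sqrt_pos.2 (by exact_mod_cast hD)
  have hs : √(D : ℝ) ^ 2 = (D : ℝ) := Real.sq_sqrt (by exact_mod_cast hD.le)
  have h := (two_valued hD 0 D hD.le (by simp [hs]) (by simp [hs])).2
  have h1 : (((0 : ℚ) : ℝ) + √(D : ℝ)) / √(D : ℝ) = 1 := by
    rw [Rat.cast_zero, zero_add, div_self hD'.ne']
  rwa [h1, arccos_one] at h

/-- Sums of angles. -/
theorem combine {D1 D2 D3 c : ℚ} (h1 : 0 < D1) (h2 : 0 < D2) (hc : 0 < c)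
    (h : D1 * D2 = D3 * c ^ 2) {α1 α2 : QA} {x1 x2 : ℝ} (hα1 : Rep α1 (√(D1 : ℝ) * cos x1))
    (hα2 : Rep α2 (√(D2 : ℝ) * cos x2)) (s : ℝ) (hs : s = 1 ∨ s = -1) :
    ∃ γ : QA, Rep γ (√(D3 : ℝ) * cos (x1 + s * x2)) ∧
      ∀ (σ : QA ≃ₐ[ℚ] QA) (φ1 φ2 : ℝ), Rep (σ α1) (√(D1 : ℝ) * cos φ1) →
        Rep (σ α2) (√(D2 : ℝ) * cos φ2) →
        Rep (σ γ) (√(D3 : ℝ) * cos (φ1 + φ2)) ∨ Rep (σ γ) (√(D3 : ℝ) * cos (φ1 - φ2)) := by
  have hc' : (0 : ℝ) < c := by exact_mod_cast hc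
  have q1 : √(D1 : ℝ) ^ 2 = (D1 : ℝ) := Real.sq_sqrt (by exact_mod_cast h1.le)
  have q2 : √(D2 : ℝ) ^ 2 = (D2 : ℝ) := Real.sq_sqrt (by exact_mod_cast h2.le)
  have h12 : √(D1 : ℝ) * √(D2 : ℝ) = √(D3 : ℝ) * c := by
    rw [← Real.sqrt_mul (by exact_mod_cast h1.le)]
    have h3 : (D1 : ℝ) * D2 = (D3 : ℝ) * (c : ℝ) ^ 2 := by exact_mod_cast h
    rw [h3, Real.sqrt_mul' _ (sq_nonneg _), Real.sqrt_sq hc'.le]
  have sinrep : ∀ {D : ℚ} {α : QA} {x : ℝ}, √(D : ℝ) ^ 2 = (D : ℝ) →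
      Rep α (√(D : ℝ) * cos x) → ∃ β : QA, Rep β (√(D : ℝ) * sin x) ∧
        β ^ 2 = algebraMap ℚ QA D - α * α := by
    intro D α x hD hα
    refine exists_rep_of_sq ((rep_rat D).sub (hα.mul hα)) ?_
    rw [mul_pow, sin_sq, hD]
    linear_combination (cos x) ^ 2 * hD
  obtain ⟨β1, hβ1, hβ1'⟩ := sinrep q1 hα1
  obtain ⟨β2, hβ2, hβ2'⟩ := sinrep q2 hα2
  have sinconj : ∀ {D : ℚ} {α β : QA} {φ : ℝ} (σ : QA ≃ₐ[ℚ] QA), √(D : ℝ) ^ 2 = (D : ℝ) →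
      β ^ 2 = algebraMap ℚ QA D - α * α → Rep (σ α) (√(D : ℝ) * cos φ) →
      Rep (σ β) (√(D : ℝ) * sin φ) ∨ Rep (σ β) (-(√(D : ℝ) * sin φ)) := by
    intro D α β φ σ hD hβ hα
    refine conj_sqrt hβ σ (x := (D : ℝ) - (√(D : ℝ) * cos φ) * (√(D : ℝ) * cos φ)) ?_ ?_
    · rw [map_sub, map_mul, AlgEquiv.commutes]
      exact (rep_rat D).sub (hα.mul hα)
    · rw [mul_pow, sin_sq, hD]
      linear_combination (cos φ) ^ 2 * hD
  -- the sign `s` as an element of the field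
  obtain ⟨s', hs'⟩ : ∃ s' : ℚ, (s' : ℝ) = s ∧ (s' = 1 ∨ s' = -1) := by
    rcases hs with rfl | rfl
    · exact ⟨1, by simp, Or.inl rfl⟩
    · exact ⟨-1, by simp, Or.inr rfl⟩
  refine ⟨(α1 * α2 - algebraMap ℚ QA s' * (β1 * β2)) / algebraMap ℚ QA c, ?_, ?_⟩
  · have h3 := (((hα1.mul hα2).sub ((rep_rat s').mul (hβ1.mul hβ2))).div (rep_rat c))
    have h4 : (√(D1 : ℝ) * cos x1 * (√(D2 : ℝ) * cos x2)
        - (s' : ℝ) * (√(D1 : ℝ) * sin x1 * (√(D2 : ℝ) * sin x2))) / (c : ℝ)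
        = √(D3 : ℝ) * cos (x1 + s * x2) := by
      have h5 : √(D1 : ℝ) * cos x1 * (√(D2 : ℝ) * cos x2)
          - (s' : ℝ) * (√(D1 : ℝ) * sin x1 * (√(D2 : ℝ) * sin x2))
          = (√(D1 : ℝ) * √(D2 : ℝ)) * (cos x1 * cos x2 - s * (sin x1 * sin x2)) := by
        rw [hs'.1]
        ring
      rw [h5, h12]
      have h6 : cos (x1 + s * x2) = cos x1 * cos x2 - s * (sin x1 * sin x2) := by
        rcases hs with rfl | rfl
        · rw [one_mul, cos_add]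
          ring
        · rw [neg_one_mul, ← sub_eq_add_neg, cos_sub]
          ring
      rw [h6]
      field_simp
    rwa [h4] at h3
  · intro σ φ1 φ2 hφ1 hφ2
    have e : σ ((α1 * α2 - algebraMap ℚ QA s' * (β1 * β2)) / algebraMap ℚ QA c)
        = (σ α1 * σ α2 - algebraMap ℚ QA s' * (σ β1 * σ β2)) / algebraMap ℚ QA c := by
      rw [map_div₀, map_sub, map_mul, map_mul, map_mul, AlgEquiv.commutes, AlgEquiv.commutes]
    rw [e]
    have main : ∀ ε : ℝ, (ε = 1 ∨ ε = -1) →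
        Rep (σ β1 * σ β2) (ε * (√(D1 : ℝ) * sin φ1 * (√(D2 : ℝ) * sin φ2))) →
        Rep ((σ α1 * σ α2 - algebraMap ℚ QA s' * (σ β1 * σ β2)) / algebraMap ℚ QA c)
          (√(D3 : ℝ) * cos (φ1 + φ2)) ∨
        Rep ((σ α1 * σ α2 - algebraMap ℚ QA s' * (σ β1 * σ β2)) / algebraMap ℚ QA c)
          (√(D3 : ℝ) * cos (φ1 - φ2)) := by
      intro ε hε hβ
      have h3 := (((hφ1.mul hφ2).sub ((rep_rat s').mul hβ)).div (rep_rat c))
      have h4 : (√(D1 : ℝ) * cos φ1 * (√(D2 : ℝ) * cos φ2)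
          - (s' : ℝ) * (ε * (√(D1 : ℝ) * sin φ1 * (√(D2 : ℝ) * sin φ2)))) / (c : ℝ)
          = √(D3 : ℝ) * (cos φ1 * cos φ2 - (s' * ε) * (sin φ1 * sin φ2)) := by
        have h5 : √(D1 : ℝ) * cos φ1 * (√(D2 : ℝ) * cos φ2)
            - (s' : ℝ) * (ε * (√(D1 : ℝ) * sin φ1 * (√(D2 : ℝ) * sin φ2)))
            = (√(D1 : ℝ) * √(D2 : ℝ)) * (cos φ1 * cos φ2 - (s' * ε) * (sin φ1 * sin φ2)) := by
          ring
        rw [h5, h12]
        field_simp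
      rw [h4] at h3
      have hse : (s' : ℝ) * ε = 1 ∨ (s' : ℝ) * ε = -1 := by
        rcases hs'.2 with rfl | rfl <;> rcases hε with rfl | rfl <;> simp
      rcases hse with h5 | h5
      · left
        rw [h5, one_mul, ← cos_add] at h3
        exact h3
      · right
        rw [h5, neg_one_mul, sub_neg_eq_add, ← cos_sub] at h3
        exact h3
    rcases sinconj σ q1 hβ1' hφ1 with a | a <;> rcases sinconj σ q2 hβ2' hφ2 with b | b
    · exact main 1 (Or.inl rfl) (by rw [one_mul]; exact a.mul b)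
    · refine main (-1) (Or.inr rfl) ?_
      have := a.mul b
      have e2 : √(D1 : ℝ) * sin φ1 * -(√(D2 : ℝ) * sin φ2)
          = -1 * (√(D1 : ℝ) * sin φ1 * (√(D2 : ℝ) * sin φ2)) := by ring
      rwa [e2] at this
    · refine main (-1) (Or.inr rfl) ?_
      have := a.mul b
      have e2 : -(√(D1 : ℝ) * sin φ1) * (√(D2 : ℝ) * sin φ2)
          = -1 * (√(D1 : ℝ) * sin φ1 * (√(D2 : ℝ) * sin φ2)) := by ring
      rwa [e2] at this
    · refine main 1 (Or.inl rfl) ?_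
      have := a.mul b
      have e2 : -(√(D1 : ℝ) * sin φ1) * -(√(D2 : ℝ) * sin φ2)
          = 1 * (√(D1 : ℝ) * sin φ1 * (√(D2 : ℝ) * sin φ2)) := by ring
      rwa [e2] at this

theorem cos_eq_abs (x : ℝ) : cos x = cos |x| := (cos_abs x).symm

/-- `U1 + U2`. -/
theorem au_add {D1 D2 D3 c : ℚ} (h1 : 0 < D1) (h2 : 0 < D2) (h3 : 0 < D3) (hc : 0 < c)
    (h : D1 * D2 = D3 * c ^ 2) {U1 U2 : ℝ} (hU1 : AU D1 U1) (hU2 : AU D2 U2) :
    AU D3 (min π (U1 + U2)) := by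
  rcases le_total π (U1 + U2) with hπ | hπ
  · rw [min_eq_left hπ]
    exact au_pi h3
  · rw [min_eq_right hπ]
    obtain ⟨α1, hα1, k1⟩ := hU1
    obtain ⟨α2, hα2, k2⟩ := hU2
    obtain ⟨γ, hγ, k⟩ := combine h1 h2 hc h hα1 hα2 1 (Or.inl rfl)
    rw [one_mul] at hγ
    refine ⟨γ, hγ, fun σ => ?_⟩
    obtain ⟨φ1, a1, b1, r1, l1⟩ := k1 σ
    obtain ⟨φ2, a2, b2, r2, l2⟩ := k2 σ
    rcases k σ φ1 φ2 r1 r2 with r | r
    · exact ⟨φ1 + φ2, by linarith, by linarith, r, by linarith⟩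
    · refine ⟨|φ1 - φ2|, abs_nonneg _, abs_le.2 ⟨by linarith, by linarith⟩, ?_,
        abs_le.2 ⟨by linarith, by linarith⟩⟩
      rwa [cos_eq_abs] at r

/-- `2 π - L1 - L2`. -/
theorem al_add {D1 D2 D3 c : ℚ} (h1 : 0 < D1) (h2 : 0 < D2) (h3 : 0 < D3) (hc : 0 < c)
    (h : D1 * D2 = D3 * c ^ 2) {L1 L2 : ℝ} (hL1 : AL D1 L1) (hL2 : AL D2 L2) :
    AU D3 (min π (2 * π - L1 - L2)) := by
  rcases le_total π (2 * π - L1 - L2) with hπ | hπ
  · rw [min_eq_left hπ]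
    exact au_pi h3
  · rw [min_eq_right hπ]
    obtain ⟨α1, hα1, k1⟩ := hL1
    obtain ⟨α2, hα2, k2⟩ := hL2
    obtain ⟨γ, hγ, k⟩ := combine h1 h2 hc h hα1 hα2 1 (Or.inl rfl)
    rw [one_mul] at hγ
    have e : cos (2 * π - L1 - L2) = cos (L1 + L2) := by
      rw [← cos_two_pi_sub (L1 + L2)]
      ring_nf
    refine ⟨γ, by rw [e]; exact hγ, fun σ => ?_⟩
    obtain ⟨φ1, a1, b1, r1, l1⟩ := k1 σ
    obtain ⟨φ2, a2, b2, r2, l2⟩ := k2 σ
    rcases k σ φ1 φ2 r1 r2 with r | r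
    · refine ⟨2 * π - (φ1 + φ2), by linarith, by linarith, ?_, by linarith⟩
      rw [cos_two_pi_sub]
      exact r
    · refine ⟨|φ1 - φ2|, abs_nonneg _, abs_le.2 ⟨by linarith, by linarith⟩, ?_,
        abs_le.2 ⟨by linarith, by linarith⟩⟩
      rwa [cos_eq_abs] at r

/-- `L1 - U2`. -/
theorem al_sub {D1 D2 D3 c : ℚ} (h1 : 0 < D1) (h2 : 0 < D2) (h3 : 0 < D3) (hc : 0 < c)
    (h : D1 * D2 = D3 * c ^ 2) {L1 U2 : ℝ} (hL1 : AL D1 L1) (hU2 : AU D2 U2) :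
    AL D3 (max 0 (L1 - U2)) := by
  rcases le_total (L1 - U2) 0 with h0 | h0
  · rw [max_eq_left h0]
    exact al_zero h3
  · rw [max_eq_right h0]
    obtain ⟨α1, hα1, k1⟩ := hL1
    obtain ⟨α2, hα2, k2⟩ := hU2
    obtain ⟨γ, hγ, k⟩ := combine h1 h2 hc h hα1 hα2 (-1) (Or.inr rfl)
    rw [neg_one_mul, ← sub_eq_add_neg] at hγ
    refine ⟨γ, hγ, fun σ => ?_⟩
    obtain ⟨φ1, a1, b1, r1, l1⟩ := k1 σ
    obtain ⟨φ2, a2, b2, r2, l2⟩ := k2 σ
    rcases k σ φ1 φ2 r1 r2 with r | r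
    · rcases le_total (φ1 + φ2) π with hp | hp
      · exact ⟨φ1 + φ2, by linarith, hp, r, by linarith⟩
      · refine ⟨2 * π - (φ1 + φ2), by linarith, by linarith, ?_, by linarith⟩
        rw [cos_two_pi_sub]
        exact r
    · exact ⟨φ1 - φ2, by linarith, by linarith, r, by linarith⟩

/-- Equal bounds are rational. -/
theorem ratAng_of_eq {D : ℚ} (hD : 0 < D) {U : ℝ} (h0 : 0 ≤ U) (hπ : U ≤ π) (hU : AU D U)
    (hL : AL D U) : RatAng D U := by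
  have hD' : (0 : ℝ) < √(D : ℝ) := Real.sqrt_pos.2 (by exact_mod_cast hD)
  obtain ⟨α, hα, k⟩ := hU
  obtain ⟨α', hα', k'⟩ := hL
  have e : α' = α := hα'.eq hα
  subst e
  have hfix : ∀ σ : QA ≃ₐ[ℚ] QA, σ α' = α' := by
    intro σ
    obtain ⟨φ, a, b, r, l⟩ := k σ
    obtain ⟨φ', a', b', r', l'⟩ := k' σ
    have h1 := r.inj r'
    have h2 : cos φ = cos φ' := mul_left_cancel₀ hD'.ne' h1
    have h3 : φ = φ' := injOn_cos ⟨a, b⟩ ⟨a', b'⟩ h2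
    have h4 : φ = U := by linarith
    rw [h4] at r
    exact r.eq hα
  obtain ⟨q, hq⟩ := rational_of_fixed α' hfix
  refine ⟨h0, hπ, q, ?_⟩
  have h5 : (((√(D : ℝ) * cos U : ℝ)) : ℂ) = (((q : ℝ)) : ℂ) := by
    have h6 : (α' : ℂ) = ((√(D : ℝ) * cos U : ℝ) : ℂ) := hα
    rw [← h6, hq]
    push_cast
    rfl
  exact Complex.ofReal_injective h5

/-- Choice of a typed angle in an interval. -/
theorem exists_ratAng {D : ℚ} (hD : 0 < D) {L U : ℝ} (hLU : L ≤ U) (h0 : 0 ≤ L)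
    (hπ : U ≤ π) (hU : AU D U) (hL : AL D L) :
    ∃ τ, RatAng D τ ∧ L ≤ τ ∧ τ ≤ U := by
  rcases hLU.eq_or_lt with h | h
  · subst h
    exact ⟨L, ratAng_of_eq hD h0 hπ hU hL, le_rfl, le_rfl⟩
  · have hD' : (0 : ℝ) < √(D : ℝ) := Real.sqrt_pos.2 (by exact_mod_cast hD)
    have h1 : √(D : ℝ) * cos U < √(D : ℝ) * cos L :=
      mul_lt_mul_of_pos_left (cos_lt_cos_of_nonneg_of_le_pi h0 hπ h) hD'
    obtain ⟨q, hq1, hq2⟩ := exists_rat_btwn h1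
    have h3 : cos U < q / √(D : ℝ) := by
      rw [lt_div_iff₀ hD']
      linarith
    have h4 : (q : ℝ) / √(D : ℝ) < cos L := by
      rw [div_lt_iff₀ hD']
      linarith
    refine ⟨arccos (q / √(D : ℝ)), ⟨arccos_nonneg _, arccos_le_pi _, q, ?_⟩, ?_, ?_⟩
    · rw [cos_arccos (by linarith [neg_one_le_cos U]) (by linarith [cos_le_one L])]
      field_simp
    · have h2 : arccos (cos L) = L := arccos_cos h0 (by linarith)
      calc L = arccos (cos L) := h2.symm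
        _ ≤ _ := arccos_le_arccos h4.le
    · have h2 : arccos (cos U) = U := arccos_cos (by linarith) hπ
      calc _ ≤ arccos (cos U) := arccos_le_arccos h3.le
        _ = U := h2

end

end Pool.Agent.Lib.MP_13b08e_lc.RC
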