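import Pool.Agent.Lib.MP_13b08e_lc.Defs

/-!
Rational positive semidefinite completions of rational partial matrices with given diagonal.
-/

namespace Pool.Agent.Lib.MP_13b08e_lc.RC

/-- `X` is a positive semidefinite completion of the rational partial matrix with diagonal entries
`a i i` and with entries `a i j` at the edges `ij` of `G`. -/
structure Completes {V : Type} (G : SimpleGraph V) (a : V → V → ℚ) (X : Matrix V V ℝ) : Prop where
  psd : X.PosSemidef
  diag : ∀ i, X i i = a i i
  edge : ∀ i j, G.Adj i j → X i j = a i j

/-- Every rational partial matrix with pattern `G` (all diagonal entries given) which has a real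
positive semidefinite completion has a rational one. -/
def RatCompl {V : Type} (G : SimpleGraph V) : Prop :=
  ∀ a : V → V → ℚ, (∃ X : Matrix V V ℝ, Completes G a X) →
    ∃ Y : Matrix V V ℚ, Completes G a (Y.map (fun q : ℚ => (q : ℝ)))

end Pool.Agent.Lib.MP_13b08e_lc.RC
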