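import Pool.Agent.Lib.MP_13b08e_lc.RC.Cone

/-!
The elliptope form of the rational completion property, its invariance under isomorphisms, and
wheels.
-/

namespace Pool.Agent.Lib.MP_13b08e_lc.RC

open Matrix SimpleGraph

/-- The rational completion property gives rational completions of rational points of the
elliptope. -/
theorem elliptope_of_ratCompl {V : Type} [Finite V] (G : SimpleGraph V) (h : RatCompl G)
    (x : G.edgeSet → ℚ) (hx : InElliptope G x) :
    ∃ Y : Matrix V V ℚ, IsCompletion G x (Y.map (fun q : ℚ => (q : ℝ))) := by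
  classical
  obtain ⟨X, hX⟩ := hx
  let a : V → V → ℚ := fun i j =>
    if hij : G.Adj i j then x ⟨s(i, j), hij⟩ else 1
  have ha1 : ∀ i, a i i = 1 := fun i => by simp [a]
  have ha2 : ∀ i j (hij : G.Adj i j), a i j = x ⟨s(i, j), hij⟩ := fun i j hij => by
    simp [a, hij]
  obtain ⟨Y, hY⟩ := h a ⟨X, hX.psd, fun i => by rw [hX.diag i, ha1]; simp,
    fun i j hij => by rw [hX.edge i j hij, ha2 i j hij]⟩
  refine ⟨Y, hY.psd, fun i => ?_, fun i j hij => ?_⟩
  · rw [hY.diag i, ha1]
    simp
  · rw [hY.edge i j hij, ha2 i j hij]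

/-- The rational completion property is invariant under graph isomorphisms. -/
theorem ratCompl_iso {V W : Type} {G : SimpleGraph V} {H : SimpleGraph W} (e : G ≃g H)
    (h : RatCompl G) : RatCompl H := by
  rintro a ⟨X, hX⟩
  obtain ⟨Y, hY⟩ := h (fun i j => a (e i) (e j)) ⟨X.submatrix e e,
    { psd := hX.psd.submatrix _
      diag := fun i => hX.diag _
      edge := fun i j hij => hX.edge _ _ (e.map_adj_iff.2 hij) }⟩
  refine ⟨Y.submatrix e.symm e.symm, ?_, fun i => ?_, fun i j hij => ?_⟩
  · exact hY.psd.submatrix e.symm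
  · have h1 := hY.diag (e.symm i)
    simpa using h1
  · have h1 := hY.edge (e.symm i) (e.symm j) (e.symm.map_adj_iff.2 hij)
    simpa using h1

/-- A wheel over a cycle with the rational completion property has the rational completion
property. -/
theorem ratCompl_wheel {V : Type} [Finite V] (G : SimpleGraph V) (u : V)
    (hu : ∀ v, v ≠ u → G.Adj u v) (n : ℕ)
    (e : (cycleGraph n) ≃g (G.induce {v | v ≠ u})) (hcyc : RatCompl (cycleGraph n)) :
    RatCompl G :=
  ratCompl_cone G u hu (ratCompl_iso e hcyc)

end Pool.Agent.Lib.MP_13b08e_lc.RC
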