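import Pool.Agent.Lib.MP_13b08e_lc.RC.Ext

/-!
The rational completion property is preserved by gluing along a complete subgraph.

Proof in words.  Restrict the real completion to `A` and to `B`; this gives rational completions `Y`
on `A` and `Z` on `B`, which agree on the clique `K = A ∩ B` (all entries given there).  For
`b ∈ B \ A` there is a rational vector `z_b` on `K` with `Z_KK z_b = Z_Kb`: otherwise (linear
algebra over ℚ, e.g. `Submodule.exists_dual_map_eq_bot_of_notMem`) some rational `c` on `K` has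
`Z_KK c = 0` and `c ⬝ Z_Kb ≠ 0`, and `t ↦ Z_bb + 2 t c ⬝ Z_Kb` is not bounded below, contradiction
to `Z` psd at the vectors `e_b + t c`.  Put `Y_ab := Σ_{k ∈ K} Y_ak (z_b)_k` for `a ∈ A`,
`b ∈ B \ A`.  With `ζ = Σ_b w_b z_b` the quadratic form at `(w_A, w_{B \ A})` is
`(w_A + ζ)ᵀ Y (w_A + ζ) + (-ζ, w)ᵀ Z (-ζ, w)`, a sum of two nonnegative numbers.
-/

namespace Pool.Agent.Lib.MP_13b08e_lc.RC

open Matrix

theorem ratCompl_glue {V : Type} [Finite V] (G : SimpleGraph V) (A B : Set V)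
    (hAB : A ∪ B = Set.univ)
    (hK : ∀ a ∈ A ∩ B, ∀ b ∈ A ∩ B, a ≠ b → G.Adj a b)
    (hno : ∀ a ∈ A \ B, ∀ b ∈ B \ A, ¬ G.Adj a b)
    (hA : RatCompl (G.induce A)) (hB : RatCompl (G.induce B)) : RatCompl G := by
  classical
  have : Fintype V := Fintype.ofFinite V
  rintro a ⟨X, hX⟩
  obtain ⟨y, hy, hyd, hye, -⟩ := ext_of_ratCompl hA hX
  obtain ⟨z, hz, hzd, hze, -⟩ := ext_of_ratCompl hB hX
  have zs := psd_symm_rat hz
  have hinB : ∀ v, v ∉ A → v ∈ B := fun v hv => by
    have h1 : v ∈ A ∪ B := hAB ▸ Set.mem_univ v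
    exact h1.resolve_left hv
  have hyz : ∀ i ∈ A ∩ B, ∀ j ∈ A ∩ B, y i j = z i j := by
    intro i hi j hj
    by_cases h : i = j
    · subst h
      rw [hyd i hi.1, hzd i hi.2]
    · rw [hye i hi.1 j hj.1 (hK i hi j hj h), hze i hi.2 j hj.2 (hK i hi j hj h)]
  choose u hu0 hu using fun b => exists_solution hz (A ∩ B) b
  set P : Matrix V V ℚ :=
    Matrix.of fun k v => if v ∈ A then (if k = v then 1 else 0) else u v k with hP
  set R : Matrix V V ℚ :=
    Matrix.of fun k v => if v ∈ A then 0 else (if k = v then 1 else 0) - u v k with hR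
  have hW : ∀ i j, (Pᵀ * y * P + Rᵀ * z * R) i j
      = (∑ l, (∑ k, P k i * y k l) * P l j) + ∑ l, (∑ k, R k i * z k l) * R l j := by
    intro i j
    simp [Matrix.add_apply, Matrix.mul_apply]
  have hP1 : ∀ i ∈ A, ∀ l, ∑ k, P k i * y k l = y i l := by
    intro i hi l
    simp [hP, hi]
  have hP2 : ∀ i, i ∉ A → ∀ l, ∑ k, P k i * y k l = ∑ k, u i k * y k l := by
    intro i hi l
    simp [hP, hi]
  have hR1 : ∀ i ∈ A, ∀ l, ∑ k, R k i * z k l = 0 := by
    intro i hi l
    simp [hR, hi]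
  have hR2 : ∀ i, i ∉ A → ∀ l, ∑ k, R k i * z k l = z i l - ∑ k, u i k * z k l := by
    intro i hi l
    simp [hR, hi, sub_mul, Finset.sum_sub_distrib]
  -- entries
  have h11 : ∀ i ∈ A, ∀ j ∈ A, (Pᵀ * y * P + Rᵀ * z * R) i j = y i j := by
    intro i hi j hj
    rw [hW]
    simp only [hP1 i hi, hR1 i hi, zero_mul, Finset.sum_const_zero, add_zero]
    simp [hP, hj]
  have h12 : ∀ i ∈ A ∩ B, ∀ j, j ∉ A → (Pᵀ * y * P + Rᵀ * z * R) i j = z i j := by
    intro i hi j hj
    rw [hW]
    simp only [hP1 i hi.1, hR1 i hi.1, zero_mul, Finset.sum_const_zero, add_zero]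
    rw [← hu j i hi]
    refine Finset.sum_congr rfl fun l _ => ?_
    by_cases hl : l ∈ A ∩ B
    · simp [hP, hj, hyz i hi l hl]
    · simp [hP, hj, hu0 j l hl]
  have hsum : ∀ i j, ∑ l, (∑ k, u i k * y k l) * u j l = ∑ l, (∑ k, u i k * z k l) * u j l := by
    intro i j
    refine Finset.sum_congr rfl fun l _ => ?_
    by_cases hl : l ∈ A ∩ B
    · congr 1
      refine Finset.sum_congr rfl fun k _ => ?_
      by_cases hk : k ∈ A ∩ B
      · rw [hyz k hk l hl]
      · simp [hu0 i k hk]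
    · simp [hu0 j l hl]
  have hQ1 : ∀ i j, ∑ l, (∑ k, u i k * z k l) * u j l = ∑ k, u i k * z k j := by
    intro i j
    have h1 : ∑ l, (∑ k, u i k * z k l) * u j l = ∑ k, u i k * ∑ l, z k l * u j l := by
      simp only [Finset.sum_mul, Finset.mul_sum]
      rw [Finset.sum_comm]
      exact Finset.sum_congr rfl fun k _ => Finset.sum_congr rfl fun l _ => by ring
    rw [h1]
    refine Finset.sum_congr rfl fun k _ => ?_
    by_cases hk : k ∈ A ∩ B
    · rw [hu j k hk]
    · simp [hu0 i k hk]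
  have hQ2 : ∀ i j, ∑ l, (∑ k, u i k * z k l) * u j l = ∑ l, z i l * u j l := by
    intro i j
    refine Finset.sum_congr rfl fun l _ => ?_
    by_cases hl : l ∈ A ∩ B
    · congr 1
      rw [zs i l, ← hu i l hl]
      exact Finset.sum_congr rfl fun k _ => by rw [zs k l]; ring
    · simp [hu0 j l hl]
  have h22 : ∀ i, i ∉ A → ∀ j, j ∉ A → (Pᵀ * y * P + Rᵀ * z * R) i j = z i j := by
    intro i hi j hj
    rw [hW]
    have h1 : ∑ l, (∑ k, P k i * y k l) * P l j = ∑ l, (∑ k, u i k * z k l) * u j l := by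
      rw [← hsum]
      refine Finset.sum_congr rfl fun l _ => ?_
      rw [hP2 i hi l]
      simp [hP, hj]
    have h2 : ∑ l, (∑ k, R k i * z k l) * R l j
        = z i j - (∑ k, u i k * z k j) - (∑ l, z i l * u j l)
          + ∑ l, (∑ k, u i k * z k l) * u j l := by
      have h3 : ∀ l, (∑ k, R k i * z k l) * R l j
          = ((z i l - ∑ k, u i k * z k l) * (if l = j then 1 else 0))
            - z i l * u j l + (∑ k, u i k * z k l) * u j l := by
        intro l
        rw [hR2 i hi l]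
        have h4 : R l j = (if l = j then 1 else 0) - u j l := by simp [hR, hj]
        rw [h4]
        ring
      simp only [h3, Finset.sum_add_distrib, Finset.sum_sub_distrib]
      simp
    rw [h1, h2, ← hQ1 i j, ← hQ2 i j]
    ring
  have hpsd : ((Pᵀ * y * P + Rᵀ * z * R).map (fun q : ℚ => (q : ℝ))).PosSemidef := by
    have h1 := (hy.conjTranspose_mul_mul_same (P.map (fun q : ℚ => (q : ℝ)))).add
      (hz.conjTranspose_mul_mul_same (R.map (fun q : ℚ => (q : ℝ))))
    convert h1 using 1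
    ext i j
    simp only [Matrix.map_apply, Matrix.add_apply, Matrix.mul_apply, Matrix.transpose_apply,
      Matrix.conjTranspose_apply, star_trivial]
    push_cast
    rfl
  have hsym := psd_symm_rat hpsd
  refine ⟨Pᵀ * y * P + Rᵀ * z * R, hpsd, ?_, ?_⟩
  · intro i
    simp only [Matrix.map_apply]
    by_cases hi : i ∈ A
    · rw [h11 i hi i hi, hyd i hi]
    · rw [h22 i hi i hi, hzd i (hinB i hi)]
  · intro i j hij
    simp only [Matrix.map_apply]
    by_cases hi : i ∈ A
    · by_cases hj : j ∈ A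
      · rw [h11 i hi j hj, hye i hi j hj hij]
      · have hjB := hinB j hj
        have hiB : i ∈ B := by
          by_contra h
          exact hno i ⟨hi, h⟩ j ⟨hjB, hj⟩ hij
        rw [h12 i ⟨hi, hiB⟩ j hj, hze i hiB j hjB hij]
    · have hiB := hinB i hi
      by_cases hj : j ∈ A
      · have hjB : j ∈ B := by
          by_contra h
          exact hno j ⟨hj, h⟩ i ⟨hiB, hi⟩ hij.symm
        rw [hsym i j, h12 j ⟨hj, hjB⟩ i hi, zs j i, hze i hiB j hjB hij]
      · rw [h22 i hi j hj, hze i hiB j (hinB j hj) hij]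

end Pool.Agent.Lib.MP_13b08e_lc.RC
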