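import Pool.Agent.Lib.MP_13b08e_lc.RC.Final
import Pool.Agent.Lib.MP_13b08e_lc.RC.Cone
import Pool.Agent.Lib.MP_13b08e_lc.RC.Glue
import Pool.Agent.Lib.MP_13b08e_lc.RC.Ellip

/-!
Density of the rational completions, treewidth, and bounds given on unordered pairs.
-/

namespace Pool.Agent.Lib.MP_13b08e_lc.RC

/-- `X` is positive semidefinite with diagonal `δ` and its entries at the edges of `H` satisfy the
bounds `l ≤ X ≤ u`. -/
structure BoxPsd {V : Type} (H : SimpleGraph V) (δ : V → ℚ) (l u : Sym2 V → ℚ)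
    (X : Matrix V V ℝ) : Prop where
  psd : X.PosSemidef
  diag : ∀ i, X i i = δ i
  box : ∀ i j, H.Adj i j → (l s(i, j) : ℝ) ≤ X i j ∧ X i j ≤ u s(i, j)

/-- Every four pairwise adjacent vertices of `H` contain at most one pair with `l ≠ u`. -/
def OneFree {V : Type} (H : SimpleGraph V) (l u : Sym2 V → ℚ) : Prop :=
  ∀ a b c e : V, H.Adj a b → H.Adj a c → H.Adj a e → H.Adj b c → H.Adj b e → H.Adj c e →
    l s(a, b) ≠ u s(a, b) → l s(a, c) = u s(a, c) ∧ l s(c, e) = u s(c, e)

theorem box_completion {V : Type} [Finite V] (H : SimpleGraph V) (hH : IsChordal H)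
    (δ : V → ℚ) (l u : Sym2 V → ℚ) (hfree : OneFree H l u)
    (hX : ∃ X : Matrix V V ℝ, BoxPsd H δ l u X) :
    ∃ Y : Matrix V V ℚ, BoxPsd H δ l u (Y.map (fun q : ℚ => (q : ℝ))) := by
  obtain ⟨X, hX⟩ := hX
  obtain ⟨Y, h1, h2, h3⟩ := interval_completion H hH δ (fun i j => l s(i, j))
    (fun i j => u s(i, j)) hfree X hX.psd hX.diag hX.box
  refine ⟨Y, h1, fun i => ?_, fun i j hij => ?_⟩
  · change ((Y i i : ℚ) : ℝ) = _
    rw [h2 i]
  · have h4 := h3 i j hij
    change (l s(i, j) : ℝ) ≤ ((Y i j : ℚ) : ℝ) ∧ ((Y i j : ℚ) : ℝ) ≤ u s(i, j)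
    exact ⟨by exact_mod_cast h4.1, by exact_mod_cast h4.2⟩

/-- The rational completions are dense, as far as the entries at the edges of `H` are concerned. -/
theorem dense_completion {V : Type} [Finite V] (G H : SimpleGraph V) (hGH : G ≤ H)
    (hH : IsChordal H) (hfill : OneFill G H) (a : V → V → ℚ) (X : Matrix V V ℝ)
    (hX : Completes G a X) (ε : ℝ) (hε : 0 < ε) :
    ∃ Y : Matrix V V ℚ, Completes G a (Y.map (fun q : ℚ => (q : ℝ))) ∧
      ∀ i j, H.Adj i j → |(Y i j : ℝ) - X i j| < ε := by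
  classical
  have hq1 : ∀ i j : V, ∃ q : ℚ, X i j - ε < q ∧ (q : ℝ) < X i j := fun i j =>
    exists_rat_btwn (by linarith)
  have hq2 : ∀ i j : V, ∃ q : ℚ, X i j < q ∧ (q : ℝ) < X i j + ε := fun i j =>
    exists_rat_btwn (by linarith)
  choose q1 hq1 using hq1
  choose q2 hq2 using hq2
  obtain ⟨Y, h1, h2, h3⟩ := interval_completion H hH (fun v => a v v)
    (fun v w => if G.Adj v w then a v w else q1 v w)
    (fun v w => if G.Adj v w then a v w else q2 v w)
    (by
      intro p q r s k1 k2 k3 k4 k5 k6 k7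
      have h8 : ¬ G.Adj p q := fun h => k7 (by rw [if_pos h, if_pos h])
      have h9 := hfill p q r s k1 k2 k3 k4 k5 k6 h8
      exact ⟨by rw [if_pos h9.1, if_pos h9.1], by rw [if_pos h9.2, if_pos h9.2]⟩)
    X hX.psd hX.diag (by
      intro v w _
      by_cases h : G.Adj v w
      · rw [if_pos h, if_pos h, hX.edge v w h]
        exact ⟨le_refl _, le_refl _⟩
      · rw [if_neg h, if_neg h]
        exact ⟨(hq1 v w).2.le, (hq2 v w).1.le⟩)
  refine ⟨Y, ⟨h1, fun v => ?_, fun v w hvw => ?_⟩, fun v w hvw => ?_⟩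
  · change ((Y v v : ℚ) : ℝ) = _
    rw [h2 v]
  · have h4 := h3 v w (hGH hvw)
    rw [if_pos hvw, if_pos hvw] at h4
    change ((Y v w : ℚ) : ℝ) = _
    rw [le_antisymm h4.2 h4.1]
  · have h4 := h3 v w hvw
    by_cases h : G.Adj v w
    · rw [if_pos h, if_pos h] at h4
      rw [le_antisymm h4.2 h4.1, hX.edge v w h, sub_self, abs_zero]
      exact hε
    · rw [if_neg h, if_neg h] at h4
      have h5 : (q1 v w : ℝ) ≤ Y v w := by exact_mod_cast h4.1
      have h6 : (Y v w : ℝ) ≤ q2 v w := by exact_mod_cast h4.2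
      rw [abs_lt]
      constructor
      · linarith [(hq1 v w).1]
      · linarith [(hq2 v w).2]

theorem not_adj_of_cliqueFree {V : Type} {H : SimpleGraph V} (h : H.CliqueFree 4)
    (a b c e : V) (hab : H.Adj a b) (hac : H.Adj a c) (hae : H.Adj a e) (hbc : H.Adj b c)
    (hbe : H.Adj b e) (hce : H.Adj c e) : False := by
  classical
  refine h {a, b, c, e} ⟨?_, ?_⟩
  · intro x hx y hy hxy
    simp only [Finset.coe_insert, Finset.coe_singleton, Set.mem_insert_iff,
      Set.mem_singleton_iff] at hx hy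
    rcases hx with rfl | rfl | rfl | rfl <;> rcases hy with rfl | rfl | rfl | rfl <;>
      first
        | exact absurd rfl hxy
        | assumption
        | exact hab.symm
        | exact hac.symm
        | exact hae.symm
        | exact hbc.symm
        | exact hbe.symm
        | exact hce.symm
  · rw [Finset.card_insert_of_notMem, Finset.card_insert_of_notMem, Finset.card_pair hce.ne]
    · simp [hbc.ne, hbe.ne]
    · simp [hab.ne, hac.ne, hae.ne]

theorem ratCompl_of_treewidth {V : Type} [Finite V] (G : SimpleGraph V)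
    (hG : TreewidthLE G 2) : RatCompl G := by
  obtain ⟨H, h1, h2, h3⟩ := hG
  exact ratCompl_of_fill G H h1 h2 fun a b c e hab hac hae hbc hbe hce _ =>
    (not_adj_of_cliqueFree h3 a b c e hab hac hae hbc hbe hce).elim

/-- Cycles have treewidth at most two. -/
theorem treewidth_cycle (n : ℕ) : TreewidthLE (SimpleGraph.cycleGraph n) 2 := by
  classical
  obtain ⟨H, h1, h2, h3⟩ := cycle_fill n
  refine ⟨H, h1, h2, fun s hs => ?_⟩
  obtain ⟨a, t, hat, hst, ht⟩ := Finset.card_eq_succ.1 hs.card_eq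
  obtain ⟨b, c, e, hbc, hbe, hce, rfl⟩ := Finset.card_eq_three.1 ht
  have hmem : ∀ y, y = a ∨ y = b ∨ y = c ∨ y = e → y ∈ s := by
    intro y hy
    rw [← hst]
    simpa using hy
  have hcl := hs.isClique
  have hab : a ≠ b := fun h => hat (by simp [h])
  have hac : a ≠ c := fun h => hat (by simp [h])
  have hae : a ≠ e := fun h => hat (by simp [h])
  have ma := hmem a (Or.inl rfl)
  have mb := hmem b (Or.inr (Or.inl rfl))
  have mc := hmem c (Or.inr (Or.inr (Or.inl rfl)))
  have me := hmem e (Or.inr (Or.inr (Or.inr rfl)))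
  exact h3 a b c e (hcl ma mb hab) (hcl ma mc hac) (hcl ma me hae) (hcl mb mc hbc)
    (hcl mb me hbe) (hcl mc me hce)

end Pool.Agent.Lib.MP_13b08e_lc.RC
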