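import Pool.Agent.Lib.MP_13b08e_lc.RC.Defs

/-!
Perfect elimination orderings of finite chordal graphs (Dirac), and a chordal supergraph without
four pairwise adjacent vertices of a cycle.

Proof in words.  Let `W` be a finite set of vertices, `v ∈ W` not adjacent to all others.  Then
`W` has a simplicial vertex different from `v` and not adjacent to `v`: let `C` be a component of
the vertices of `W` which are not adjacent to and different from `v`, and `S` the set of neighbours
of `v` with a neighbour in `C`.  A shortest path through `C` between two nonadjacent vertices of `S`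
would give an induced cycle with `v`, so `S` is a clique, and one applies induction to `C ∪ S`.
-/

namespace Pool.Agent.Lib.MP_13b08e_lc.RC

open SimpleGraph

variable {V : Type}

/-- A walk of length `m` from `x` to `y` whose inner vertices are in `C`. -/
private def Chain (H : SimpleGraph V) (C : Set V) (x y : V) (m : ℕ) (p : ℕ → V) : Prop :=
  p 0 = x ∧ p m = y ∧ (∀ i, i < m → H.Adj (p i) (p (i + 1))) ∧ ∀ i, 0 < i → i < m → p i ∈ C

private theorem chain_shortcut {H : SimpleGraph V} {C : Set V} {x y : V} {m : ℕ} {p : ℕ → V}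
    (h : Chain H C x y m p) {i j : ℕ} (hij : i + 2 ≤ j) (hj : j ≤ m) (ha : H.Adj (p i) (p j)) :
    ∃ q, Chain H C x y (m - (j - i - 1)) q := by
  obtain ⟨h0, hm, hs, hC⟩ := h
  refine ⟨fun k => if k ≤ i then p k else p (k + (j - i - 1)), by simp [h0], ?_, ?_, ?_⟩
  · have h1 : ¬ (m - (j - i - 1) ≤ i) := by omega
    simp only [h1, if_false]
    rw [show m - (j - i - 1) + (j - i - 1) = m by omega, hm]
  · intro k hk
    by_cases h1 : k + 1 ≤ i
    · have h2 : k ≤ i := by omega
      simp only [h1, h2, if_true]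
      exact hs k (by omega)
    · by_cases h2 : k = i
      · subst h2
        simp only [le_refl, if_true, h1, if_false]
        rw [show k + 1 + (j - k - 1) = j by omega]
        exact ha
      · have h3 : ¬ (k ≤ i) := by omega
        simp only [h3, h1, if_false]
        rw [show k + 1 + (j - i - 1) = k + (j - i - 1) + 1 by omega]
        exact hs _ (by omega)
  · intro k h1 h2
    by_cases h3 : k ≤ i
    · simp only [h3, if_true]
      exact hC k h1 (by omega)
    · simp only [h3, if_false]
      exact hC _ (by omega) (by omega)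

private theorem no_chain {H : SimpleGraph V} (hH : IsChordal H) {C : Set V} {v x y : V}
    (hvx : H.Adj v x) (hvy : H.Adj v y) (hxy : x ≠ y) (hn : ¬ H.Adj x y)
    (hvC : ∀ c ∈ C, c ≠ v ∧ ¬ H.Adj v c) :
    ¬ ∃ m p, Chain H C x y m p := by
  classical
  intro hex
  obtain ⟨m, ⟨p, hp⟩, hmin⟩ : ∃ m, (∃ p, Chain H C x y m p) ∧
      ∀ k, k < m → ¬ ∃ p, Chain H C x y k p :=
    ⟨Nat.find hex, Nat.find_spec hex, fun k hk => Nat.find_min hex hk⟩
  have hNC : ∀ i j, i + 2 ≤ j → j ≤ m → ¬ H.Adj (p i) (p j) := by
    intro i j hij hj ha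
    exact hmin _ (by omega) (chain_shortcut hp hij hj ha)
  obtain ⟨h0, hpm, hs, hC⟩ := hp
  have hm2 : 2 ≤ m := by
    by_contra hlt
    have h1 : m = 0 ∨ m = 1 := by omega
    rcases h1 with h | h
    · rw [h] at hpm
      exact hxy (h0.symm.trans hpm)
    · have h2 := hs 0 (by omega)
      rw [h0] at h2
      rw [h] at hpm
      exact hn (hpm ▸ h2)
  have hinj : ∀ i j, i < j → j ≤ m → p i ≠ p j := by
    intro i j hij hj he
    by_cases hjm : j < m
    · exact hNC i (j + 1) (by omega) (by omega) (he ▸ hs j hjm)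
    · have hjm' : j = m := by omega
      subst hjm'
      rcases Nat.eq_zero_or_pos i with hi | hi
      · subst hi
        exact hxy (by rw [← h0, he, hpm])
      · refine hNC (i - 1) j (by omega) le_rfl ?_
        have h2 := hs (i - 1) (by omega)
        rw [show i - 1 + 1 = i by omega, he] at h2
        exact h2
  have hpv : ∀ i, i ≤ m → v ≠ p i := by
    intro i hi
    by_cases h1 : i = 0
    · rw [h1, h0]
      exact hvx.ne
    · by_cases h2 : i = m
      · rw [h2, hpm]
        exact hvy.ne
      · exact fun h3 => (hvC _ (hC i (by omega) (by omega))).1 h3.symm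
  have hadj : ∀ i, i ≤ m → (H.Adj v (p i) ↔ i = 0 ∨ i = m) := by
    intro i hi
    constructor
    · intro h
      by_contra h3
      push Not at h3
      exact (hvC _ (hC i (by omega) (by omega))).2 h
    · rintro (h | h)
      · rw [h, h0]
        exact hvx
      · rw [h, hpm]
        exact hvy
  let f : Fin (m + 2) → V := fun k => if k.val = 0 then v else p (k.val - 1)
  have hcyc : ∀ k l : Fin (m + 2), k < l →
      ((cycleGraph (m + 2)).Adj k l ↔ (k.val = 0 ∧ l.val = m + 1) ∨ l.val = k.val + 1) := by
    intro k l hkl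
    rw [cycleGraph_adj', Fin.coe_sub_iff_lt.2 hkl, Fin.coe_sub_iff_le.2 hkl.le]
    have h1 := l.isLt
    have h2 : k.val < l.val := hkl
    omega
  have key : ∀ k l : Fin (m + 2), k < l →
      f k ≠ f l ∧ (H.Adj (f k) (f l) ↔ (cycleGraph (m + 2)).Adj k l) := by
    intro k l hkl
    have h1 := l.isLt
    have h2 : k.val < l.val := hkl
    have hfl : f l = p (l.val - 1) := by
      have h3 : l.val ≠ 0 := by omega
      exact if_neg h3
    rw [hcyc k l hkl, hfl]
    by_cases hk : k.val = 0
    · have hfk : f k = v := if_pos hk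
      rw [hfk]
      refine ⟨hpv _ (by omega), ?_⟩
      rw [hadj _ (by omega)]
      omega
    · have hfk : f k = p (k.val - 1) := if_neg hk
      rw [hfk]
      refine ⟨hinj _ _ (by omega) (by omega), ?_⟩
      constructor
      · intro h
        by_contra h3
        exact hNC _ _ (by omega) (by omega) h
      · intro h
        have h3 : l.val - 1 = k.val - 1 + 1 := by omega
        rw [h3]
        exact hs _ (by omega)
  have hf : Function.Injective f := by
    intro k l hkl
    rcases lt_trichotomy k l with h | h | h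
    · exact absurd hkl (key k l h).1
    · exact h
    · exact absurd hkl.symm (key l k h).1
  refine (hH (m + 2) (by omega)).false ⟨⟨f, hf⟩, ?_⟩
  intro k l
  change H.Adj (f k) (f l) ↔ _
  rcases lt_trichotomy k l with h | h | h
  · exact (key k l h).2
  · subst h
    simp
  · rw [H.adj_comm, (cycleGraph (m + 2)).adj_comm]
    exact (key l k h).2

/-- `w` is simplicial in `W`. -/
private def Simp (H : SimpleGraph V) (W : Finset V) (w : V) : Prop :=
  ∀ a ∈ W, ∀ b ∈ W, H.Adj w a → H.Adj w b → a ≠ b → H.Adj a b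

private theorem exists_simp {H : SimpleGraph V} (hH : IsChordal H) :
    ∀ n : ℕ, ∀ W : Finset V, W.card ≤ n → ∀ v ∈ W, ∀ u ∈ W, u ≠ v → ¬ H.Adj v u →
      ∃ w ∈ W, w ≠ v ∧ ¬ H.Adj v w ∧ Simp H W w := by
  classical
  intro n
  induction n with
  | zero =>
    intro W hW v hv
    have h1 : W = ∅ := Finset.card_eq_zero.1 (by omega)
    rw [h1] at hv
    simp at hv
  | succ n ih =>
    intro W hW v hv u hu huv hnvu
    let r : V → V → Prop := fun a b =>
      (a ∈ W ∧ a ≠ v ∧ ¬ H.Adj v a) ∧ (b ∈ W ∧ b ≠ v ∧ ¬ H.Adj v b) ∧ H.Adj a b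
    let C : Set V := {c | Relation.ReflTransGen r u c}
    have hrs : Std.Symm r := ⟨fun a b h => ⟨h.2.1, h.1, h.2.2.symm⟩⟩
    have hCD : ∀ c ∈ C, c ∈ W ∧ c ≠ v ∧ ¬ H.Adj v c := by
      intro c hc
      have hc' : Relation.ReflTransGen r u c := hc
      cases hc' with
      | refl => exact ⟨hu, huv, hnvu⟩
      | tail _ h => exact h.2.1
    have hstep : ∀ c ∈ C, ∀ b, (b ∈ W ∧ b ≠ v ∧ ¬ H.Adj v b) → H.Adj c b → b ∈ C :=
      fun c hc b hb hcb => Relation.ReflTransGen.tail hc ⟨hCD c hc, hb, hcb⟩
    have hchain : ∀ x c1, c1 ∈ C → H.Adj x c1 → ∀ c2, Relation.ReflTransGen r c1 c2 →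
        ∃ (m : ℕ) (p : ℕ → V), 1 ≤ m ∧ p 0 = x ∧ p m = c2 ∧ (∀ i, i < m → H.Adj (p i) (p (i + 1))) ∧
          ∀ i, 0 < i → i ≤ m → p i ∈ C := by
      intro x c1 hc1 hx c2 h12
      induction h12 with
      | refl =>
        refine ⟨1, fun i => if i = 0 then x else c1, le_rfl, by simp, by simp, ?_, ?_⟩
        · intro i hi
          have h1 : i = 0 := by omega
          subst h1
          simpa using hx
        · intro i h1 h2
          have h3 : i ≠ 0 := by omega
          simp only [h3, if_false]
          exact hc1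
      | @tail b c hab hbc ih2 =>
        obtain ⟨m, p, hm, h0, hpm, hs, hCi⟩ := ih2
        refine ⟨m + 1, fun i => if i ≤ m then p i else c, by omega, by simp [h0], by simp, ?_, ?_⟩
        · intro i hi
          by_cases h1 : i + 1 ≤ m
          · have h2 : i ≤ m := by omega
            simp only [h1, h2, if_true]
            exact hs i (by omega)
          · have h2 : i = m := by omega
            subst h2
            simp only [le_refl, if_true, h1, if_false]
            rw [hpm]
            exact hbc.2.2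
        · intro i h1 h2
          by_cases h3 : i ≤ m
          · simp only [h3, if_true]
            exact hCi i h1 h3
          · simp only [h3, if_false]
            exact Relation.ReflTransGen.tail (Relation.ReflTransGen.trans hc1 hab) hbc
    have hS : ∀ x y, (H.Adj v x ∧ ∃ c ∈ C, H.Adj x c) → (H.Adj v y ∧ ∃ c ∈ C, H.Adj y c) →
        x ≠ y → H.Adj x y := by
      rintro x y ⟨hvx, c1, hc1, hx1⟩ ⟨hvy, c2, hc2, hy2⟩ hxy
      by_contra hn
      refine no_chain hH hvx hvy hxy hn (fun c hc => (hCD c hc).2) ?_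
      have h12 : Relation.ReflTransGen r c1 c2 :=
        Relation.ReflTransGen.trans (Relation.ReflTransGen.stdSymm.symm _ _ hc1) hc2
      obtain ⟨m, p, hm, h0, hpm, hs, hCi⟩ := hchain x c1 hc1 hx1 c2 h12
      refine ⟨m + 1, fun i => if i ≤ m then p i else y, by simp [h0], by simp, ?_, ?_⟩
      · intro i hi
        by_cases h1 : i + 1 ≤ m
        · have h2 : i ≤ m := by omega
          simp only [h1, h2, if_true]
          exact hs i (by omega)
        · have h2 : i = m := by omega
          subst h2
          simp only [le_refl, if_true, h1, if_false]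
          rw [hpm]
          exact hy2.symm
      · intro i h1 h2
        have h3 : i ≤ m := by omega
        simp only [h3, if_true]
        exact hCi i h1 h3
    let W' : Finset V := W.filter (fun w => w ∈ C ∨ (H.Adj v w ∧ ∃ c ∈ C, H.Adj w c))
    have hW' : ∀ w, w ∈ W' ↔ w ∈ W ∧ (w ∈ C ∨ (H.Adj v w ∧ ∃ c ∈ C, H.Adj w c)) := by
      intro w
      simp [W']
    have hvW' : v ∉ W' := by
      rw [hW']
      rintro ⟨-, h | h⟩
      · exact (hCD v h).2.1 rfl
      · exact H.irrefl h.1
    have hcard : W'.card ≤ n := by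
      have h1 : W' ⊂ W := by
        refine ⟨Finset.filter_subset _ _, fun h => hvW' (h hv)⟩
      have h2 := Finset.card_lt_card h1
      omega
    have hclos : ∀ c ∈ C, ∀ a ∈ W, H.Adj c a → a ∈ W' := by
      intro c hc a ha hca
      rw [hW']
      refine ⟨ha, ?_⟩
      by_cases h1 : H.Adj v a
      · exact Or.inr ⟨h1, c, hc, hca.symm⟩
      · left
        refine hstep c hc a ⟨ha, ?_, h1⟩ hca
        rintro rfl
        exact (hCD c hc).2.2 hca.symm
    have hlift : ∀ w ∈ C, Simp H W' w → ∃ w ∈ W, w ≠ v ∧ ¬ H.Adj v w ∧ Simp H W w := by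
      intro w hw hs
      refine ⟨w, (hCD w hw).1, (hCD w hw).2.1, (hCD w hw).2.2, ?_⟩
      intro a ha b hb hwa hwb hab
      exact hs a (hclos w hw a ha hwa) b (hclos w hw b hb hwb) hwa hwb hab
    have huC : u ∈ C := Relation.ReflTransGen.refl
    by_cases hcomp : ∀ a ∈ W', ∀ b ∈ W', a ≠ b → H.Adj a b
    · exact hlift u huC fun a ha b hb _ _ hab => hcomp a ha b hb hab
    · push Not at hcomp
      obtain ⟨a, ha, b, hb, hab, hnab⟩ := hcomp
      by_cases hsu : ∃ s ∈ W', (H.Adj v s ∧ ∃ c ∈ C, H.Adj s c) ∧ ∃ t ∈ W', t ≠ s ∧ ¬ H.Adj s t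
      · obtain ⟨s, hs, hsS, t, ht, hts, hnst⟩ := hsu
        obtain ⟨w, hw, hws, hnsw, hsimp⟩ := ih W' hcard s hs t ht hts hnst
        rcases ((hW' w).1 hw).2 with h | h
        · exact hlift w h hsimp
        · exact absurd (hS s w hsS h (Ne.symm hws)) hnsw
      · push Not at hsu
        obtain ⟨w, hw, hwa, hnaw, hsimp⟩ := ih W' hcard a ha b hb (Ne.symm hab) hnab
        rcases ((hW' w).1 hw).2 with h | h
        · exact hlift w h hsimp
        · exact absurd (hsu w hw h a ha (Ne.symm hwa)).symm hnaw

private theorem exists_order_aux {H : SimpleGraph V} (hH : IsChordal H) :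
    ∀ n : ℕ, ∀ W : Finset V, W.card = n → ∃ ord : V → ℕ,
      (∀ a ∈ W, ∀ b ∈ W, ord a = ord b → a = b) ∧
      ∀ v ∈ W, ∀ a ∈ W, ∀ b ∈ W, H.Adj v a → H.Adj v b → ord v < ord a → ord v < ord b →
        a ≠ b → H.Adj a b := by
  classical
  intro n
  induction n with
  | zero =>
    intro W hW
    have h1 : W = ∅ := Finset.card_eq_zero.1 hW
    subst h1
    exact ⟨fun _ => 0, by simp, by simp⟩
  | succ n ih =>
    intro W hW
    obtain ⟨w, hw, hsimp⟩ : ∃ w ∈ W, Simp H W w := by
      by_cases h : ∀ a ∈ W, ∀ b ∈ W, a ≠ b → H.Adj a b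
      · obtain ⟨w, hw⟩ : W.Nonempty := by
          rw [← Finset.card_pos]
          omega
        exact ⟨w, hw, fun a ha b hb _ _ hab => h a ha b hb hab⟩
      · push Not at h
        obtain ⟨a, ha, b, hb, hab, hnab⟩ := h
        obtain ⟨w, hw, -, -, hs⟩ := exists_simp hH _ W le_rfl a ha b hb (Ne.symm hab) hnab
        exact ⟨w, hw, hs⟩
    obtain ⟨ord, hinj, hord⟩ := ih (W.erase w) (by rw [Finset.card_erase_of_mem hw]; omega)
    refine ⟨fun x => if x = w then 0 else ord x + 1, ?_, ?_⟩
    · intro a ha b hb hab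
      by_cases h1 : a = w
      · by_cases h2 : b = w
        · rw [h1, h2]
        · simp [h1, h2] at hab
      · by_cases h2 : b = w
        · simp [h1, h2] at hab
        · simp only [h1, h2, if_false] at hab
          exact hinj a (Finset.mem_erase.2 ⟨h1, ha⟩) b (Finset.mem_erase.2 ⟨h2, hb⟩) (by omega)
    · intro v hv a ha b hb hva hvb hlt1 hlt2 hab
      have h1 : a ≠ w := by
        rintro rfl
        simp at hlt1
      have h2 : b ≠ w := by
        rintro rfl
        simp at hlt2
      by_cases h3 : v = w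
      · subst h3
        exact hsimp a ha b hb hva hvb hab
      · simp only [h1, h2, h3, if_false] at hlt1 hlt2
        exact hord v (Finset.mem_erase.2 ⟨h3, hv⟩) a (Finset.mem_erase.2 ⟨h1, ha⟩) b
          (Finset.mem_erase.2 ⟨h2, hb⟩) hva hvb (by omega) (by omega) hab

/-- A finite chordal graph has a perfect elimination ordering. -/
theorem exists_order {V : Type} [Finite V] (H : SimpleGraph V) (hH : IsChordal H) :
    ∃ ord : V → ℕ, Function.Injective ord ∧
      ∀ v a b, H.Adj v a → H.Adj v b → ord v < ord a → ord v < ord b → a ≠ b → H.Adj a b := by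
  classical
  have : Fintype V := Fintype.ofFinite V
  obtain ⟨ord, h1, h2⟩ := exists_order_aux hH _ (Finset.univ : Finset V) rfl
  exact ⟨ord, fun a b h => h1 a (Finset.mem_univ _) b (Finset.mem_univ _) h,
    fun v a b => h2 v (Finset.mem_univ _) a (Finset.mem_univ _) b (Finset.mem_univ _)⟩

/-- The fan triangulation of a cycle: a chordal supergraph without four pairwise adjacent
vertices. -/
theorem cycle_fill (n : ℕ) : ∃ H : SimpleGraph (Fin n), cycleGraph n ≤ H ∧ IsChordal H ∧
    ∀ a b c d : Fin n, H.Adj a b → H.Adj a c → H.Adj a d → H.Adj b c → H.Adj b d →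
      ¬ H.Adj c d := by
  let H : SimpleGraph (Fin n) :=
    { Adj := fun i j => i.val ≠ j.val ∧
        (i.val = 0 ∨ j.val = 0 ∨ i.val + 1 = j.val ∨ j.val + 1 = i.val)
      symm := ⟨by
        rintro i j ⟨h1, h2⟩
        exact ⟨h1.symm, by omega⟩⟩
      loopless := ⟨fun i h => h.1 rfl⟩ }
  have hH : ∀ i j : Fin n, H.Adj i j ↔ i.val ≠ j.val ∧
      (i.val = 0 ∨ j.val = 0 ∨ i.val + 1 = j.val ∨ j.val + 1 = i.val) := fun i j => Iff.rfl
  refine ⟨H, ?_, ?_, ?_⟩
  · intro i j hij
    rw [hH]
    have hne := hij.ne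
    have hne' : i.val ≠ j.val := fun h => hne (Fin.ext h)
    refine ⟨hne', ?_⟩
    rw [cycleGraph_adj'] at hij
    have hi := i.isLt
    have hj := j.isLt
    rcases lt_or_gt_of_ne hne with h | h
    · rw [Fin.coe_sub_iff_lt.2 h, Fin.coe_sub_iff_le.2 h.le] at hij
      have h2 : i.val < j.val := h
      omega
    · rw [Fin.coe_sub_iff_lt.2 h, Fin.coe_sub_iff_le.2 h.le] at hij
      have h2 : j.val < i.val := h
      omega
  · refine isChordal_of_order H (fun i => if i.val = 0 then n else i.val) ?_ ?_
    · intro i j hij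
      have hi := i.isLt
      have hj := j.isLt
      apply Fin.ext
      by_cases h1 : i.val = 0 <;> by_cases h2 : j.val = 0 <;> simp only [h1, h2, if_true, if_false]
        at hij <;> omega
    · intro v a b hva hvb h1 h2 hab
      rw [hH] at hva hvb ⊢
      have hab' : a.val ≠ b.val := fun h => hab (Fin.ext h)
      have hv := v.isLt
      have ha := a.isLt
      have hb := b.isLt
      refine ⟨hab', ?_⟩
      by_cases h3 : v.val = 0 <;> by_cases h4 : a.val = 0 <;> by_cases h5 : b.val = 0 <;>
        simp only [h3, h4, h5, if_true, if_false] at h1 h2 <;> omega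
  · intro a b c d hab hac had hbc hbd hcd
    rw [hH] at hab hac had hbc hbd hcd
    omega

end Pool.Agent.Lib.MP_13b08e_lc.RC
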