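import Pool.Agent.Lib.MP_13b08e_lc.RC.K33f

/-!
Every finite graph with at most seven edges is tame; the threshold in the number of edges.
-/

namespace Pool.Agent.Lib.MP_13b08e_lc.RC.Edges

open Pool.Agent.Lib.MP_13b08e_lc Finset

section Sparse

variable {V : Type} [Fintype V] [DecidableEq V]

open Classical in
/-- Twice the number of edges inside `T`. -/
noncomputable def P (G : SimpleGraph V) (T : Finset V) : ℕ :=
  ∑ x ∈ T, (T.filter fun y => G.Adj x y).card

/-- The graph obtained by joining any two vertices of `N`. -/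
def torso (G : SimpleGraph V) (N : Finset V) : SimpleGraph V where
  Adj a b := G.Adj a b ∨ (a ≠ b ∧ a ∈ N ∧ b ∈ N)
  symm := ⟨fun a b h => by
    rcases h with h | h
    · exact Or.inl h.symm
    · exact Or.inr ⟨h.1.symm, h.2.2, h.2.1⟩⟩
  loopless := ⟨fun a h => by
    rcases h with h | h
    · exact G.loopless.irrefl a h
    · exact h.1 rfl⟩

omit [Fintype V] in
open Classical in
lemma P_torso_le (G : SimpleGraph V) (N T : Finset V) :
    P (torso G N) T ≤ P G T + (N ∩ T).card * ((N ∩ T).card - 1) := by
  have h1 : ∀ x ∈ T, (T.filter fun y => (torso G N).Adj x y).card ≤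
      (T.filter fun y => G.Adj x y).card + (if x ∈ N then (N ∩ T).card - 1 else 0) := by
    intro x hx
    by_cases hN : x ∈ N
    · rw [if_pos hN]
      have h2 : (T.filter fun y => (torso G N).Adj x y) ⊆
          (T.filter fun y => G.Adj x y) ∪ (N ∩ T).erase x := by
        intro y hy
        rw [mem_filter] at hy
        rcases hy.2 with h | h
        · exact mem_union_left _ (mem_filter.2 ⟨hy.1, h⟩)
        · exact mem_union_right _ (mem_erase.2 ⟨h.1.symm, mem_inter.2 ⟨h.2.2, hy.1⟩⟩)
      refine (card_le_card h2).trans ((card_union_le _ _).trans ?_)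
      rw [card_erase_of_mem (mem_inter.2 ⟨hN, hx⟩)]
    · rw [if_neg hN, add_zero]
      refine card_le_card fun y hy => ?_
      rw [mem_filter] at hy ⊢
      rcases hy.2 with h | h
      · exact ⟨hy.1, h⟩
      · exact absurd h.2.1 hN
  refine (sum_le_sum h1).trans ?_
  rw [sum_add_distrib]
  refine Nat.add_le_add_left ?_ _
  rw [← sum_filter, sum_const, smul_eq_mul]
  refine Nat.mul_le_mul_right _ (card_le_card fun x hx => ?_)
  rw [mem_filter] at hx
  exact mem_inter.2 ⟨hx.2, hx.1⟩

omit [Fintype V] in
open Classical in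
lemma P_insert (G : SimpleGraph V) (T : Finset V) (v : V) (hv : v ∉ T) :
    P G T + 2 * (T.filter fun y => G.Adj v y).card ≤ P G (insert v T) := by
  unfold P
  rw [sum_insert hv]
  have h1 : (T.filter fun y => G.Adj v y).card ≤ ((insert v T).filter fun y => G.Adj v y).card :=
    card_le_card (filter_subset_filter _ (subset_insert _ _))
  have h2 : ∀ x ∈ T, (T.filter fun y => G.Adj x y).card + (if G.Adj v x then 1 else 0) ≤
      ((insert v T).filter fun y => G.Adj x y).card := by
    intro x _
    by_cases h : G.Adj v x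
    · rw [if_pos h, filter_insert, if_pos h.symm, card_insert_of_notMem]
      intro h3
      exact hv (mem_filter.1 h3).1
    · rw [if_neg h, add_zero]
      exact card_le_card (filter_subset_filter _ (subset_insert _ _))
  have h3 := sum_le_sum h2
  rw [sum_add_distrib, ← card_filter] at h3
  omega

omit [Fintype V] in
open Classical in
/-- Sparse graphs have a chordal supergraph of clique number at most three. -/
theorem exists_fill (n : ℕ) : ∀ (S : Finset V) (G : SimpleGraph V), S.card = n →
    (∀ T ⊆ S, P G T ≤ 2 * T.card + 2) →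
    ∃ (H : SimpleGraph V) (ord : V → ℕ), (∀ a ∈ S, ∀ b ∈ S, G.Adj a b → H.Adj a b) ∧
      (∀ a ∈ S, ∀ b ∈ S, ord a = ord b → a = b) ∧
      (∀ v ∈ S, ∀ a ∈ S, ∀ b ∈ S, H.Adj v a → H.Adj v b → ord v < ord a → ord v < ord b →
        a ≠ b → H.Adj a b) ∧
      (∀ v ∈ S, (S.filter fun a => H.Adj v a ∧ ord v < ord a).card ≤ 2) := by
  induction n with
  | zero =>
    intro S G hS _
    rw [card_eq_zero] at hS
    subst hS
    exact ⟨⊥, fun _ => 0, by simp, by simp, by simp, by simp⟩
  | succ n ih =>
    intro S G hS hP
    obtain ⟨v, hvS, hv⟩ : ∃ v ∈ S, (S.filter fun y => G.Adj v y).card ≤ 2 := by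
      by_contra hc
      push Not at hc
      have h1 := card_nsmul_le_sum S (fun x => (S.filter fun y => G.Adj x y).card) 3
        (fun x hx => hc x hx)
      have h2 := hP S (Subset.refl _)
      unfold P at h2
      rw [smul_eq_mul] at h1
      obtain ⟨v, hv⟩ : S.Nonempty := by
        rw [← card_pos]
        omega
      have h3 := hc v hv
      have h4 : (S.filter fun y => G.Adj v y) ⊆ S.erase v := by
        intro y hy
        rw [mem_filter] at hy
        exact mem_erase.2 ⟨hy.2.ne', hy.1⟩
      have h5 := card_le_card h4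
      rw [card_erase_of_mem hv] at h5
      omega
    set N := S.filter fun y => G.Adj v y with hN
    have hvN : v ∉ N := fun h => (mem_filter.1 h).2.ne rfl
    have hNS : N ⊆ S.erase v := fun y hy =>
      mem_erase.2 ⟨(mem_filter.1 hy).2.ne', (mem_filter.1 hy).1⟩
    obtain ⟨H, ord, h1, h2, h3, h4⟩ := ih (S.erase v) (torso G N)
      (by rw [card_erase_of_mem hvS]; omega) (by
        intro T hT
        have hvT : v ∉ T := fun h => (mem_erase.1 (hT h)).1 rfl
        have hTS : T ⊆ S := hT.trans (erase_subset _ _)
        have k1 := P_torso_le G N T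
        have k2 := P_insert G T v hvT
        have k3 := hP T hTS
        have k4 := hP (insert v T) (insert_subset hvS hTS)
        rw [card_insert_of_notMem hvT] at k4
        have k5 : T.filter (fun y => G.Adj v y) = N ∩ T := by
          ext y
          rw [mem_filter, mem_inter, hN, mem_filter]
          exact ⟨fun h => ⟨⟨hTS h.1, h.2⟩, h.1⟩, fun h => ⟨h.2, h.1.2⟩⟩
        rw [k5] at k2
        have k6 : (N ∩ T).card ≤ 2 := (card_le_card inter_subset_left).trans hv
        generalize (N ∩ T).card = m at k1 k2 k6
        interval_cases m <;> omega)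
    obtain ⟨H', hH'⟩ : ∃ H' : SimpleGraph V, ∀ a b, H'.Adj a b ↔
        ((a ∈ S.erase v ∧ b ∈ S.erase v ∧ H.Adj a b) ∨ (a = v ∧ b ∈ N) ∨ (b = v ∧ a ∈ N)) :=
      ⟨{ Adj := fun a b => (a ∈ S.erase v ∧ b ∈ S.erase v ∧ H.Adj a b) ∨ (a = v ∧ b ∈ N) ∨
          (b = v ∧ a ∈ N)
         symm := ⟨fun a b h => by
          rcases h with h | h | h
          · exact Or.inl ⟨h.2.1, h.1, h.2.2.symm⟩
          · exact Or.inr (Or.inr h)
          · exact Or.inr (Or.inl h)⟩
         loopless := ⟨fun a h => by
          rcases h with h | h | h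
          · exact H.loopless.irrefl a h.2.2
          · exact hvN (h.1 ▸ h.2)
          · exact hvN (h.1 ▸ h.2)⟩ }, fun _ _ => Iff.rfl⟩
    refine ⟨H', fun a => if a = v then 0 else ord a + 1, ?_, ?_, ?_, ?_⟩
    · intro a ha b hb hab
      by_cases hav : a = v
      · subst hav
        exact (hH' _ _).2 (Or.inr (Or.inl ⟨rfl, mem_filter.2 ⟨hb, hab⟩⟩))
      by_cases hbv : b = v
      · subst hbv
        exact (hH' _ _).2 (Or.inr (Or.inr ⟨rfl, mem_filter.2 ⟨ha, hab.symm⟩⟩))
      · exact (hH' _ _).2 (Or.inl ⟨mem_erase.2 ⟨hav, ha⟩, mem_erase.2 ⟨hbv, hb⟩,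
          h1 a (mem_erase.2 ⟨hav, ha⟩) b (mem_erase.2 ⟨hbv, hb⟩) (Or.inl hab)⟩)
    · intro a ha b hb hab
      by_cases hav : a = v
      · by_cases hbv : b = v
        · rw [hav, hbv]
        · simp only [if_pos hav, if_neg hbv] at hab
          omega
      · by_cases hbv : b = v
        · simp only [if_neg hav, if_pos hbv] at hab
          omega
        · simp only [if_neg hav, if_neg hbv, Nat.add_right_cancel_iff] at hab
          exact h2 a (mem_erase.2 ⟨hav, ha⟩) b (mem_erase.2 ⟨hbv, hb⟩) hab
    · intro w hw a ha b hb hwa hwb la lb hne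
      have hav : a ≠ v := by
        rintro rfl
        simp at la
      have hbv : b ≠ v := by
        rintro rfl
        simp at lb
      by_cases hwv : w = v
      · subst hwv
        have haN : a ∈ N := by
          rcases (hH' _ _).1 hwa with h | h | h
          · exact absurd rfl (mem_erase.1 h.1).1
          · exact h.2
          · exact absurd h.1 hav
        have hbN : b ∈ N := by
          rcases (hH' _ _).1 hwb with h | h | h
          · exact absurd rfl (mem_erase.1 h.1).1
          · exact h.2
          · exact absurd h.1 hbv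
        exact (hH' _ _).2
          (Or.inl ⟨hNS haN, hNS hbN, h1 a (hNS haN) b (hNS hbN) (Or.inr ⟨hne, haN, hbN⟩)⟩)
      · have ga : w ∈ S.erase v ∧ a ∈ S.erase v ∧ H.Adj w a := by
          rcases (hH' _ _).1 hwa with h | h | h
          · exact h
          · exact absurd h.1 hwv
          · exact absurd h.1 hav
        have gb : w ∈ S.erase v ∧ b ∈ S.erase v ∧ H.Adj w b := by
          rcases (hH' _ _).1 hwb with h | h | h
          · exact h
          · exact absurd h.1 hwv
          · exact absurd h.1 hbv
        simp only [if_neg hwv, if_neg hav, if_neg hbv, Nat.add_lt_add_iff_right] at la lb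
        exact (hH' _ _).2
          (Or.inl ⟨ga.2.1, gb.2.1, h3 w ga.1 a ga.2.1 b gb.2.1 ga.2.2 gb.2.2 la lb hne⟩)
    · intro w hw
      by_cases hwv : w = v
      · refine le_trans (card_le_card (t := N) ?_) hv
        intro a ha
        rw [mem_filter] at ha
        rcases (hH' _ _).1 ha.2.1 with h | h | h
        · exact absurd hwv (mem_erase.1 h.1).1
        · exact h.2
        · exact absurd ha.2.2 (by simp [h.1, hwv])
      · refine le_trans (card_le_card
          (t := (S.erase v).filter fun a => H.Adj w a ∧ ord w < ord a) ?_)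
          (h4 w (mem_erase.2 ⟨hwv, hw⟩))
        intro a ha
        rw [mem_filter] at ha
        have la := ha.2.2
        have hav : a ≠ v := by
          intro h
          simp [h] at la
        simp only [if_neg hwv, if_neg hav, Nat.add_lt_add_iff_right] at la
        rw [mem_filter]
        rcases (hH' _ _).1 ha.2.1 with h | h | h
        · exact ⟨h.2.1, h.2.2, la⟩
        · exact absurd h.1 hwv
        · exact absurd h.1 hav

open Classical in
theorem treewidth_two (G : SimpleGraph V) (h : ∀ T : Finset V, P G T ≤ 2 * T.card + 2) :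
    TreewidthLE G 2 := by
  obtain ⟨H, ord, h1, h2, h3, h4⟩ := exists_fill _ univ G rfl (fun T _ => h T)
  refine ⟨H, fun a b hab => h1 a (mem_univ _) b (mem_univ _) hab, ?_, ?_⟩
  · exact isChordal_of_order H ord (fun a b hab => h2 a (mem_univ _) b (mem_univ _) hab)
      (fun v a b k1 k2 k3 k4 k5 => h3 v (mem_univ _) a (mem_univ _) b (mem_univ _) k1 k2 k3 k4 k5)
  · intro s hs
    have hc := hs.card_eq
    obtain ⟨v, hv, hmin⟩ := exists_min_image s ord (card_pos.1 (by omega))
    have h5 : s.erase v ⊆ (univ.filter fun a => H.Adj v a ∧ ord v < ord a) := by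
      intro a ha
      rw [mem_erase] at ha
      refine mem_filter.2 ⟨mem_univ _, hs.isClique hv ha.2 ha.1.symm, ?_⟩
      refine lt_of_le_of_ne (hmin a ha.2) fun he => ha.1 ?_
      exact (h2 v (mem_univ _) a (mem_univ _) he).symm
    have h6 := card_le_card h5
    rw [card_erase_of_mem hv] at h6
    have h7 := h4 v (mem_univ _)
    omega

end Sparse

/-- A graph with at least six vertices, at most seven edges and all degrees at least two has treewidth
at most two. -/
theorem treewidth_of_edges {V : Type} [Finite V] (G : SimpleGraph V) (hV : 6 ≤ Nat.card V)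
    (hE : Nat.card G.edgeSet ≤ 7)
    (hd : ∀ v, ∃ a b, a ≠ b ∧ G.Adj v a ∧ G.Adj v b) : TreewidthLE G 2 := by
  classical
  have : Fintype V := Fintype.ofFinite V
  rw [Nat.card_eq_fintype_card] at hV
  have hE' : G.edgeFinset.card ≤ 7 := by
    rw [SimpleGraph.edgeFinset_card]
    rw [Nat.card_eq_fintype_card] at hE
    exact hE
  have hsum := G.sum_degrees_eq_twice_card_edges
  refine treewidth_two G fun T => ?_
  have h1 : P G T ≤ ∑ x ∈ T, G.degree x := by
    refine sum_le_sum fun x _ => ?_
    rw [← SimpleGraph.card_neighborFinset_eq_degree]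
    refine card_le_card fun y hy => ?_
    rw [SimpleGraph.mem_neighborFinset]
    exact (mem_filter.1 hy).2
  have h2 : ∀ x, 2 ≤ G.degree x := by
    intro x
    obtain ⟨a, b, hab, ha, hb⟩ := hd x
    rw [← SimpleGraph.card_neighborFinset_eq_degree]
    have h3 : ({a, b} : Finset V) ⊆ G.neighborFinset x := by
      intro y hy
      rw [SimpleGraph.mem_neighborFinset]
      rw [mem_insert, mem_singleton] at hy
      rcases hy with rfl | rfl
      · exact ha
      · exact hb
    have h4 := card_le_card h3
    rwa [card_pair hab] at h4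
  have h3 : ∑ x ∈ T, G.degree x + ∑ x ∈ Tᶜ, G.degree x = ∑ x, G.degree x :=
    sum_add_sum_compl T _
  have h4 := card_nsmul_le_sum Tᶜ (fun x => G.degree x) 2 (fun x _ => h2 x)
  rw [smul_eq_mul, card_compl] at h4
  have h5 := card_le_univ T
  omega

/-- **Every finite graph with at most seven edges is tame.** -/
theorem tame_of_edges (n : ℕ) : ∀ (V : Type) [Finite V] (G : SimpleGraph V), Nat.card V = n →
    Nat.card G.edgeSet ≤ 7 → Tame G := by
  induction n using Nat.strong_induction_on with
  | _ n ih =>
    intro V _ G hn hE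
    by_cases h5 : Nat.card V ≤ 5
    · exact Five.tame_of_card_le_five G h5
    by_cases hd : ∀ v, ∃ a b, a ≠ b ∧ G.Adj v a ∧ G.Adj v b
    · obtain ⟨H, h1, h2, h3⟩ := treewidth_of_edges G (by omega) hE hd
      refine Tame.base G H h1 h2 fun a b c e hab hac hae hbc hbe hce _ => ?_
      exact (not_adj_of_cliqueFree h3 a b c e hab hac hae hbc hbe hce).elim
    · push Not at hd
      obtain ⟨v, hv⟩ := hd
      refine Tame.glue G {w | w ≠ v} {w | w = v ∨ G.Adj v w} ?_ ?_ ?_ ?_ ?_
      · ext w
        simp only [Set.mem_union, Set.mem_ofPred_eq, Set.mem_univ, iff_true]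
        by_cases h : w = v
        · exact Or.inr (Or.inl h)
        · exact Or.inl h
      · intro a ha b hb hab
        have ha' := ha.2.resolve_left ha.1
        have hb' := hb.2.resolve_left hb.1
        exact absurd hb' (hv a b hab ha')
      · intro a ha b hb hab
        have hbv : b = v := by
          by_contra h
          exact hb.2 h
        subst hbv
        exact ha.2 (Or.inr hab.symm)
      · refine ih (Nat.card ({w | w ≠ v} : Set V)) ?_ _ _ rfl ?_
        · rw [← hn]
          exact Finite.card_subtype_lt (p := fun w => w ≠ v) (x := v) (by simp)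
        · exact (Nat.card_le_card_of_injective _
            (SimpleGraph.Embedding.induce (G := G) {w | w ≠ v}).mapEdgeSet.injective).trans hE
      · refine Five.tame_of_card_le_five _ ?_
        by_cases hne : ∃ a, G.Adj v a
        · obtain ⟨a, ha⟩ := hne
          have h6 : ({w | w = v ∨ G.Adj v w} : Set V) ⊆ {v, a} := by
            rintro w (h | h)
            · exact Or.inl h
            · right
              by_contra hwa
              exact hv a w (fun h => hwa h.symm) ha h
          have h7 := Set.ncard_le_ncard h6 (Set.toFinite _)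
          have h8 : ({v, a} : Set V).ncard ≤ 2 := Set.ncard_insert_le _ _ |>.trans (by simp)
          rw [← Nat.card_coe_set_eq] at h7
          omega
        · have h6 : ({w | w = v ∨ G.Adj v w} : Set V) ⊆ {v} := by
            rintro w (h | h)
            · exact h
            · exact absurd ⟨w, h⟩ hne
          have h7 := Set.ncard_le_ncard h6 (Set.toFinite _)
          rw [Set.ncard_singleton, ← Nat.card_coe_set_eq] at h7
          omega

theorem card_K33f : Nat.card K33f.G.edgeSet ≤ 8 := by
  classical
  have h1 : K33f.G.edgeSet ⊆ (((univ : Finset (Fin 3 × Fin 3)).filter fun p => p ≠ (2, 2)).image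
      fun p => (s(Sum.inl p.1, Sum.inr p.2) : Sym2 (Fin 3 ⊕ Fin 3)) : Finset _) := by
    intro e
    induction e using Sym2.ind with
    | _ s t =>
      intro h
      rw [SimpleGraph.mem_edgeSet] at h
      rw [coe_image, Set.mem_image]
      rcases s with a | i <;> rcases t with b | j
      · exact absurd h.1 (by simp)
      · refine ⟨(a, j), ?_, rfl⟩
        have h2 := (K33f.adj_iff a j).1 h
        simp only [ne_eq, Prod.mk.injEq, coe_filter, mem_univ, true_and, Set.mem_ofPred_eq]
        exact h2
      · refine ⟨(b, i), ?_, Sym2.eq_swap⟩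
        have h2 := (K33f.adj_iff b i).1 h.symm
        simp only [ne_eq, Prod.mk.injEq, coe_filter, mem_univ, true_and, Set.mem_ofPred_eq]
        exact h2
      · exact absurd h.1 (by simp)
  have h2 := Set.ncard_le_ncard h1 (Set.toFinite _)
  rw [Set.ncard_coe_finset, ← Nat.card_coe_set_eq] at h2
  refine h2.trans (card_image_le.trans ?_)
  decide

theorem treewidth_K33f : TreewidthLE K33f.G 3 :=
  ⟨K33.H, (SimpleGraph.deleteEdges_le _).trans K33.G_le, K33.chordal, K33.cliqueFree⟩

/-- The threshold in the number of edges. -/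
theorem threshold_edges (k : ℕ) :
    ((∀ (V : Type) [Finite V] (G : SimpleGraph V), Nat.card G.edgeSet ≤ k →
      RationalCompletions G) ↔ k ≤ 7) ∧
    ((∀ (V : Type) [Finite V] (G : SimpleGraph V), Nat.card G.edgeSet ≤ k →
      RationalElliptope G) ↔ k ≤ 7) := by
  have h8 := card_K33f
  refine ⟨⟨fun h => ?_, fun hk V hV G hG => ?_⟩, ⟨fun h => ?_, fun hk V hV G hG => ?_⟩⟩
  · by_contra hk
    exact not_rationalElliptope_K33f (rationalElliptope_of_ratCompl
      (ratCompl_of_rationalCompletions (h _ _ (h8.trans (by omega)))))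
  · exact rationalCompletions_of_ratCompl ((tame_of_edges _ V G rfl (hG.trans hk)).ratCompl hV)
  · by_contra hk
    exact not_rationalElliptope_K33f (h _ _ (h8.trans (by omega)))
  · exact rationalElliptope_of_ratCompl ((tame_of_edges _ V G rfl (hG.trans hk)).ratCompl hV)

end Pool.Agent.Lib.MP_13b08e_lc.RC.Edges
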