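import Pool.Agent.Lib.MP_13b08e_lc.RC.Border

/-!
A positive semidefinite matrix with one unknown entry: the unknown entry runs over an interval
`[m - √ρ, m + √ρ]` with rational `m, ρ`.
-/

namespace Pool.Agent.Lib.MP_13b08e_lc.RC

open Finset

/-- A bilinear form. -/
def BF {N : ℕ} (A : Fin N → Fin N → ℝ) (x y : Fin N → ℝ) : ℝ := ∑ i, ∑ j, x i * y j * A i j

section

variable {N : ℕ} (A : Fin N → Fin N → ℝ)

theorem BF.add_left (x x' y : Fin N → ℝ) : BF A (x + x') y = BF A x y + BF A x' y := by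
  simp only [BF, Pi.add_apply, add_mul, Finset.sum_add_distrib]

theorem BF.add_right (x y y' : Fin N → ℝ) : BF A x (y + y') = BF A x y + BF A x y' := by
  simp only [BF, Pi.add_apply, mul_add, add_mul, Finset.sum_add_distrib]

theorem BF.smul_left (c : ℝ) (x y : Fin N → ℝ) : BF A (c • x) y = c * BF A x y := by
  simp only [BF, Pi.smul_apply, smul_eq_mul, Finset.mul_sum]
  exact Finset.sum_congr rfl fun i _ => Finset.sum_congr rfl fun j _ => by ring

theorem BF.smul_right (c : ℝ) (x y : Fin N → ℝ) : BF A x (c • y) = c * BF A x y := by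
  simp only [BF, Pi.smul_apply, smul_eq_mul, Finset.mul_sum]
  exact Finset.sum_congr rfl fun i _ => Finset.sum_congr rfl fun j _ => by ring

theorem BF.comm (hA : ∀ i j, A i j = A j i) (x y : Fin N → ℝ) : BF A x y = BF A y x := by
  unfold BF
  rw [Finset.sum_comm]
  exact Finset.sum_congr rfl fun i _ => Finset.sum_congr rfl fun j _ => by rw [hA j i]; ring

theorem BF.single_right (x : Fin N → ℝ) (u : Fin N) :
    BF A x (Pi.single u 1) = ∑ i, x i * A i u := by
  unfold BF
  refine Finset.sum_congr rfl fun i _ => ?_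
  rw [Finset.sum_eq_single u]
  · simp
  · intro j _ hj
    simp [Pi.single_apply, hj]
  · simp

end

/-- The entry at `u v` replaced by `t`. -/
def setEntry {N : ℕ} (A : Fin N → Fin N → ℚ) (u v : Fin N) (t : ℝ) (i j : Fin N) : ℝ :=
  if (i = u ∧ j = v) ∨ (i = v ∧ j = u) then t else (A i j : ℝ)

/-- Positive semidefiniteness on `S ∪ {u, v}` of the matrix with entry `t` at `u v`. -/
def PT {N : ℕ} (A : Fin N → Fin N → ℚ) (S : Finset (Fin N)) (u v : Fin N) (t : ℝ) : Prop :=
  ∀ w : Fin N → ℝ, (∀ i, i ∉ S → i ≠ u → i ≠ v → w i = 0) →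
    0 ≤ ∑ i, ∑ j, w i * w j * setEntry A u v t i j

theorem form_eq {N : ℕ} (A : Fin N → Fin N → ℚ) (u v : Fin N) (huv : u ≠ v) (t : ℝ)
    (w : Fin N → ℝ) : ∑ i, ∑ j, w i * w j * setEntry A u v t i j
      = BF (setEntry A u v 0) w w + 2 * t * (w u * w v) := by
  have h1 : ∀ i j, w i * w j * setEntry A u v t i j = w i * w j * setEntry A u v 0 i j
      + (if i = u ∧ j = v then w u * w v * t else 0) + (if i = v ∧ j = u then w u * w v * t
        else 0) := by
    intro i j
    unfold setEntry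
    by_cases ha : i = u ∧ j = v
    · have hb : ¬ (i = v ∧ j = u) := fun hb => huv (ha.1.symm.trans hb.1)
      rw [if_pos (Or.inl ha), if_pos (Or.inl ha), if_pos ha, if_neg hb, ha.1, ha.2]
      ring
    · by_cases hb : i = v ∧ j = u
      · rw [if_pos (Or.inr hb), if_pos (Or.inr hb), if_neg ha, if_pos hb, hb.1, hb.2]
        ring
      · have hc : ¬ ((i = u ∧ j = v) ∨ (i = v ∧ j = u)) := by tauto
        rw [if_neg hc, if_neg hc, if_neg ha, if_neg hb]
        ring
  have h2 : ∀ a b : Fin N, ∑ i, ∑ j, (if i = a ∧ j = b then w u * w v * t else 0)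
      = w u * w v * t := by
    intro a b
    rw [Finset.sum_eq_single a, Finset.sum_eq_single b]
    · simp
    · intro j _ hj
      simp [hj]
    · simp
    · intro i _ hi
      simp [hi]
    · simp
  simp only [h1, Finset.sum_add_distrib, h2]
  unfold BF
  ring

theorem quad2 {a b c : ℝ} (ha : 0 ≤ a) (hb : 0 ≤ b) (h : c ^ 2 ≤ a * b) (x y : ℝ) :
    0 ≤ x ^ 2 * a + y ^ 2 * b + 2 * (x * y) * c := by
  rcases ha.eq_or_lt with h0 | h0
  · rw [← h0, zero_mul] at h
    have h1 : c = 0 := pow_eq_zero_iff two_ne_zero |>.1 (le_antisymm h (sq_nonneg c))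
    rw [h1, ← h0]
    have := mul_nonneg (sq_nonneg y) hb
    linarith
  · have h1 : 0 ≤ a * (x ^ 2 * a + y ^ 2 * b + 2 * (x * y) * c) := by
      have h2 : a * (x ^ 2 * a + y ^ 2 * b + 2 * (x * y) * c)
          = (x * a + y * c) ^ 2 + y ^ 2 * (a * b - c ^ 2) := by ring
      rw [h2]
      exact add_nonneg (sq_nonneg _) (mul_nonneg (sq_nonneg _) (by linarith))
    exact nonneg_of_mul_nonneg_right h1 h0

/-- **One unknown entry.** -/
theorem one_fill {N : ℕ} (A : Fin N → Fin N → ℚ) (hA : ∀ i j, A i j = A j i)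
    (S : Finset (Fin N)) (u v : Fin N) (huv : u ≠ v) (hu : u ∉ S) (hv : v ∉ S) (t0 : ℝ)
    (h0 : PT A S u v t0) :
    ∃ m ρ : ℚ, 0 ≤ ρ ∧ ∀ t : ℝ, PT A S u v t ↔ (t - m) ^ 2 ≤ ρ := by
  classical
  let A0 : Fin N → Fin N → ℝ := setEntry A u v 0
  have hA0 : ∀ i j, A0 i j = A0 j i := by
    intro i j
    change setEntry A u v 0 i j = setEntry A u v 0 j i
    unfold setEntry
    by_cases h : (i = u ∧ j = v) ∨ (i = v ∧ j = u)
    · rw [if_pos h, if_pos (by tauto)]
    · rw [if_neg h, if_neg (by tauto), hA]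
  have hent : ∀ i j, ¬ ((i = u ∧ j = v) ∨ (i = v ∧ j = u)) → A0 i j = (A i j : ℝ) := by
    intro i j h
    change setEntry A u v 0 i j = _
    unfold setEntry
    rw [if_neg h]
  have hA0uv : A0 u v = 0 := by
    change setEntry A u v 0 u v = 0
    unfold setEntry
    rw [if_pos (Or.inl ⟨rfl, rfl⟩)]
  have hS : ∀ x : Fin N → ℝ, (∀ i, i ∉ S → x i = 0) → 0 ≤ BF A0 x x := by
    intro x hx
    have h1 := h0 x (fun i hi _ _ => hx i hi)
    rw [form_eq A u v huv, hx u hu] at h1
    linarith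
  -- the solutions
  have hsol : ∀ p : Fin N, p ∉ S → (p = u ∨ p = v) → ∃ z : Fin N → ℚ, (∀ i, i ∉ S → z i = 0) ∧
      ∀ i ∈ S, ∑ j, A i j * z j = A i p := by
    intro p hp hpuv
    refine exists_solution_fin A S (fun i => A i p) (A p p) ?_
    intro t w hw
    have hwp : w p = 0 := hw p hp
    let W : Fin N → ℝ := (fun i => (w i : ℝ)) + (t : ℝ) • Pi.single p 1
    have hWi : ∀ i, i ≠ p → W i = w i := by
      intro i hi
      simp [W, Pi.single_apply, hi]
    have hWsupp : ∀ i, i ∉ S → i ≠ u → i ≠ v → W i = 0 := by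
      intro i hi h1 h2
      have h3 : i ≠ p := by
        rcases hpuv with rfl | rfl <;> assumption
      rw [hWi i h3, hw i hi]
      simp
    have h1 := h0 W hWsupp
    rw [form_eq A u v huv] at h1
    have h2 : W u * W v = 0 := by
      rcases hpuv with rfl | rfl
      · rw [hWi v huv.symm, hw v hv]
        simp
      · rw [hWi u huv, hw u hu]
        simp
    rw [h2] at h1
    have h3 : BF A0 W W = BF A0 (fun i => (w i : ℝ)) (fun i => (w i : ℝ))
        + 2 * t * ∑ i, (w i : ℝ) * A0 i p + (t : ℝ) ^ 2 * A0 p p := by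
      change BF A0 ((fun i => (w i : ℝ)) + (t : ℝ) • Pi.single p 1)
        ((fun i => (w i : ℝ)) + (t : ℝ) • Pi.single p 1) = _
      rw [BF.add_left, BF.add_right, BF.add_right, BF.smul_left, BF.smul_left, BF.smul_right,
        BF.smul_right, BF.comm A0 hA0 (Pi.single p 1) (fun i => (w i : ℝ)), BF.single_right,
        BF.single_right]
      have h4 : ∑ i, (Pi.single p 1 : Fin N → ℝ) i * A0 i p = A0 p p := by
        rw [Finset.sum_eq_single p]
        · simp
        · intro j _ hj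
          simp [Pi.single_apply, hj]
        · simp
      rw [h4]
      ring
    have h5 : A0 p p = (A p p : ℝ) := hent p p (by
      rintro (⟨h6, h7⟩ | ⟨h6, h7⟩)
      · exact huv (h6.symm.trans h7)
      · exact huv (h7.symm.trans h6))
    have h6 : ∑ i, (w i : ℝ) * A0 i p = ∑ i, (w i : ℝ) * (A i p : ℝ) := by
      refine Finset.sum_congr rfl fun i _ => ?_
      by_cases hi : i ∈ S
      · rw [hent i p]
        rintro (⟨h6, h7⟩ | ⟨h6, h7⟩)
        · exact hu (h6 ▸ hi)
        · exact hv (h6 ▸ hi)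
      · rw [hw i hi]
        simp
    have h7 : BF A0 (fun i => (w i : ℝ)) (fun i => (w i : ℝ))
        = ∑ i, ∑ j, (w i : ℝ) * (w j : ℝ) * (A i j : ℝ) := by
      unfold BF
      refine Finset.sum_congr rfl fun i _ => Finset.sum_congr rfl fun j _ => ?_
      by_cases hi : i ∈ S
      · rw [hent i j]
        rintro (⟨h6, h7⟩ | ⟨h6, h7⟩)
        · exact hu (h6 ▸ hi)
        · exact hv (h6 ▸ hi)
      · have h6 : (w i : ℝ) = 0 := by rw [hw i hi]; simp
        simp only [h6, zero_mul]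
    change 0 ≤ BF A0 W W + 2 * t0 * 0 at h1
    rw [h3, h5, h6, h7] at h1
    have h8 : (0 : ℝ) ≤ ((t ^ 2 * A p p + 2 * t * ∑ i, w i * A i p
        + ∑ i, ∑ j, w i * w j * A i j : ℚ) : ℝ) := by
      push_cast
      linarith
    exact_mod_cast h8
  obtain ⟨zu, hzu0, hzu⟩ := hsol u hu (Or.inl rfl)
  obtain ⟨zv, hzv0, hzv⟩ := hsol v hv (Or.inr rfl)
  let Zu : Fin N → ℝ := fun i => (zu i : ℝ)
  let Zv : Fin N → ℝ := fun i => (zv i : ℝ)
  have hZu0 : ∀ i, i ∉ S → Zu i = 0 := fun i hi => by simp [Zu, hzu0 i hi]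
  have hZv0 : ∀ i, i ∉ S → Zv i = 0 := fun i hi => by simp [Zv, hzv0 i hi]
  -- `BF x Z_p = BF x e_p` for `x` supported on `S`
  have hBp : ∀ (p : Fin N) (z : Fin N → ℚ), (p = u ∨ p = v) → (∀ i, i ∉ S → z i = 0) →
      (∀ i ∈ S, ∑ j, A i j * z j = A i p) → ∀ x : Fin N → ℝ, (∀ i, i ∉ S → x i = 0) →
      BF A0 x (fun i => (z i : ℝ)) = BF A0 x (Pi.single p 1) := by
    intro p z hp hz0 hz x hx
    rw [BF.single_right]
    unfold BF
    refine Finset.sum_congr rfl fun i _ => ?_
    by_cases hi : i ∈ S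
    · have hiu : i ≠ u := fun h => hu (h ▸ hi)
      have hiv : i ≠ v := fun h => hv (h ▸ hi)
      have h1 : ∀ j, A0 i j = (A i j : ℝ) := fun j => hent i j (by
        rintro (⟨h6, h7⟩ | ⟨h6, h7⟩)
        · exact hiu h6
        · exact hiv h6)
      rw [h1 p, ← hz i hi]
      push_cast
      rw [Finset.mul_sum]
      refine Finset.sum_congr rfl fun j _ => ?_
      rw [h1 j]
      ring
    · rw [hx i hi]
      simp
  have hBu := hBp u zu (Or.inl rfl) hzu0 hzu
  have hBv := hBp v zv (Or.inr rfl) hzv0 hzv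
  -- the constants
  obtain ⟨m, hm⟩ : ∃ m : ℚ, (m : ℝ) = BF A0 Zu Zv := by
    refine ⟨∑ i, zu i * A i v, ?_⟩
    have h1 : BF A0 Zu Zv = BF A0 Zu (Pi.single v 1) := hBv Zu hZu0
    rw [h1, BF.single_right]
    push_cast
    refine Finset.sum_congr rfl fun i _ => ?_
    by_cases hi : i ∈ S
    · rw [hent i v]
      rintro (⟨h6, h7⟩ | ⟨h6, h7⟩)
      · exact hu (h6 ▸ hi)
      · exact hv (h6 ▸ hi)
    · rw [hZu0 i hi, hzu0 i hi]
      simp
  have hdiagp : ∀ (p : Fin N) (z : Fin N → ℚ), p ∉ S → (p = u ∨ p = v) → (∀ i, i ∉ S → z i = 0) →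
      (∀ i ∈ S, ∑ j, A i j * z j = A i p) →
      ∃ a : ℚ, (a : ℝ) = A0 p p - BF A0 (fun i => (z i : ℝ)) (fun i => (z i : ℝ)) := by
    intro p z hpS hp hz0 hz
    refine ⟨A p p - ∑ i, z i * A i p, ?_⟩
    have h1 := hBp p z hp hz0 hz (fun i => (z i : ℝ)) (fun i hi => by simp [hz0 i hi])
    rw [h1, BF.single_right]
    push_cast
    have h5 : A0 p p = (A p p : ℝ) := hent p p (by
      rintro (⟨h6, h7⟩ | ⟨h6, h7⟩)
      · exact huv (h6.symm.trans h7)
      · exact huv (h7.symm.trans h6))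
    rw [h5]
    congr 1
    refine Finset.sum_congr rfl fun i _ => ?_
    by_cases hi : i ∈ S
    · rw [hent i p]
      rintro (⟨h6, h7⟩ | ⟨h6, h7⟩)
      · exact hu (h6 ▸ hi)
      · exact hv (h6 ▸ hi)
    · rw [hz0 i hi]
      simp
  obtain ⟨a, ha⟩ := hdiagp u zu hu (Or.inl rfl) hzu0 hzu
  obtain ⟨b, hb⟩ := hdiagp v zv hv (Or.inr rfl) hzv0 hzv
  change (a : ℝ) = A0 u u - BF A0 Zu Zu at ha
  change (b : ℝ) = A0 v v - BF A0 Zv Zv at hb
  -- the key identity
  have key : ∀ (x : Fin N → ℝ), (∀ i, i ∉ S → x i = 0) → ∀ p q : ℝ,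
      BF A0 (x + (p • (Pi.single u 1 : Fin N → ℝ) + q • (Pi.single v 1 : Fin N → ℝ)))
        (x + (p • (Pi.single u 1 : Fin N → ℝ) + q • (Pi.single v 1 : Fin N → ℝ)))
      = BF A0 (x + (p • Zu + q • Zv)) (x + (p • Zu + q • Zv)) + p ^ 2 * a + q ^ 2 * b
        - 2 * (p * q) * m := by
    intro x hx p q
    have e1 : BF A0 x (Pi.single u 1) = BF A0 x Zu := (hBu x hx).symm
    have e2 : BF A0 x (Pi.single v 1) = BF A0 x Zv := (hBv x hx).symm
    have e3 : BF A0 (Pi.single u 1) (Pi.single u 1) = A0 u u := by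
      rw [BF.single_right, Finset.sum_eq_single u]
      · simp
      · intro j _ hj
        simp [Pi.single_apply, hj]
      · simp
    have e4 : BF A0 (Pi.single v 1) (Pi.single v 1) = A0 v v := by
      rw [BF.single_right, Finset.sum_eq_single v]
      · simp
      · intro j _ hj
        simp [Pi.single_apply, hj]
      · simp
    have e5 : BF A0 (Pi.single u 1) (Pi.single v 1) = 0 := by
      rw [BF.single_right, Finset.sum_eq_single u]
      · simp [hA0uv]
      · intro j _ hj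
        simp [Pi.single_apply, hj]
      · simp
    simp only [BF.add_left, BF.add_right, BF.smul_left, BF.smul_right]
    rw [BF.comm A0 hA0 (Pi.single u 1) x, BF.comm A0 hA0 (Pi.single v 1) x,
      BF.comm A0 hA0 (Pi.single v 1) (Pi.single u 1), e1, e2, e3, e4, e5,
      BF.comm A0 hA0 Zu x, BF.comm A0 hA0 Zv x, BF.comm A0 hA0 Zv Zu, ha, hb, hm]
    ring
  have hval : ∀ (x : Fin N → ℝ), (∀ i, i ∉ S → x i = 0) → ∀ p q : ℝ,
      (x + (p • (Pi.single u 1 : Fin N → ℝ) + q • (Pi.single v 1 : Fin N → ℝ))) u = p ∧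
      (x + (p • (Pi.single u 1 : Fin N → ℝ) + q • (Pi.single v 1 : Fin N → ℝ))) v = q := by
    intro x hx p q
    constructor
    · simp [hx u hu, Pi.single_apply, huv]
    · simp [hx v hv, Pi.single_apply, huv.symm]
  have hsupp : ∀ (x : Fin N → ℝ), (∀ i, i ∉ S → x i = 0) → ∀ p q : ℝ, ∀ i, i ∉ S → i ≠ u →
      i ≠ v → (x + (p • (Pi.single u 1 : Fin N → ℝ) + q • (Pi.single v 1 : Fin N → ℝ))) i = 0 := by
    intro x hx p q i hi h1 h2
    simp [hx i hi, Pi.single_apply, h1, h2]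
  have hform : ∀ t, PT A S u v t → ∀ p q : ℝ, 0 ≤ p ^ 2 * a + q ^ 2 * b
      + 2 * (p * q) * (t - m) := by
    intro t ht p q
    let x : Fin N → ℝ := -(p • Zu + q • Zv)
    have hx : ∀ i, i ∉ S → x i = 0 := fun i hi => by simp [x, hZu0 i hi, hZv0 i hi]
    have h1 := ht _ (hsupp x hx p q)
    rw [form_eq A u v huv, (hval x hx p q).1, (hval x hx p q).2] at h1
    have h2 := key x hx p q
    have h3 : x + (p • Zu + q • Zv) = 0 := by simp [x]
    rw [h3] at h2
    have h4 : BF A0 0 0 = 0 := by simp [BF]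
    rw [h4] at h2
    change 0 ≤ BF A0 _ _ + _ at h1
    rw [h2] at h1
    linarith
  have ha0 : (0 : ℝ) ≤ a := by
    have := hform t0 h0 1 0
    simpa using this
  have hb0 : (0 : ℝ) ≤ b := by
    have := hform t0 h0 0 1
    simpa using this
  have hfwd : ∀ t, PT A S u v t → (t - m) ^ 2 ≤ ((a * b : ℚ) : ℝ) := by
    intro t ht
    have h1 : ∀ p : ℝ, 0 ≤ (a : ℝ) * (p * p) + (2 * (t - m)) * p + b := by
      intro p
      have := hform t ht p 1
      nlinarith
    have h2 := discrim_le_zero h1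
    unfold discrim at h2
    push_cast
    nlinarith
  refine ⟨m, a * b, ?_, fun t => ⟨hfwd t, fun ht => ?_⟩⟩
  · have h1 := hfwd t0 h0
    have h2 : (0 : ℝ) ≤ ((a * b : ℚ) : ℝ) := (sq_nonneg _).trans h1
    exact_mod_cast h2
  · intro w hw
    let x : Fin N → ℝ := fun i => if i ∈ S then w i else 0
    have hx : ∀ i, i ∉ S → x i = 0 := fun i hi => by simp [x, hi]
    have hwx : w = x + (w u • (Pi.single u 1 : Fin N → ℝ) + w v • (Pi.single v 1 : Fin N → ℝ)) := by
      ext i
      by_cases hi : i ∈ S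
      · have hiu : i ≠ u := fun h => hu (h ▸ hi)
        have hiv : i ≠ v := fun h => hv (h ▸ hi)
        simp [x, hi, Pi.single_apply, hiu, hiv]
      · by_cases h1 : i = u
        · subst h1
          simp [x, hi, Pi.single_apply, huv]
        · by_cases h2 : i = v
          · subst h2
            simp [x, hi, Pi.single_apply, huv.symm]
          · rw [hw i hi h1 h2]
            simp [x, hi, Pi.single_apply, h1, h2]
    rw [form_eq A u v huv]
    have h2 := key x hx (w u) (w v)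
    rw [← hwx] at h2
    change 0 ≤ BF A0 w w + _
    rw [h2]
    have h3 : 0 ≤ BF A0 (x + (w u • Zu + w v • Zv)) (x + (w u • Zu + w v • Zv)) :=
      hS _ fun i hi => by simp [hx i hi, hZu0 i hi, hZv0 i hi]
    have h4 := quad2 ha0 hb0 (c := t - m) (by push_cast at ht; exact ht) (w u) (w v)
    linarith

end Pool.Agent.Lib.MP_13b08e_lc.RC
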