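import Pool.Agent.Lib.MP_13b08e_lc.RC.Main
import Pool.Agent.Lib.MP_13b08e_lc.RC.FreeEntry

/-!
Elimination of a vertex with at least three later neighbours, one pair of the clique being free.
-/

namespace Pool.Agent.Lib.MP_13b08e_lc.RC

open Real

/-- The rational value of a rational real number. -/
noncomputable def ratVal (x : ℝ) : ℚ :=
  haveI := Classical.dec (∃ q : ℚ, x = q)
  if h : ∃ q : ℚ, x = q then h.choose else 0

theorem ratVal_spec {x : ℝ} (h : ∃ q : ℚ, x = q) : (ratVal x : ℝ) = x := by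
  unfold ratVal
  rw [dif_pos h]
  exact h.choose_spec.symm

/-- The admissible angles of one free pair of a clique. -/
theorem clique_int {N : ℕ} {d : Fin N → ℚ} (hd : ∀ i, 0 < d i) {X : Fin N → Fin N → ℝ}
    (hXs : ∀ i j, X i j = X j i) (hX : QF X) (hXd : ∀ i, X i i = d i)
    (K : Finset (Fin N)) (u v : Fin N) (hu : u ∈ K) (hv : v ∈ K) (huv : u ≠ v)
    (hrat : ∀ i ∈ K, ∀ j ∈ K, ¬ ((i = u ∧ j = v) ∨ (i = v ∧ j = u)) → ∃ q : ℚ, X i j = q) :
    ∃ L U : ℝ, 0 ≤ L ∧ U ≤ π ∧ AL (d u * d v) L ∧ AU (d u * d v) U ∧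
      L ≤ ang d u v (X u v) ∧ ang d u v (X u v) ≤ U ∧
      ∀ φ, 0 ≤ φ → φ ≤ π → L ≤ φ → φ ≤ U → ∀ w : Fin N → ℝ, (∀ i, i ∉ K → w i = 0) →
        0 ≤ ∑ i, ∑ j, w i * w j * (if (i = u ∧ j = v) ∨ (i = v ∧ j = u) then
          √((d u * d v : ℚ) : ℝ) * cos φ else X i j) := by
  classical
  let A : Fin N → Fin N → ℚ := fun i j => ratVal (X i j)
  have hA : ∀ i j, A i j = A j i := fun i j => by
    change ratVal (X i j) = ratVal (X j i)
    rw [hXs]
  let S : Finset (Fin N) := (K.erase u).erase v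
  have huS : u ∉ S := by simp [S]
  have hvS : v ∉ S := by simp [S]
  have hsup : ∀ w : Fin N → ℝ, (∀ i, i ∉ S → i ≠ u → i ≠ v → w i = 0) →
      ∀ i, i ∉ K → w i = 0 := by
    intro w hw i hi
    refine hw i (fun h => hi ?_) (fun h => hi (h ▸ hu)) (fun h => hi (h ▸ hv))
    exact Finset.mem_of_mem_erase (Finset.mem_of_mem_erase h)
  have hsup' : ∀ w : Fin N → ℝ, (∀ i, i ∉ K → w i = 0) →
      (∀ i, i ∉ S → i ≠ u → i ≠ v → w i = 0) := by
    intro w hw i hi h1 h2
    refine hw i fun h => hi ?_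
    simp [S, h1, h2, h]
  -- the forms agree
  have hform : ∀ (t : ℝ) (w : Fin N → ℝ), (∀ i, i ∉ K → w i = 0) →
      ∑ i, ∑ j, w i * w j * setEntry A u v t i j
        = ∑ i, ∑ j, w i * w j * (if (i = u ∧ j = v) ∨ (i = v ∧ j = u) then t else X i j) := by
    intro t w hw
    refine Finset.sum_congr rfl fun i _ => Finset.sum_congr rfl fun j _ => ?_
    by_cases hi : i ∈ K
    · by_cases hj : j ∈ K
      · unfold setEntry
        by_cases h : (i = u ∧ j = v) ∨ (i = v ∧ j = u)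
        · rw [if_pos h, if_pos h]
        · rw [if_neg h, if_neg h]
          change w i * w j * (ratVal (X i j) : ℝ) = _
          rw [ratVal_spec (hrat i hi j hj h)]
      · rw [hw j hj]; ring
    · rw [hw i hi]; ring
  have hPT : ∀ t, PT A S u v t ↔ ∀ w : Fin N → ℝ, (∀ i, i ∉ K → w i = 0) →
      0 ≤ ∑ i, ∑ j, w i * w j * (if (i = u ∧ j = v) ∨ (i = v ∧ j = u) then t else X i j) := by
    intro t
    constructor
    · intro h w hw
      rw [← hform t w hw]
      exact h w (hsup' w hw)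
    · intro h w hw
      rw [hform t w (hsup w hw)]
      exact h w (hsup w hw)
  have h0 : PT A S u v (X u v) := by
    rw [hPT]
    intro w _
    have h1 := hX w
    have h2 : ∑ i, ∑ j, w i * w j * (if (i = u ∧ j = v) ∨ (i = v ∧ j = u) then X u v else X i j)
        = ∑ i, ∑ j, w i * w j * X i j := by
      refine Finset.sum_congr rfl fun i _ => Finset.sum_congr rfl fun j _ => ?_
      by_cases h : (i = u ∧ j = v) ∨ (i = v ∧ j = u)
      · rw [if_pos h]
        rcases h with ⟨rfl, rfl⟩ | ⟨rfl, rfl⟩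
        · rfl
        · rw [hXs]
      · rw [if_neg h]
    rw [h2]
    exact h1
  obtain ⟨m, ρ, hρ, hiff⟩ := one_fill A hA S u v huv huS hvS (X u v) h0
  have hDpos : 0 < d u * d v := mul_pos (hd u) (hd v)
  have hDr : (0 : ℝ) < ((d u * d v : ℚ) : ℝ) := by exact_mod_cast hDpos
  -- admissible entries are bounded
  have hbd : ∀ t, PT A S u v t → t ^ 2 ≤ ((d u * d v : ℚ) : ℝ) := by
    intro t ht
    rw [hPT] at ht
    have h1 : ∀ p : ℝ, 0 ≤ (d u : ℝ) * (p * p) + (2 * t) * p + d v := by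
      intro p
      have h2 := ht (fun i => if i = u then p else if i = v then 1 else 0) (by
        intro i hi
        have h3 : i ≠ u := fun h => hi (h ▸ hu)
        have h4 : i ≠ v := fun h => hi (h ▸ hv)
        simp [h3, h4])
      have h5 : ∀ f : Fin N → ℝ, ∑ i, (if i = u then p else if i = v then 1 else 0) * f i
          = p * f u + f v := by
        intro f
        rw [← Finset.sum_subset (Finset.subset_univ ({u, v} : Finset (Fin N)))
          (fun i _ hi => by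
            simp only [Finset.mem_insert, Finset.mem_singleton, not_or] at hi
            simp [hi.1, hi.2]), Finset.sum_pair huv]
        simp [huv.symm]
      have h6 : ∀ i, ∑ j, (if i = u then p else if i = v then (1 : ℝ) else 0)
          * (if j = u then p else if j = v then 1 else 0)
          * (if (i = u ∧ j = v) ∨ (i = v ∧ j = u) then t else X i j)
          = (if i = u then p else if i = v then (1 : ℝ) else 0)
            * (p * (if (i = u ∧ u = v) ∨ (i = v ∧ u = u) then t else X i u)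
              + (if (i = u ∧ v = v) ∨ (i = v ∧ v = u) then t else X i v)) := by
        intro i
        rw [← h5 fun j => if (i = u ∧ j = v) ∨ (i = v ∧ j = u) then t else X i j,
          Finset.mul_sum]
        exact Finset.sum_congr rfl fun j _ => by ring
      simp only [h6] at h2
      rw [h5] at h2
      simp only [huv, huv.symm, and_false, false_and, or_false, and_self, and_true, false_or,
        if_true, if_false, true_and, hXd] at h2
      linarith
    have h2 := discrim_le_zero h1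
    unfold discrim at h2
    push_cast
    nlinarith
  have hs : (√(ρ : ℝ)) ^ 2 = (ρ : ℝ) := Real.sq_sqrt (by exact_mod_cast hρ)
  have h1 : ((m : ℝ) - √(ρ : ℝ)) ^ 2 ≤ ((d u * d v : ℚ) : ℝ) :=
    hbd _ ((hiff _).2 (by
      have : ((m : ℝ) - √(ρ : ℝ) - m) ^ 2 = (√(ρ : ℝ)) ^ 2 := by ring
      rw [this, hs]))
  have h2 : ((m : ℝ) + √(ρ : ℝ)) ^ 2 ≤ ((d u * d v : ℚ) : ℝ) :=
    hbd _ ((hiff _).2 (by
      have : ((m : ℝ) + √(ρ : ℝ) - m) ^ 2 = (√(ρ : ℝ)) ^ 2 := by ring
      rw [this, hs]))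
  obtain ⟨hAU, hAL⟩ := two_valued hDpos m ρ hρ h1 h2
  set s : ℝ := √((d u * d v : ℚ) : ℝ) with hsdef
  have hspos : 0 < s := Real.sqrt_pos.2 hDr
  have hiff2 : ∀ t : ℝ, PT A S u v t ↔ (m : ℝ) - √(ρ : ℝ) ≤ t ∧ t ≤ (m : ℝ) + √(ρ : ℝ) := by
    intro t
    rw [hiff t]
    constructor
    · intro h
      have h3 := abs_le.1 (Real.abs_le_sqrt h)
      exact ⟨by linarith [h3.1], by linarith [h3.2]⟩
    · rintro ⟨h3, h4⟩
      rw [← hs]
      exact sq_le_sq' (by linarith) (by linarith)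
  have h3 := (hiff2 _).1 h0
  have hang : ang d u v (X u v) = arccos (X u v / s) := rfl
  have hm1 : -1 ≤ ((m : ℝ) - √(ρ : ℝ)) / s := by
    rw [le_div_iff₀ hspos]
    have := abs_le_of_sq_le_sq' (h1.trans (le_of_eq (Real.sq_sqrt hDr.le).symm)) hspos.le
    linarith [this.1]
  have hm2 : ((m : ℝ) + √(ρ : ℝ)) / s ≤ 1 := by
    rw [div_le_iff₀ hspos]
    have := abs_le_of_sq_le_sq' (h2.trans (le_of_eq (Real.sq_sqrt hDr.le).symm)) hspos.le
    linarith [this.2]
  have hm3 : ((m : ℝ) - √(ρ : ℝ)) / s ≤ ((m : ℝ) + √(ρ : ℝ)) / s :=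
    div_le_div_of_nonneg_right (by linarith [Real.sqrt_nonneg (ρ : ℝ)]) hspos.le
  refine ⟨arccos (((m : ℝ) + √(ρ : ℝ)) / s), arccos (((m : ℝ) - √(ρ : ℝ)) / s),
    arccos_nonneg _, arccos_le_pi _, hAL, hAU, ?_, ?_, ?_⟩
  · rw [hang]
    exact antitone_arccos (div_le_div_of_nonneg_right h3.2 hspos.le)
  · rw [hang]
    exact antitone_arccos (div_le_div_of_nonneg_right h3.1 hspos.le)
  · intro φ hφ0 hφπ hL hU
    rw [← hPT, hiff2]
    constructor
    · have h4 := cos_le_cos_of_nonneg_of_le_pi hφ0 (arccos_le_pi _) hU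
      rw [cos_arccos hm1 (hm3.trans hm2), div_le_iff₀ hspos] at h4
      linarith
    · have h4 := cos_le_cos_of_nonneg_of_le_pi (arccos_nonneg _) hφπ hL
      rw [cos_arccos (hm1.trans hm3) hm2, le_div_iff₀ hspos] at h4
      linarith

theorem others_fixed {n : ℕ} {d : Fin n → ℚ} {H : SimpleGraph (Fin n)}
    {lo hi : Fin n → Fin n → ℝ} (hI : Intervals d H lo hi) (K : Finset (Fin n))
    (hK : ∀ i ∈ K, ∀ j ∈ K, i ≠ j → H.Adj i j)
    (h4 : ∀ x y z : Fin n, ∃ e ∈ K, e ≠ x ∧ e ≠ y ∧ e ≠ z) {u v : Fin n} (hu : u ∈ K)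
    (hv : v ∈ K) (hne : u ≠ v) (huv : lo u v < hi u v) :
    ∀ i ∈ K, ∀ j ∈ K, i ≠ j → ¬ ((i = u ∧ j = v) ∨ (i = v ∧ j = u)) → lo i j = hi i j := by
  have hvu : lo v u < hi v u := by
    rw [← hI.losymm _ _ (hK u hu v hv hne), ← hI.hisymm _ _ (hK u hu v hv hne)]
    exact huv
  have A1 : ∀ x y : Fin n, x ∈ K → y ∈ K → x ≠ y → lo x y < hi x y → ∀ j ∈ K, j ≠ x → j ≠ y →
      lo x j = hi x j := by
    intro x y hx hy hxy hlt j hj h1 h2
    obtain ⟨e, he, e1, e2, e3⟩ := h4 x y j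
    exact (hI.four x y j e (hK x hx y hy hxy) (hK x hx j hj h1.symm) (hK x hx e he e1.symm)
      (hK y hy j hj h2.symm) (hK y hy e he e2.symm) (hK j hj e he e3.symm) hlt).1
  intro i hi' j hj hij hn
  by_cases h1 : i = u
  · subst h1
    have h2 : j ≠ v := fun h => hn (Or.inl ⟨rfl, h⟩)
    exact A1 i v hu hv hne huv j hj hij.symm h2
  · by_cases h2 : i = v
    · subst h2
      have h3 : j ≠ u := fun h => hn (Or.inr ⟨rfl, h⟩)
      exact A1 i u hv hu hne.symm hvu j hj hij.symm h3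
    · by_cases h3 : j = u
      · subst h3
        rw [hI.losymm _ _ (hK i hi' j hj hij), hI.hisymm _ _ (hK i hi' j hj hij)]
        exact A1 j v hu hv hne huv i hi' hij h2
      · by_cases h5 : j = v
        · subst h5
          rw [hI.losymm _ _ (hK i hi' j hj hij), hI.hisymm _ _ (hK i hi' j hj hij)]
          exact A1 j u hv hu hne.symm hvu i hi' hij h1
        · exact (hI.four u v i j (hK u hu v hv hne) (hK u hu i hi' (Ne.symm h1))
            (hK u hu j hj (Ne.symm h3)) (hK v hv i hi' (Ne.symm h2))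
            (hK v hv j hj (Ne.symm h5)) (hK i hi' j hj hij) huv).2

theorem fixed_ang {n : ℕ} {d : Fin n → ℚ} {H : SimpleGraph (Fin n)}
    {lo hi : Fin n → Fin n → ℝ} {X : Fin n → Fin n → ℝ} (hF : Fits d H lo hi X)
    {i j : Fin n} (hij : H.Adj i j) (h : lo i j = hi i j) : ang d i j (X i j) = lo i j := by
  have h1 := hF.lo _ _ hij
  have h2 := hF.hi _ _ hij
  linarith

theorem fixed_rat {n : ℕ} {d : Fin n → ℚ} (hd : ∀ i, 0 < d i) {H : SimpleGraph (Fin n)}
    {lo hi : Fin n → Fin n → ℝ} (hI : Intervals d H lo hi) {X : Fin n → Fin n → ℝ}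
    (hF : Fits d H lo hi X) {i j : Fin n} (hij : H.Adj i j) (h : lo i j = hi i j) :
    ∃ q : ℚ, X i j = q := by
  have h1 : RatAng (d i * d j) (lo i j) := by
    refine ratAng_of_eq (mul_pos (hd i) (hd j)) (hI.lo0 _ _ hij) ?_ ?_ (hI.rlo _ _ hij)
    · rw [h]
      exact hI.hiπ _ _ hij
    · rw [h]
      exact hI.rhi _ _ hij
  obtain ⟨q, hq⟩ := h1.2.2
  refine ⟨q, ?_⟩
  rw [← hq, ← fixed_ang hF hij h]
  exact (sqrt_mul_cos_ang hd hF.symm hF.qf hF.diag i j).symm

end Pool.Agent.Lib.MP_13b08e_lc.RC
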