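import Pool.Agent.Lib.MP_13b08e_lc.RC.StepA
import Pool.Agent.Lib.MP_13b08e_lc.RC.StepCD

/-!
The elimination theorem.
-/

namespace Pool.Agent.Lib.MP_13b08e_lc.RC

open Real

section

variable {n : ℕ} {d : Fin (n + 1) → ℚ} {H : SimpleGraph (Fin (n + 1))}
  {lo hi : Fin (n + 1) → Fin (n + 1) → ℝ}

theorem Intervals.succ (hI : Intervals d H lo hi) :
    Intervals (fun i => d i.succ) (H.comap Fin.succ) (fun i j => lo i.succ j.succ)
      (fun i j => hi i.succ j.succ) :=
  ⟨fun _ _ h => hI.losymm _ _ h, fun _ _ h => hI.hisymm _ _ h, fun _ _ h => hI.lo0 _ _ h,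
    fun _ _ h => hI.hiπ _ _ h, fun _ _ h => hI.rhi _ _ h, fun _ _ h => hI.rlo _ _ h,
    fun _ _ _ _ h1 h2 h3 h4 h5 h6 h7 => hI.four _ _ _ _ h1 h2 h3 h4 h5 h6 h7⟩

theorem Fits.succ {X : Fin (n + 1) → Fin (n + 1) → ℝ} (hF : Fits d H lo hi X) :
    Fits (fun i => d i.succ) (H.comap Fin.succ) (fun i j => lo i.succ j.succ)
      (fun i j => hi i.succ j.succ) (fun i j => X i.succ j.succ) :=
  ⟨fun _ _ => hF.symm _ _, hF.qf.succ, fun _ => hF.diag _, fun _ _ h => hF.lo _ _ h,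
    fun _ _ h => hF.hi _ _ h⟩

/-- Rigid entries agree. -/
theorem rigid_eq (hd : ∀ i, 0 < d i) {X : Fin (n + 1) → Fin (n + 1) → ℝ}
    (hF : Fits d H lo hi X) {Y : Fin n → Fin n → ℝ}
    (hY : Fits (fun i => d i.succ) (H.comap Fin.succ) (fun i j => lo i.succ j.succ)
      (fun i j => hi i.succ j.succ) Y) {i j : Fin n} (hij : H.Adj i.succ j.succ)
    (h : lo i.succ j.succ = hi i.succ j.succ) : X i.succ j.succ = Y i j := by
  have h2 := hF.lo _ _ hij
  have h3 := hF.hi _ _ hij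
  have h4 := hY.lo i j hij
  have h5 := hY.hi i j hij
  have h6 : ang (fun i => d i.succ) i j (Y i j : ℝ) = ang d i.succ j.succ (Y i j : ℝ) := rfl
  have h7 : ang (fun i => d i.succ) i j (X i.succ j.succ)
      = ang d i.succ j.succ (X i.succ j.succ) := rfl
  refine entry_eq (d := fun i => d i.succ) (fun i => hd i.succ)
    (X := fun i j => X i.succ j.succ) (Y := Y)
    (fun i j => hF.symm _ _) hF.qf.succ (fun i => hF.diag _) hY.symm hY.qf hY.diag ?_
  rw [h6, h7]
  rw [h6] at h4 h5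
  linarith

/-- Case D: the free pair contains the eliminated vertex. -/
theorem stepD (hd : ∀ i, 0 < d i) (hI : Intervals d H lo hi)
    (hK : ∀ i j : Fin (n + 1), (i = 0 ∨ H.Adj 0 i) → (j = 0 ∨ H.Adj 0 j) → i ≠ j → H.Adj i j)
    (h4 : ∀ x y z : Fin (n + 1), ∃ e, (e = 0 ∨ H.Adj 0 e) ∧ e ≠ x ∧ e ≠ y ∧ e ≠ z)
    (X : Fin (n + 1) → Fin (n + 1) → ℝ) (hF : Fits d H lo hi X)
    {a : Fin n} (ha : H.Adj 0 a.succ) (hlt : lo 0 a.succ < hi 0 a.succ)
    (ih : ∀ (lo' hi' : Fin n → Fin n → ℝ), Intervals (fun i => d i.succ) (H.comap Fin.succ)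
      lo' hi' → Fits (fun i => d i.succ) (H.comap Fin.succ) lo' hi'
        (fun i j => X i.succ j.succ) →
      ∃ Y : Fin n → Fin n → ℚ, Fits (fun i => d i.succ) (H.comap Fin.succ) lo' hi'
        (fun i j => (Y i j : ℝ))) :
    ∃ Z : Fin (n + 1) → Fin (n + 1) → ℚ, Fits d H lo hi (fun i j => (Z i j : ℝ)) := by
  classical
  let K : Finset (Fin (n + 1)) := Finset.univ.filter fun i => i = 0 ∨ H.Adj 0 i
  have hmem : ∀ i, i ∈ K ↔ (i = 0 ∨ H.Adj 0 i) := fun i => by simp [K]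
  have hK' : ∀ i ∈ K, ∀ j ∈ K, i ≠ j → H.Adj i j := fun i hi j hj hij =>
    hK i j ((hmem i).1 hi) ((hmem j).1 hj) hij
  have h4' : ∀ x y z : Fin (n + 1), ∃ e ∈ K, e ≠ x ∧ e ≠ y ∧ e ≠ z := fun x y z => by
    obtain ⟨e, he, h⟩ := h4 x y z
    exact ⟨e, (hmem e).2 he, h⟩
  have h0K : (0 : Fin (n + 1)) ∈ K := (hmem 0).2 (Or.inl rfl)
  have haK : a.succ ∈ K := (hmem _).2 (Or.inr ha)
  have hne : (0 : Fin (n + 1)) ≠ a.succ := (Fin.succ_ne_zero a).symm
  have hfix := others_fixed hI K hK' h4' h0K haK hne hlt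
  have hrat : ∀ i ∈ K, ∀ j ∈ K, ¬ ((i = 0 ∧ j = a.succ) ∨ (i = a.succ ∧ j = 0)) →
      ∃ q : ℚ, X i j = q := by
    intro i hi' j hj hn
    by_cases hij : i = j
    · subst hij
      exact ⟨d i, hF.diag i⟩
    · exact fixed_rat hd hI hF (hK' i hi' j hj hij) (hfix i hi' j hj hij hn)
  obtain ⟨L, U, hL0, hUπ, hAL, hAU, hLX, hXU, hform⟩ := clique_int hd hF.symm hF.qf hF.diag K 0
    a.succ h0K haK hne hrat
  have hDpos : 0 < d 0 * d a.succ := mul_pos (hd 0) (hd _)
  have hDr : (0 : ℝ) < ((d 0 * d a.succ : ℚ) : ℝ) := by exact_mod_cast hDpos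
  obtain ⟨τ, hτR, hτL, hτU⟩ := exists_ratAng hDpos
    ((max_le (hF.lo _ _ ha) hLX).trans (le_min (hF.hi _ _ ha) hXU))
    (hL0.trans (le_max_right _ _)) ((min_le_right _ _).trans hUπ)
    (au_min (hI.rhi _ _ ha) hAU) (al_max (hI.rlo _ _ ha) hAL)
  simp only [max_le_iff, le_min_iff] at hτL hτU
  obtain ⟨qa, hqa⟩ := hτR.2.2
  obtain ⟨Y, hY⟩ := ih _ _ hI.succ hF.succ
  have hYd : ∀ i, Y i i = d i.succ := fun i => by exact_mod_cast hY.diag i
  have hC : ∀ i : Fin n, H.Adj 0 i.succ → i.succ ∈ K := fun i h => (hmem _).2 (Or.inr h)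
  let q : Fin n → ℚ := fun i => if i = a then qa else ratVal (X 0 i.succ)
  have hqa' : q a = qa := if_pos rfl
  have hqi : ∀ i, H.Adj 0 i.succ → i ≠ a → (q i : ℝ) = X 0 i.succ := by
    intro i hi' hia
    change ((if i = a then qa else ratVal (X 0 i.succ) : ℚ) : ℝ) = _
    rw [if_neg hia]
    refine ratVal_spec (hrat 0 h0K i.succ (hC i hi') ?_)
    rintro (⟨_, h⟩ | ⟨h, _⟩)
    · exact hia (Fin.succ_injective _ h)
    · exact hne h
  refine finish d hd H lo hi hI Y hY q ?_ ?_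
  · intro i hi'
    by_cases hia : i = a
    · subst hia
      have h1 : ang d 0 i.succ (q i : ℝ) = τ := by
        rw [hqa', ← hqa]
        unfold ang
        rw [mul_div_cancel_left₀ _ (Real.sqrt_pos.2 hDr).ne', Real.arccos_cos hτR.1 hτR.2.1]
      rw [h1]
      exact ⟨hτL.1, hτU.1⟩
    · rw [hqi i hi' hia]
      exact ⟨hF.lo _ _ hi', hF.hi _ _ hi'⟩
  · refine H0_of (fun i j => if (i = 0 ∧ j = a.succ) ∨ (i = a.succ ∧ j = 0) then
      √((d 0 * d a.succ : ℚ) : ℝ) * cos τ else X i j) (fun i => H.Adj 0 i.succ) (d 0) q Y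
      ?_ ?_ ?_ ?_ ?_
    · have hn : ¬ (((0 : Fin (n + 1)) = 0 ∧ (0 : Fin (n + 1)) = a.succ) ∨
          ((0 : Fin (n + 1)) = a.succ ∧ (0 : Fin (n + 1)) = 0)) := by
        rintro (⟨_, h⟩ | ⟨h, _⟩) <;> exact hne h
      change (if _ then _ else X 0 0) = _
      rw [if_neg hn]
      exact hF.diag 0
    · intro i hi'
      by_cases hia : i = a
      · subst hia
        change (if _ then _ else X 0 i.succ) = _
        rw [if_pos (Or.inl ⟨rfl, rfl⟩), hqa', hqa]
      · have hn : ¬ (((0 : Fin (n + 1)) = 0 ∧ i.succ = a.succ) ∨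
            ((0 : Fin (n + 1)) = a.succ ∧ i.succ = 0)) := by
          rintro (⟨_, h⟩ | ⟨h, _⟩)
          · exact hia (Fin.succ_injective _ h)
          · exact hne h
        change (if _ then _ else X 0 i.succ) = _
        rw [if_neg hn, hqi i hi' hia]
    · intro i hi'
      by_cases hia : i = a
      · subst hia
        change (if _ then _ else X i.succ 0) = _
        rw [if_pos (Or.inr ⟨rfl, rfl⟩), hqa', hqa]
      · have hn : ¬ ((i.succ = 0 ∧ (0 : Fin (n + 1)) = a.succ) ∨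
            (i.succ = a.succ ∧ (0 : Fin (n + 1)) = 0)) := by
          rintro (⟨_, h⟩ | ⟨h, _⟩)
          · exact hne h
          · exact hia (Fin.succ_injective _ h)
        change (if _ then _ else X i.succ 0) = _
        rw [if_neg hn, hqi i hi' hia, hF.symm]
    · intro i j hi' hj
      have hn : ¬ ((i.succ = 0 ∧ j.succ = a.succ) ∨ (i.succ = a.succ ∧ j.succ = 0)) := by
        rintro (⟨h, _⟩ | ⟨_, h⟩) <;> exact Fin.succ_ne_zero _ h
      change (if _ then _ else X i.succ j.succ) = _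
      rw [if_neg hn]
      by_cases hij : i = j
      · subst hij
        rw [hF.diag, hYd]
      · have hij' : i.succ ≠ j.succ := fun h => hij (Fin.succ_injective _ h)
        exact rigid_eq hd hF hY (hK' _ (hC i hi') _ (hC j hj) hij')
          (hfix _ (hC i hi') _ (hC j hj) hij' hn)
    · intro W hW
      refine hform τ hτR.1 hτR.2.1 hτL.2 hτU.2 W ?_
      intro i hi'
      have h1 : i ≠ 0 := fun h => hi' ((hmem i).2 (Or.inl h))
      obtain ⟨k, rfl⟩ := Fin.exists_succ_eq.2 h1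
      exact hW k fun h => hi' (hC k h)

/-- Case C: the free pair consists of later neighbours. -/
theorem stepC (hd : ∀ i, 0 < d i) (hI : Intervals d H lo hi)
    (hK : ∀ i j : Fin (n + 1), (i = 0 ∨ H.Adj 0 i) → (j = 0 ∨ H.Adj 0 j) → i ≠ j → H.Adj i j)
    (h4 : ∀ x y z : Fin (n + 1), ∃ e, (e = 0 ∨ H.Adj 0 e) ∧ e ≠ x ∧ e ≠ y ∧ e ≠ z)
    (X : Fin (n + 1) → Fin (n + 1) → ℝ) (hF : Fits d H lo hi X)
    {a b : Fin n} (ha : H.Adj 0 a.succ) (hb : H.Adj 0 b.succ) (hab : a ≠ b)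
    (hlt : lo a.succ b.succ < hi a.succ b.succ)
    (ih : ∀ (lo' hi' : Fin n → Fin n → ℝ), Intervals (fun i => d i.succ) (H.comap Fin.succ)
      lo' hi' → Fits (fun i => d i.succ) (H.comap Fin.succ) lo' hi'
        (fun i j => X i.succ j.succ) →
      ∃ Y : Fin n → Fin n → ℚ, Fits (fun i => d i.succ) (H.comap Fin.succ) lo' hi'
        (fun i j => (Y i j : ℝ))) :
    ∃ Z : Fin (n + 1) → Fin (n + 1) → ℚ, Fits d H lo hi (fun i j => (Z i j : ℝ)) := by
  classical
  let K : Finset (Fin (n + 1)) := Finset.univ.filter fun i => i = 0 ∨ H.Adj 0 i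
  have hmem : ∀ i, i ∈ K ↔ (i = 0 ∨ H.Adj 0 i) := fun i => by simp [K]
  have hK' : ∀ i ∈ K, ∀ j ∈ K, i ≠ j → H.Adj i j := fun i hi j hj hij =>
    hK i j ((hmem i).1 hi) ((hmem j).1 hj) hij
  have h4' : ∀ x y z : Fin (n + 1), ∃ e ∈ K, e ≠ x ∧ e ≠ y ∧ e ≠ z := fun x y z => by
    obtain ⟨e, he, h⟩ := h4 x y z
    exact ⟨e, (hmem e).2 he, h⟩
  have h0K : (0 : Fin (n + 1)) ∈ K := (hmem 0).2 (Or.inl rfl)
  have haK : a.succ ∈ K := (hmem _).2 (Or.inr ha)
  have hbK : b.succ ∈ K := (hmem _).2 (Or.inr hb)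
  have hne : a.succ ≠ b.succ := fun h => hab (Fin.succ_injective _ h)
  have hadj : H.Adj a.succ b.succ := hK' _ haK _ hbK hne
  have hfix := others_fixed hI K hK' h4' haK hbK hne hlt
  have hrat : ∀ i ∈ K, ∀ j ∈ K, ¬ ((i = a.succ ∧ j = b.succ) ∨ (i = b.succ ∧ j = a.succ)) →
      ∃ q : ℚ, X i j = q := by
    intro i hi' j hj hn
    by_cases hij : i = j
    · subst hij
      exact ⟨d i, hF.diag i⟩
    · exact fixed_rat hd hI hF (hK' i hi' j hj hij) (hfix i hi' j hj hij hn)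
  obtain ⟨L, U, hL0, hUπ, hAL, hAU, hLX, hXU, hform⟩ := clique_int hd hF.symm hF.qf hF.diag K
    a.succ b.succ haK hbK hne hrat
  have hLX' := max_le (hF.lo _ _ hadj) hLX
  have hXU' := le_min (hF.hi _ _ hadj) hXU
  have hLl : lo a.succ b.succ ≤ max (lo a.succ b.succ) L := le_max_left _ _
  have hUu : min (hi a.succ b.succ) U ≤ hi a.succ b.succ := min_le_left _ _
  obtain ⟨Y, hY⟩ := ih _ _ (upd_int X hF hI _ _ hLX' hXU' hLl hUu
    (al_max (hI.rlo _ _ hadj) hAL) (au_min (hI.rhi _ _ hadj) hAU))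
    (upd_fits X hF _ _ hLX' hXU')
  have hY' := upd_back hI _ _ hLl hUu _ hY
  have hYs : ∀ i j, Y i j = Y j i := fun i j => by exact_mod_cast hY.symm i j
  have hYd : ∀ i, Y i i = d i.succ := fun i => by exact_mod_cast hY.diag i
  have hC : ∀ i : Fin n, H.Adj 0 i.succ → i.succ ∈ K := fun i h => (hmem _).2 (Or.inr h)
  -- the angle of `Y a b`
  obtain ⟨θ, hθdef⟩ : ∃ θ, θ = ang d a.succ b.succ (Y a b : ℝ) := ⟨_, rfl⟩
  have hθ0 : 0 ≤ θ := by
    rw [hθdef]
    exact ang_nonneg _ _ _ _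
  have hθπ : θ ≤ π := by
    rw [hθdef]
    exact ang_le_pi _ _ _ _
  have hpos : (a = a ∧ b = b) ∨ (a = b ∧ b = a) := Or.inl ⟨rfl, rfl⟩
  have hθlo : max (lo a.succ b.succ) L ≤ θ := by
    have := hY.lo a b hadj
    unfold upd at this
    rw [if_pos hpos] at this
    rw [hθdef]
    exact this
  have hθhi : θ ≤ min (hi a.succ b.succ) U := by
    have := hY.hi a b hadj
    unfold upd at this
    rw [if_pos hpos] at this
    rw [hθdef]
    exact this
  have hYab : √((d a.succ * d b.succ : ℚ) : ℝ) * cos θ = (Y a b : ℝ) := by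
    rw [hθdef]
    exact sqrt_mul_cos_ang (X := fun i j => (Y i j : ℝ)) (d := fun i => d i.succ)
      (fun i => hd i.succ) hY.symm hY.qf hY.diag a b
  have hqi : ∀ i : Fin n, H.Adj 0 i.succ → (ratVal (X 0 i.succ) : ℝ) = X 0 i.succ := by
    intro i hi'
    refine ratVal_spec (hrat 0 h0K i.succ (hC i hi') ?_)
    rintro (⟨h, _⟩ | ⟨h, _⟩) <;> exact Fin.succ_ne_zero _ h.symm
  refine finish d hd H lo hi hI Y hY' (fun i => ratVal (X 0 i.succ)) ?_ ?_
  · intro i hi'
    change lo 0 i.succ ≤ ang d 0 i.succ (ratVal (X 0 i.succ) : ℝ) ∧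
      ang d 0 i.succ (ratVal (X 0 i.succ) : ℝ) ≤ hi 0 i.succ
    rw [hqi i hi']
    exact ⟨hF.lo _ _ hi', hF.hi _ _ hi'⟩
  · refine H0_of (fun i j => if (i = a.succ ∧ j = b.succ) ∨ (i = b.succ ∧ j = a.succ) then
      √((d a.succ * d b.succ : ℚ) : ℝ) * cos θ else X i j) (fun i => H.Adj 0 i.succ) (d 0)
      (fun i => ratVal (X 0 i.succ)) Y ?_ ?_ ?_ ?_ ?_
    · have hn : ¬ (((0 : Fin (n + 1)) = a.succ ∧ (0 : Fin (n + 1)) = b.succ) ∨
          ((0 : Fin (n + 1)) = b.succ ∧ (0 : Fin (n + 1)) = a.succ)) := by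
        rintro (⟨h, _⟩ | ⟨h, _⟩) <;> exact Fin.succ_ne_zero _ h.symm
      change (if _ then _ else X 0 0) = _
      rw [if_neg hn]
      exact hF.diag 0
    · intro i hi'
      have hn : ¬ (((0 : Fin (n + 1)) = a.succ ∧ i.succ = b.succ) ∨
          ((0 : Fin (n + 1)) = b.succ ∧ i.succ = a.succ)) := by
        rintro (⟨h, _⟩ | ⟨h, _⟩) <;> exact Fin.succ_ne_zero _ h.symm
      change (if _ then _ else X 0 i.succ) = _
      rw [if_neg hn, hqi i hi']
    · intro i hi'
      have hn : ¬ ((i.succ = a.succ ∧ (0 : Fin (n + 1)) = b.succ) ∨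
          (i.succ = b.succ ∧ (0 : Fin (n + 1)) = a.succ)) := by
        rintro (⟨_, h⟩ | ⟨_, h⟩) <;> exact Fin.succ_ne_zero _ h.symm
      change (if _ then _ else X i.succ 0) = _
      rw [if_neg hn, hqi i hi', hF.symm]
    · intro i j hi' hj
      by_cases hn : (i.succ = a.succ ∧ j.succ = b.succ) ∨ (i.succ = b.succ ∧ j.succ = a.succ)
      · change (if _ then _ else X i.succ j.succ) = _
        rw [if_pos hn, hYab]
        rcases hn with ⟨h1, h2⟩ | ⟨h1, h2⟩
        · rw [Fin.succ_injective _ h1, Fin.succ_injective _ h2]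
        · rw [Fin.succ_injective _ h1, Fin.succ_injective _ h2, hYs]
      · change (if _ then _ else X i.succ j.succ) = _
        rw [if_neg hn]
        by_cases hij : i = j
        · subst hij
          rw [hF.diag, hYd]
        · have hij' : i.succ ≠ j.succ := fun h => hij (Fin.succ_injective _ h)
          exact rigid_eq hd hF hY' (hK' _ (hC i hi') _ (hC j hj) hij')
            (hfix _ (hC i hi') _ (hC j hj) hij' hn)
    · intro W hW
      simp only [max_le_iff, le_min_iff] at hθlo hθhi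
      refine hform θ hθ0 hθπ hθlo.2 hθhi.2 W ?_
      intro i hi'
      have h1 : i ≠ 0 := fun h => hi' ((hmem i).2 (Or.inl h))
      obtain ⟨k, rfl⟩ := Fin.exists_succ_eq.2 h1
      exact hW k fun h => hi' (hC k h)

end

/-- **Elimination theorem.** -/
theorem elimination : ∀ (n : ℕ) (d : Fin n → ℚ) (_ : ∀ i, 0 < d i) (H : SimpleGraph (Fin n))
    (_ : Peo H) (lo hi : Fin n → Fin n → ℝ) (_ : Intervals d H lo hi)
    (X : Fin n → Fin n → ℝ) (_ : Fits d H lo hi X),
    ∃ Z : Fin n → Fin n → ℚ, Fits d H lo hi (fun i j => (Z i j : ℝ)) := by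
  intro n
  induction n with
  | zero =>
    intro d hd H hP lo hi hI X hF
    exact ⟨fun _ _ => 0, fun i => i.elim0, fun w => by simp, fun i => i.elim0,
      fun i => i.elim0, fun i => i.elim0⟩
  | succ n ih =>
    intro d hd H hP lo hi hI X hF
    have ih' : ∀ (lo' hi' : Fin n → Fin n → ℝ), Intervals (fun i => d i.succ) (H.comap Fin.succ)
      lo' hi' → Fits (fun i => d i.succ) (H.comap Fin.succ) lo' hi'
        (fun i j => X i.succ j.succ) →
      ∃ Y : Fin n → Fin n → ℚ, Fits (fun i => d i.succ) (H.comap Fin.succ) lo' hi'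
        (fun i j => (Y i j : ℝ)) := fun lo' hi' hI' hF' =>
      ih (fun i => d i.succ) (fun i => hd i.succ) (H.comap Fin.succ) hP.succ lo' hi' hI' _ hF'
    by_cases hA : ∃ a b : Fin n, a ≠ b ∧ ∀ i : Fin n, H.Adj 0 i.succ ↔ (i = a ∨ i = b)
    · obtain ⟨a, b, hne, hC⟩ := hA
      have ha : H.Adj 0 a.succ := (hC a).2 (Or.inl rfl)
      have hb : H.Adj 0 b.succ := (hC b).2 (Or.inr rfl)
      have hab : H.Adj a.succ b.succ := hP 0 a.succ b.succ ha hb (Fin.succ_pos _) (Fin.succ_pos _)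
        (fun h => hne (Fin.succ_injective _ h))
      exact stepA hd hI hne hC hab X hF ih'
    · by_cases hB : ∀ a b : Fin n, H.Adj 0 a.succ → H.Adj 0 b.succ → a ≠ b →
          lo 0 a.succ = hi 0 a.succ ∧ lo a.succ b.succ = hi a.succ b.succ ∧
            H.Adj a.succ b.succ
      · obtain ⟨Y, hY⟩ := ih' _ _ hI.succ hF.succ
        exact stepB d hd H lo hi hI X hF hB Y hY
      · have hK : ∀ i j : Fin (n + 1), (i = 0 ∨ H.Adj 0 i) → (j = 0 ∨ H.Adj 0 j) → i ≠ j →
            H.Adj i j := by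
          intro i j hi' hj hij
          rcases hi' with rfl | hi'
          · rcases hj with rfl | hj
            · exact absurd rfl hij
            · exact hj
          · rcases hj with rfl | hj
            · exact hi'.symm
            · exact hP 0 i j hi' hj (Fin.pos_of_ne_zero hi'.ne') (Fin.pos_of_ne_zero hj.ne') hij
        push Not at hB
        obtain ⟨a, b, ha, hb, hab, hnot⟩ := hB
        have hex : ∃ c : Fin n, H.Adj 0 c.succ ∧ c ≠ a ∧ c ≠ b := by
          by_contra hcon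
          push Not at hcon
          refine hA ⟨a, b, hab, fun i => ⟨fun hi => ?_, ?_⟩⟩
          · by_cases h : i = a
            · exact Or.inl h
            · exact Or.inr (hcon i hi h)
          · rintro (rfl | rfl)
            · exact ha
            · exact hb
        obtain ⟨c, hc, hca, hcb⟩ := hex
        have h4 : ∀ x y z : Fin (n + 1), ∃ e, (e = 0 ∨ H.Adj 0 e) ∧ e ≠ x ∧ e ≠ y ∧ e ≠ z := by
          intro x y z
          by_contra hcon
          push Not at hcon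
          have k0 := hcon 0 (Or.inl rfl)
          have k1 := hcon a.succ (Or.inr ha)
          have k2 := hcon b.succ (Or.inr hb)
          have k3 := hcon c.succ (Or.inr hc)
          have n0 := Fin.succ_ne_zero a
          have n1 := Fin.succ_ne_zero b
          have n2 := Fin.succ_ne_zero c
          have n3 : a.succ ≠ b.succ := fun h => hab (Fin.succ_injective _ h)
          have n4 : c.succ ≠ a.succ := fun h => hca (Fin.succ_injective _ h)
          have n5 : c.succ ≠ b.succ := fun h => hcb (Fin.succ_injective _ h)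
          grind
        by_cases h0 : lo 0 a.succ = hi 0 a.succ
        · have hadj : H.Adj a.succ b.succ := hK _ _ (Or.inr ha) (Or.inr hb)
            (fun h => hab (Fin.succ_injective _ h))
          have h1 : lo a.succ b.succ ≠ hi a.succ b.succ := fun h => hnot h0 h hadj
          exact stepC hd hI hK h4 X hF ha hb hab
            (lt_of_le_of_ne ((hF.lo _ _ hadj).trans (hF.hi _ _ hadj)) h1) ih'
        · exact stepD hd hI hK h4 X hF ha
            (lt_of_le_of_ne ((hF.lo _ _ ha).trans (hF.hi _ _ ha)) h0) ih'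

end Pool.Agent.Lib.MP_13b08e_lc.RC
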