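import Pool.Agent.Lib.MP_13b08e_lc.RC.Defs

/-!
Extension by zero of rational completions on induced subgraphs, and the linear equations for the
columns of a rational positive semidefinite matrix.
-/

namespace Pool.Agent.Lib.MP_13b08e_lc.RC

open Matrix

variable {V : Type}

theorem quad_nonneg [Fintype V] {M : Matrix V V ℝ} (h : M.PosSemidef) (w : V → ℝ) :
    0 ≤ ∑ i, ∑ j, w i * M i j * w j := by
  have h1 := h.dotProduct_mulVec_nonneg w
  simpa [dotProduct, mulVec, Finset.mul_sum, mul_assoc] using h1

theorem psd_symm {M : Matrix V V ℝ} (h : M.PosSemidef) (i j : V) : M i j = M j i := by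
  have h1 := h.isHermitian.apply i j
  simpa using h1.symm

theorem quad_nonneg_rat [Fintype V] {M : Matrix V V ℚ}
    (h : (M.map (fun q : ℚ => (q : ℝ))).PosSemidef) (w : V → ℚ) :
    0 ≤ ∑ i, ∑ j, w i * M i j * w j := by
  have h1 := quad_nonneg h (fun i => (w i : ℝ))
  have h2 : ∑ i, ∑ j, ((w i : ℚ) : ℝ) * (M.map (fun q : ℚ => (q : ℝ))) i j * ((w j : ℚ) : ℝ)
      = ((∑ i, ∑ j, w i * M i j * w j : ℚ) : ℝ) := by
    push_cast
    rfl
  rw [h2] at h1
  exact_mod_cast h1

theorem psd_symm_rat {M : Matrix V V ℚ}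
    (h : (M.map (fun q : ℚ => (q : ℝ))).PosSemidef) (i j : V) : M i j = M j i := by
  have h1 := psd_symm h i j
  simp only [Matrix.map_apply] at h1
  exact_mod_cast h1

theorem ext_of_ratCompl [Fintype V] {G : SimpleGraph V} {A : Set V}
    (h : RatCompl (G.induce A)) {a : V → V → ℚ} {X : Matrix V V ℝ} (hX : Completes G a X) :
    ∃ y : Matrix V V ℚ, (y.map (fun q : ℚ => (q : ℝ))).PosSemidef ∧
      (∀ i ∈ A, y i i = a i i) ∧
      (∀ i ∈ A, ∀ j ∈ A, G.Adj i j → y i j = a i j) ∧
      (∀ i j, i ∉ A → y i j = 0) := by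
  classical
  obtain ⟨Y, hY⟩ := h (fun i j => a i j) ⟨X.submatrix Subtype.val Subtype.val,
    { psd := hX.psd.submatrix _
      diag := fun i => hX.diag _
      edge := fun i j hij => hX.edge _ _ hij }⟩
  refine ⟨fun i j => if h : i ∈ A ∧ j ∈ A then Y ⟨i, h.1⟩ ⟨j, h.2⟩ else 0, ?_, ?_, ?_, ?_⟩
  · have h1 := hY.psd.conjTranspose_mul_mul_same
      (Matrix.of fun (b : A) (v : V) => if (b : V) = v then (1 : ℝ) else 0)
    convert h1 using 1
    ext i j
    simp only [Matrix.map_apply, Matrix.mul_apply, Matrix.conjTranspose_apply, Matrix.of_apply,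
      star_trivial, ite_mul, one_mul, zero_mul, mul_ite, mul_one, mul_zero]
    by_cases hi : i ∈ A
    · have hi' : ∀ b : A, ((b : V) = i) ↔ (b = ⟨i, hi⟩) := fun b => by
        rw [Subtype.ext_iff]
      by_cases hj : j ∈ A
      · have hj' : ∀ b : A, ((b : V) = j) ↔ (b = ⟨j, hj⟩) := fun b => by
          rw [Subtype.ext_iff]
        simp [hi, hj, hi', hj']
      · have hj' : ∀ b : A, ¬ ((b : V) = j) := fun b hb => hj (hb ▸ b.2)
        simp [hj, hj']
    · have hi' : ∀ b : A, ¬ ((b : V) = i) := fun b hb => hi (hb ▸ b.2)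
      simp [hi, hi']
  · intro i hi
    have h1 := hY.diag ⟨i, hi⟩
    simp only [Matrix.map_apply] at h1
    simp only [hi, and_self, dite_true]
    exact_mod_cast h1
  · intro i hi j hj hij
    have h1 := hY.edge ⟨i, hi⟩ ⟨j, hj⟩ hij
    simp only [Matrix.map_apply] at h1
    simp only [hi, hj, and_self, dite_true]
    exact_mod_cast h1
  · intro i j hi
    simp [hi]

/-- The equations `z_KK u = z_Kb` are solvable over `ℚ` for a rational positive semidefinite
matrix. -/
theorem exists_solution [Fintype V] {z : Matrix V V ℚ}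
    (h : (z.map (fun q : ℚ => (q : ℝ))).PosSemidef) (K : Set V) (b : V) :
    ∃ u : V → ℚ, (∀ l, l ∉ K → u l = 0) ∧ ∀ k ∈ K, ∑ l, z k l * u l = z k b := by
  classical
  let T : (V → ℚ) →ₗ[ℚ] (V → ℚ) :=
    { toFun := fun u k => if k ∈ K then ∑ l, z k l * (if l ∈ K then u l else 0) else 0
      map_add' := fun u v => by
        funext k
        by_cases hk : k ∈ K
        · simp only [hk, if_true, Pi.add_apply]
          rw [← Finset.sum_add_distrib]
          refine Finset.sum_congr rfl fun l _ => ?_
          by_cases hl : l ∈ K <;> simp [hl, mul_add]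
        · simp [hk]
      map_smul' := fun c u => by
        funext k
        by_cases hk : k ∈ K
        · simp only [hk, if_true, Pi.smul_apply, smul_eq_mul, RingHom.id_apply]
          rw [Finset.mul_sum]
          refine Finset.sum_congr rfl fun l _ => ?_
          by_cases hl : l ∈ K
          · simp only [hl, if_true]; ring
          · simp [hl]
        · simp [hk] }
  have hT : ∀ u k, T u k = if k ∈ K then ∑ l, z k l * (if l ∈ K then u l else 0) else 0 :=
    fun u k => rfl
  by_cases hv : (fun k => if k ∈ K then z k b else 0) ∈ LinearMap.range T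
  · obtain ⟨u, hu⟩ := hv
    refine ⟨fun l => if l ∈ K then u l else 0, fun l hl => by simp [hl], fun k hk => ?_⟩
    have h1 := congrFun hu k
    rw [hT] at h1
    simpa [hk] using h1
  · exfalso
    obtain ⟨f, hf, hfT⟩ := Submodule.exists_le_ker_of_notMem hv
    set c : V → ℚ := fun k => if k ∈ K then f (Pi.single k 1) else 0 with hc
    have hfs : ∀ x : V → ℚ, (∀ l, l ∉ K → x l = 0) → f x = ∑ k, c k * x k := by
      intro x hx
      have h1 : x = ∑ k, x k • (Pi.single k (1 : ℚ) : V → ℚ) := by
        funext j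
        simp [Finset.sum_apply, Pi.single_apply]
      conv_lhs => rw [h1]
      rw [map_sum]
      refine Finset.sum_congr rfl fun k _ => ?_
      rw [map_smul, smul_eq_mul]
      by_cases hk : k ∈ K
      · simp [hc, hk, mul_comm]
      · simp [hc, hk, hx k hk]
    have hq0 : ∑ k, ∑ l, c k * z k l * c l = 0 := by
      have h1 : f (T c) = 0 := by
        have h2 : T c ∈ LinearMap.ker f := hfT ⟨c, rfl⟩
        exact h2
      rw [hfs _ (fun l hl => by rw [hT]; simp [hl])] at h1
      rw [← h1]
      refine Finset.sum_congr rfl fun k _ => ?_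
      rw [hT]
      by_cases hk : k ∈ K
      · simp only [hk, if_true]
        rw [Finset.mul_sum]
        refine Finset.sum_congr rfl fun l _ => ?_
        by_cases hl : l ∈ K
        · simp only [hl, if_true]; ring
        · simp [hc, hl]
      · simp [hc, hk]
    have hs : ∑ k, c k * z k b ≠ 0 := by
      have h1 := hfs (fun k => if k ∈ K then z k b else 0) (fun l hl => by simp [hl])
      rw [h1] at hf
      intro h2
      apply hf
      rw [← h2]
      refine Finset.sum_congr rfl fun k _ => ?_
      by_cases hk : k ∈ K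
      · simp [hk]
      · simp [hc, hk]
    set s := ∑ k, c k * z k b with hsdef
    have key : ∀ t : ℚ, 0 ≤ z b b + 2 * t * s := by
      intro t
      have h1 := quad_nonneg_rat h (fun k => (Pi.single b (1 : ℚ) : V → ℚ) k + t * c k)
      have h2 : ∑ i, ∑ j, ((Pi.single b (1 : ℚ) : V → ℚ) i + t * c i) * z i j *
          ((Pi.single b (1 : ℚ) : V → ℚ) j + t * c j)
          = z b b + t * (∑ j, z b j * c j) + t * (∑ i, c i * z i b)
            + t ^ 2 * ∑ i, ∑ j, c i * z i j * c j := by
        have h3 : ∀ i j, ((Pi.single b (1 : ℚ) : V → ℚ) i + t * c i) * z i j *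
          ((Pi.single b (1 : ℚ) : V → ℚ) j + t * c j)
          = (Pi.single b (1 : ℚ) : V → ℚ) i * z i j * (Pi.single b (1 : ℚ) : V → ℚ) j
            + t * ((Pi.single b (1 : ℚ) : V → ℚ) i * (z i j * c j))
            + t * (c i * z i j * (Pi.single b (1 : ℚ) : V → ℚ) j)
            + t ^ 2 * (c i * z i j * c j) := fun i j => by ring
        simp only [h3, Finset.sum_add_distrib, ← Finset.mul_sum]
        congr 1
        congr 1
        · congr 1
          · simp [Pi.single_apply]
          · simp [Pi.single_apply]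
        · simp [Pi.single_apply]
      rw [h2, hq0] at h1
      have h4 : ∑ j, z b j * c j = s := by
        rw [hsdef]
        refine Finset.sum_congr rfl fun j _ => ?_
        rw [psd_symm_rat h b j, mul_comm]
      rw [h4, ← hsdef] at h1
      linarith
    have h5 := key (-(z b b + 1) / (2 * s))
    have h6 : z b b + 2 * (-(z b b + 1) / (2 * s)) * s = -1 := by
      field_simp
      ring
    rw [h6] at h5
    linarith

end Pool.Agent.Lib.MP_13b08e_lc.RC
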