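import Pool.Agent.Lib.MP_13b08e_lc.RC.Edges

/-!
The threshold in the number of edges which have to be added to make a graph chordal.
-/

namespace Pool.Agent.Lib.MP_13b08e_lc.RC

open Pool.Agent.Lib.MP_13b08e_lc

/-- `G` becomes chordal after adding at most `k` edges. -/
def FillLE {V : Type} (G : SimpleGraph V) (k : ℕ) : Prop :=
  ∃ H : SimpleGraph V, G ≤ H ∧ IsChordal H ∧ (H.edgeSet \ G.edgeSet).encard ≤ k

/-- Graphs which become chordal after adding at most one edge are tame. -/
theorem tame_of_fill {V : Type} (G : SimpleGraph V) (h : FillLE G 1) : Tame G := by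
  obtain ⟨H, h1, h2, h3⟩ := h
  have hu : ∀ e ∈ H.edgeSet \ G.edgeSet, ∀ f ∈ H.edgeSet \ G.edgeSet, e = f := by
    have h4 : (H.edgeSet \ G.edgeSet).encard ≤ 1 := by exact_mod_cast h3
    rw [Set.encard_le_one_iff] at h4
    exact fun e he f hf => h4 e f he hf
  refine Tame.base G H h1 h2 fun a b c e hab hac hae hbc hbe hce hn => ?_
  have hmem : s(a, b) ∈ H.edgeSet \ G.edgeSet := ⟨hab, hn⟩
  refine ⟨?_, ?_⟩
  · by_contra hac'
    have h5 := hu _ hmem s(a, c) ⟨hac, hac'⟩
    rw [Sym2.eq_iff] at h5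
    rcases h5 with h5 | h5
    · exact hbc.ne h5.2
    · exact hac.ne h5.1
  · by_contra hce'
    have h5 := hu _ hmem s(c, e) ⟨hce, hce'⟩
    rw [Sym2.eq_iff] at h5
    rcases h5 with h5 | h5
    · exact hac.ne h5.1
    · exact hae.ne h5.1

namespace K33f

/-- The chordal supergraph. -/
def H : SimpleGraph (Fin 3 ⊕ Fin 3) :=
  G ⊔ SimpleGraph.fromEdgeSet {s(Sum.inl 0, Sum.inl 1), s(Sum.inr 0, Sum.inr 1)}

/-- The elimination ordering. -/
def ord : Fin 3 ⊕ Fin 3 → ℕ
  | Sum.inl a => (![2, 3, 0] : Fin 3 → ℕ) a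
  | Sum.inr j => (![4, 5, 1] : Fin 3 → ℕ) j

/-- Adjacency in `H`. -/
def adjb (s t : Fin 3 ⊕ Fin 3) : Bool :=
  match s, t with
  | Sum.inl a, Sum.inr j => !(a == 2 && j == 2)
  | Sum.inr j, Sum.inl a => !(a == 2 && j == 2)
  | Sum.inl a, Sum.inl b => (a == 0 && b == 1) || (a == 1 && b == 0)
  | Sum.inr i, Sum.inr j => (i == 0 && j == 1) || (i == 1 && j == 0)

lemma H_adj (s t : Fin 3 ⊕ Fin 3) : H.Adj s t ↔ adjb s t = true := by
  unfold H
  rw [SimpleGraph.sup_adj, SimpleGraph.fromEdgeSet_adj, SimpleGraph.deleteEdges_adj]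
  rcases s with a | i <;> rcases t with b | j
  · fin_cases a <;> fin_cases b <;> simp [adjb]
  · fin_cases a <;> fin_cases j <;> simp [adjb]
  · fin_cases i <;> fin_cases b <;> simp [adjb]
  · fin_cases i <;> fin_cases j <;> simp [adjb]

lemma chordal : IsChordal H := by
  refine isChordal_of_order _ ord (by decide) ?_
  simp only [H_adj]
  decide

lemma fill_le : FillLE G 2 := by
  refine ⟨H, le_sup_left, chordal, ?_⟩
  have h1 : H.edgeSet \ G.edgeSet ⊆
      ({s(Sum.inl 0, Sum.inl 1), s(Sum.inr 0, Sum.inr 1)} : Set (Sym2 (Fin 3 ⊕ Fin 3))) := by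
    rintro e ⟨he, hn⟩
    induction e using Sym2.ind with
    | _ s t =>
      rw [SimpleGraph.mem_edgeSet] at he hn
      unfold H at he
      rw [SimpleGraph.sup_adj, SimpleGraph.fromEdgeSet_adj] at he
      rcases he with he | he
      · exact absurd he hn
      · exact he.1
  refine (Set.encard_le_encard h1).trans ((Set.encard_insert_le _ _).trans ?_)
  rw [Set.encard_singleton]
  norm_num

end K33f

/-- The threshold in the number of added edges. -/
theorem threshold_fill (k : ℕ) :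
    ((∀ (V : Type) [Finite V] (G : SimpleGraph V), FillLE G k → RationalCompletions G) ↔
      k ≤ 1) ∧
    ((∀ (V : Type) [Finite V] (G : SimpleGraph V), FillLE G k → RationalElliptope G) ↔
      k ≤ 1) := by
  have mono : ∀ {V : Type} {G : SimpleGraph V} {m n : ℕ}, FillLE G m → m ≤ n → FillLE G n := by
    rintro V G m n ⟨H, h1, h2, h3⟩ hmn
    exact ⟨H, h1, h2, h3.trans (by exact_mod_cast hmn)⟩
  refine ⟨⟨fun h => ?_, fun hk V hV G hG => ?_⟩, ⟨fun h => ?_, fun hk V hV G hG => ?_⟩⟩
  · by_contra hk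
    exact not_rationalElliptope_K33f (rationalElliptope_of_ratCompl
      (ratCompl_of_rationalCompletions (h _ _ (mono K33f.fill_le (by omega)))))
  · exact rationalCompletions_of_ratCompl ((tame_of_fill G (mono hG hk)).ratCompl hV)
  · by_contra hk
    exact not_rationalElliptope_K33f (h _ _ (mono K33f.fill_le (by omega)))
  · exact rationalElliptope_of_ratCompl ((tame_of_fill G (mono hG hk)).ratCompl hV)

end Pool.Agent.Lib.MP_13b08e_lc.RC
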