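import Pool.Agent.Lib.MP_13b08e_lc.Defs

/-!
The notions used in the statement on rational completions.
-/

namespace Pool.Agent.Lib.MP_13b08e_lc.RC

/-- Every rational partial symmetric matrix with entries given at the edges of `G` and at an
arbitrary set `S` of diagonal places which has a real positive semidefinite completion has a rational
one. -/
def RationalCompletions {V : Type} (G : SimpleGraph V) : Prop :=
  ∀ (S : Set V) (a : V → V → ℚ),
    (∃ X : Matrix V V ℝ, X.PosSemidef ∧ (∀ i ∈ S, X i i = a i i) ∧
      ∀ i j, G.Adj i j → X i j = a i j) →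
    ∃ Y : Matrix V V ℚ, (Y.map (fun q : ℚ => (q : ℝ))).PosSemidef ∧ (∀ i ∈ S, Y i i = a i i) ∧
      ∀ i j, G.Adj i j → Y i j = a i j

/-- Every rational point of the elliptope of `G` has a rational positive semidefinite completion. -/
def RationalElliptope {V : Type} (G : SimpleGraph V) : Prop :=
  ∀ x : G.edgeSet → ℚ, InElliptope G x →
    ∃ Y : Matrix V V ℚ, IsCompletion G x (Y.map (fun q : ℚ => (q : ℝ)))

/-- `G` has treewidth at most `k`: it has a chordal supergraph without `k + 2` pairwise adjacent
vertices. -/
def TreewidthLE {V : Type} (G : SimpleGraph V) (k : ℕ) : Prop :=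
  ∃ H : SimpleGraph V, G ≤ H ∧ IsChordal H ∧ H.CliqueFree (k + 2)

/-- Every four pairwise adjacent vertices of `H` are joined by at most one edge outside `G`. -/
def OneFill {V : Type} (G H : SimpleGraph V) : Prop :=
  ∀ a b c e : V, H.Adj a b → H.Adj a c → H.Adj a e → H.Adj b c → H.Adj b e → H.Adj c e →
    ¬ G.Adj a b → G.Adj a c ∧ G.Adj c e

/-- The smallest class of graphs which contains all graphs `G` having a chordal supergraph `H` such
that every four pairwise adjacent vertices of `H` span at most one edge outside `G`, and which is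
closed under adding a vertex adjacent to all others and under gluing along complete subgraphs. -/
inductive Tame : {V : Type} → SimpleGraph V → Prop
  | base {V : Type} (G H : SimpleGraph V) : G ≤ H → IsChordal H → OneFill G H → Tame G
  | cone {V : Type} (G : SimpleGraph V) (v : V) : (∀ w, w ≠ v → G.Adj v w) →
      Tame (G.induce {w | w ≠ v}) → Tame G
  | glue {V : Type} (G : SimpleGraph V) (A B : Set V) : A ∪ B = Set.univ →
      (∀ a ∈ A ∩ B, ∀ b ∈ A ∩ B, a ≠ b → G.Adj a b) →
      (∀ a ∈ A \ B, ∀ b ∈ B \ A, ¬ G.Adj a b) →
      Tame (G.induce A) → Tame (G.induce B) → Tame G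

/-- `H` is an induced minor of `G`: it arises from an induced subgraph of `G` by contracting disjoint
connected vertex sets, the sets `{v | f v = some w}`. -/
def InducedMinor {V W : Type} (H : SimpleGraph W) (G : SimpleGraph V) : Prop :=
  ∃ f : V → Option W, (∀ w, ∃ v, f v = some w) ∧
    (∀ w, (G.induce {v | f v = some w}).Preconnected) ∧
    ∀ a b, H.Adj a b ↔ a ≠ b ∧ ∃ u v, f u = some a ∧ f v = some b ∧ G.Adj u v

end Pool.Agent.Lib.MP_13b08e_lc.RC
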