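import Pool.Agent.Lib.MP_13b08e_lc.RC.Elim
import Pool.Agent.Lib.MP_13b08e_lc.RC.Dirac
import Pool.Agent.Lib.MP_13b08e_lc.RC.Props

/-!
Rational completions for graphs with a chordal supergraph whose complete subgraphs on four vertices
contain at most one added edge.
-/

namespace Pool.Agent.Lib.MP_13b08e_lc.RC

open Real

/-- The case of `Fin n` with positive diagonal. -/
theorem pos_case {n : ℕ} (d : Fin n → ℚ) (hd : ∀ i, 0 < d i) (H : SimpleGraph (Fin n))
    (hP : Peo H) (l u : Fin n → Fin n → ℚ) (hls : ∀ i j, l i j = l j i)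
    (hus : ∀ i j, u i j = u j i)
    (hfour : ∀ a b c e, H.Adj a b → H.Adj a c → H.Adj a e → H.Adj b c → H.Adj b e →
      H.Adj c e → l a b ≠ u a b → l a c = u a c ∧ l c e = u c e)
    (X : Fin n → Fin n → ℝ) (hXs : ∀ i j, X i j = X j i) (hX : QF X) (hXd : ∀ i, X i i = d i)
    (hXe : ∀ i j, H.Adj i j → (l i j : ℝ) ≤ X i j ∧ X i j ≤ u i j) :
    ∃ Z : Fin n → Fin n → ℚ, (∀ i j, Z i j = Z j i) ∧ QF (fun i j => (Z i j : ℝ)) ∧
      (∀ i, Z i i = d i) ∧ ∀ i j, H.Adj i j → l i j ≤ Z i j ∧ Z i j ≤ u i j := by
  classical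
  have hDpos : ∀ i j, (0 : ℝ) < ((d i * d j : ℚ) : ℝ) := fun i j => by
    exact_mod_cast mul_pos (hd i) (hd j)
  have hspos : ∀ i j, 0 < √((d i * d j : ℚ) : ℝ) := fun i j => Real.sqrt_pos.2 (hDpos i j)
  have hXabs : ∀ i j, -√((d i * d j : ℚ) : ℝ) ≤ X i j ∧ X i j ≤ √((d i * d j : ℚ) : ℝ) := by
    intro i j
    have h1 := sq_le hXs hX hXd i j
    have h2 : X i j ^ 2 ≤ ((d i * d j : ℚ) : ℝ) := by
      push_cast
      exact h1
    exact abs_le.1 (Real.abs_le_sqrt h2)
  have hang : ∀ i j (x : ℝ), ang d i j x = arccos (x / √((d i * d j : ℚ) : ℝ)) :=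
    fun _ _ _ => rfl
  have hanti : ∀ i j (x y : ℝ), x ≤ y → ang d i j y ≤ ang d i j x := fun i j x y hxy => by
    rw [hang, hang]
    exact antitone_arccos (div_le_div_of_nonneg_right hxy (hspos i j).le)
  have hrat : ∀ i j (x : ℚ), -√((d i * d j : ℚ) : ℝ) ≤ x → (x : ℝ) ≤ √((d i * d j : ℚ) : ℝ) →
      RatAng (d i * d j) (ang d i j x) := by
    intro i j x h1 h2
    refine ⟨ang_nonneg _ _ _ _, ang_le_pi _ _ _ _, x, ?_⟩
    rw [hang, cos_arccos (by rw [le_div_iff₀ (hspos i j)]; linarith)
      (by rw [div_le_iff₀ (hspos i j)]; linarith)]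
    exact mul_div_cancel₀ _ (hspos i j).ne'
  let lo : Fin n → Fin n → ℝ := fun i j => ang d i j (u i j)
  let hi : Fin n → Fin n → ℝ := fun i j => ang d i j (l i j)
  have hI : Intervals d H lo hi := by
    refine ⟨?_, ?_, ?_, ?_, ?_, ?_, ?_⟩
    · intro i j _
      change ang d i j (u i j) = ang d j i (u j i)
      rw [hus i j, ang_comm]
    · intro i j _
      change ang d i j (l i j) = ang d j i (l j i)
      rw [hls i j, ang_comm]
    · intro i j _
      exact ang_nonneg _ _ _ _
    · intro i j _
      exact ang_le_pi _ _ _ _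
    · intro i j h
      change AU (d i * d j) (ang d i j (l i j))
      have h1 := (hXe i j h).1.trans (hXabs i j).2
      by_cases h2 : -√((d i * d j : ℚ) : ℝ) ≤ (l i j : ℝ)
      · exact (hrat i j _ h2 h1).au
      · have h3 : ang d i j (l i j) = π := by
          rw [hang, arccos_eq_pi, div_le_iff₀ (hspos i j)]
          push Not at h2
          linarith
        rw [h3]
        exact au_pi (mul_pos (hd i) (hd j))
    · intro i j h
      change AL (d i * d j) (ang d i j (u i j))
      have h1 := (hXabs i j).1.trans (hXe i j h).2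
      by_cases h2 : (u i j : ℝ) ≤ √((d i * d j : ℚ) : ℝ)
      · exact (hrat i j _ h1 h2).al
      · have h3 : ang d i j (u i j) = 0 := by
          rw [hang, arccos_eq_zero, le_div_iff₀ (hspos i j)]
          push Not at h2
          linarith
        rw [h3]
        exact al_zero (mul_pos (hd i) (hd j))
    · intro p q r s h1 h2 h3 h4 h5 h6 hlt
      have hn : l p q ≠ u p q := by
        intro h
        change ang d p q (u p q) < ang d p q (l p q) at hlt
        rw [h] at hlt
        exact lt_irrefl _ hlt
      have h7 := hfour p q r s h1 h2 h3 h4 h5 h6 hn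
      constructor
      · change ang d p r (u p r) = ang d p r (l p r)
        rw [h7.1]
      · change ang d r s (u r s) = ang d r s (l r s)
        rw [h7.2]
  have hF : Fits d H lo hi X := by
    refine ⟨hXs, hX, hXd, ?_, ?_⟩
    · intro i j h
      exact hanti i j _ _ (hXe i j h).2
    · intro i j h
      exact hanti i j _ _ (hXe i j h).1
  obtain ⟨Z, hZ⟩ := elimination n d hd H hP lo hi hI X hF
  refine ⟨Z, fun i j => by exact_mod_cast hZ.symm i j, hZ.qf, fun i => by
    exact_mod_cast hZ.diag i, fun i j h => ?_⟩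
  have h1 : ang d i j (u i j) ≤ ang d i j (Z i j) := hZ.lo i j h
  have h2 : ang d i j (Z i j) ≤ ang d i j (l i j) := hZ.hi i j h
  have hZc := sqrt_mul_cos_ang (X := fun i j => (Z i j : ℝ)) hd hZ.symm hZ.qf hZ.diag i j
  have hZc' : √((d i * d j : ℚ) : ℝ) * cos (ang d i j (Z i j)) = (Z i j : ℝ) := hZc
  constructor
  · have h3 : (l i j : ℝ) ≤ √((d i * d j : ℚ) : ℝ) * cos (ang d i j (l i j)) := by
      rw [hang]
      by_cases h4 : -√((d i * d j : ℚ) : ℝ) ≤ (l i j : ℝ)
      · rw [cos_arccos (by rw [le_div_iff₀ (hspos i j)]; linarith)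
          (by rw [div_le_iff₀ (hspos i j)]; linarith [(hXe i j h).1.trans (hXabs i j).2])]
        rw [mul_div_cancel₀ _ (hspos i j).ne']
      · have h5 := neg_one_le_cos (arccos ((l i j : ℝ) / √((d i * d j : ℚ) : ℝ)))
        have h6 := mul_le_mul_of_nonneg_left h5 (hspos i j).le
        push Not at h4
        linarith
    have h4 := mul_le_mul_of_nonneg_left
      (cos_le_cos_of_nonneg_of_le_pi (ang_nonneg d i j (Z i j)) (ang_le_pi d i j (l i j)) h2)
      (hspos i j).le
    have h5 := h3.trans h4
    rw [hZc'] at h5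
    exact_mod_cast h5
  · have h3 : √((d i * d j : ℚ) : ℝ) * cos (ang d i j (u i j)) ≤ (u i j : ℝ) := by
      rw [hang]
      by_cases h4 : (u i j : ℝ) ≤ √((d i * d j : ℚ) : ℝ)
      · rw [cos_arccos (by rw [le_div_iff₀ (hspos i j)];
                           linarith [(hXabs i j).1.trans (hXe i j h).2])
          (by rw [div_le_iff₀ (hspos i j)]; linarith)]
        rw [mul_div_cancel₀ _ (hspos i j).ne']
      · have h5 := cos_le_one (arccos ((u i j : ℝ) / √((d i * d j : ℚ) : ℝ)))
        have h6 := mul_le_mul_of_nonneg_left h5 (hspos i j).le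
        push Not at h4
        linarith
    have h4 := mul_le_mul_of_nonneg_left
      (cos_le_cos_of_nonneg_of_le_pi (ang_nonneg d i j (u i j)) (ang_le_pi d i j (Z i j)) h1)
      (hspos i j).le
    have h5 := h4.trans h3
    rw [hZc'] at h5
    exact_mod_cast h5

theorem posSemidef_of_qf {V : Type} [Fintype V] (M : Matrix V V ℝ)
    (hs : ∀ i j, M i j = M j i) (h : ∀ w : V → ℝ, 0 ≤ ∑ i, ∑ j, w i * w j * M i j) :
    M.PosSemidef := by
  classical
  refine Matrix.PosSemidef.of_dotProduct_mulVec_nonneg ?_ ?_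
  · ext i j
    simp [hs i j]
  · intro w
    have h1 := h w
    simp only [dotProduct, Matrix.mulVec, Pi.star_apply, star_trivial, Finset.mul_sum]
    refine h1.trans (le_of_eq ?_)
    exact Finset.sum_congr rfl fun i _ => Finset.sum_congr rfl fun j _ => by ring

theorem qf_of_psd {V : Type} [Fintype V] {M : Matrix V V ℝ} (h : M.PosSemidef)
    (w : V → ℝ) : 0 ≤ ∑ i, ∑ j, w i * w j * M i j := by
  have h1 := h.dotProduct_mulVec_nonneg w
  simp only [dotProduct, Matrix.mulVec, Pi.star_apply, star_trivial, Finset.mul_sum] at h1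
  refine h1.trans (le_of_eq ?_)
  exact Finset.sum_congr rfl fun i _ => Finset.sum_congr rfl fun j _ => by ring

/-- **Main theorem**, with bounds on the entries at the edges of a chordal graph. -/
theorem interval_completion {V : Type} [Finite V] (H : SimpleGraph V) (hH : IsChordal H)
    (δ : V → ℚ) (l u : V → V → ℚ)
    (hfour : ∀ a b c e, H.Adj a b → H.Adj a c → H.Adj a e → H.Adj b c → H.Adj b e →
      H.Adj c e → l a b ≠ u a b → l a c = u a c ∧ l c e = u c e)
    (X : Matrix V V ℝ) (hX : X.PosSemidef) (hXd : ∀ i, X i i = δ i)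
    (hXe : ∀ i j, H.Adj i j → (l i j : ℝ) ≤ X i j ∧ X i j ≤ u i j) :
    ∃ Y : Matrix V V ℚ, (Y.map (fun q : ℚ => (q : ℝ))).PosSemidef ∧ (∀ i, Y i i = δ i) ∧
      ∀ i j, H.Adj i j → l i j ≤ Y i j ∧ Y i j ≤ u i j := by
  classical
  have : Fintype V := Fintype.ofFinite V
  obtain ⟨ord, hinj, hord⟩ := exists_order H hH
  let _ : LinearOrder V := LinearOrder.lift' ord hinj
  let f : Fin (Fintype.card V) ≃o V := Fintype.orderIsoFinOfCardEq V rfl
  have hlt : ∀ i j : Fin (Fintype.card V), i < j → ord (f i) < ord (f j) := by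
    intro i j hij
    have h1 : f i < f j := f.lt_iff_lt.2 hij
    exact h1
  have hXs : ∀ v w, X v w = X w v := fun v w => by
    have := hX.isHermitian.apply w v
    simpa using this
  have hXq := qf_of_psd hX
  -- zero rows
  have hz : ∀ v, δ v = 0 → ∀ w, X v w = 0 := by
    intro v hv w
    by_cases hvw : w = v
    · rw [hvw, hXd v, hv]
      simp
    · have h1 : ∀ p : ℝ, 0 ≤ (0 : ℝ) * (p * p) + (2 * X v w) * p + X w w := by
        intro p
        have h2 := hXq (fun i => if i = v then p else if i = w then 1 else 0)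
        have h5 : ∀ g : V → ℝ, ∑ i, (if i = v then p else if i = w then 1 else 0) * g i
            = p * g v + g w := by
          intro g
          rw [← Finset.sum_subset (Finset.subset_univ ({v, w} : Finset V))
            (fun i _ hi => by
              simp only [Finset.mem_insert, Finset.mem_singleton, not_or] at hi
              simp [hi.1, hi.2]), Finset.sum_pair (Ne.symm hvw)]
          simp [hvw]
        have h6 : ∀ i, ∑ j, (if i = v then p else if i = w then (1 : ℝ) else 0)
            * (if j = v then p else if j = w then 1 else 0) * X i j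
            = (if i = v then p else if i = w then (1 : ℝ) else 0) * (p * X i v + X i w) := by
          intro i
          rw [← h5 fun j => X i j, Finset.mul_sum]
          exact Finset.sum_congr rfl fun j _ => by ring
        simp only [h6] at h2
        rw [h5, hXd v, hv, hXs w v] at h2
        push_cast at h2
        linarith
      have h2 := discrim_le_zero h1
      unfold discrim at h2
      have h3 : (2 * X v w) ^ 2 = 0 := le_antisymm (by linarith) (sq_nonneg _)
      have h4 := pow_eq_zero_iff (two_ne_zero) |>.1 h3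
      linarith
  have hdn : ∀ v, 0 ≤ δ v := by
    intro v
    have h1 := hXq (fun i => if i = v then 1 else 0)
    simp [hXd v] at h1
    exact h1
  let d : Fin (Fintype.card V) → ℚ := fun i => if δ (f i) = 0 then 1 else δ (f i)
  have hd : ∀ i, 0 < d i := by
    intro i
    by_cases h : δ (f i) = 0
    · change 0 < (if δ (f i) = 0 then (1 : ℚ) else δ (f i))
      rw [if_pos h]
      norm_num
    · change 0 < (if δ (f i) = 0 then (1 : ℚ) else δ (f i))
      rw [if_neg h]
      exact lt_of_le_of_ne (hdn _) (Ne.symm h)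
  let X' : Fin (Fintype.card V) → Fin (Fintype.card V) → ℝ := fun i j =>
    X (f i) (f j) + if i = j ∧ δ (f i) = 0 then 1 else 0
  have hP : Peo (H.comap f) := by
    intro v p q hvp hvq h1 h2 hpq
    exact hord (f v) (f p) (f q) hvp hvq (hlt _ _ h1) (hlt _ _ h2)
      (fun h => hpq (f.injective h))
  have hX's : ∀ i j, X' i j = X' j i := by
    intro i j
    change X (f i) (f j) + _ = X (f j) (f i) + _
    rw [hXs (f i) (f j)]
    congr 1
    by_cases hij : i = j
    · subst hij
      rfl
    · rw [if_neg (fun h => hij h.1), if_neg (fun h => hij h.1.symm)]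
  have hX'q : QF X' := by
    intro w
    have h1 : ∑ i, ∑ j, w i * w j * X' i j = ∑ i, ∑ j, w i * w j * X (f i) (f j)
        + ∑ i, (if δ (f i) = 0 then w i ^ 2 else 0) := by
      rw [← Finset.sum_add_distrib]
      refine Finset.sum_congr rfl fun i _ => ?_
      have h2 : ∑ j, w i * w j * X' i j = ∑ j, (w i * w j * X (f i) (f j)
          + if i = j then (if δ (f i) = 0 then w i * w j else 0) else 0) := by
        refine Finset.sum_congr rfl fun j _ => ?_
        change w i * w j * (X (f i) (f j) + if i = j ∧ δ (f i) = 0 then 1 else 0) = _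
        by_cases hij : i = j
        · by_cases h0 : δ (f i) = 0
          · rw [if_pos ⟨hij, h0⟩, if_pos hij, if_pos h0]; ring
          · rw [if_neg (fun h => h0 h.2), if_pos hij, if_neg h0]; ring
        · rw [if_neg (fun h => hij h.1), if_neg hij]; ring
      rw [h2, Finset.sum_add_distrib, Finset.sum_ite_eq]
      simp only [Finset.mem_univ, if_true]
      congr 1
      by_cases h0 : δ (f i) = 0
      · rw [if_pos h0, if_pos h0]; ring
      · rw [if_neg h0, if_neg h0]
    rw [h1]
    refine add_nonneg ?_ (Finset.sum_nonneg fun i _ => ?_)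
    · have h3 := hXq (fun v => w (f.symm v))
      have h4 : ∑ v, ∑ u, w (f.symm v) * w (f.symm u) * X v u
          = ∑ i, ∑ j, w i * w j * X (f i) (f j) := by
        rw [← f.toEquiv.sum_comp]
        refine Finset.sum_congr rfl fun i _ => ?_
        rw [← f.toEquiv.sum_comp]
        refine Finset.sum_congr rfl fun j _ => ?_
        simp
      rw [h4] at h3
      exact h3
    · split_ifs
      · exact sq_nonneg _
      · exact le_refl _
  have hX'd : ∀ i, X' i i = d i := by
    intro i
    change X (f i) (f i) + (if i = i ∧ δ (f i) = 0 then (1 : ℝ) else 0)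
      = ((if δ (f i) = 0 then (1 : ℚ) else δ (f i) : ℚ) : ℝ)
    rw [hXd]
    by_cases h0 : δ (f i) = 0
    · rw [if_pos ⟨rfl, h0⟩, if_pos h0, h0]
      simp
    · rw [if_neg (fun h => h0 h.2), if_neg h0]
      simp
  have hX'e : ∀ i j, (H.comap f).Adj i j →
      ((max (l (f i) (f j)) (l (f j) (f i)) : ℚ) : ℝ) ≤ X' i j ∧
      X' i j ≤ ((min (u (f i) (f j)) (u (f j) (f i)) : ℚ) : ℝ) := by
    intro i j h
    have h0 : X' i j = X (f i) (f j) := by
      change X (f i) (f j) + (if i = j ∧ δ (f i) = 0 then (1 : ℝ) else 0) = _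
      rw [if_neg (fun h' => h.ne h'.1), add_zero]
    have h1 := hXe (f i) (f j) h
    have h2 := hXe (f j) (f i) h.symm
    rw [hXs (f j) (f i)] at h2
    rw [h0]
    push_cast
    exact ⟨max_le h1.1 h2.1, le_min h1.2 h2.2⟩
  obtain ⟨Z, hZs, hZq, hZd, hZe⟩ := pos_case d hd (H.comap f) hP
    (fun i j => max (l (f i) (f j)) (l (f j) (f i)))
    (fun i j => min (u (f i) (f j)) (u (f j) (f i)))
    (fun i j => max_comm _ _) (fun i j => min_comm _ _) (by
      intro p q r s h1 h2 h3 h4 h5 h6 h7
      have hpq : l (f p) (f q) ≠ u (f p) (f q) := by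
        intro h
        have h8 := hX'e p q h1
        have h9 := h8.1.trans h8.2
        have h10 : max (l (f p) (f q)) (l (f q) (f p)) ≤ min (u (f p) (f q)) (u (f q) (f p)) := by
          exact_mod_cast h9
        refine h7 (le_antisymm h10 ?_)
        exact (min_le_left _ _).trans (h ▸ le_max_left _ _)
      have h8 := hfour (f p) (f q) (f r) (f s) h1 h2 h3 h4 h5 h6 hpq
      have hgen : ∀ x y, (H.comap f).Adj x y → l (f x) (f y) = u (f x) (f y) →
          max (l (f x) (f y)) (l (f y) (f x)) = min (u (f x) (f y)) (u (f y) (f x)) := by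
        intro x y hxy h
        have h9 := hX'e x y hxy
        have h10 := h9.1.trans h9.2
        have h11 : max (l (f x) (f y)) (l (f y) (f x))
            ≤ min (u (f x) (f y)) (u (f y) (f x)) := by exact_mod_cast h10
        refine le_antisymm h11 ?_
        exact (min_le_left _ _).trans (h ▸ le_max_left _ _)
      exact ⟨hgen p r h2 h8.1, hgen r s h6 h8.2⟩)
    X' hX's hX'q hX'd hX'e
  let Y : Matrix V V ℚ := fun v w =>
    if δ v = 0 ∨ δ w = 0 then 0 else Z (f.symm v) (f.symm w)
  refine ⟨Y, ?_, ?_, ?_⟩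
  · refine posSemidef_of_qf _ ?_ ?_
    · intro v w
      change ((Y v w : ℚ) : ℝ) = ((Y w v : ℚ) : ℝ)
      congr 1
      change (if δ v = 0 ∨ δ w = 0 then 0 else Z (f.symm v) (f.symm w))
        = (if δ w = 0 ∨ δ v = 0 then 0 else Z (f.symm w) (f.symm v))
      by_cases h : δ v = 0 ∨ δ w = 0
      · rw [if_pos h, if_pos h.symm]
      · rw [if_neg h, if_neg (fun h' => h h'.symm), hZs]
    · intro w
      have h1 := hZq (fun i => if δ (f i) = 0 then 0 else w (f i))
      refine h1.trans (le_of_eq ?_)
      rw [← f.toEquiv.sum_comp (fun v => ∑ u, w v * w u * (Y.map (fun q : ℚ => (q : ℝ))) v u)]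
      refine Finset.sum_congr rfl fun i _ => ?_
      rw [← f.toEquiv.sum_comp (fun u => w (f.toEquiv i) * w u *
        (Y.map (fun q : ℚ => (q : ℝ))) (f.toEquiv i) u)]
      refine Finset.sum_congr rfl fun j _ => ?_
      change _ = w (f i) * w (f j) * ((if δ (f i) = 0 ∨ δ (f j) = 0 then 0
        else Z (f.symm (f i)) (f.symm (f j)) : ℚ) : ℝ)
      rw [OrderIso.symm_apply_apply, OrderIso.symm_apply_apply]
      by_cases hi' : δ (f i) = 0
      · rw [if_pos hi', if_pos (Or.inl hi')]
        simp
      · by_cases hj : δ (f j) = 0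
        · rw [if_pos hj, if_pos (Or.inr hj)]
          simp
        · rw [if_neg hi', if_neg hj, if_neg (fun h => h.elim hi' hj)]
  · intro v
    change (if δ v = 0 ∨ δ v = 0 then 0 else Z (f.symm v) (f.symm v)) = δ v
    by_cases h : δ v = 0
    · rw [if_pos (Or.inl h), h]
    · rw [if_neg (fun h' => h (h'.elim id id)), hZd]
      change (if δ (f (f.symm v)) = 0 then (1 : ℚ) else δ (f (f.symm v))) = _
      rw [OrderIso.apply_symm_apply, if_neg h]
  · intro v w hvw
    change l v w ≤ (if δ v = 0 ∨ δ w = 0 then 0 else Z (f.symm v) (f.symm w)) ∧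
      (if δ v = 0 ∨ δ w = 0 then 0 else Z (f.symm v) (f.symm w)) ≤ u v w
    by_cases h : δ v = 0 ∨ δ w = 0
    · rw [if_pos h]
      have h0 : X v w = 0 := by
        rcases h with h | h
        · exact hz v h w
        · rw [hXs v w, hz w h v]
      have h1 := hXe v w hvw
      rw [h0] at h1
      exact ⟨by exact_mod_cast h1.1, by exact_mod_cast h1.2⟩
    · rw [if_neg h]
      have h1 := hZe (f.symm v) (f.symm w) (by
        change H.Adj (f (f.symm v)) (f (f.symm w))
        rw [OrderIso.apply_symm_apply, OrderIso.apply_symm_apply]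
        exact hvw)
      simp only [OrderIso.apply_symm_apply, max_le_iff, le_min_iff] at h1
      exact ⟨h1.1.1, h1.2.1⟩

/-- **Rational completions.** -/
theorem ratCompl_of_fill {V : Type} [Finite V] (G H : SimpleGraph V) (hGH : G ≤ H)
    (hH : IsChordal H) (hfill : OneFill G H) : RatCompl G := by
  classical
  have : Fintype V := Fintype.ofFinite V
  rintro a ⟨X, hX⟩
  have hXq := qf_of_psd hX.psd
  have hXs : ∀ v w, X v w = X w v := fun v w => by
    have := hX.psd.isHermitian.apply w v
    simpa using this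
  have hdn : ∀ v, (0 : ℝ) ≤ a v v := by
    intro v
    have h1 := hXq (fun i => if i = v then 1 else 0)
    simp [hX.diag v] at h1
    exact_mod_cast h1
  have hbd : ∀ v w, v ≠ w → -((a v v : ℝ) + a w w) ≤ X v w ∧ X v w ≤ (a v v : ℝ) + a w w := by
    intro v w hvw
    have key : ∀ p : ℝ, 0 ≤ (a v v : ℝ) * (p * p) + (2 * X v w) * p + a w w := by
      intro p
      have h2 := hXq (fun i => if i = v then p else if i = w then 1 else 0)
      have h5 : ∀ g : V → ℝ, ∑ i, (if i = v then p else if i = w then 1 else 0) * g i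
          = p * g v + g w := by
        intro g
        rw [← Finset.sum_subset (Finset.subset_univ ({v, w} : Finset V))
          (fun i _ hi => by
            simp only [Finset.mem_insert, Finset.mem_singleton, not_or] at hi
            simp [hi.1, hi.2]), Finset.sum_pair hvw]
        simp [hvw.symm]
      have h6 : ∀ i, ∑ j, (if i = v then p else if i = w then (1 : ℝ) else 0)
          * (if j = v then p else if j = w then 1 else 0) * X i j
          = (if i = v then p else if i = w then (1 : ℝ) else 0) * (p * X i v + X i w) := by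
        intro i
        rw [← h5 fun j => X i j, Finset.mul_sum]
        exact Finset.sum_congr rfl fun j _ => by ring
      simp only [h6] at h2
      rw [h5, hX.diag v, hXs w v, hX.diag w] at h2
      linarith
    have h1 := key 1
    have h2 := key (-1)
    have h3 := hdn v
    have h4 := hdn w
    constructor <;> linarith
  obtain ⟨Y, h1, h2, h3⟩ := interval_completion H hH (fun v => a v v)
    (fun v w => if G.Adj v w then a v w else -(a v v + a w w))
    (fun v w => if G.Adj v w then a v w else a v v + a w w)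
    (by
      intro p q r s k1 k2 k3 k4 k5 k6 k7
      have h8 : ¬ G.Adj p q := fun h => k7 (by rw [if_pos h, if_pos h])
      have h9 := hfill p q r s k1 k2 k3 k4 k5 k6 h8
      exact ⟨by rw [if_pos h9.1, if_pos h9.1], by rw [if_pos h9.2, if_pos h9.2]⟩)
    X hX.psd hX.diag (by
      intro v w hvw
      by_cases h : G.Adj v w
      · rw [if_pos h, if_pos h, hX.edge v w h]
        exact ⟨le_refl _, le_refl _⟩
      · rw [if_neg h, if_neg h]
        have := hbd v w hvw.ne
        push_cast
        exact this)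
  refine ⟨Y, h1, fun v => ?_, fun v w hvw => ?_⟩
  · change ((Y v v : ℚ) : ℝ) = _
    rw [h2 v]
  · have h4 := h3 v w (hGH hvw)
    rw [if_pos hvw, if_pos hvw] at h4
    change ((Y v w : ℚ) : ℝ) = _
    rw [le_antisymm h4.2 h4.1]

/-- All cycles. -/
theorem ratCompl_cycle (n : ℕ) : RatCompl (SimpleGraph.cycleGraph n) := by
  obtain ⟨H, h1, h2, h3⟩ := cycle_fill n
  exact ratCompl_of_fill _ H h1 h2 fun a b c e hab hac hae hbc hbe hce _ =>
    absurd hce (h3 a b c e hab hac hae hbc hbe)

end Pool.Agent.Lib.MP_13b08e_lc.RC
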