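import Pool.Agent.Lib.MP_13b08e_lc.RC.Minor

/-!
The complete bipartite graph `K_{3,3}` without an edge: rational data with rational diagonal which have
a positive semidefinite completion but no rational one.
-/

namespace Pool.Agent.Lib.MP_13b08e_lc.RC.K33e

open Pool.Agent.Lib.MP_13b08e_lc Matrix

/-- The graph. -/
abbrev G : SimpleGraph (Fin 3 ⊕ Fin 3) :=
  (completeBipartiteGraph (Fin 3) (Fin 3)).deleteEdges {s(Sum.inl 2, Sum.inr 2)}

/-- The data at the edges. -/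
def v : Fin 3 → Fin 3 → ℚ := ![![1, 5, 3], ![-5, -4, -5], ![0, 13, 0]]

/-- The data as a matrix; the entries outside the diagonal and the edges are not used. -/
def A : Fin 3 ⊕ Fin 3 → Fin 3 ⊕ Fin 3 → ℚ
  | Sum.inl a, Sum.inr j => v j a
  | Sum.inr j, Sum.inl a => v j a
  | Sum.inl a, Sum.inl _ => (![3, 5, 3] : Fin 3 → ℚ) a
  | Sum.inr j, Sum.inr _ => (![6, 9, 39] : Fin 3 → ℚ) j

/-- Weights of the completion. -/
noncomputable def d : Fin 3 → ℝ := ![3, 13 / 3, -2 / 13 + (10 / 13) * √2]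

/-- Linear forms of the completion. -/
noncomputable def L : Fin 3 → Fin 3 ⊕ Fin 3 → ℝ :=
  ![Sum.elim ![1, (1 / 3) * √2, 73 / 69 - (10 / 69) * √2] ![1 / 3, -5 / 3, 0],
    Sum.elim ![0, 1, 170 / 299 - (34 / 299) * √2]
      ![15 / 13 - (1 / 13) * √2, -12 / 13 + (5 / 13) * √2, 3],
    Sum.elim ![0, 0, 172 / 161 - (85 / 161) * √2] ![1, -10 / 7 + (6 / 7) * √2, 0]]

/-- The completion. -/
noncomputable def X : Matrix (Fin 3 ⊕ Fin 3) (Fin 3 ⊕ Fin 3) ℝ :=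
  Matrix.of fun s t => ∑ k, d k * L k s * L k t

lemma sqrt_lo : (1.414 : ℝ) < √2 := by
  rw [Real.lt_sqrt (by norm_num)]; norm_num

lemma sqrt_hi : √2 < (1.415 : ℝ) := by
  rw [Real.sqrt_lt' (by norm_num)]; norm_num

lemma d_nonneg (k : Fin 3) : 0 ≤ d k := by
  have h := sqrt_lo
  fin_cases k <;> simp [d] <;> linarith

lemma X_symm (s t : Fin 3 ⊕ Fin 3) : X s t = X t s := by
  simp only [X, Matrix.of_apply]
  exact Finset.sum_congr rfl fun k _ => by ring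

lemma X_eq (s t : Fin 3 ⊕ Fin 3) : X s t = d 0 * L 0 s * L 0 t + d 1 * L 1 s * L 1 t +
    d 2 * L 2 s * L 2 t := by
  simp only [X, Matrix.of_apply, Fin.sum_univ_three]

lemma X_diag (s : Fin 3 ⊕ Fin 3) : X s s = (A s s : ℝ) := by
  have h2 : √2 ^ 2 = (2 : ℝ) := Real.sq_sqrt (by norm_num)
  have h3 : √2 ^ 3 = (2 : ℝ) * √2 := by rw [pow_succ, h2]
  rw [X_eq]
  rcases s with a | j
  · fin_cases a <;> simp only [d, L, A] <;> simp <;> (try ring_nf) <;> (try simp only [h2, h3]) <;>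
      (try ring_nf)
  · fin_cases j <;> simp only [d, L, A] <;> simp <;> (try ring_nf) <;> (try simp only [h2, h3]) <;>
      (try ring_nf)

lemma X_edge (a : Fin 3) (j : Fin 3) (h : ¬ (a = 2 ∧ j = 2)) :
    X (Sum.inl a) (Sum.inr j) = (v j a : ℝ) := by
  have h2 : √2 ^ 2 = (2 : ℝ) := Real.sq_sqrt (by norm_num)
  have h3 : √2 ^ 3 = (2 : ℝ) * √2 := by rw [pow_succ, h2]
  rw [X_eq]
  fin_cases a <;> fin_cases j <;> first | (exfalso; exact h ⟨rfl, rfl⟩) |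
    (simp only [d, L, v] <;> simp <;> (try ring_nf) <;> (try simp only [h2, h3]) <;> (try ring_nf))

lemma X_psd : X.PosSemidef := posSemidef_of_sum d L d_nonneg

lemma adj_iff (a j : Fin 3) : G.Adj (Sum.inl a) (Sum.inr j) ↔ ¬ (a = 2 ∧ j = 2) := by
  simp [SimpleGraph.deleteEdges_adj]

lemma X_adj (s t : Fin 3 ⊕ Fin 3) (h : G.Adj s t) : X s t = (A s t : ℝ) := by
  rcases s with a | i <;> rcases t with b | j
  · exact absurd h.1 (by simp)
  · exact X_edge a j ((adj_iff a j).1 h)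
  · rw [X_symm]
    exact X_edge b i ((adj_iff b i).1 h.symm)
  · exact absurd h.1 (by simp)

lemma quad {V : Type} {n : ℕ} {Y : Matrix V V ℝ} (hY : Y.PosSemidef) (e : Fin n → V)
    (w : Fin n → ℝ) : 0 ≤ ∑ i, w i * ∑ j, Y (e i) (e j) * w j := by
  have h := (hY.submatrix e).dotProduct_mulVec_nonneg w
  simpa [dotProduct, mulVec] using h

/-- The forced value. -/
theorem forced {Y : Matrix (Fin 3 ⊕ Fin 3) (Fin 3 ⊕ Fin 3) ℝ} (hY : Y.PosSemidef)
    (hd : ∀ i, Y i i = (A i i : ℝ)) (he : ∀ i j, G.Adj i j → Y i j = (A i j : ℝ)) :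
    Y (Sum.inr 0) (Sum.inr 1) = -5 + √2 := by
  have h2 : √2 ^ 2 = (2 : ℝ) := Real.sq_sqrt (by norm_num)
  have hlo := sqrt_lo
  have hhi := sqrt_hi
  have hs : ∀ s t, Y s t = Y t s := fun s t => by
    have := hY.isHermitian.apply s t
    simpa using this.symm
  have ev : ∀ (a j : Fin 3), ¬ (a = 2 ∧ j = 2) → Y (Sum.inl a) (Sum.inr j) = (v j a : ℝ) :=
    fun a j h => he _ _ ((adj_iff a j).2 h)
  have e00 : Y (Sum.inl 0) (Sum.inr 0) = 1 := by rw [ev 0 0 (by decide)]; simp [v]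
  have e01 : Y (Sum.inl 0) (Sum.inr 1) = -5 := by rw [ev 0 1 (by decide)]; simp [v]
  have e02 : Y (Sum.inl 0) (Sum.inr 2) = 0 := by rw [ev 0 2 (by decide)]; simp [v]
  have e10 : Y (Sum.inl 1) (Sum.inr 0) = 5 := by rw [ev 1 0 (by decide)]; simp [v]
  have e11 : Y (Sum.inl 1) (Sum.inr 1) = -4 := by rw [ev 1 1 (by decide)]; simp [v]
  have e12 : Y (Sum.inl 1) (Sum.inr 2) = 13 := by rw [ev 1 2 (by decide)]; simp [v]
  have e20 : Y (Sum.inl 2) (Sum.inr 0) = 3 := by rw [ev 2 0 (by decide)]; simp [v]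
  have e21 : Y (Sum.inl 2) (Sum.inr 1) = -5 := by rw [ev 2 1 (by decide)]; simp [v]
  have d0 : Y (Sum.inl 0) (Sum.inl 0) = 3 := by rw [hd]; simp [A]
  have d1 : Y (Sum.inl 1) (Sum.inl 1) = 5 := by rw [hd]; simp [A]
  have d2 : Y (Sum.inl 2) (Sum.inl 2) = 3 := by rw [hd]; simp [A]
  have d3 : Y (Sum.inr 0) (Sum.inr 0) = 6 := by rw [hd]; simp [A]
  have d4 : Y (Sum.inr 1) (Sum.inr 1) = 9 := by rw [hd]; simp [A]
  have d5 : Y (Sum.inr 2) (Sum.inr 2) = 39 := by rw [hd]; simp [A]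
  have q1 := quad hY ![Sum.inl 2, Sum.inr 0, Sum.inr 1] ![5 + √2, -√2, 3]
  have q2 := quad hY ![Sum.inr 2, Sum.inl 0, Sum.inl 1] ![-1, -√2, 3]
  have q3 := quad hY ![Sum.inl 0, Sum.inl 1, Sum.inr 0, Sum.inr 1]
    ![5 + 3 * √2, 8 - 5 * √2, -10 + 8 * √2, -1 + 5 * √2]
  rw [Fin.sum_univ_three] at q1 q2
  rw [Fin.sum_univ_four] at q3
  simp only [Fin.sum_univ_three, Fin.sum_univ_four, Matrix.cons_val_zero, Matrix.cons_val_one,
    Matrix.cons_val, hs (Sum.inr 0) (Sum.inl 0), hs (Sum.inr 1) (Sum.inl 0),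
    hs (Sum.inr 2) (Sum.inl 0), hs (Sum.inr 0) (Sum.inl 1), hs (Sum.inr 1) (Sum.inl 1),
    hs (Sum.inr 2) (Sum.inl 1), hs (Sum.inr 0) (Sum.inl 2), hs (Sum.inr 1) (Sum.inl 2),
    hs (Sum.inr 1) (Sum.inr 0), hs (Sum.inl 1) (Sum.inl 0),
    e00, e01, e02, e10, e11, e12, e20, e21, d0, d1, d2, d3, d4, d5] at q1 q2 q3
  generalize Y (Sum.inr 0) (Sum.inr 1) = y at q1 q3 ⊢
  generalize Y (Sum.inl 0) (Sum.inl 1) = z at q2 q3
  generalize √2 = r at h2 hlo hhi q1 q2 q3 ⊢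
  have p1 : 0 ≤ -(6 * r) * (y + 5 - r) := by linear_combination q1 - 3 * h2
  have p2 : 0 ≤ -(6 * r) * (z - r) := by linear_combination q2 - 3 * h2
  have p3 : 0 ≤ 2 * (10 - r) * (z - r) + 2 * (90 - 58 * r) * (y + 5 - r) := by
    linear_combination q3 + (341 - 30 * z + 80 * y) * h2
  have b1 : y + 5 - r ≤ 0 := by
    by_contra h
    push Not at h
    nlinarith [mul_pos (show (0 : ℝ) < 6 * r by linarith) h]
  have b2 : z - r ≤ 0 := by
    by_contra h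
    push Not at h
    nlinarith [mul_pos (show (0 : ℝ) < 6 * r by linarith) h]
  have b3 : 0 ≤ y + 5 - r := by
    by_contra h
    push Not at h
    have k1 := mul_nonneg (show (0 : ℝ) ≤ 2 * (10 - r) by linarith) (show 0 ≤ -(z - r) by linarith)
    have k2 := mul_pos (show (0 : ℝ) < 2 * (90 - 58 * r) by linarith)
      (show 0 < -(y + 5 - r) by linarith)
    linarith
  linarith

end Pool.Agent.Lib.MP_13b08e_lc.RC.K33e
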