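import Pool.Agent.Lib.MP_13b08e_lc.RC.MinorD

/-!
The complete bipartite graph `K_{3,3}` without an edge: a rational point of its elliptope without
rational positive semidefinite completion.
-/

namespace Pool.Agent.Lib.MP_13b08e_lc.RC

namespace K33f

open Pool.Agent.Lib.MP_13b08e_lc Matrix

/-- The graph. -/
abbrev G : SimpleGraph (Fin 3 ⊕ Fin 3) :=
  (completeBipartiteGraph (Fin 3) (Fin 3)).deleteEdges {s(Sum.inl 2, Sum.inr 2)}

/-- The rational data. -/
def v : Fin 3 → Fin 3 → ℚ :=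
  ![![29 / 30, 2 / 15, 13 / 15], ![1 / 16, -5 / 8, -13 / 20], ![4 / 5, -43 / 65, 0]]

/-- The rational data as a symmetric matrix; the entries outside the edges are not used. -/
def A : Fin 3 ⊕ Fin 3 → Fin 3 ⊕ Fin 3 → ℚ
  | Sum.inl a, Sum.inr j => v j a
  | Sum.inr j, Sum.inl a => v j a
  | _, _ => 0

lemma A_symm (s t : Fin 3 ⊕ Fin 3) : A s t = A t s := by
  rcases s with a | i <;> rcases t with b | j <;> rfl

/-- The rational point. -/
def x : G.edgeSet → ℚ := fun e => Sym2.lift ⟨fun s t => A s t, A_symm⟩ e.1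

/-- Weights of the completion. -/
noncomputable def d : Fin 3 → ℝ := ![1, 56 / 225, -5403 / 16900 + (483 / 4225) * √66]

/-- Linear forms of the completion. -/
noncomputable def L : Fin 3 → Fin 3 ⊕ Fin 3 → ℝ :=
  ![Sum.elim ![977 / 650 - (63 / 650) * √66, -34 / 325 + (21 / 325) * √66, 1]
      ![13 / 15, -13 / 20, 4252 / 1235 - (96 / 247) * √66],
    Sum.elim ![-27 / 20 + (27 / 80) * √66, 9 / 10 - (9 / 40) * √66, 0]
      ![1, (3 / 16) * √66, -207 / 76 + (81 / 152) * √66],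
    Sum.elim ![-35 / 26 + (2 / 13) * √66, 1, 0] ![0, 0, -4513 / 1235 + (453 / 1235) * √66]]

/-- The completion. -/
noncomputable def X : Matrix (Fin 3 ⊕ Fin 3) (Fin 3 ⊕ Fin 3) ℝ :=
  Matrix.of fun s t => ∑ k, d k * L k s * L k t

lemma sqrt_lo : (8 : ℝ) < √66 := by
  rw [Real.lt_sqrt (by norm_num)]; norm_num

lemma sqrt_hi : √66 < (8.2 : ℝ) := by
  rw [Real.sqrt_lt' (by norm_num)]; norm_num

lemma d_nonneg (k : Fin 3) : 0 ≤ d k := by
  have h := sqrt_lo
  fin_cases k <;> simp [d] <;> linarith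

lemma X_symm (s t : Fin 3 ⊕ Fin 3) : X s t = X t s := by
  simp only [X, Matrix.of_apply]
  exact Finset.sum_congr rfl fun k _ => by ring

lemma X_eq (s t : Fin 3 ⊕ Fin 3) : X s t = d 0 * L 0 s * L 0 t + d 1 * L 1 s * L 1 t +
    d 2 * L 2 s * L 2 t := by
  simp only [X, Matrix.of_apply, Fin.sum_univ_three]

lemma X_diag (s : Fin 3 ⊕ Fin 3) : X s s = 1 := by
  have h2 : √66 ^ 2 = (66 : ℝ) := Real.sq_sqrt (by norm_num)
  have h3 : √66 ^ 3 = (66 : ℝ) * √66 := by rw [pow_succ, h2]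
  rw [X_eq]
  rcases s with a | j
  · fin_cases a <;> simp only [d, L] <;> simp <;> (try ring_nf) <;> (try simp only [h2, h3]) <;>
      (try ring_nf)
  · fin_cases j <;> simp only [d, L] <;> simp <;> (try ring_nf) <;> (try simp only [h2, h3]) <;>
      (try ring_nf)

lemma X_edge (a : Fin 3) (j : Fin 3) (h : ¬ (a = 2 ∧ j = 2)) :
    X (Sum.inl a) (Sum.inr j) = (v j a : ℝ) := by
  have h2 : √66 ^ 2 = (66 : ℝ) := Real.sq_sqrt (by norm_num)
  have h3 : √66 ^ 3 = (66 : ℝ) * √66 := by rw [pow_succ, h2]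
  rw [X_eq]
  fin_cases a <;> fin_cases j <;> first | (exfalso; exact h ⟨rfl, rfl⟩) |
    (simp only [d, L, v] <;> simp <;> (try ring_nf) <;> (try simp only [h2, h3]) <;> (try ring_nf))

lemma X_psd : X.PosSemidef := posSemidef_of_sum d L d_nonneg

lemma adj_iff (a j : Fin 3) : G.Adj (Sum.inl a) (Sum.inr j) ↔ ¬ (a = 2 ∧ j = 2) := by
  simp [SimpleGraph.deleteEdges_adj]

lemma X_adj (s t : Fin 3 ⊕ Fin 3) (h : G.Adj s t) : X s t = (A s t : ℝ) := by
  rcases s with a | i <;> rcases t with b | j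
  · exact absurd h.1 (by simp)
  · exact X_edge a j ((adj_iff a j).1 h)
  · rw [X_symm]
    exact X_edge b i ((adj_iff b i).1 h.symm)
  · exact absurd h.1 (by simp)

theorem completion : IsCompletion G x X where
  psd := X_psd
  diag := X_diag
  edge := fun s t h => X_adj s t h

/-- The forced value. -/
theorem forced {Y : Matrix (Fin 3 ⊕ Fin 3) (Fin 3 ⊕ Fin 3) ℝ} (hY : IsCompletion G x Y) :
    Y (Sum.inr 0) (Sum.inr 1) = -169 / 300 + 7 / 150 * √66 := by
  have h2 : √66 ^ 2 = (66 : ℝ) := Real.sq_sqrt (by norm_num)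
  have hlo := sqrt_lo
  have hhi := sqrt_hi
  have hd := hY.diag
  have hs : ∀ s t, Y s t = Y t s := fun s t => by
    have := hY.psd.isHermitian.apply s t
    simpa using this.symm
  have ev : ∀ (a j : Fin 3), ¬ (a = 2 ∧ j = 2) → Y (Sum.inl a) (Sum.inr j) = (v j a : ℝ) :=
    fun a j h => hY.edge _ _ ((adj_iff a j).2 h)
  have e00 : Y (Sum.inl 0) (Sum.inr 0) = 29 / 30 := by rw [ev 0 0 (by decide)]; simp [v]
  have e01 : Y (Sum.inl 0) (Sum.inr 1) = 1 / 16 := by rw [ev 0 1 (by decide)]; simp [v]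
  have e02 : Y (Sum.inl 0) (Sum.inr 2) = 4 / 5 := by rw [ev 0 2 (by decide)]; simp [v]
  have e10 : Y (Sum.inl 1) (Sum.inr 0) = 2 / 15 := by rw [ev 1 0 (by decide)]; simp [v]
  have e11 : Y (Sum.inl 1) (Sum.inr 1) = -5 / 8 := by rw [ev 1 1 (by decide)]; simp [v]
  have e12 : Y (Sum.inl 1) (Sum.inr 2) = -43 / 65 := by rw [ev 1 2 (by decide)]; simp [v]
  have e20 : Y (Sum.inl 2) (Sum.inr 0) = 13 / 15 := by rw [ev 2 0 (by decide)]; simp [v]
  have e21 : Y (Sum.inl 2) (Sum.inr 1) = -13 / 20 := by rw [ev 2 1 (by decide)]; simp [v]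
  have q1 := K33e.quad hY.psd ![Sum.inl 2, Sum.inr 0, Sum.inr 1] ![52 + 13 * √66, -(15 * √66), 80]
  have q2 := K33e.quad hY.psd ![Sum.inr 2, Sum.inl 0, Sum.inl 1] ![43 + 8 * √66, -(10 * √66), 65]
  have q3 := K33e.quad hY.psd ![Sum.inl 0, Sum.inl 1, Sum.inr 0, Sum.inr 1]
    ![-26 + 26 * √66, -299 + 39 * √66, -261 + 9 * √66, -360 + 40 * √66]
  rw [Fin.sum_univ_three] at q1 q2
  rw [Fin.sum_univ_four] at q3
  simp only [Fin.sum_univ_three, Fin.sum_univ_four, Matrix.cons_val_zero, Matrix.cons_val_one,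
    Matrix.cons_val, hs (Sum.inr 0) (Sum.inl 0), hs (Sum.inr 1) (Sum.inl 0),
    hs (Sum.inr 2) (Sum.inl 0), hs (Sum.inr 0) (Sum.inl 1), hs (Sum.inr 1) (Sum.inl 1),
    hs (Sum.inr 2) (Sum.inl 1), hs (Sum.inr 0) (Sum.inl 2), hs (Sum.inr 1) (Sum.inl 2),
    hs (Sum.inr 1) (Sum.inr 0), hs (Sum.inl 1) (Sum.inl 0),
    e00, e01, e02, e10, e11, e12, e20, e21, hd] at q1 q2 q3
  generalize Y (Sum.inr 0) (Sum.inr 1) = y at q1 q3 ⊢
  generalize Y (Sum.inl 0) (Sum.inl 1) = z at q2 q3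
  generalize √66 = r at h2 hlo hhi q1 q2 q3 ⊢
  have p1 : 0 ≤ -(2400 * r) * (y + 169 / 300 - 7 / 150 * r) := by
    linear_combination q1 - 56 * h2
  have p2 : 0 ≤ -(1300 * r) * (z + 172 / 325 - 18 / 325 * r) := by
    linear_combination q2 - 36 * h2
  have p3 : 0 ≤ 2 * (74698 - 8788 * r) * (z + 172 / 325 - 18 / 325 * r) +
      2 * (117720 - 13680 * r) * (y + 169 / 300 - 7 / 150 * r) := by
    linear_combination q3 + (8844 / 25 + 2028 * z + 720 * y) * h2
  have b1 : y + 169 / 300 - 7 / 150 * r ≤ 0 := by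
    by_contra h
    push Not at h
    nlinarith [mul_pos (show (0 : ℝ) < 2400 * r by linarith) h]
  have b2 : z + 172 / 325 - 18 / 325 * r ≤ 0 := by
    by_contra h
    push Not at h
    nlinarith [mul_pos (show (0 : ℝ) < 1300 * r by linarith) h]
  have b3 : 0 ≤ y + 169 / 300 - 7 / 150 * r := by
    by_contra h
    push Not at h
    have k1 := mul_nonneg (show (0 : ℝ) ≤ 2 * (74698 - 8788 * r) by linarith)
      (show 0 ≤ -(z + 172 / 325 - 18 / 325 * r) by linarith)
    have k2 := mul_pos (show (0 : ℝ) < 2 * (117720 - 13680 * r) by linarith)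
      (show 0 < -(y + 169 / 300 - 7 / 150 * r) by linarith)
    linarith
  linarith

/-- One entry is irrational in every completion. -/
theorem irrational_entry {Y : Matrix (Fin 3 ⊕ Fin 3) (Fin 3 ⊕ Fin 3) ℝ}
    (hY : IsCompletion G x Y) : Irrational (Y (Sum.inr 0) (Sum.inr 1)) := by
  have h : Irrational (√66) := by
    rw [irrational_sqrt_ofNat_iff]
    rintro ⟨n, hn⟩
    have h1 : n ≤ 8 := by nlinarith
    interval_cases n <;> omega
  rw [forced hY]
  have h1 : (-169 / 300 + 7 / 150 * √66 : ℝ) = ((-169 / 300 : ℚ) : ℝ) + ((7 / 150 : ℚ) : ℝ) * √66 := by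
    push_cast
    ring
  rw [h1]
  exact (h.ratCast_mul (by norm_num)).ratCast_add _

end K33f

/-- The elliptope of `K_{3,3}` minus an edge has a rational point without rational completion. -/
theorem not_rationalElliptope_K33f : ¬ RationalElliptope K33f.G := by
  intro h
  obtain ⟨Y, hY⟩ := h K33f.x ⟨K33f.X, K33f.completion⟩
  exact K33f.irrational_entry hY ⟨Y (Sum.inr 0) (Sum.inr 1), rfl⟩

/-- Both properties fail for every graph with `K_{3,3}` minus an edge as an induced minor. -/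
theorem not_of_minor_edge' {V : Type} [Finite V] (G : SimpleGraph V)
    (h : InducedMinor ((completeBipartiteGraph (Fin 3) (Fin 3)).deleteEdges
      {s(Sum.inl 2, Sum.inr 2)}) G) : ¬ RationalCompletions G ∧ ¬ RationalElliptope G := by
  have h1 : ¬ RationalElliptope G := fun hG => not_rationalElliptope_K33f (hG.minor h)
  exact ⟨fun hG => h1 (rationalElliptope_of_ratCompl (ratCompl_of_rationalCompletions hG)), h1⟩

end Pool.Agent.Lib.MP_13b08e_lc.RC
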