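import Pool.Agent.Lib.MP_13b08e_lc.RC.Minors

/-!
Elimination of the vertices along a perfect elimination ordering.
-/

namespace Pool.Agent.Lib.MP_13b08e_lc.RC

open Real

/-- The natural order is a perfect elimination ordering of `H`. -/
def Peo {n : ℕ} (H : SimpleGraph (Fin n)) : Prop :=
  ∀ v a b, H.Adj v a → H.Adj v b → v < a → v < b → a ≠ b → H.Adj a b

theorem Peo.succ {n : ℕ} {H : SimpleGraph (Fin (n + 1))} (h : Peo H) :
    Peo (H.comap Fin.succ) := by
  intro v a b hva hvb h1 h2 hab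
  exact h v.succ a.succ b.succ hva hvb (Fin.succ_lt_succ_iff.2 h1) (Fin.succ_lt_succ_iff.2 h2)
    (fun h3 => hab (Fin.succ_injective _ h3))

theorem QF.succ {n : ℕ} {X : Fin (n + 1) → Fin (n + 1) → ℝ} (h : QF X) :
    QF fun i j => X i.succ j.succ := by
  intro w
  have h1 := h (Fin.cons 0 w)
  simpa [Fin.sum_univ_succ] using h1

/-- Angle constraints on the edges of `H`. -/
structure Intervals {n : ℕ} (d : Fin n → ℚ) (H : SimpleGraph (Fin n))
    (lo hi : Fin n → Fin n → ℝ) : Prop where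
  losymm : ∀ i j, H.Adj i j → lo i j = lo j i
  hisymm : ∀ i j, H.Adj i j → hi i j = hi j i
  lo0 : ∀ i j, H.Adj i j → 0 ≤ lo i j
  hiπ : ∀ i j, H.Adj i j → hi i j ≤ π
  rhi : ∀ i j, H.Adj i j → AU (d i * d j) (hi i j)
  rlo : ∀ i j, H.Adj i j → AL (d i * d j) (lo i j)
  four : ∀ a b c e, H.Adj a b → H.Adj a c → H.Adj a e → H.Adj b c → H.Adj b e → H.Adj c e →
    lo a b < hi a b → lo a c = hi a c ∧ lo c e = hi c e

/-- `X` is a positive semidefinite matrix with diagonal `d` whose angles satisfy the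
constraints. -/
structure Fits {n : ℕ} (d : Fin n → ℚ) (H : SimpleGraph (Fin n)) (lo hi : Fin n → Fin n → ℝ)
    (X : Fin n → Fin n → ℝ) : Prop where
  symm : ∀ i j, X i j = X j i
  qf : QF X
  diag : ∀ i, X i i = d i
  lo : ∀ i j, H.Adj i j → lo i j ≤ ang d i j (X i j)
  hi : ∀ i j, H.Adj i j → ang d i j (X i j) ≤ hi i j

theorem entry_eq {n : ℕ} {d : Fin n → ℚ} (hd : ∀ i, 0 < d i) {X Y : Fin n → Fin n → ℝ}
    (hXs : ∀ i j, X i j = X j i) (hX : QF X) (hXd : ∀ i, X i i = d i)
    (hYs : ∀ i j, Y i j = Y j i) (hY : QF Y) (hYd : ∀ i, Y i i = d i) {i j : Fin n}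
    (h : ang d i j (X i j) = ang d i j (Y i j)) : X i j = Y i j := by
  rw [← sqrt_mul_cos_ang hd hXs hX hXd i j, ← sqrt_mul_cos_ang hd hYs hY hYd i j, h]

/-- The last step of every case. -/
theorem finish {n : ℕ} (d : Fin (n + 1) → ℚ) (hd : ∀ i, 0 < d i) (H : SimpleGraph (Fin (n + 1)))
    (lo hi : Fin (n + 1) → Fin (n + 1) → ℝ) (hI : Intervals d H lo hi)
    (Y : Fin n → Fin n → ℚ)
    (hY : Fits (fun i => d i.succ) (H.comap Fin.succ) (fun i j => lo i.succ j.succ)
      (fun i j => hi i.succ j.succ) (fun i j => (Y i j : ℝ)))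
    (q : Fin n → ℚ)
    (hq : ∀ i : Fin n, H.Adj 0 i.succ → lo 0 i.succ ≤ ang d 0 i.succ (q i) ∧
      ang d 0 i.succ (q i) ≤ hi 0 i.succ)
    (H0 : ∀ (t : ℚ) (w : Fin n → ℚ), (∀ i : Fin n, ¬ H.Adj 0 i.succ → w i = 0) →
      0 ≤ t ^ 2 * d 0 + 2 * t * ∑ i, w i * q i + ∑ i, ∑ j, w i * w j * Y i j) :
    ∃ Z : Fin (n + 1) → Fin (n + 1) → ℚ, Fits d H lo hi (fun i j => (Z i j : ℝ)) := by
  classical
  have hYs : ∀ i j, Y i j = Y j i := fun i j => by exact_mod_cast hY.symm i j
  have hYd : ∀ i, Y i i = d i.succ := fun i => by exact_mod_cast hY.diag i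
  let C : Finset (Fin n) := Finset.univ.filter fun i => H.Adj 0 i.succ
  have hC : ∀ i, i ∈ C ↔ H.Adj 0 i.succ := fun i => by simp [C]
  obtain ⟨Z, hZs, hZ0, hZY, hZC, hZ⟩ := extend Y hYs hY.qf C q (d 0)
    (fun t w hw => H0 t w fun i hi => hw i fun h => hi ((hC i).1 h))
  refine ⟨Z, ?_⟩
  have main : ∀ i j, H.Adj i j → lo i j ≤ ang d i j (Z i j) ∧ ang d i j (Z i j) ≤ hi i j := by
    have h0 : ∀ j : Fin n, H.Adj 0 j.succ →
        lo 0 j.succ ≤ ang d 0 j.succ (Z 0 j.succ) ∧ ang d 0 j.succ (Z 0 j.succ) ≤ hi 0 j.succ := by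
      intro j h
      rw [hZC j ((hC j).2 h)]
      exact hq j h
    intro i j
    refine Fin.cases ?_ (fun i => ?_) i <;> refine Fin.cases ?_ (fun j => ?_) j
    · intro h
      exact absurd h (H.loopless.irrefl 0)
    · exact h0 j
    · intro h
      have h1 := h0 i h.symm
      rw [hI.losymm _ _ h, hI.hisymm _ _ h, ang_comm, hZs]
      exact h1
    · intro h
      rw [hZY]
      exact ⟨hY.lo i j h, hY.hi i j h⟩
  exact ⟨fun i j => by simp only [hZs i j], hZ, fun i => by
    refine Fin.cases ?_ (fun i => ?_) i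
    · simp only [hZ0]
    · simp only [hZY, hYd], fun i j h => (main i j h).1, fun i j h => (main i j h).2⟩

theorem H0_of {n : ℕ} (M : Fin (n + 1) → Fin (n + 1) → ℝ) (C : Fin n → Prop) (d0 : ℚ)
    (q : Fin n → ℚ) (Y : Fin n → Fin n → ℚ) (h00 : M 0 0 = d0)
    (h0 : ∀ i, C i → M 0 i.succ = q i) (h0' : ∀ i, C i → M i.succ 0 = q i)
    (hYM : ∀ i j, C i → C j → M i.succ j.succ = Y i j)
    (hM : ∀ W : Fin (n + 1) → ℝ, (∀ i : Fin n, ¬ C i → W i.succ = 0) →
      0 ≤ ∑ i, ∑ j, W i * W j * M i j) :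
    ∀ (t : ℚ) (w : Fin n → ℚ), (∀ i, ¬ C i → w i = 0) →
      0 ≤ t ^ 2 * d0 + 2 * t * ∑ i, w i * q i + ∑ i, ∑ j, w i * w j * Y i j := by
  intro t w hw
  have h1 := hM (Fin.cons (t : ℝ) (fun i => (w i : ℝ))) (fun i hi => by
    rw [Fin.cons_succ, hw i hi]; simp)
  simp only [Fin.sum_univ_succ, Fin.cons_zero, Fin.cons_succ, h00] at h1
  have h2 : ∑ x : Fin n, (t : ℝ) * (w x : ℝ) * M 0 x.succ = t * ∑ i, (w i : ℝ) * (q i : ℝ) := by
    rw [Finset.mul_sum]
    refine Finset.sum_congr rfl fun i _ => ?_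
    by_cases hi : C i
    · rw [h0 i hi]; ring
    · rw [hw i hi]; simp
  have h3 : ∑ x : Fin n, ((w x : ℝ) * (t : ℝ) * M x.succ 0
      + ∑ y : Fin n, (w x : ℝ) * (w y : ℝ) * M x.succ y.succ)
      = t * ∑ i, (w i : ℝ) * (q i : ℝ) + ∑ i, ∑ j, (w i : ℝ) * (w j : ℝ) * (Y i j : ℝ) := by
    rw [Finset.sum_add_distrib, Finset.mul_sum]
    congr 1
    · refine Finset.sum_congr rfl fun i _ => ?_
      by_cases hi : C i
      · rw [h0' i hi]; ring
      · rw [hw i hi]; simp
    · refine Finset.sum_congr rfl fun i _ => Finset.sum_congr rfl fun j _ => ?_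
      by_cases hi : C i
      · by_cases hj : C j
        · rw [hYM i j hi hj]
        · rw [hw j hj]; simp
      · rw [hw i hi]; simp
  rw [h2, h3] at h1
  have h4 : (0 : ℝ) ≤ ((t ^ 2 * d0 + 2 * t * ∑ i, w i * q i
      + ∑ i, ∑ j, w i * w j * Y i j : ℚ) : ℝ) := by
    push_cast
    linarith
  exact_mod_cast h4

/-- The function `f` with the value at the pair `a b` replaced by `x`. -/
noncomputable def upd {n : ℕ} (f : Fin n → Fin n → ℝ) (a b : Fin n) (x : ℝ) (i j : Fin n) : ℝ :=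
  if (i = a ∧ j = b) ∨ (i = b ∧ j = a) then x else f i j

theorem upd_fits {n : ℕ} {d : Fin (n + 1) → ℚ} {H : SimpleGraph (Fin (n + 1))}
    {lo hi : Fin (n + 1) → Fin (n + 1) → ℝ} {a b : Fin n}
    (X : Fin (n + 1) → Fin (n + 1) → ℝ) (hF : Fits d H lo hi X) (L U : ℝ)
    (hL : L ≤ ang d a.succ b.succ (X a.succ b.succ))
    (hU : ang d a.succ b.succ (X a.succ b.succ) ≤ U) :
    Fits (fun i => d i.succ) (H.comap Fin.succ) (upd (fun i j => lo i.succ j.succ) a b L)
      (upd (fun i j => hi i.succ j.succ) a b U) (fun i j => X i.succ j.succ) := by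
  have hba : ang d b.succ a.succ (X b.succ a.succ) = ang d a.succ b.succ (X a.succ b.succ) := by
    rw [hF.symm b.succ a.succ, ang_comm]
  have h2 : ∀ i j : Fin n, (i = a ∧ j = b) ∨ (i = b ∧ j = a) →
      ang d i.succ j.succ (X i.succ j.succ) = ang d a.succ b.succ (X a.succ b.succ) := by
    intro i j h
    rcases h with ⟨rfl, rfl⟩ | ⟨rfl, rfl⟩
    · rfl
    · exact hba
  refine ⟨fun i j => hF.symm _ _, hF.qf.succ, fun i => hF.diag _, ?_, ?_⟩
  · intro i j hij
    change upd (fun i j => lo i.succ j.succ) a b L i j ≤ ang d i.succ j.succ (X i.succ j.succ)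
    unfold upd
    by_cases h : (i = a ∧ j = b) ∨ (i = b ∧ j = a)
    · rw [if_pos h, h2 i j h]
      exact hL
    · rw [if_neg h]
      exact hF.lo _ _ hij
  · intro i j hij
    change ang d i.succ j.succ (X i.succ j.succ) ≤ upd (fun i j => hi i.succ j.succ) a b U i j
    unfold upd
    by_cases h : (i = a ∧ j = b) ∨ (i = b ∧ j = a)
    · rw [if_pos h, h2 i j h]
      exact hU
    · rw [if_neg h]
      exact hF.hi _ _ hij

theorem upd_int {n : ℕ} {d : Fin (n + 1) → ℚ} {H : SimpleGraph (Fin (n + 1))}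
    {lo hi : Fin (n + 1) → Fin (n + 1) → ℝ} {a b : Fin n}
    (X : Fin (n + 1) → Fin (n + 1) → ℝ) (hF : Fits d H lo hi X) (hI : Intervals d H lo hi)
    (L U : ℝ) (hL : L ≤ ang d a.succ b.succ (X a.succ b.succ))
    (hU : ang d a.succ b.succ (X a.succ b.succ) ≤ U)
    (hLl : lo a.succ b.succ ≤ L) (hUu : U ≤ hi a.succ b.succ)
    (hLA : AL (d a.succ * d b.succ) L) (hUA : AU (d a.succ * d b.succ) U) :
    Intervals (fun i => d i.succ) (H.comap Fin.succ) (upd (fun i j => lo i.succ j.succ) a b L)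
      (upd (fun i j => hi i.succ j.succ) a b U) := by
  have hfit := upd_fits X hF L U hL hU
  have hlo : ∀ i j, H.Adj i.succ j.succ →
      lo i.succ j.succ ≤ upd (fun i j => lo i.succ j.succ) a b L i j := by
    intro i j hij
    unfold upd
    by_cases h : (i = a ∧ j = b) ∨ (i = b ∧ j = a)
    · rw [if_pos h]
      have h2 : lo i.succ j.succ = lo a.succ b.succ := by
        rcases h with ⟨rfl, rfl⟩ | ⟨rfl, rfl⟩
        · rfl
        · exact hI.losymm _ _ hij
      rw [h2]
      exact hLl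
    · rw [if_neg h]
  have hhi : ∀ i j, H.Adj i.succ j.succ →
      upd (fun i j => hi i.succ j.succ) a b U i j ≤ hi i.succ j.succ := by
    intro i j hij
    unfold upd
    by_cases h : (i = a ∧ j = b) ∨ (i = b ∧ j = a)
    · rw [if_pos h]
      have h2 : hi i.succ j.succ = hi a.succ b.succ := by
        rcases h with ⟨rfl, rfl⟩ | ⟨rfl, rfl⟩
        · rfl
        · exact hI.hisymm _ _ hij
      rw [h2]
      exact hUu
    · rw [if_neg h]
  have hcs : ∀ i j : Fin n, ((i = a ∧ j = b) ∨ (i = b ∧ j = a)) ↔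
      ((j = a ∧ i = b) ∨ (j = b ∧ i = a)) := by
    intro i j
    tauto
  refine ⟨?_, ?_, ?_, ?_, ?_, ?_, ?_⟩
  · intro i j hij
    unfold upd
    by_cases h : (i = a ∧ j = b) ∨ (i = b ∧ j = a)
    · rw [if_pos h, if_pos ((hcs i j).1 h)]
    · rw [if_neg h, if_neg (fun h' => h ((hcs i j).2 h'))]
      exact hI.losymm _ _ hij
  · intro i j hij
    unfold upd
    by_cases h : (i = a ∧ j = b) ∨ (i = b ∧ j = a)
    · rw [if_pos h, if_pos ((hcs i j).1 h)]
    · rw [if_neg h, if_neg (fun h' => h ((hcs i j).2 h'))]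
      exact hI.hisymm _ _ hij
  · intro i j hij
    exact (hI.lo0 _ _ hij).trans (hlo i j hij)
  · intro i j hij
    exact (hhi i j hij).trans (hI.hiπ _ _ hij)
  · intro i j hij
    unfold upd
    by_cases h : (i = a ∧ j = b) ∨ (i = b ∧ j = a)
    · rw [if_pos h]
      rcases h with ⟨rfl, rfl⟩ | ⟨rfl, rfl⟩
      · exact hUA
      · rw [mul_comm]
        exact hUA
    · rw [if_neg h]
      exact hI.rhi _ _ hij
  · intro i j hij
    unfold upd
    by_cases h : (i = a ∧ j = b) ∨ (i = b ∧ j = a)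
    · rw [if_pos h]
      rcases h with ⟨rfl, rfl⟩ | ⟨rfl, rfl⟩
      · exact hLA
      · rw [mul_comm]
        exact hLA
    · rw [if_neg h]
      exact hI.rlo _ _ hij
  · intro i j k l hij hik hil hjk hjl hkl hlt
    have h1 := hI.four _ _ _ _ hij hik hil hjk hjl hkl
      ((hlo i j hij).trans_lt (hlt.trans_le (hhi i j hij)))
    constructor
    · have h2 := hlo i k hik
      have h3 := hhi i k hik
      have h4 := hfit.lo i k hik
      have h5 := hfit.hi i k hik
      linarith [h1.1]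
    · have h2 := hlo k l hkl
      have h3 := hhi k l hkl
      have h4 := hfit.lo k l hkl
      have h5 := hfit.hi k l hkl
      linarith [h1.2]

theorem upd_back {n : ℕ} {d : Fin (n + 1) → ℚ} {H : SimpleGraph (Fin (n + 1))}
    {lo hi : Fin (n + 1) → Fin (n + 1) → ℝ} {a b : Fin n} (hI : Intervals d H lo hi)
    (L U : ℝ) (hLl : lo a.succ b.succ ≤ L) (hUu : U ≤ hi a.succ b.succ)
    (Y : Fin n → Fin n → ℝ)
    (hY : Fits (fun i => d i.succ) (H.comap Fin.succ) (upd (fun i j => lo i.succ j.succ) a b L)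
      (upd (fun i j => hi i.succ j.succ) a b U) Y) :
    Fits (fun i => d i.succ) (H.comap Fin.succ) (fun i j => lo i.succ j.succ)
      (fun i j => hi i.succ j.succ) Y := by
  refine ⟨hY.symm, hY.qf, hY.diag, ?_, ?_⟩
  · intro i j h
    have h1 := hY.lo i j h
    unfold upd at h1
    by_cases hc : (i = a ∧ j = b) ∨ (i = b ∧ j = a)
    · rw [if_pos hc] at h1
      have e1 : lo i.succ j.succ = lo a.succ b.succ := by
        rcases hc with ⟨rfl, rfl⟩ | ⟨rfl, rfl⟩
        · rfl
        · exact hI.losymm _ _ h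
      change lo i.succ j.succ ≤ _
      rw [e1]
      exact hLl.trans h1
    · rw [if_neg hc] at h1
      exact h1
  · intro i j h
    have h1 := hY.hi i j h
    unfold upd at h1
    by_cases hc : (i = a ∧ j = b) ∨ (i = b ∧ j = a)
    · rw [if_pos hc] at h1
      have e1 : hi i.succ j.succ = hi a.succ b.succ := by
        rcases hc with ⟨rfl, rfl⟩ | ⟨rfl, rfl⟩
        · rfl
        · exact hI.hisymm _ _ h
      change _ ≤ hi i.succ j.succ
      rw [e1]
      exact h1.trans hUu
    · rw [if_neg hc] at h1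
      exact h1

/-- Case B: all pairs of neighbours of the first vertex are rigid. -/
theorem stepB {n : ℕ} (d : Fin (n + 1) → ℚ) (hd : ∀ i, 0 < d i) (H : SimpleGraph (Fin (n + 1)))
    (lo hi : Fin (n + 1) → Fin (n + 1) → ℝ) (hI : Intervals d H lo hi)
    (X : Fin (n + 1) → Fin (n + 1) → ℝ) (hF : Fits d H lo hi X)
    (hB : ∀ a b : Fin n, H.Adj 0 a.succ → H.Adj 0 b.succ → a ≠ b →
      lo 0 a.succ = hi 0 a.succ ∧ lo a.succ b.succ = hi a.succ b.succ ∧ H.Adj a.succ b.succ)
    (Y : Fin n → Fin n → ℚ)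
    (hY : Fits (fun i => d i.succ) (H.comap Fin.succ) (fun i j => lo i.succ j.succ)
      (fun i j => hi i.succ j.succ) (fun i j => (Y i j : ℝ))) :
    ∃ Z : Fin (n + 1) → Fin (n + 1) → ℚ, Fits d H lo hi (fun i j => (Z i j : ℝ)) := by
  classical
  have hYs : ∀ i j, Y i j = Y j i := fun i j => by exact_mod_cast hY.symm i j
  have hYd : ∀ i, Y i i = d i.succ := fun i => by exact_mod_cast hY.diag i
  -- choose the angles
  have hch : ∀ i : Fin n, ∃ τ, H.Adj 0 i.succ → RatAng (d 0 * d i.succ) τ ∧ lo 0 i.succ ≤ τ ∧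
      τ ≤ hi 0 i.succ := by
    intro i
    by_cases h : H.Adj 0 i.succ
    · obtain ⟨τ, h1, h2, h3⟩ := exists_ratAng (mul_pos (hd 0) (hd i.succ))
        ((hF.lo _ _ h).trans (hF.hi _ _ h)) (hI.lo0 _ _ h) (hI.hiπ _ _ h) (hI.rhi _ _ h)
        (hI.rlo _ _ h)
      exact ⟨τ, fun _ => ⟨h1, h2, h3⟩⟩
    · exact ⟨0, fun h' => absurd h' h⟩
  choose τ hτ using hch
  have hq : ∀ i : Fin n, ∃ q : ℚ, H.Adj 0 i.succ →
      √((d 0 * d i.succ : ℚ) : ℝ) * cos (τ i) = q := by
    intro i
    by_cases h : H.Adj 0 i.succ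
    · obtain ⟨q, hq⟩ := (hτ i h).1.2.2
      exact ⟨q, fun _ => hq⟩
    · exact ⟨0, fun h' => absurd h' h⟩
  choose q hq using hq
  let C : Finset (Fin n) := Finset.univ.filter fun i => H.Adj 0 i.succ
  have hC : ∀ i, i ∈ C ↔ H.Adj 0 i.succ := fun i => by simp [C]
  have hq2 : ∀ i, H.Adj 0 i.succ → (q i : ℝ) ^ 2 ≤ (d 0 : ℝ) * d i.succ := by
    intro i h
    rw [← hq i h, mul_pow, Real.sq_sqrt (by exact_mod_cast (mul_pos (hd 0) (hd i.succ)).le)]
    push_cast
    have h1 : cos (τ i) ^ 2 ≤ 1 := by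
      have := sin_sq_add_cos_sq (τ i)
      nlinarith [sq_nonneg (sin (τ i))]
    have h2 : (0 : ℝ) < (d 0 : ℝ) * d i.succ := by exact_mod_cast mul_pos (hd 0) (hd i.succ)
    nlinarith
  have H0 : ∀ (t : ℚ) (w : Fin n → ℚ), (∀ i, i ∉ C → w i = 0) →
      0 ≤ t ^ 2 * d 0 + 2 * t * ∑ i, w i * q i + ∑ i, ∑ j, w i * w j * Y i j := by
    intro t w hw
    by_cases hsub : ∀ i j, i ∈ C → j ∈ C → i = j
    · by_cases hne : ∃ a, a ∈ C
      · obtain ⟨a, ha⟩ := hne
        have hw' : ∀ i, i ≠ a → w i = 0 := fun i hi => by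
          by_contra h
          have : i ∈ C := by
            by_contra h'
            exact h (hw i h')
          exact hi (hsub i a this ha)
        have h1 : ∑ i, w i * q i = w a * q a := by
          refine Finset.sum_eq_single a (fun i _ hi => by rw [hw' i hi, zero_mul]) (by simp)
        have h2 : ∑ i, ∑ j, w i * w j * Y i j = w a ^ 2 * d a.succ := by
          rw [Finset.sum_eq_single a (fun i _ hi => by
            refine Finset.sum_eq_zero fun j _ => ?_
            rw [hw' i hi]; ring) (by simp)]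
          rw [Finset.sum_eq_single a (fun i _ hi => by rw [hw' i hi]; ring) (by simp), hYd]
          ring
        rw [h1, h2]
        have h3 : (q a) ^ 2 ≤ d 0 * d a.succ := by exact_mod_cast hq2 a ((hC a).1 ha)
        have h4 : 0 ≤ d 0 * (t ^ 2 * d 0 + 2 * t * (w a * q a) + w a ^ 2 * d a.succ) := by
          have h5 : d 0 * (t ^ 2 * d 0 + 2 * t * (w a * q a) + w a ^ 2 * d a.succ)
              = (t * d 0 + w a * q a) ^ 2 + w a ^ 2 * (d 0 * d a.succ - q a ^ 2) := by ring
          rw [h5]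
          exact add_nonneg (sq_nonneg _) (mul_nonneg (sq_nonneg _) (by linarith))
        exact nonneg_of_mul_nonneg_right h4 (hd 0)
      · have hw' : ∀ i, w i = 0 := fun i => hw i fun h => hne ⟨i, h⟩
        simp only [hw', zero_mul, Finset.sum_const_zero, mul_zero, add_zero]
        exact mul_nonneg (sq_nonneg _) (hd 0).le
    · push Not at hsub
      obtain ⟨a, b, ha, hb, hab⟩ := hsub
      have hex : ∀ i, i ∈ C → ∃ j, j ∈ C ∧ i ≠ j := by
        intro i hi
        by_cases h : i = a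
        · exact ⟨b, hb, by rw [h]; exact hab⟩
        · exact ⟨a, ha, h⟩
      have hqX : ∀ i, i ∈ C → (q i : ℝ) = X 0 i.succ := by
        intro i hi
        obtain ⟨j, hj, hij⟩ := hex i hi
        have h1 := (hB i j ((hC i).1 hi) ((hC j).1 hj) hij).1
        have h0 := (hC i).1 hi
        have h2 : τ i = ang d 0 i.succ (X 0 i.succ) := by
          have h3 := hτ i h0
          have h4 := hF.lo _ _ h0
          have h5 := hF.hi _ _ h0
          linarith [h3.2.1, h3.2.2]
        rw [← hq i h0, h2]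
        exact sqrt_mul_cos_ang hd hF.symm hF.qf hF.diag 0 i.succ
      have hYX : ∀ i j, i ∈ C → j ∈ C → (Y i j : ℝ) = X i.succ j.succ := by
        intro i j hi hj
        by_cases hij : i = j
        · subst hij
          rw [hYd i, hF.diag]
        · have h1 := (hB i j ((hC i).1 hi) ((hC j).1 hj) hij).2
          have h2 := hF.lo _ _ h1.2
          have h3 := hF.hi _ _ h1.2
          have h4 := hY.lo i j h1.2
          have h5 := hY.hi i j h1.2
          have h6 : ang (fun i => d i.succ) i j (Y i j : ℝ) = ang d i.succ j.succ (Y i j : ℝ) := rfl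
          have h7 : ang (fun i => d i.succ) i j (X i.succ j.succ)
              = ang d i.succ j.succ (X i.succ j.succ) := rfl
          refine entry_eq (d := fun i => d i.succ) (fun i => hd i.succ)
            (X := fun i j => (Y i j : ℝ)) (Y := fun i j => X i.succ j.succ)
            hY.symm hY.qf hY.diag (fun i j => hF.symm _ _) hF.qf.succ (fun i => hF.diag _) ?_
          rw [h6, h7]
          rw [h6] at h4 h5
          linarith [h1.1]
      have h1 := hF.qf (Fin.cons (t : ℝ) (fun i => (w i : ℝ)))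
      simp only [Fin.sum_univ_succ, Fin.cons_zero, Fin.cons_succ, hF.diag 0] at h1
      have h2 : ∑ x : Fin n, (t : ℝ) * (w x : ℝ) * X 0 x.succ = t * ∑ i, (w i : ℝ) * (q i : ℝ) := by
        rw [Finset.mul_sum]
        refine Finset.sum_congr rfl fun i _ => ?_
        by_cases hi : i ∈ C
        · rw [hqX i hi]; ring
        · rw [hw i hi]; simp
      have h3 : ∑ x : Fin n, ((w x : ℝ) * (t : ℝ) * X x.succ 0
          + ∑ y : Fin n, (w x : ℝ) * (w y : ℝ) * X x.succ y.succ)
          = t * ∑ i, (w i : ℝ) * (q i : ℝ) + ∑ i, ∑ j, (w i : ℝ) * (w j : ℝ) * (Y i j : ℝ) := by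
        rw [Finset.sum_add_distrib, Finset.mul_sum]
        congr 1
        · refine Finset.sum_congr rfl fun i _ => ?_
          by_cases hi : i ∈ C
          · rw [hqX i hi, hF.symm i.succ 0]; ring
          · rw [hw i hi]; simp
        · refine Finset.sum_congr rfl fun i _ => Finset.sum_congr rfl fun j _ => ?_
          by_cases hi : i ∈ C
          · by_cases hj : j ∈ C
            · rw [hYX i j hi hj]
            · rw [hw j hj]; simp
          · rw [hw i hi]; simp
      rw [h2, h3] at h1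
      have h4 : (0 : ℝ) ≤ ((t ^ 2 * d 0 + 2 * t * ∑ i, w i * q i
          + ∑ i, ∑ j, w i * w j * Y i j : ℚ) : ℝ) := by
        push_cast
        linarith
      exact_mod_cast h4
  obtain ⟨Z, hZs, hZ0, hZY, hZC, hZ⟩ := extend Y hYs hY.qf C q (d 0) H0
  refine ⟨Z, ?_⟩
  have main : ∀ i j, H.Adj i j → lo i j ≤ ang d i j (Z i j) ∧ ang d i j (Z i j) ≤ hi i j := by
    have h0 : ∀ j : Fin n, H.Adj 0 j.succ →
        lo 0 j.succ ≤ ang d 0 j.succ (Z 0 j.succ) ∧ ang d 0 j.succ (Z 0 j.succ) ≤ hi 0 j.succ := by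
      intro j h
      have h1 : ang d 0 j.succ (Z 0 j.succ) = τ j := by
        have h2 := hτ j h
        rw [hZC j ((hC j).2 h), ← hq j h]
        unfold ang
        rw [mul_div_cancel_left₀ _ (Real.sqrt_pos.2 (by
          exact_mod_cast mul_pos (hd 0) (hd j.succ))).ne', Real.arccos_cos h2.1.1 h2.1.2.1]
      rw [h1]
      exact (hτ j h).2
    intro i j
    refine Fin.cases ?_ (fun i => ?_) i <;> refine Fin.cases ?_ (fun j => ?_) j
    · intro h
      exact absurd h (H.loopless.irrefl 0)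
    · exact h0 j
    · intro h
      have h1 := h0 i h.symm
      rw [hI.losymm _ _ h, hI.hisymm _ _ h, ang_comm, hZs]
      exact h1
    · intro h
      rw [hZY]
      exact ⟨hY.lo i j h, hY.hi i j h⟩
  exact ⟨fun i j => by simp only [hZs i j], hZ, fun i => by
    refine Fin.cases ?_ (fun i => ?_) i
    · simp only [hZ0]
    · simp only [hZY, hYd], fun i j h => (main i j h).1, fun i j h => (main i j h).2⟩

end Pool.Agent.Lib.MP_13b08e_lc.RC
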