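import Pool.Agent.Lib.MP_13b08e_lc.RC.Class

/-!
Closure under induced minors.
-/

namespace Pool.Agent.Lib.MP_13b08e_lc.RC

open Matrix

/-- If an entry of a positive semidefinite matrix with unit diagonal is one, the two rows agree. -/
theorem rows_eq {V : Type} [Fintype V] {Y : Matrix V V ℝ} (hY : Y.PosSemidef)
    (hd : ∀ i, Y i i = 1) {u v : V} (huv : Y u v = 1) (z : V) : Y z u = Y z v := by
  classical
  by_cases h : u = v
  · rw [h]
  have hs : Y v u = 1 := by
    have := hY.isHermitian.apply u v
    simp at this
    rw [this, huv]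
  let k : V → ℝ := Pi.single u 1 - Pi.single v 1
  have h0 : star k ⬝ᵥ (Y *ᵥ k) = 0 := by
    have h1 : star k = k := by
      ext i
      simp
    rw [h1]
    simp only [k, mulVec_sub, sub_dotProduct, dotProduct_sub, mulVec_single_one,
      single_one_dotProduct, col_apply, hd, huv, hs]
    ring
  have h2 := congrFun ((hY.dotProduct_mulVec_zero_iff k).1 h0) z
  simp only [k, mulVec_sub, mulVec_single_one, Pi.sub_apply, col_apply, Pi.zero_apply] at h2
  linarith

theorem RationalElliptope.minor {V W : Type} [Finite V] {G : SimpleGraph V}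
    {H : SimpleGraph W} (hm : InducedMinor H G) (hG : RationalElliptope G) :
    RationalElliptope H := by
  classical
  obtain ⟨f, hsurj, hconn, hadj⟩ := hm
  have : Fintype V := Fintype.ofFinite V
  choose g hg using hsurj
  have hginj : Function.Injective g := fun p q h => by
    have h1 := hg p
    rw [h, hg q] at h1
    exact (Option.some_injective _ h1).symm
  have : Finite W := Finite.of_injective g hginj
  have : Fintype W := Fintype.ofFinite W
  rintro x ⟨X, hX⟩
  have hXs : ∀ p q, X p q = X q p := fun p q => by
    have := hX.psd.isHermitian.apply q p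
    simpa using this
  let y : W → W → ℚ := fun p q => if p = q then 1 else if h : H.Adj p q then x ⟨s(p, q), h⟩ else 0
  have hys : ∀ p q, y p q = y q p := by
    intro p q
    change (if p = q then (1 : ℚ) else if h : H.Adj p q then x ⟨s(p, q), h⟩ else 0)
      = (if q = p then (1 : ℚ) else if h : H.Adj q p then x ⟨s(q, p), h⟩ else 0)
    by_cases h1 : p = q
    · rw [if_pos h1, if_pos h1.symm]
    · rw [if_neg h1, if_neg (Ne.symm h1)]
      by_cases h2 : H.Adj p q
      · rw [dif_pos h2, dif_pos h2.symm]
        congr 1
        exact Subtype.ext Sym2.eq_swap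
      · rw [dif_neg h2, dif_neg (fun h => h2 h.symm)]
  let a : V → V → ℚ := fun u v =>
    match f u, f v with
    | some p, some q => y p q
    | _, _ => 0
  have ha1 : ∀ u v p q, f u = some p → f v = some q → a u v = y p q := by
    intro u v p q h1 h2
    change (match f u, f v with
    | some p, some q => y p q
    | _, _ => 0) = _
    rw [h1, h2]
  have ha0 : ∀ u v, f u = none ∨ f v = none → a u v = 0 := by
    intro u v h
    change (match f u, f v with
    | some p, some q => y p q
    | _, _ => 0) = _
    rcases h with h | h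
    · rw [h]
    · rw [h]
      cases f u <;> rfl
  have has : ∀ u v, a u v = a v u := by
    intro u v
    rcases hu : f u with _ | p
    · rw [ha0 u v (Or.inl hu), ha0 v u (Or.inr hu)]
    · rcases hv : f v with _ | q
      · rw [ha0 u v (Or.inr hv), ha0 v u (Or.inl hv)]
      · rw [ha1 u v p q hu hv, ha1 v u q p hv hu, hys]
  let x' : G.edgeSet → ℚ := fun e => Sym2.lift ⟨a, has⟩ e.1
  -- the completion
  let P : Matrix V W ℝ := Matrix.of fun u p => if f u = some p then 1 else 0
  let D : Matrix V V ℝ := Matrix.diagonal fun u => if f u = none then 1 else 0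
  let X' : Matrix V V ℝ := P * X * P.conjTranspose + D
  have hX'psd : X'.PosSemidef := by
    refine (hX.psd.mul_mul_conjTranspose_same P).add (Matrix.PosSemidef.diagonal ?_)
    intro u
    change (0 : ℝ) ≤ if f u = none then 1 else 0
    split_ifs <;> norm_num
  have hPX : ∀ u v, (P * X * P.conjTranspose) u v = ∑ q, ∑ p,
      (if f u = some p then 1 else 0) * X p q * (if f v = some q then 1 else 0) := by
    intro u v
    simp only [Matrix.mul_apply, Matrix.conjTranspose_apply, star_trivial, Finset.sum_mul]
    rfl
  have hX1 : ∀ u v p q, f u = some p → f v = some q → X' u v = X p q := by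
    intro u v p q h1 h2
    change (P * X * P.conjTranspose) u v + D u v = _
    rw [hPX]
    have h3 : D u v = 0 := by
      change Matrix.diagonal _ u v = 0
      by_cases h : u = v
      · subst h
        rw [Matrix.diagonal_apply_eq, if_neg]
        rw [h1]
        exact Option.some_ne_none _
      · exact Matrix.diagonal_apply_ne _ h
    rw [h3, add_zero]
    simp only [h1, h2, Option.some.injEq]
    rw [Finset.sum_eq_single q, Finset.sum_eq_single p]
    · simp
    · intro b _ hb
      rw [if_neg (Ne.symm hb)]
      ring
    · simp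
    · intro b _ hb
      refine Finset.sum_eq_zero fun c _ => ?_
      rw [if_neg (Ne.symm hb)]
      ring
    · simp
  have hX0 : ∀ u v, f u = none ∨ f v = none → X' u v = if u = v then 1 else 0 := by
    intro u v h
    change (P * X * P.conjTranspose) u v + D u v = _
    rw [hPX]
    have h3 : ∑ q, ∑ p, (if f u = some p then (1 : ℝ) else 0) * X p q *
        (if f v = some q then 1 else 0) = 0 := by
      refine Finset.sum_eq_zero fun q _ => Finset.sum_eq_zero fun p _ => ?_
      rcases h with h | h
      · rw [h, if_neg (by simp)]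
        ring
      · rw [h, if_neg (c := (none : Option W) = some q) (by simp)]
        ring
    rw [h3, zero_add]
    change Matrix.diagonal _ u v = _
    by_cases huv : u = v
    · subst huv
      rw [Matrix.diagonal_apply_eq, if_pos rfl, if_pos (h.elim id id)]
    · rw [Matrix.diagonal_apply_ne _ huv, if_neg huv]
  have hX' : IsCompletion G x' X' := by
    refine ⟨hX'psd, fun u => ?_, fun u v huv => ?_⟩
    · rcases hu : f u with _ | p
      · rw [hX0 u u (Or.inl hu), if_pos rfl]
      · rw [hX1 u u p p hu hu, hX.diag]
    · change X' u v = (a u v : ℝ)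
      rcases hu : f u with _ | p
      · rw [hX0 u v (Or.inl hu), ha0 u v (Or.inl hu), if_neg huv.ne]
        simp
      · rcases hv : f v with _ | q
        · rw [hX0 u v (Or.inr hv), ha0 u v (Or.inr hv), if_neg huv.ne]
          simp
        · rw [hX1 u v p q hu hv, ha1 u v p q hu hv]
          change _ = (((if p = q then (1 : ℚ) else if h : H.Adj p q then x ⟨s(p, q), h⟩ else 0)
            : ℚ) : ℝ)
          by_cases h1 : p = q
          · subst h1
            rw [if_pos rfl, hX.diag]
            simp
          · have h2 : H.Adj p q := (hadj p q).2 ⟨h1, u, v, hu, hv, huv⟩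
            rw [if_neg h1, dif_pos h2]
            exact hX.edge p q h2
  obtain ⟨Y, hY⟩ := hG x' ⟨X', hX'⟩
  have hrow : ∀ (w : W) (u v : V), f u = some w → f v = some w → ∀ z,
      (Y.map (fun q : ℚ => (q : ℝ))) z u = (Y.map (fun q : ℚ => (q : ℝ))) z v := by
    intro w u v hu hv z
    obtain ⟨walk⟩ := hconn w ⟨u, hu⟩ ⟨v, hv⟩
    have key : ∀ (s t : {v | f v = some w}) (_ : (G.induce {v | f v = some w}).Walk s t),
        (Y.map (fun q : ℚ => (q : ℝ))) z s = (Y.map (fun q : ℚ => (q : ℝ))) z t := by
      intro s t p
      induction p with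
      | nil => rfl
      | @cons s' t' r' h p ih =>
        rw [← ih]
        have h1 : G.Adj s' t' := h
        refine rows_eq hY.psd hY.diag ?_ z
        rw [hY.edge _ _ h1]
        change (a s' t' : ℝ) = 1
        rw [ha1 s' t' w w s'.2 t'.2]
        change (((if w = w then (1 : ℚ) else _) : ℚ) : ℝ) = 1
        rw [if_pos rfl]
        simp
    exact key _ _ walk
  have hsy : ∀ u v, (Y.map (fun q : ℚ => (q : ℝ))) u v = (Y.map (fun q : ℚ => (q : ℝ))) v u := by
    intro u v
    have := hY.psd.isHermitian.apply v u
    simpa using this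
  refine ⟨Y.submatrix g g, ?_, fun w => ?_, fun p q hpq => ?_⟩
  · exact hY.psd.submatrix g
  · exact hY.diag (g w)
  · obtain ⟨hne, u, v, hu, hv, huv⟩ := (hadj p q).1 hpq
    change (Y.map (fun q : ℚ => (q : ℝ))) (g p) (g q) = _
    rw [hrow q (g q) v (hg q) hv, hsy, hrow p (g p) u (hg p) hu, hsy, hY.edge u v huv]
    change (a u v : ℝ) = _
    rw [ha1 u v p q hu hv]
    change (((if p = q then (1 : ℚ) else if h : H.Adj p q then x ⟨s(p, q), h⟩ else 0)
      : ℚ) : ℝ) = _
    rw [if_neg hne, dif_pos hpq]

/-- Both properties fail for every graph with induced minor `K_{3,3}`. -/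
theorem not_of_minor {V : Type} [Finite V] (G : SimpleGraph V)
    (h : InducedMinor (completeBipartiteGraph (Fin 3) (Fin 3)) G) :
    ¬ RationalCompletions G ∧ ¬ RationalElliptope G := by
  have h1 : ¬ RationalElliptope G := fun hG => not_rationalElliptope_K33 (hG.minor h)
  exact ⟨fun hG => h1 (rationalElliptope_of_ratCompl (ratCompl_of_rationalCompletions hG)), h1⟩

end Pool.Agent.Lib.MP_13b08e_lc.RC
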