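import Pool.Agent.Lib.MP_13b08e_lc.RC.K33e

/-!
Induced minors and rational completions with prescribed rational diagonal.
-/

namespace Pool.Agent.Lib.MP_13b08e_lc.RC

open Matrix

/-- If two diagonal entries and the entry between them agree, the two rows agree. -/
theorem rows_eq' {V : Type} [Fintype V] {Y : Matrix V V ℝ} (hY : Y.PosSemidef) {c : ℝ}
    {u v : V} (hu : Y u u = c) (hv : Y v v = c) (huv : Y u v = c) (z : V) : Y z u = Y z v := by
  classical
  by_cases h : u = v
  · rw [h]
  have hs : Y v u = c := by
    have := hY.isHermitian.apply u v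
    simp at this
    rw [this, huv]
  let k : V → ℝ := Pi.single u 1 - Pi.single v 1
  have h0 : star k ⬝ᵥ (Y *ᵥ k) = 0 := by
    have h1 : star k = k := by
      ext i
      simp
    rw [h1]
    simp only [k, mulVec_sub, sub_dotProduct, dotProduct_sub, mulVec_single_one,
      single_one_dotProduct, col_apply, hu, hv, huv, hs]
    ring
  have h2 := congrFun ((hY.dotProduct_mulVec_zero_iff k).1 h0) z
  simp only [k, mulVec_sub, mulVec_single_one, Pi.sub_apply, col_apply, Pi.zero_apply] at h2
  linarith

/-- Rational completions for data with all diagonal entries prescribed pass to induced minors. -/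
theorem RationalCompletions.minor {V W : Type} [Finite V] {G : SimpleGraph V}
    {H : SimpleGraph W} (hm : InducedMinor H G) (hG : RationalCompletions G)
    (a : W → W → ℚ) (hX : ∃ X : Matrix W W ℝ, X.PosSemidef ∧ (∀ i, X i i = a i i) ∧
      ∀ i j, H.Adj i j → X i j = a i j) :
    ∃ Y : Matrix W W ℚ, (Y.map (fun q : ℚ => (q : ℝ))).PosSemidef ∧ (∀ i, Y i i = a i i) ∧
      ∀ i j, H.Adj i j → Y i j = a i j := by
  classical
  obtain ⟨f, hsurj, hconn, hadj⟩ := hm
  have : Fintype V := Fintype.ofFinite V
  choose g hg using hsurj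
  have hginj : Function.Injective g := fun p q h => by
    have h1 := hg p
    rw [h, hg q] at h1
    exact (Option.some_injective _ h1).symm
  have : Finite W := Finite.of_injective g hginj
  have : Fintype W := Fintype.ofFinite W
  obtain ⟨X, hXp, hXd, hXe⟩ := hX
  let b : V → V → ℚ := fun u v =>
    match f u, f v with
    | some p, some q => a p q
    | _, _ => if u = v then 1 else 0
  have hb1 : ∀ u v p q, f u = some p → f v = some q → b u v = a p q := by
    intro u v p q h1 h2
    change (match f u, f v with
    | some p, some q => a p q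
    | _, _ => if u = v then 1 else 0) = _
    rw [h1, h2]
  have hb0 : ∀ u v, f u = none ∨ f v = none → b u v = if u = v then 1 else 0 := by
    intro u v h
    change (match f u, f v with
    | some p, some q => a p q
    | _, _ => if u = v then 1 else 0) = _
    rcases h with h | h
    · rw [h]
    · rw [h]
      cases f u <;> rfl
  -- the completion
  let P : Matrix V W ℝ := Matrix.of fun u p => if f u = some p then 1 else 0
  let D : Matrix V V ℝ := Matrix.diagonal fun u => if f u = none then 1 else 0
  let X' : Matrix V V ℝ := P * X * P.conjTranspose + D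
  have hX'psd : X'.PosSemidef := by
    refine (hXp.mul_mul_conjTranspose_same P).add (Matrix.PosSemidef.diagonal ?_)
    intro u
    change (0 : ℝ) ≤ if f u = none then 1 else 0
    split_ifs <;> norm_num
  have hPX : ∀ u v, (P * X * P.conjTranspose) u v = ∑ q, ∑ p,
      (if f u = some p then 1 else 0) * X p q * (if f v = some q then 1 else 0) := by
    intro u v
    simp only [Matrix.mul_apply, Matrix.conjTranspose_apply, star_trivial, Finset.sum_mul]
    rfl
  have hX1 : ∀ u v p q, f u = some p → f v = some q → X' u v = X p q := by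
    intro u v p q h1 h2
    change (P * X * P.conjTranspose) u v + D u v = _
    rw [hPX]
    have h3 : D u v = 0 := by
      change Matrix.diagonal _ u v = 0
      by_cases h : u = v
      · subst h
        rw [Matrix.diagonal_apply_eq, if_neg]
        rw [h1]
        exact Option.some_ne_none _
      · exact Matrix.diagonal_apply_ne _ h
    rw [h3, add_zero]
    simp only [h1, h2, Option.some.injEq]
    rw [Finset.sum_eq_single q, Finset.sum_eq_single p]
    · simp
    · intro b _ hb
      rw [if_neg (Ne.symm hb)]
      ring
    · simp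
    · intro b _ hb
      refine Finset.sum_eq_zero fun c _ => ?_
      rw [if_neg (Ne.symm hb)]
      ring
    · simp
  have hX0 : ∀ u v, f u = none ∨ f v = none → X' u v = if u = v then 1 else 0 := by
    intro u v h
    change (P * X * P.conjTranspose) u v + D u v = _
    rw [hPX]
    have h3 : ∑ q, ∑ p, (if f u = some p then (1 : ℝ) else 0) * X p q *
        (if f v = some q then 1 else 0) = 0 := by
      refine Finset.sum_eq_zero fun q _ => Finset.sum_eq_zero fun p _ => ?_
      rcases h with h | h
      · rw [h, if_neg (by simp)]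
        ring
      · rw [h, if_neg (c := (none : Option W) = some q) (by simp)]
        ring
    rw [h3, zero_add]
    change Matrix.diagonal _ u v = _
    by_cases huv : u = v
    · subst huv
      rw [Matrix.diagonal_apply_eq, if_pos rfl, if_pos (h.elim id id)]
    · rw [Matrix.diagonal_apply_ne _ huv, if_neg huv]
  have hX'd : ∀ u ∈ (Set.univ : Set V), X' u u = b u u := by
    intro u _
    rcases hu : f u with _ | p
    · rw [hX0 u u (Or.inl hu), hb0 u u (Or.inl hu)]
      simp
    · rw [hX1 u u p p hu hu, hb1 u u p p hu hu, hXd]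
  have hX'e : ∀ u v, G.Adj u v → X' u v = b u v := by
    intro u v huv
    rcases hu : f u with _ | p
    · rw [hX0 u v (Or.inl hu), hb0 u v (Or.inl hu), if_neg huv.ne, if_neg huv.ne]
      simp
    · rcases hv : f v with _ | q
      · rw [hX0 u v (Or.inr hv), hb0 u v (Or.inr hv), if_neg huv.ne, if_neg huv.ne]
        simp
      · rw [hX1 u v p q hu hv, hb1 u v p q hu hv]
        by_cases h1 : p = q
        · subst h1
          exact hXd p
        · exact hXe p q ((hadj p q).2 ⟨h1, u, v, hu, hv, huv⟩)
  obtain ⟨Y, hYp, hYd, hYe⟩ := hG Set.univ b ⟨X', hX'psd, hX'd, hX'e⟩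
  have hrow : ∀ (w : W) (u v : V), f u = some w → f v = some w → ∀ z,
      (Y.map (fun q : ℚ => (q : ℝ))) z u = (Y.map (fun q : ℚ => (q : ℝ))) z v := by
    intro w u v hu hv z
    obtain ⟨walk⟩ := hconn w ⟨u, hu⟩ ⟨v, hv⟩
    have key : ∀ (s t : {v | f v = some w}) (_ : (G.induce {v | f v = some w}).Walk s t),
        (Y.map (fun q : ℚ => (q : ℝ))) z s = (Y.map (fun q : ℚ => (q : ℝ))) z t := by
      intro s t p
      induction p with
      | nil => rfl
      | @cons s' t' r' h p ih =>
        rw [← ih]
        have h1 : G.Adj s' t' := h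
        refine rows_eq' hYp (c := (a w w : ℝ)) ?_ ?_ ?_ z
        · rw [Matrix.map_apply, hYd _ (Set.mem_univ _), hb1 _ _ w w s'.2 s'.2]
        · rw [Matrix.map_apply, hYd _ (Set.mem_univ _), hb1 _ _ w w t'.2 t'.2]
        · rw [Matrix.map_apply, hYe _ _ h1, hb1 _ _ w w s'.2 t'.2]
    exact key _ _ walk
  have hrow' : ∀ (w : W) (u v : V), f u = some w → f v = some w → ∀ z, Y z u = Y z v := by
    intro w u v hu hv z
    have := hrow w u v hu hv z
    rw [Matrix.map_apply, Matrix.map_apply] at this
    exact_mod_cast this
  have hsy : ∀ u v, Y u v = Y v u := by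
    intro u v
    have h1 := hYp.isHermitian.apply v u
    simp only [Matrix.map_apply, star_trivial] at h1
    exact_mod_cast h1
  refine ⟨Y.submatrix g g, ?_, fun w => ?_, fun p q hpq => ?_⟩
  · exact hYp.submatrix g
  · change Y (g w) (g w) = _
    rw [hYd _ (Set.mem_univ _), hb1 _ _ w w (hg w) (hg w)]
  · obtain ⟨hne, u, v, hu, hv, huv⟩ := (hadj p q).1 hpq
    change Y (g p) (g q) = _
    rw [hrow' q (g q) v (hg q) hv, hsy, hrow' p (g p) u (hg p) hu, hsy, hYe u v huv,
      hb1 u v p q hu hv]

/-- Rational completions fail for every graph with `K_{3,3}` minus an edge as an induced minor. -/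
theorem not_of_minor_edge {V : Type} [Finite V] (G : SimpleGraph V)
    (hm : InducedMinor ((completeBipartiteGraph (Fin 3) (Fin 3)).deleteEdges
      {s(Sum.inl 2, Sum.inr 2)}) G) : ¬ RationalCompletions G := by
  intro hG
  obtain ⟨Y, hp, hd, he⟩ := hG.minor hm K33e.A ⟨K33e.X, K33e.X_psd, K33e.X_diag, K33e.X_adj⟩
  have h1 := K33e.forced hp (fun i => by rw [Matrix.map_apply, hd])
    (fun i j hij => by rw [Matrix.map_apply, he i j hij])
  rw [Matrix.map_apply] at h1
  have h5 : Irrational (√2) := irrational_sqrt_two
  refine h5 ⟨Y (Sum.inr 0) (Sum.inr 1) + 5, ?_⟩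
  push_cast
  linarith

end Pool.Agent.Lib.MP_13b08e_lc.RC
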