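import Pool.Agent.Lib.MP_13b08e_lc.RC.Tri
import Pool.Agent.Lib.MP_13b08e_lc.RC.Border
import Pool.Agent.Lib.MP_13b08e_lc.RC.Conj

/-!
Normalised entries of a positive semidefinite matrix and their angles.
-/

namespace Pool.Agent.Lib.MP_13b08e_lc.RC

open Matrix

theorem QF.posSemidef {n : ℕ} {X : Fin n → Fin n → ℝ} (hs : ∀ i j, X i j = X j i) (h : QF X) :
    (Matrix.of X).PosSemidef := by
  refine Matrix.PosSemidef.of_dotProduct_mulVec_nonneg ?_ fun w => ?_
  · ext i j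
    simp [Matrix.conjTranspose_apply, hs j i]
  · have h1 := h w
    have h2 : star w ⬝ᵥ (Matrix.of X *ᵥ w) = ∑ i, ∑ j, w i * w j * X i j := by
      simp only [dotProduct, mulVec, Matrix.of_apply, Finset.mul_sum]
      refine Finset.sum_congr rfl fun i _ => Finset.sum_congr rfl fun j _ => ?_
      simp only [Pi.star_apply, star_trivial]
      ring
    rw [h2]
    exact h1

theorem qf_of_posSemidef {n : ℕ} {X : Matrix (Fin n) (Fin n) ℝ} (h : X.PosSemidef) :
    QF fun i j => X i j := by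
  intro w
  have h1 := h.dotProduct_mulVec_nonneg w
  have h2 : star w ⬝ᵥ (X *ᵥ w) = ∑ i, ∑ j, w i * w j * X i j := by
    simp only [dotProduct, mulVec, Finset.mul_sum]
    refine Finset.sum_congr rfl fun i _ => Finset.sum_congr rfl fun j _ => ?_
    simp only [Pi.star_apply, star_trivial]
    ring
  rw [h2] at h1
  exact h1

/-- The angle of the entry `x` at the place `i j` of a matrix with diagonal `d`. -/
noncomputable def ang {n : ℕ} (d : Fin n → ℚ) (i j : Fin n) (x : ℝ) : ℝ :=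
  Real.arccos (x / √((d i * d j : ℚ) : ℝ))

theorem ang_nonneg {n : ℕ} (d : Fin n → ℚ) (i j : Fin n) (x : ℝ) : 0 ≤ ang d i j x :=
  Real.arccos_nonneg _

theorem ang_le_pi {n : ℕ} (d : Fin n → ℚ) (i j : Fin n) (x : ℝ) : ang d i j x ≤ Real.pi :=
  Real.arccos_le_pi _

theorem ang_comm {n : ℕ} (d : Fin n → ℚ) (i j : Fin n) (x : ℝ) : ang d i j x = ang d j i x := by
  unfold ang
  rw [mul_comm]

section

variable {n : ℕ} {X : Fin n → Fin n → ℝ} {d : Fin n → ℚ}

theorem sq_le (hs : ∀ i j, X i j = X j i) (hX : QF X) (hdiag : ∀ i, X i i = d i) (i j : Fin n) :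
    X i j ^ 2 ≤ (d i : ℝ) * d j := by
  have h1 := ((hX.posSemidef hs).submatrix ![i, j]).det_nonneg
  rw [Matrix.det_fin_two] at h1
  simp only [Matrix.submatrix_apply, Matrix.of_apply, Matrix.cons_val_zero, Matrix.cons_val_one]
    at h1
  rw [hdiag i, hdiag j, hs j i] at h1
  nlinarith

theorem sqrt_mul_cos_ang (hd : ∀ i, 0 < d i) (hs : ∀ i j, X i j = X j i) (hX : QF X)
    (hdiag : ∀ i, X i i = d i) (i j : Fin n) :
    √((d i * d j : ℚ) : ℝ) * Real.cos (ang d i j (X i j)) = X i j := by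
  have hpos : (0 : ℝ) < ((d i * d j : ℚ) : ℝ) := by exact_mod_cast mul_pos (hd i) (hd j)
  have hsq : (0 : ℝ) < √((d i * d j : ℚ) : ℝ) := Real.sqrt_pos.2 hpos
  have h1 : |X i j| ≤ √((d i * d j : ℚ) : ℝ) := by
    refine Real.abs_le_sqrt ?_
    push_cast
    exact sq_le hs hX hdiag i j
  have h2 := abs_le.1 h1
  unfold ang
  rw [Real.cos_arccos]
  · field_simp
  · rw [le_div_iff₀ hsq]
    linarith [h2.1]
  · rw [div_le_one hsq]
    exact h2.2

theorem ratAng_ang {Y : Fin n → Fin n → ℚ} (hd : ∀ i, 0 < d i) (hs : ∀ i j, Y i j = Y j i)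
    (hY : QF fun i j => (Y i j : ℝ)) (hdiag : ∀ i, Y i i = d i) (i j : Fin n) :
    RatAng (d i * d j) (ang d i j (Y i j)) :=
  ⟨ang_nonneg _ _ _ _, ang_le_pi _ _ _ _, Y i j,
    sqrt_mul_cos_ang (X := fun i j => (Y i j : ℝ)) hd (fun i j => by simp only [hs i j]) hY
      (fun i => by simp only [hdiag i]) i j⟩

theorem det3_ang (hd : ∀ i, 0 < d i) (hs : ∀ i j, X i j = X j i) (hX : QF X)
    (hdiag : ∀ i, X i i = d i) (i j k : Fin n) :
    0 ≤ det3 (Real.cos (ang d i j (X i j))) (Real.cos (ang d i k (X i k)))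
      (Real.cos (ang d j k (X j k))) := by
  have h1 := ((hX.posSemidef hs).submatrix ![i, j, k]).det_nonneg
  rw [Matrix.det_fin_three] at h1
  simp only [Matrix.submatrix_apply, Matrix.of_apply, Matrix.cons_val_zero, Matrix.cons_val_one,
    Matrix.cons_val_two, Matrix.head_cons, Matrix.tail_cons] at h1
  rw [hdiag i, hdiag j, hdiag k, hs j i, hs k i, hs k j] at h1
  have hi : (0 : ℝ) < d i := by exact_mod_cast hd i
  have hj : (0 : ℝ) < d j := by exact_mod_cast hd j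
  have hk : (0 : ℝ) < d k := by exact_mod_cast hd k
  have e1 := sqrt_mul_cos_ang hd hs hX hdiag i j
  have e2 := sqrt_mul_cos_ang hd hs hX hdiag i k
  have e3 := sqrt_mul_cos_ang hd hs hX hdiag j k
  rw [Rat.cast_mul, Real.sqrt_mul hi.le] at e1
  rw [Rat.cast_mul, Real.sqrt_mul hi.le] at e2
  rw [Rat.cast_mul, Real.sqrt_mul hj.le] at e3
  rw [← e1, ← e2, ← e3] at h1
  have si := Real.sq_sqrt hi.le
  have sj := Real.sq_sqrt hj.le
  have sk := Real.sq_sqrt hk.le
  set p := √(d i : ℝ)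
  set q := √(d j : ℝ)
  set r := √(d k : ℝ)
  set x := Real.cos (ang d i j (X i j))
  set y := Real.cos (ang d i k (X i k))
  set z := Real.cos (ang d j k (X j k))
  rw [← si, ← sj, ← sk] at h1
  have h2 : 0 ≤ (p ^ 2 * q ^ 2 * r ^ 2) * det3 x y z := by
    unfold det3
    refine h1.trans (le_of_eq ?_)
    ring
  have h3 : 0 < p ^ 2 * q ^ 2 * r ^ 2 := by
    rw [si, sj, sk]
    positivity
  exact nonneg_of_mul_nonneg_right h2 h3

end

/-- The quadratic form of a 3 x 3 correlation matrix. -/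
theorem quad3 {x y z : ℝ} (hx : x ^ 2 ≤ 1) (hy : y ^ 2 ≤ 1) (h : 0 ≤ det3 x y z) (A B C : ℝ) :
    0 ≤ A ^ 2 + B ^ 2 + C ^ 2 + 2 * A * B * x + 2 * A * C * y + 2 * B * C * z := by
  have hm : (z - x * y) ^ 2 ≤ (1 - x ^ 2) * (1 - y ^ 2) := by
    unfold det3 at h
    nlinarith
  have hp : 0 ≤ 1 - x ^ 2 := by linarith
  have hr : 0 ≤ 1 - y ^ 2 := by linarith
  have key : 0 ≤ B ^ 2 * (1 - x ^ 2) + C ^ 2 * (1 - y ^ 2) + 2 * B * C * (z - x * y) := by
    rcases hp.eq_or_lt with h0 | h0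
    · rw [← h0, zero_mul] at hm
      have h1 : z - x * y = 0 := by
        have := sq_nonneg (z - x * y)
        exact pow_eq_zero_iff (two_ne_zero) |>.1 (le_antisymm hm this)
      rw [h1, ← h0]
      have := mul_nonneg (sq_nonneg C) hr
      linarith
    · have h1 : 0 ≤ (1 - x ^ 2) * (B ^ 2 * (1 - x ^ 2) + C ^ 2 * (1 - y ^ 2)
          + 2 * B * C * (z - x * y)) := by
        have h2 : (1 - x ^ 2) * (B ^ 2 * (1 - x ^ 2) + C ^ 2 * (1 - y ^ 2)
          + 2 * B * C * (z - x * y)) = (B * (1 - x ^ 2) + C * (z - x * y)) ^ 2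
            + C ^ 2 * ((1 - x ^ 2) * (1 - y ^ 2) - (z - x * y) ^ 2) := by ring
        rw [h2]
        exact add_nonneg (sq_nonneg _) (mul_nonneg (sq_nonneg _) (by linarith))
      exact nonneg_of_mul_nonneg_right h1 h0
  have h3 : A ^ 2 + B ^ 2 + C ^ 2 + 2 * A * B * x + 2 * A * C * y + 2 * B * C * z
      = (A + B * x + C * y) ^ 2 + (B ^ 2 * (1 - x ^ 2) + C ^ 2 * (1 - y ^ 2)
        + 2 * B * C * (z - x * y)) := by ring
  rw [h3]
  exact add_nonneg (sq_nonneg _) key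

end Pool.Agent.Lib.MP_13b08e_lc.RC
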