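import Pool.Agent.Lib.MP_13b08e_lc.RC.Ext

/-!
A rational positive semidefinite matrix with one missing pair of entries: the admissible entries
form an interval `[m - √ρ, m + √ρ]` with rational `m` and `ρ`.

Proof in words.  Let `D` be the set of the other indices, and `u`, `w` rational vectors on `D` with
`a_DD u = a_Dp`, `a_DD w = a_Dq`.  Then the matrix is `Pᵀ a_DD P + N`, where `P` has the columns
`u` at `p`, `w` at `q` and the unit vectors at `D`, and `N` lives on `{p, q}`, with entries
`s_p`, `t - m`, `s_q`.
-/

namespace Pool.Agent.Lib.MP_13b08e_lc.RC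

open Matrix

/-- The matrix with the entries `a i j`, except for the entries at `(p, q)` and `(q, p)`, which
are `t`. -/
def fillMat {V : Type} [DecidableEq V] (a : V → V → ℚ) (p q : V) (t : ℝ) : Matrix V V ℝ :=
  Matrix.of fun i j => if (i = p ∧ j = q) ∨ (i = q ∧ j = p) then t else (a i j : ℝ)

private theorem bin_nonneg {s r s' : ℝ} (hs : 0 ≤ s) (hs' : 0 ≤ s') (h : r ^ 2 ≤ s * s')
    (x y : ℝ) : 0 ≤ s * x ^ 2 + 2 * r * x * y + s' * y ^ 2 := by
  rcases hs.eq_or_lt with h0 | h0
  · rw [← h0, zero_mul] at h
    have h1 : r = 0 := by nlinarith [sq_nonneg r]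
    rw [← h0, h1]
    nlinarith [mul_nonneg hs' (sq_nonneg y)]
  · have h1 : 0 ≤ s * (s * x ^ 2 + 2 * r * x * y + s' * y ^ 2) := by
      have h2 : s * (s * x ^ 2 + 2 * r * x * y + s' * y ^ 2)
          = (s * x + r * y) ^ 2 + (s * s' - r ^ 2) * y ^ 2 := by ring
      rw [h2]
      have h3 : 0 ≤ s * s' - r ^ 2 := by linarith
      positivity
    exact nonneg_of_mul_nonneg_right h1 h0

/-- Restriction of a positive semidefinite matrix to a set of indices, zero outside. -/
private theorem psd_restrict {V : Type} [Fintype V] [DecidableEq V] {X : Matrix V V ℝ}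
    (h : X.PosSemidef) (D : Set V) [DecidablePred (· ∈ D)] :
    (Matrix.of fun i j => if i ∈ D ∧ j ∈ D then X i j else 0 : Matrix V V ℝ).PosSemidef := by
  have h1 := h.conjTranspose_mul_mul_same
    (Matrix.diagonal (fun i => if i ∈ D then (1 : ℝ) else 0))
  convert h1 using 1
  ext i j
  rw [Matrix.diagonal_conjTranspose, Matrix.mul_diagonal, Matrix.diagonal_mul]
  by_cases hi : i ∈ D <;> by_cases hj : j ∈ D <;> simp [hi, hj]

theorem one_fill {V : Type} [Fintype V] [DecidableEq V] (a : V → V → ℚ) (p q : V) (hpq : p ≠ q)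
    (hex : ∃ t : ℝ, (fillMat a p q t).PosSemidef) :
    ∃ m ρ : ℚ, 0 ≤ ρ ∧ ∀ t : ℝ, (fillMat a p q t).PosSemidef ↔ (t - m) ^ 2 ≤ ρ := by
  classical
  obtain ⟨t0, h0⟩ := hex
  have hfm : ∀ t i j, fillMat a p q t i j
      = if (i = p ∧ j = q) ∨ (i = q ∧ j = p) then t else (a i j : ℝ) := fun t i j => rfl
  have hfa : ∀ t i j, ¬ ((i = p ∧ j = q) ∨ (i = q ∧ j = p)) →
      fillMat a p q t i j = (a i j : ℝ) := fun t i j h => by rw [hfm, if_neg h]
  have hsym : ∀ i j, ¬ ((i = p ∧ j = q) ∨ (i = q ∧ j = p)) → a i j = a j i := by
    intro i j h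
    have h1 := psd_symm h0 i j
    rw [hfa t0 i j h, hfa t0 j i (by tauto)] at h1
    exact_mod_cast h1
  let D : Set V := {i | i ≠ p ∧ i ≠ q}
  have hD : ∀ i, i ∈ D ↔ i ≠ p ∧ i ≠ q := fun i => Iff.rfl
  -- rational solutions
  have hsol : ∀ r, (r = p ∨ r = q) → ∃ u : V → ℚ, (∀ l, l ∉ D → u l = 0) ∧
      ∀ k ∈ D, ∑ l, a k l * u l = a k r := by
    intro r hr
    let E : Set V := {i | i ∈ D ∨ i = r}
    have hE : ∀ i j, i ∈ E → j ∈ E → ¬ ((i = p ∧ j = q) ∨ (i = q ∧ j = p)) := by
      intro i j hi hj
      rcases hr with rfl | rfl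
      · rintro (⟨h1, h2⟩ | ⟨h1, h2⟩)
        · rcases hj with h | h
          · exact h.2 h2
          · exact hpq (h.symm.trans h2)
        · rcases hi with h | h
          · exact h.2 h1
          · exact hpq (h.symm.trans h1)
      · rintro (⟨h1, h2⟩ | ⟨h1, h2⟩)
        · rcases hi with h | h
          · exact h.1 h1
          · exact hpq (h1.symm.trans h)
        · rcases hj with h | h
          · exact h.1 h2
          · exact hpq (h2.symm.trans h)
    have hy : ((Matrix.of fun i j => if i ∈ E ∧ j ∈ E then a i j else 0 : Matrix V V ℚ).map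
        (fun q : ℚ => (q : ℝ))).PosSemidef := by
      convert psd_restrict h0 E using 1
      ext i j
      simp only [Matrix.map_apply, Matrix.of_apply]
      by_cases hij : i ∈ E ∧ j ∈ E
      · rw [if_pos hij, if_pos hij, hfa t0 i j (hE i j hij.1 hij.2)]
      · rw [if_neg hij, if_neg hij]
        simp
    obtain ⟨u, hu0, hu⟩ := exists_solution hy D r
    refine ⟨u, hu0, fun k hk => ?_⟩
    have h1 := hu k hk
    have hkE : k ∈ E := Or.inl hk
    have hrE : r ∈ E := Or.inr rfl
    simp only [Matrix.of_apply, hkE, hrE, true_and, and_self, if_true] at h1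
    rw [← h1]
    refine Finset.sum_congr rfl fun l _ => ?_
    by_cases hl : l ∈ D
    · have hlE : l ∈ E := Or.inl hl
      simp [hlE]
    · simp [hu0 l hl]
  obtain ⟨u, hu0, hu⟩ := hsol p (Or.inl rfl)
  obtain ⟨w, hw0, hw⟩ := hsol q (Or.inr rfl)
  have hpD : p ∉ D := fun h => h.1 rfl
  have hqD : q ∉ D := fun h => h.2 rfl
  have hup := hu0 p hpD
  have huq := hu0 q hqD
  have hwp := hw0 p hpD
  have hwq := hw0 q hqD
  set m : ℚ := ∑ l, a p l * w l with hm
  set sp : ℚ := a p p - ∑ l, a p l * u l with hsp
  set sq : ℚ := a q q - ∑ l, a q l * w l with hsq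
  have hD1 : ∀ i, ∀ l ∈ D, ¬ ((i = p ∧ l = q) ∨ (i = q ∧ l = p)) := by
    rintro i l hl (⟨-, h⟩ | ⟨-, h⟩)
    · exact hl.2 h
    · exact hl.1 h
  have hmm : ∑ l, a q l * u l = m := by
    have h1 : ∑ l, a q l * u l = ∑ l, (∑ k, a l k * w k) * u l := by
      refine Finset.sum_congr rfl fun l _ => ?_
      by_cases hl : l ∈ D
      · rw [hw l hl, hsym q l (hD1 q l hl)]
      · simp [hu0 l hl]
    have h2 : ∑ l, (∑ k, a l k * w k) * u l = ∑ k, (∑ l, a k l * u l) * w k := by
      simp only [Finset.sum_mul]
      rw [Finset.sum_comm]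
      refine Finset.sum_congr rfl fun k _ => Finset.sum_congr rfl fun l _ => ?_
      by_cases hl : l ∈ D
      · rw [hsym l k (fun h => hD1 k l hl (by tauto))]
        ring
      · simp [hu0 l hl]
    rw [h1, h2, hm]
    refine Finset.sum_congr rfl fun k _ => ?_
    by_cases hk : k ∈ D
    · rw [hu k hk, hsym p k (hD1 p k hk)]
    · simp [hw0 k hk]
  -- the matrices
  let A : Matrix V V ℝ := Matrix.of fun i j => if i ∈ D ∧ j ∈ D then fillMat a p q t0 i j else 0
  have hA : A.PosSemidef := psd_restrict h0 D
  have hA1 : ∀ i ∈ D, ∀ j ∈ D, A i j = (a i j : ℝ) := by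
    intro i hi j hj
    simp only [A, Matrix.of_apply, hi, hj, and_self, if_true]
    exact hfa t0 i j (hD1 i j hj)
  have hA2 : ∀ i j, j ∉ D → A i j = 0 := by
    intro i j hj
    simp [A, hj]
  have hA3 : ∀ i j, i ∉ D → A i j = 0 := by
    intro i j hi
    simp [A, hi]
  let P : Matrix V V ℝ := Matrix.of fun k v =>
    if v = p then (u k : ℝ) else if v = q then (w k : ℝ) else if k = v then 1 else 0
  have hPp : ∀ k, P k p = u k := fun k => by simp [P]
  have hPq : ∀ k, P k q = w k := fun k => by simp [P, Ne.symm hpq]
  have hPD : ∀ v ∈ D, ∀ k, P k v = if k = v then 1 else 0 := fun v hv k => by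
    simp [P, hv.1, hv.2]
  let N : ℝ → Matrix V V ℝ := fun t => Matrix.of fun i j =>
    if i = p then (if j = p then (sp : ℝ) else if j = q then t - m else 0)
    else if i = q then (if j = p then t - m else if j = q then (sq : ℝ) else 0) else 0
  have hrow : ∀ i l, ∑ k, P k i * A k l = if l ∈ D then (a i l : ℝ) else 0 := by
    intro i l
    by_cases hl : l ∈ D
    · rw [if_pos hl]
      by_cases hip : i = p
      · subst hip
        have h1 := hu l hl
        have h2 : ∑ k, P k i * A k l = ((∑ k, a l k * u k : ℚ) : ℝ) := by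
          push_cast
          refine Finset.sum_congr rfl fun k _ => ?_
          rw [hPp]
          by_cases hk : k ∈ D
          · rw [hA1 k hk l hl, hsym k l (hD1 k l hl)]
            ring
          · simp [hu0 k hk]
        rw [h2, h1, hsym i l (hD1 i l hl)]
      · by_cases hiq : i = q
        · subst hiq
          have h1 := hw l hl
          have h2 : ∑ k, P k i * A k l = ((∑ k, a l k * w k : ℚ) : ℝ) := by
            push_cast
            refine Finset.sum_congr rfl fun k _ => ?_
            rw [hPq]
            by_cases hk : k ∈ D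
            · rw [hA1 k hk l hl, hsym k l (hD1 k l hl)]
              ring
            · simp [hw0 k hk]
          rw [h2, h1, hsym i l (hD1 i l hl)]
        · have hi : i ∈ D := ⟨hip, hiq⟩
          simp only [hPD i hi, ite_mul, one_mul, zero_mul, Finset.sum_ite_eq', Finset.mem_univ,
            if_true]
          exact hA1 i hi l hl
    · rw [if_neg hl]
      exact Finset.sum_eq_zero fun k _ => by rw [hA2 k l hl, mul_zero]
  have hrow2 : ∀ i j, (Pᵀ * A * P) i j = ∑ l, (if l ∈ D then (a i l : ℝ) else 0) * P l j := by
    intro i j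
    rw [Matrix.mul_apply]
    refine Finset.sum_congr rfl fun l _ => ?_
    rw [Matrix.mul_apply, ← hrow i l]
    rfl
  have hsumu : ∀ i, ∑ l, (if l ∈ D then (a i l : ℝ) else 0) * (u l : ℝ)
      = ((∑ l, a i l * u l : ℚ) : ℝ) := by
    intro i
    push_cast
    refine Finset.sum_congr rfl fun l _ => ?_
    by_cases hl : l ∈ D
    · rw [if_pos hl]
    · simp [hu0 l hl]
  have hsumw : ∀ i, ∑ l, (if l ∈ D then (a i l : ℝ) else 0) * (w l : ℝ)
      = ((∑ l, a i l * w l : ℚ) : ℝ) := by
    intro i
    push_cast
    refine Finset.sum_congr rfl fun l _ => ?_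
    by_cases hl : l ∈ D
    · rw [if_pos hl]
    · simp [hw0 l hl]
  have hM : ∀ t, fillMat a p q t = Pᵀ * A * P + N t := by
    intro t
    ext i j
    rw [Matrix.add_apply, hrow2, hfm]
    by_cases hjp : j = p
    · subst hjp
      simp only [hPp]
      rw [hsumu]
      by_cases hip : i = j
      · subst hip
        simp only [N, Matrix.of_apply, if_true, hpq, and_false, false_and, or_self, if_false, hsp]
        push_cast
        ring
      · by_cases hiq : i = q
        · subst hiq
          rw [hmm]
          simp [N, hip]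
        · rw [hu i ⟨hip, hiq⟩]
          simp [N, hip, hiq]
    · by_cases hjq : j = q
      · subst hjq
        simp only [hPq]
        rw [hsumw]
        by_cases hip : i = p
        · subst hip
          rw [← hm]
          simp [N, hjp]
        · by_cases hiq : i = j
          · subst hiq
            simp only [N, Matrix.of_apply, if_true, hip, and_false, false_and, or_self, if_false,
              hsq]
            push_cast
            ring
          · rw [hw i ⟨hip, hiq⟩]
            simp [N, hip, hiq]
      · have hj : j ∈ D := ⟨hjp, hjq⟩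
        simp only [hPD j hj, mul_ite, mul_one, mul_zero, Finset.sum_ite_eq', Finset.mem_univ,
          if_true, hj]
        simp [N, hjp, hjq]
  have hN : ∀ t (x : V → ℝ), x ⬝ᵥ (N t *ᵥ x)
      = sp * x p ^ 2 + 2 * (t - m) * x p * x q + sq * x q ^ 2 := by
    intro t x
    have h1 : ∀ i, (N t *ᵥ x) i = if i = p then sp * x p + (t - m) * x q
        else if i = q then (t - m) * x p + sq * x q else 0 := by
      intro i
      simp only [Matrix.mulVec, dotProduct]
      have h3 : ∀ (α β : ℝ), ∑ j, (if j = p then α else if j = q then β else 0) * x j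
          = α * x p + β * x q := by
        intro α β
        have h4 : ∀ j, (if j = p then α else if j = q then β else 0) * x j
            = (if j = p then α * x j else 0) + (if j = q then β * x j else 0) := by
          intro j
          by_cases h5 : j = p
          · subst h5
            simp [hpq]
          · by_cases h6 : j = q
            · simp [h6, Ne.symm hpq]
            · simp [h5, h6]
        simp only [h4, Finset.sum_add_distrib]
        simp
      by_cases hip : i = p
      · simp only [N, Matrix.of_apply, hip, if_true]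
        exact h3 _ _
      · by_cases hiq : i = q
        · simp only [N, Matrix.of_apply, hiq, if_true, Ne.symm hpq, if_false]
          exact h3 _ _
        · simp [N, hip, hiq]
    simp only [dotProduct, h1]
    have h4 : ∀ i, x i * (if i = p then sp * x p + (t - m) * x q
        else if i = q then (t - m) * x p + sq * x q else 0)
        = (if i = p then x i * (sp * x p + (t - m) * x q) else 0)
          + (if i = q then x i * ((t - m) * x p + sq * x q) else 0) := by
      intro i
      by_cases h5 : i = p
      · subst h5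
        simp [hpq]
      · by_cases h6 : i = q
        · simp [h6, Ne.symm hpq]
        · simp [h5, h6]
    simp only [h4, Finset.sum_add_distrib]
    simp only [Finset.sum_ite_eq', Finset.mem_univ, if_true]
    ring
  have hNsymm : ∀ t, (N t).IsHermitian := by
    intro t
    ext i j
    simp only [N, Matrix.conjTranspose_apply, Matrix.of_apply, star_trivial]
    by_cases h1 : i = p <;> by_cases h2 : i = q <;> by_cases h3 : j = p <;> by_cases h4 : j = q <;>
      simp [h1, h2, h3, h4, Ne.symm hpq]
  -- necessity
  have hnec : ∀ t, (fillMat a p q t).PosSemidef → ∀ α β : ℝ,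
      0 ≤ sp * α ^ 2 + 2 * (t - m) * α * β + sq * β ^ 2 := by
    intro t ht α β
    let x : V → ℝ := fun v => α * ((if v = p then 1 else 0) - u v)
      + β * ((if v = q then 1 else 0) - w v)
    have hxp : x p = α := by simp [x, hup, hwp, hpq]
    have hxq : x q = β := by simp [x, huq, hwq, Ne.symm hpq]
    have hPx : P *ᵥ x = 0 := by
      funext k
      simp only [Matrix.mulVec, dotProduct, Pi.zero_apply]
      have h1 : ∀ v, P k v * x v = (if v = p then (u k : ℝ) * x v else 0)
          + (if v = q then (w k : ℝ) * x v else 0)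
          + (if v = k then (if k ∈ D then x k else 0) else 0) := by
        intro v
        by_cases hv : v = p
        · subst hv
          by_cases hk : v = k
          · subst hk
            simp [hPp, hpq, hpD]
          · simp [hPp, hpq, hk]
        · by_cases hv2 : v = q
          · subst hv2
            by_cases hk : v = k
            · subst hk
              simp [hPq, hv, hqD]
            · simp [hPq, hv, hk]
          · have hvD : v ∈ D := ⟨hv, hv2⟩
            rw [hPD v hvD]
            by_cases hk : k = v
            · subst hk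
              simp [hv, hv2, hvD]
            · simp [hv, hv2, hk, Ne.symm hk]
      simp only [h1, Finset.sum_add_distrib, Finset.sum_ite_eq', Finset.mem_univ, if_true]
      rw [hxp, hxq]
      by_cases hk : k ∈ D
      · rw [if_pos hk]
        simp only [x, hk.1, hk.2, if_false]
        ring
      · rw [if_neg hk, hu0 k hk, hw0 k hk]
        simp
    have h1 := ht.dotProduct_mulVec_nonneg x
    rw [hM t, Matrix.add_mulVec, dotProduct_add, ← Matrix.mulVec_mulVec, hPx, Matrix.mulVec_zero,
      dotProduct_zero, zero_add] at h1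
    have h2 : star x = x := by
      funext v
      simp
    rw [h2, hN, hxp, hxq] at h1
    exact h1
  have hsp0 : (0 : ℝ) ≤ sp := by
    have h1 := hnec t0 h0 1 0
    simpa using h1
  have hsq0 : (0 : ℝ) ≤ sq := by
    have h1 := hnec t0 h0 0 1
    simpa using h1
  have hsp0' : 0 ≤ sp := by exact_mod_cast hsp0
  have hsq0' : 0 ≤ sq := by exact_mod_cast hsq0
  refine ⟨m, sp * sq, mul_nonneg hsp0' hsq0', fun t => ⟨fun ht => ?_, fun ht => ?_⟩⟩
  · have h1 : ∀ x : ℝ, 0 ≤ (sp : ℝ) * (x * x) + 2 * (t - m) * x + sq := by
      intro x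
      have h2 := hnec t ht x 1
      nlinarith [h2]
    have h2 := discrim_le_zero h1
    rw [discrim] at h2
    push_cast
    nlinarith [h2]
  · push_cast at ht
    rw [hM t]
    refine Matrix.PosSemidef.add ?_ ?_
    · have h1 := hA.conjTranspose_mul_mul_same P
      rwa [show Pᴴ = Pᵀ from by ext i j; simp] at h1
    · refine Matrix.PosSemidef.of_dotProduct_mulVec_nonneg (hNsymm t) fun x => ?_
      have h2 : star x = x := by
        funext v
        simp
      rw [h2, hN]
      exact bin_nonneg hsp0 hsq0 ht _ _

end Pool.Agent.Lib.MP_13b08e_lc.RC
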