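import Pool.Agent.Lib.MP_13b08e_lc.RC.Main

/-!
Elimination of a vertex with exactly two later neighbours.
-/

namespace Pool.Agent.Lib.MP_13b08e_lc.RC

open Real

theorem clip {l u x y z w : ℝ} (h : max l (max x y) ≤ min u (min z w)) (hl : 0 ≤ l)
    (hu : u ≤ π) : max l (max (max 0 x) (max 0 y)) ≤ min u (min (min π z) (min π w)) := by
  simp only [max_le_iff, le_min_iff] at h ⊢
  obtain ⟨⟨h1, h2, h3⟩, ⟨⟨h4, h5, h6⟩, h7, h8, h9⟩⟩ := h
  and_intros <;> linarith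

section

variable {n : ℕ} {d : Fin (n + 1) → ℚ} {H : SimpleGraph (Fin (n + 1))}
  {lo hi : Fin (n + 1) → Fin (n + 1) → ℝ} {a b : Fin n}

theorem stepA (hd : ∀ i, 0 < d i) (hI : Intervals d H lo hi) (hne : a ≠ b)
    (hC : ∀ i : Fin n, H.Adj 0 i.succ ↔ (i = a ∨ i = b)) (hab : H.Adj a.succ b.succ)
    (X : Fin (n + 1) → Fin (n + 1) → ℝ) (hF : Fits d H lo hi X)
    (ih : ∀ (lo' hi' : Fin n → Fin n → ℝ), Intervals (fun i => d i.succ) (H.comap Fin.succ)
      lo' hi' → Fits (fun i => d i.succ) (H.comap Fin.succ) lo' hi'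
        (fun i j => X i.succ j.succ) →
      ∃ Y : Fin n → Fin n → ℚ, Fits (fun i => d i.succ) (H.comap Fin.succ) lo' hi'
        (fun i j => (Y i j : ℝ))) :
    ∃ Z : Fin (n + 1) → Fin (n + 1) → ℚ, Fits d H lo hi (fun i j => (Z i j : ℝ)) := by
  classical
  have ha : H.Adj 0 a.succ := (hC a).2 (Or.inl rfl)
  have hb : H.Adj 0 b.succ := (hC b).2 (Or.inr rfl)
  have h12 := (hF.lo _ _ ha).trans (hF.hi _ _ ha)
  have h34 := (hF.lo _ _ hb).trans (hF.hi _ _ hb)
  have ha1 := hF.lo _ _ ha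
  have ha2 := hF.hi _ _ ha
  have hb1 := hF.lo _ _ hb
  have hb2 := hF.hi _ _ hb
  have hab1 := hF.lo _ _ hab
  have hab2 := hF.hi _ _ hab
  have hX3 := tri_of_det3_nonneg (ang_nonneg d 0 a.succ (X 0 a.succ))
    (ang_le_pi d 0 a.succ (X 0 a.succ)) (ang_nonneg d 0 b.succ (X 0 b.succ))
    (ang_le_pi d 0 b.succ (X 0 b.succ)) (ang_nonneg d a.succ b.succ (X a.succ b.succ))
    (ang_le_pi d a.succ b.succ (X a.succ b.succ))
    (det3_ang hd hF.symm hF.qf hF.diag 0 a.succ b.succ)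
  have hXπ := ang_le_pi d a.succ b.succ (X a.succ b.succ)
  have hX0 := ang_nonneg d a.succ b.succ (X a.succ b.succ)
  set l1 := lo 0 a.succ with hl1
  set u1 := hi 0 a.succ with hu1
  set l2 := lo 0 b.succ with hl2
  set u2 := hi 0 b.succ with hu2
  have hda := hd a.succ
  have hdb := hd b.succ
  have hd0 := hd 0
  have hl10 : 0 ≤ l1 := hI.lo0 _ _ ha
  have hl20 : 0 ≤ l2 := hI.lo0 _ _ hb
  have hu1π : u1 ≤ π := hI.hiπ _ _ ha
  have hu2π : u2 ≤ π := hI.hiπ _ _ hb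
  have r1 : AU (d 0 * d a.succ) u1 := hI.rhi _ _ ha
  have r2 : AU (d 0 * d b.succ) u2 := hI.rhi _ _ hb
  have r3 : AL (d 0 * d a.succ) l1 := hI.rlo _ _ ha
  have r4 : AL (d 0 * d b.succ) l2 := hI.rlo _ _ hb
  have hDab : 0 < d a.succ * d b.succ := mul_pos hda hdb
  have hD0a : 0 < d 0 * d a.succ := mul_pos hd0 hda
  have hD0b : 0 < d 0 * d b.succ := mul_pos hd0 hdb
  have e1 : d 0 * d a.succ * (d 0 * d b.succ) = d a.succ * d b.succ * d 0 ^ 2 := by ring
  have e1' : d 0 * d b.succ * (d 0 * d a.succ) = d a.succ * d b.succ * d 0 ^ 2 := by ring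
  have e2 : d 0 * d b.succ * (d a.succ * d b.succ) = d 0 * d a.succ * d b.succ ^ 2 := by ring
  have e2' : d a.succ * d b.succ * (d 0 * d b.succ) = d 0 * d a.succ * d b.succ ^ 2 := by ring
  have e3 : d 0 * d a.succ * (d a.succ * d b.succ) = d 0 * d b.succ * d a.succ ^ 2 := by ring
  have e3' : d a.succ * d b.succ * (d 0 * d a.succ) = d 0 * d b.succ * d a.succ ^ 2 := by ring
  -- the new interval
  obtain ⟨L, hLdef⟩ : ∃ L, L = max (lo a.succ b.succ)
      (max (max 0 (l1 - u2)) (max 0 (l2 - u1))) := ⟨_, rfl⟩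
  obtain ⟨U, hUdef⟩ : ∃ U, U = min (hi a.succ b.succ)
      (min (min π (u1 + u2)) (min π (2 * π - l1 - l2))) := ⟨_, rfl⟩
  have hLX : L ≤ ang d a.succ b.succ (X a.succ b.succ) := by
    rw [hLdef]
    exact max_le hab1 (max_le (max_le hX0 (by linarith [hX3.1]))
      (max_le hX0 (by linarith [hX3.2.1])))
  have hUX : ang d a.succ b.succ (X a.succ b.succ) ≤ U := by
    rw [hUdef]
    exact le_min hab2 (le_min (le_min hXπ (by linarith [hX3.2.2.1]))
      (le_min hXπ (by linarith [hX3.2.2.2])))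
  have hLl : lo a.succ b.succ ≤ L := by
    rw [hLdef]
    exact le_max_left _ _
  have hUu : U ≤ hi a.succ b.succ := by
    rw [hUdef]
    exact min_le_left _ _
  have hLA : AL (d a.succ * d b.succ) L := by
    rw [hLdef]
    exact al_max (hI.rlo _ _ hab) (al_max (al_sub hD0a hD0b hDab hd0 e1 r3 r2)
      (al_sub hD0b hD0a hDab hd0 e1' r4 r1))
  have hUA : AU (d a.succ * d b.succ) U := by
    rw [hUdef]
    exact au_min (hI.rhi _ _ hab) (au_min (au_add hD0a hD0b hDab hd0 e1 r1 r2)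
      (al_add hD0a hD0b hDab hd0 e1 r3 r4))
  obtain ⟨Y, hY⟩ := ih _ _ (upd_int X hF hI L U hLX hUX hLl hUu hLA hUA)
    (upd_fits X hF L U hLX hUX)
  have hY' := upd_back hI L U hLl hUu _ hY
  have hYs : ∀ i j, Y i j = Y j i := fun i j => by exact_mod_cast hY.symm i j
  have hYd : ∀ i, Y i i = d i.succ := fun i => by exact_mod_cast hY.diag i
  -- the angle of `Y a b`
  obtain ⟨θ, hθdef⟩ : ∃ θ, θ = ang d a.succ b.succ (Y a b : ℝ) := ⟨_, rfl⟩
  have hθR : RatAng (d a.succ * d b.succ) θ := by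
    rw [hθdef]
    exact ratAng_ang (d := fun i => d i.succ) (fun i => hd i.succ) hYs hY.qf hYd a b
  have hpos : (a = a ∧ b = b) ∨ (a = b ∧ b = a) := Or.inl ⟨rfl, rfl⟩
  have hθlo : L ≤ θ := by
    have := hY.lo a b hab
    unfold upd at this
    rw [if_pos hpos] at this
    rw [hθdef]
    exact this
  have hθhi : θ ≤ U := by
    have := hY.hi a b hab
    unfold upd at this
    rw [if_pos hpos] at this
    rw [hθdef]
    exact this
  rw [hLdef] at hθlo
  rw [hUdef] at hθhi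
  simp only [max_le_iff, le_min_iff] at hθlo hθhi
  obtain ⟨c1, ⟨_, c2⟩, _, c3⟩ := hθlo
  obtain ⟨c4, ⟨_, c5⟩, _, c6⟩ := hθhi
  -- first angle
  obtain ⟨τ, hτR, hτL, hτU⟩ := exists_ratAng (D := d 0 * d a.succ) hD0a
    (clip (choice1 hl10 h12 hu1π hl20 h34 hu2π hθR.1 hθR.2.1 c5 c6 c2 c3) hl10 hu1π)
    (hl10.trans (le_max_left _ _)) ((min_le_left _ _).trans hu1π)
    (au_min r1 (au_min (au_add hD0b hDab hD0a hdb e2 r2 hθR.au) (by
      have := al_add hDab hD0b hD0a hdb e2' hθR.al r4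
      exact this)))
    (al_max r3 (al_max (al_sub hD0b hDab hD0a hdb e2 r4 hθR.au)
      (al_sub hDab hD0b hD0a hdb e2' hθR.al r2)))
  simp only [max_le_iff, le_min_iff] at hτL hτU
  obtain ⟨t1, ⟨_, t2⟩, _, t3⟩ := hτL
  obtain ⟨t4, ⟨_, t5⟩, _, t6⟩ := hτU
  -- second angle
  obtain ⟨σ, hσR, hσL, hσU⟩ := exists_ratAng (D := d 0 * d b.succ) hD0b
    (clip (choice2 h34 hθR.1 hθR.2.1 hτR.1 hτR.2.1 t2 t3 t5 t6) hl20 hu2π)
    (hl20.trans (le_max_left _ _)) ((min_le_left _ _).trans hu2π)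
    (au_min r2 (au_min (au_add hD0a hDab hD0b hda e3 hτR.au hθR.au)
      (al_add hD0a hDab hD0b hda e3 hτR.al hθR.al)))
    (al_max r4 (al_max (al_sub hDab hD0a hD0b hda e3' hθR.al hτR.au)
      (al_sub hD0a hDab hD0b hda e3 hτR.al hθR.au)))
  simp only [max_le_iff, le_min_iff] at hσL hσU
  obtain ⟨s1, ⟨_, s2⟩, _, s3⟩ := hσL
  obtain ⟨s4, ⟨_, s5⟩, _, s6⟩ := hσU
  obtain ⟨q1, hq1⟩ := hτR.2.2
  obtain ⟨q2, hq2⟩ := hσR.2.2
  have hdet : 0 ≤ det3 (cos τ) (cos σ) (cos θ) :=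
    det3_nonneg_of_tri hτR.1 hτR.2.1 hσR.1 hσR.2.1 hθR.1 hθR.2.1 (by linarith) (by linarith)
      (by linarith) (by linarith)
  have hYab : (Y a b : ℝ) = √((d a.succ * d b.succ : ℚ) : ℝ) * cos θ := by
    rw [hθdef]
    exact (sqrt_mul_cos_ang (X := fun i j => (Y i j : ℝ)) (d := fun i => d i.succ)
      (fun i => hd i.succ) hY.symm hY.qf hY.diag a b).symm
  let q : Fin n → ℚ := fun i => if i = a then q1 else q2
  have hqa : q a = q1 := if_pos rfl
  have hqb : q b = q2 := if_neg hne.symm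
  have hcos2 : ∀ x : ℝ, cos x ^ 2 ≤ 1 := fun x => by
    have := sin_sq_add_cos_sq x
    nlinarith [sq_nonneg (sin x)]
  have hpa : (0 : ℝ) < ((d 0 * d a.succ : ℚ) : ℝ) := by exact_mod_cast mul_pos hd0 hda
  have hpb : (0 : ℝ) < ((d 0 * d b.succ : ℚ) : ℝ) := by exact_mod_cast mul_pos hd0 hdb
  refine finish d hd H lo hi hI Y hY' q ?_ ?_
  · intro j h
    rcases (hC j).1 h with rfl | rfl
    · have h1 : ang d 0 j.succ (q j : ℝ) = τ := by
        rw [hqa, ← hq1]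
        unfold ang
        rw [mul_div_cancel_left₀ _ (Real.sqrt_pos.2 hpa).ne', Real.arccos_cos hτR.1 hτR.2.1]
      rw [h1]
      exact ⟨t1, t4⟩
    · have h1 : ang d 0 j.succ (q j : ℝ) = σ := by
        rw [hqb, ← hq2]
        unfold ang
        rw [mul_div_cancel_left₀ _ (Real.sqrt_pos.2 hpb).ne', Real.arccos_cos hσR.1 hσR.2.1]
      rw [h1]
      exact ⟨s1, s4⟩
  · intro t w hw
    have hw' : ∀ i, i ∉ ({a, b} : Finset (Fin n)) → w i = 0 := by
      intro i hi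
      refine hw i fun h => hi ?_
      rcases (hC i).1 h with rfl | rfl <;> simp
    have h1 : ∑ i, w i * q i = w a * q1 + w b * q2 := by
      rw [← Finset.sum_subset (Finset.subset_univ ({a, b} : Finset (Fin n)))
        (fun i _ hi => by rw [hw' i hi, zero_mul]), Finset.sum_pair hne, hqa, hqb]
    have h2 : ∀ i, ∑ j, w i * w j * Y i j = w i * w a * Y i a + w i * w b * Y i b := by
      intro i
      rw [← Finset.sum_subset (Finset.subset_univ ({a, b} : Finset (Fin n)))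
        (fun j _ hj => by rw [hw' j hj]; ring), Finset.sum_pair hne]
    have h3 : ∑ i, ∑ j, w i * w j * Y i j
        = w a ^ 2 * d a.succ + 2 * w a * w b * Y a b + w b ^ 2 * d b.succ := by
      simp only [h2]
      rw [← Finset.sum_subset (Finset.subset_univ ({a, b} : Finset (Fin n)))
        (fun i _ hi => by rw [hw' i hi]; ring), Finset.sum_pair hne, hYd, hYd, hYs b a]
      ring
    rw [h1, h3]
    have p0 : (0 : ℝ) ≤ d 0 := by exact_mod_cast hd0.le
    have pa : (0 : ℝ) ≤ d a.succ := by exact_mod_cast hda.le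
    have pb : (0 : ℝ) ≤ d b.succ := by exact_mod_cast hdb.le
    have h4 := quad3 (hcos2 τ) (hcos2 σ) hdet (√(d 0 : ℝ) * t) (√(d a.succ : ℝ) * w a)
      (√(d b.succ : ℝ) * w b)
    rw [Rat.cast_mul, Real.sqrt_mul p0] at hq1 hq2
    rw [Rat.cast_mul, Real.sqrt_mul pa] at hYab
    have h5 : (0 : ℝ) ≤ (t : ℝ) ^ 2 * d 0 + 2 * t * (w a * q1 + w b * q2)
        + (w a ^ 2 * d a.succ + 2 * w a * w b * Y a b + w b ^ 2 * d b.succ) := by
      rw [← hq1, ← hq2, hYab]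
      refine h4.trans (le_of_eq ?_)
      rw [mul_pow, mul_pow, mul_pow, Real.sq_sqrt p0, Real.sq_sqrt pa, Real.sq_sqrt pb]
      ring
    exact_mod_cast h5

end

end Pool.Agent.Lib.MP_13b08e_lc.RC
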