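import Mathlib

/-!
The spherical triangle inequalities and the determinant of a 3 x 3 correlation matrix.
-/

namespace Pool.Agent.Lib.MP_13b08e_lc.RC

open Real

/-- The determinant of the correlation matrix with off-diagonal entries `x, y, z`. -/
def det3 (x y z : ℝ) : ℝ := 1 + 2 * x * y * z - x ^ 2 - y ^ 2 - z ^ 2

theorem det3_cos (α β γ : ℝ) : det3 (cos α) (cos β) (cos γ)
    = (cos (α - β) - cos γ) * (cos γ - cos (α + β)) := by
  unfold det3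
  rw [cos_sub, cos_add]
  have h1 := sin_sq_add_cos_sq α
  have h2 := sin_sq_add_cos_sq β
  have h3 : sin α ^ 2 = 1 - cos α ^ 2 := by linarith
  have h4 : sin β ^ 2 = 1 - cos β ^ 2 := by linarith
  have h5 : (cos α * cos β + sin α * sin β - cos γ) * (cos γ - (cos α * cos β - sin α * sin β))
      = sin α ^ 2 * sin β ^ 2 - (cos γ - cos α * cos β) ^ 2 := by ring
  rw [h5, h3, h4]
  ring

theorem det3_nonneg_of_tri {α β γ : ℝ} (hα0 : 0 ≤ α) (hαπ : α ≤ π) (hβ0 : 0 ≤ β) (hβπ : β ≤ π)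
    (hγ0 : 0 ≤ γ) (hγπ : γ ≤ π) (h1 : α - β ≤ γ) (h2 : β - α ≤ γ) (h3 : γ ≤ α + β)
    (h4 : α + β + γ ≤ 2 * π) : 0 ≤ det3 (cos α) (cos β) (cos γ) := by
  rw [det3_cos]
  refine mul_nonneg ?_ ?_
  · rw [sub_nonneg, ← cos_abs (α - β)]
    exact cos_le_cos_of_nonneg_of_le_pi (abs_nonneg _) hγπ (abs_le.2 ⟨by linarith, h1⟩)
  · rw [sub_nonneg]
    rcases le_total (α + β) π with h | h
    · exact cos_le_cos_of_nonneg_of_le_pi hγ0 h h3
    · have : cos (α + β) = cos (2 * π - (α + β)) := by rw [cos_two_pi_sub]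
      rw [this]
      exact cos_le_cos_of_nonneg_of_le_pi hγ0 (by linarith) (by linarith)

theorem tri_of_det3_nonneg {α β γ : ℝ} (hα0 : 0 ≤ α) (hαπ : α ≤ π) (hβ0 : 0 ≤ β) (hβπ : β ≤ π)
    (hγ0 : 0 ≤ γ) (hγπ : γ ≤ π) (h : 0 ≤ det3 (cos α) (cos β) (cos γ)) :
    α - β ≤ γ ∧ β - α ≤ γ ∧ γ ≤ α + β ∧ α + β + γ ≤ 2 * π := by
  have hle : (cos γ - cos α * cos β) ^ 2 ≤ (sin α * sin β) ^ 2 := by
    have h3 : sin α ^ 2 = 1 - cos α ^ 2 := by linarith [sin_sq_add_cos_sq α]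
    have h4 : sin β ^ 2 = 1 - cos β ^ 2 := by linarith [sin_sq_add_cos_sq β]
    rw [mul_pow, h3, h4]
    unfold det3 at h
    nlinarith
  have hs : 0 ≤ sin α * sin β :=
    mul_nonneg (sin_nonneg_of_nonneg_of_le_pi hα0 hαπ) (sin_nonneg_of_nonneg_of_le_pi hβ0 hβπ)
  have habs := abs_le_of_sq_le_sq' hle hs
  have hup : cos γ ≤ cos (α - β) := by rw [cos_sub]; linarith [habs.2]
  have hlow : cos (α + β) ≤ cos γ := by rw [cos_add]; linarith [habs.1]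
  have hab : |α - β| ≤ γ := by
    by_contra hcon
    push Not at hcon
    have habπ : |α - β| ≤ π := abs_le.2 ⟨by linarith, by linarith⟩
    have := cos_lt_cos_of_nonneg_of_le_pi hγ0 habπ hcon
    rw [cos_abs] at this
    linarith
  have hab' := abs_le.1 hab
  refine ⟨hab'.2, by linarith [hab'.1], ?_, ?_⟩
  · by_contra hcon
    push Not at hcon
    have := cos_lt_cos_of_nonneg_of_le_pi (by linarith) hγπ hcon
    linarith
  · by_contra hcon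
    push Not at hcon
    have h5 : 2 * π - (α + β) < γ := by linarith
    have h6 := cos_lt_cos_of_nonneg_of_le_pi (by linarith) hγπ h5
    rw [cos_two_pi_sub] at h6
    linarith

/-- Fourier-Motzkin for the choice of the first angle. -/
theorem choice1 {l1 u1 l2 u2 θ : ℝ} (hl1 : 0 ≤ l1) (h1 : l1 ≤ u1) (hu1 : u1 ≤ π) (hl2 : 0 ≤ l2)
    (h2 : l2 ≤ u2) (hu2 : u2 ≤ π) (hθ0 : 0 ≤ θ) (hθπ : θ ≤ π) (ha : θ ≤ u1 + u2)
    (hb : θ ≤ 2 * π - l1 - l2) (hc : l1 - u2 ≤ θ) (hd : l2 - u1 ≤ θ) :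
    max l1 (max (l2 - θ) (θ - u2)) ≤ min u1 (min (u2 + θ) (2 * π - θ - l2)) := by
  refine max_le (le_min h1 (le_min ?_ ?_)) (max_le (le_min ?_ (le_min ?_ ?_))
    (le_min ?_ (le_min ?_ ?_))) <;> linarith

theorem choice2 {l2 u2 θ τ : ℝ} (h2 : l2 ≤ u2) (hθ0 : 0 ≤ θ) (hθπ : θ ≤ π) (hτ0 : 0 ≤ τ)
    (hτπ : τ ≤ π) (ha : l2 - θ ≤ τ) (hb : θ - u2 ≤ τ) (hc : τ ≤ u2 + θ)
    (hd : τ ≤ 2 * π - θ - l2) :
    max l2 (max (θ - τ) (τ - θ)) ≤ min u2 (min (τ + θ) (2 * π - τ - θ)) := by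
  refine max_le (le_min h2 (le_min ?_ ?_)) (max_le (le_min ?_ (le_min ?_ ?_))
    (le_min ?_ (le_min ?_ ?_))) <;> linarith

end Pool.Agent.Lib.MP_13b08e_lc.RC
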